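import Pool.Agent.TH705.RR.Pair
set_option autoImplicit false

/-!
# Sums over separated directions, volumes of pieces of tubes
-/

open MeasureTheory Set Metric
open scoped ENNReal NNReal

namespace Pool.Agent.TH705.RR

theorem geo_le {x : ℝ} (h0 : 0 ≤ x) (h1 : x < 1) (M : ℕ) :
    ∑ k ∈ Finset.range M, x ^ k ≤ 1 / (1 - x) := by
  have h := (summable_geometric_of_lt_one h0 h1).sum_le_tsum (Finset.range M)
    (fun k _ => pow_nonneg h0 k)
  rwa [tsum_geometric_of_lt_one h0 h1, ← one_div] at h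

theorem ang_sum {ι : Type*} (J : Finset ι) (y : ι → ℝ) {K α N : ℝ} {m : ℕ} (hK : 0 ≤ K)
    (hα : 0 < α) (hαm : α < m) (hN : 1 ≤ N) (hJ : (J.card : ℝ) ≤ N) (hy : ∀ j ∈ J, 1 ≤ y j)
    (hc : ∀ t, 1 ≤ t → ((J.filter (fun j => y j ≤ t)).card : ℝ) ≤ K * t ^ m) :
    ∑ j ∈ J, (y j) ^ (-α) ≤ (1 + 2 ^ α * K * (1 / (1 - 2 ^ (-(m - α))))) * N ^ (1 - α / m) := by
  have hm0 : (0 : ℝ) < m := by linarith
  have hN0 : 0 < N := by linarith
  set Z : ℝ := N ^ (1 / (m : ℝ)) with hZ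
  have hZ1 : 1 ≤ Z := Real.one_le_rpow hN (by positivity)
  have hZ0 : 0 < Z := by linarith
  obtain ⟨M, hM⟩ := pow_unbounded_of_one_lt Z (by norm_num : (1 : ℝ) < 2)
  have hpt : ∀ j ∈ J, (y j) ^ (-α) ≤ Z ^ (-α) +
      ∑ k ∈ Finset.range M, if y j ≤ Z / 2 ^ k then (Z / 2 ^ (k + 1)) ^ (-α) else 0 := by
    intro j hj
    have hy0 : 0 < y j := by linarith [hy j hj]
    by_cases h : Z ≤ y j
    · have h1 : (y j) ^ (-α) ≤ Z ^ (-α) := Real.rpow_le_rpow_of_nonpos hZ0 h (by linarith)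
      have h2 : 0 ≤ ∑ k ∈ Finset.range M, if y j ≤ Z / 2 ^ k then (Z / 2 ^ (k + 1)) ^ (-α) else 0 := by
        apply Finset.sum_nonneg
        intro k _
        split_ifs
        · positivity
        · exact le_rfl
      linarith
    · push Not at h
      have h1 : 1 ≤ Z / y j := by
        rw [le_div_iff₀ hy0]; linarith
      obtain ⟨k, hk1, hk2⟩ := exists_nat_pow_near h1 (by norm_num : (1 : ℝ) < 2)
      have hkM : k < M := by
        have h3 : (2 : ℝ) ^ k < 2 ^ M := by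
          calc (2 : ℝ) ^ k ≤ Z / y j := hk1
            _ ≤ Z := div_le_self hZ0.le (hy j hj)
            _ < 2 ^ M := hM
        exact (pow_lt_pow_iff_right₀ (by norm_num : (1 : ℝ) < 2)).1 h3
      have h4 : y j ≤ Z / 2 ^ k := by
        rw [le_div_iff₀ (by positivity), mul_comm]
        rwa [le_div_iff₀ hy0] at hk1
      have h5 : Z / 2 ^ (k + 1) ≤ y j := by
        rw [div_le_iff₀ (by positivity), mul_comm]
        rw [div_lt_iff₀ hy0] at hk2
        exact hk2.le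
      have h6 : (y j) ^ (-α) ≤ (Z / 2 ^ (k + 1)) ^ (-α) :=
        Real.rpow_le_rpow_of_nonpos (by positivity) h5 (by linarith)
      have h7 : (Z / 2 ^ (k + 1)) ^ (-α) ≤
          ∑ k ∈ Finset.range M, if y j ≤ Z / 2 ^ k then (Z / 2 ^ (k + 1)) ^ (-α) else 0 := by
        have := Finset.single_le_sum (s := Finset.range M)
          (f := fun k => if y j ≤ Z / 2 ^ k then (Z / 2 ^ (k + 1)) ^ (-α) else 0)
          (fun k _ => by
            split_ifs
            · positivity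
            · exact le_rfl) (Finset.mem_range.2 hkM)
        simp only [h4, if_true] at this
        exact this
      have h8 : 0 ≤ Z ^ (-α) := by positivity
      linarith
  have hcount : ∀ k : ℕ, ((J.filter (fun j => y j ≤ Z / 2 ^ k)).card : ℝ) ≤ K * (Z / 2 ^ k) ^ m := by
    intro k
    by_cases h : 1 ≤ Z / 2 ^ k
    · exact hc _ h
    · push Not at h
      have : J.filter (fun j => y j ≤ Z / 2 ^ k) = ∅ := by
        apply Finset.filter_eq_empty_iff.2
        intro j hj hcon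
        linarith [hy j hj]
      rw [this, Finset.card_empty, Nat.cast_zero]
      positivity
  have e1 : N * Z ^ (-α) = N ^ (1 - α / m) := by
    rw [hZ, ← Real.rpow_mul hN0.le]
    nth_rewrite 1 [← Real.rpow_one N]
    rw [← Real.rpow_add hN0]
    congr 1
    field_simp
    ring
  have e2 : Z ^ ((m : ℝ) - α) = N ^ (1 - α / m) := by
    rw [hZ, ← Real.rpow_mul hN0.le]
    congr 1
    field_simp
  have hterm : ∀ k : ℕ, (Z / 2 ^ (k + 1)) ^ (-α) * (K * (Z / 2 ^ k) ^ m) =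
      2 ^ α * K * Z ^ ((m : ℝ) - α) * ((2 : ℝ) ^ (-((m : ℝ) - α))) ^ k := by
    intro k
    have h1 : (Z / 2 ^ (k + 1)) = (Z / 2 ^ k) / 2 := by rw [pow_succ]; field_simp
    have hw : 0 < Z / 2 ^ k := by positivity
    rw [h1, Real.div_rpow hw.le (by norm_num), Real.rpow_neg (by norm_num : (0:ℝ) ≤ 2) α]
    have h2 : (Z / 2 ^ k) ^ m = (Z / 2 ^ k) ^ (m : ℝ) := by rw [Real.rpow_natCast]
    rw [h2]
    have h3 : (Z / 2 ^ k) ^ (-α) / (2 ^ α)⁻¹ * (K * (Z / 2 ^ k) ^ (m : ℝ)) =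
        2 ^ α * K * ((Z / 2 ^ k) ^ (-α) * (Z / 2 ^ k) ^ (m : ℝ)) := by
      field_simp
    rw [h3, ← Real.rpow_add hw]
    have h4 : -α + (m : ℝ) = (m : ℝ) - α := by ring
    rw [h4, Real.div_rpow hZ0.le (by positivity)]
    have h5 : ((2 : ℝ) ^ k) ^ ((m : ℝ) - α) = (((2 : ℝ) ^ (-((m : ℝ) - α))) ^ k)⁻¹ := by
      rw [← Real.rpow_natCast 2 k, ← Real.rpow_mul (by norm_num), ← Real.rpow_natCast _ k,
        ← Real.rpow_mul (by norm_num), ← Real.rpow_neg (by norm_num)]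
      congr 1
      ring
    rw [h5]
    have h6 : (0:ℝ) < ((2 : ℝ) ^ (-((m : ℝ) - α))) ^ k := by positivity
    field_simp
  have hx1 : (2 : ℝ) ^ (-((m : ℝ) - α)) < 1 := Real.rpow_lt_one_of_one_lt_of_neg (by norm_num) (by linarith)
  calc ∑ j ∈ J, (y j) ^ (-α)
      ≤ ∑ j ∈ J, (Z ^ (-α) + ∑ k ∈ Finset.range M, if y j ≤ Z / 2 ^ k then (Z / 2 ^ (k + 1)) ^ (-α) else 0) :=
        Finset.sum_le_sum hpt
    _ = J.card * Z ^ (-α) + ∑ k ∈ Finset.range M, (Z / 2 ^ (k + 1)) ^ (-α) *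
          ((J.filter (fun j => y j ≤ Z / 2 ^ k)).card : ℝ) := by
        rw [Finset.sum_add_distrib, Finset.sum_const, nsmul_eq_mul, Finset.sum_comm]
        congr 1
        apply Finset.sum_congr rfl
        intro k _
        rw [← Finset.sum_filter, Finset.sum_const, nsmul_eq_mul, mul_comm]
    _ ≤ N * Z ^ (-α) + ∑ k ∈ Finset.range M, (Z / 2 ^ (k + 1)) ^ (-α) * (K * (Z / 2 ^ k) ^ m) := by
        gcongr with k hk
        exact hcount k
    _ = N ^ (1 - α / m) + 2 ^ α * K * N ^ (1 - α / m) *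
          ∑ k ∈ Finset.range M, ((2 : ℝ) ^ (-((m : ℝ) - α))) ^ k := by
        rw [e1, Finset.mul_sum]
        congr 1
        apply Finset.sum_congr rfl
        intro k _
        rw [hterm, e2]
    _ ≤ N ^ (1 - α / m) + 2 ^ α * K * N ^ (1 - α / m) * (1 / (1 - 2 ^ (-((m : ℝ) - α)))) := by
        gcongr
        exact geo_le (by positivity) hx1 M
    _ = _ := by ring

theorem vol_piece {n : ℕ} (hn : 1 ≤ n) (a : E n) {e : E n} (he : ‖e‖ = 1) {δ r : ℝ} (hδ : 0 < δ)
    (hr : 0 < r) : volume {x | x ∈ tube δ a e ∧ ‖x - a‖ ≤ 2 * r} ≤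
      ENNReal.ofReal (2 ^ n * vb n * 7 * (δ ^ (n - 1) * r)) := by
  have hv := vb_pos n
  rcases le_total δ r with h | h
  · have hsub : {x | x ∈ tube δ a e ∧ ‖x - a‖ ≤ 2 * r} ⊆ Rod a e (2 * r) δ := by
      rintro x ⟨⟨_, h1⟩, h2⟩
      refine ⟨inner ℝ (x - a) e, ?_, h1⟩
      have := abs_real_inner_le_norm (x - a) e
      rw [he, mul_one] at this
      exact this.trans h2
    refine (measure_mono hsub).trans ((vol_rod hn a he (by positivity) hδ).trans ?_)
    apply ENNReal.ofReal_le_ofReal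
    have h1 : 2 * (2 * r) + 3 * δ ≤ 7 * r := by linarith
    calc 2 ^ n * vb n * (2 * (2 * r) + 3 * δ) * δ ^ (n - 1) ≤ 2 ^ n * vb n * (7 * r) * δ ^ (n - 1) := by
          gcongr
      _ = _ := by ring
  · have hsub : {x | x ∈ tube δ a e ∧ ‖x - a‖ ≤ 2 * r} ⊆ closedBall a (2 * r) := by
      rintro x ⟨_, h2⟩
      rw [mem_closedBall, dist_eq_norm]
      exact h2
    refine (measure_mono hsub).trans (le_of_eq_of_le (vol_cball _ (by positivity)) ?_)
    apply ENNReal.ofReal_le_ofReal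
    obtain ⟨m, rfl⟩ : ∃ m, n = m + 1 := ⟨n - 1, by omega⟩
    rw [Nat.add_sub_cancel]
    calc (2 * r) ^ (m + 1) * vb (m + 1) = 2 ^ (m + 1) * vb (m + 1) * (r ^ m * r) := by ring
      _ ≤ 2 ^ (m + 1) * vb (m + 1) * (δ ^ m * r) := by gcongr
      _ ≤ _ := by
          have : 0 ≤ 2 ^ (m + 1) * vb (m + 1) * (δ ^ m * r) := by positivity
          nlinarith

theorem young {x l : ℝ≥0∞} (hl : l ≠ 0) (hlt : l ≠ ∞) {p : ℝ} (hp0 : 0 ≤ p) (hp : p ≤ 1) :
    x ^ p ≤ l ^ p + l ^ (p - 1) * x := by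
  rcases le_total x l with h | h
  · exact (ENNReal.rpow_le_rpow h hp0).trans le_self_add
  · by_cases hx : x = ∞
    · subst hx
      have : l ^ (p - 1) * ∞ = ∞ := ENNReal.mul_top (by
        intro hcon
        rw [ENNReal.rpow_eq_zero_iff] at hcon
        rcases hcon with hcon | hcon
        · exact hl hcon.1
        · exact hlt hcon.1)
      rw [this]
      simp
    · have hx0 : x ≠ 0 := fun h0 => hl (le_antisymm (h0 ▸ h) zero_le)
      have h1 : x ^ p = x ^ (p - 1) * x := by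
        nth_rewrite 3 [← ENNReal.rpow_one x]
        rw [← ENNReal.rpow_add _ _ hx0 hx]
        congr 1
        ring
      rw [h1]
      refine le_trans ?_ le_add_self
      gcongr ?_ * _
      have h2 : x ^ (p - 1) = (x ^ (1 - p))⁻¹ := by
        rw [← ENNReal.rpow_neg]; congr 1; ring
      have h3 : l ^ (p - 1) = (l ^ (1 - p))⁻¹ := by
        rw [← ENNReal.rpow_neg]; congr 1; ring
      rw [h2, h3]
      exact ENNReal.inv_le_inv.2 (ENNReal.rpow_le_rpow h (by linarith))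

end Pool.Agent.TH705.RR
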