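import Pool.Agent.TH705.RR.Vol
set_option autoImplicit false

/-!
# The area of the set of pairs of positions on two lines at a given distance
-/

open MeasureTheory Set Metric
open scoped ENNReal NNReal

namespace Pool.Agent.TH705.RR

theorem root_close {D ρ h x y : ℝ} (hD : 0 < D) (hρ : 0 ≤ ρ) (hρD : ρ ≤ D / 2) (hx : D / 4 ≤ x)
    (hy : D / 4 ≤ y) (h1 : |Real.sqrt (x ^ 2 + h) - D| ≤ ρ) (h2 : |Real.sqrt (y ^ 2 + h) - D| ≤ ρ) :
    |x - y| ≤ 12 * ρ := by
  have g1 := abs_le.1 h1
  have g2 := abs_le.1 h2
  set p := Real.sqrt (x ^ 2 + h) with hp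
  set q := Real.sqrt (y ^ 2 + h) with hq
  have hp0 : 0 < p := by linarith
  have hq0 : 0 < q := by linarith
  have hp2 : p ^ 2 = x ^ 2 + h := Real.sq_sqrt (by
    by_contra hcon
    push Not at hcon
    have := Real.sqrt_eq_zero_of_nonpos hcon.le
    rw [← hp] at this
    linarith)
  have hq2 : q ^ 2 = y ^ 2 + h := Real.sq_sqrt (by
    by_contra hcon
    push Not at hcon
    have := Real.sqrt_eq_zero_of_nonpos hcon.le
    rw [← hq] at this
    linarith)
  have hpq : |p - q| ≤ 2 * ρ := by
    rw [abs_le]; constructor <;> linarith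
  have h3 : (x - y) * (x + y) = (p - q) * (p + q) := by nlinarith
  have h4 : |x - y| * (x + y) ≤ 2 * ρ * (3 * D) := by
    have h5 : |x - y| * (x + y) = |p - q| * (p + q) := by
      have := congrArg abs h3
      rwa [abs_mul, abs_mul, abs_of_pos (by linarith : 0 < x + y), abs_of_pos (by linarith : 0 < p + q)] at this
    rw [h5]
    gcongr
    linarith
  have h5 : |x - y| * (D / 2) ≤ |x - y| * (x + y) := by
    gcongr
    linarith
  nlinarith [abs_nonneg (x - y)]

/-- One-dimensional estimate. -/
theorem one_dim {D ρ S : ℝ} (hD : 0 < D) (hρ : 0 ≤ ρ) (hρD : ρ ≤ D / 2) (hS : 0 < S) (h : ℝ) :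
    volume {x : ℝ | D / 4 ≤ |x * S| ∧ |Real.sqrt ((x * S) ^ 2 + h) - D| ≤ ρ} ≤
      ENNReal.ofReal (24 * ρ / S) := by
  have key : ∀ X : Set ℝ, (∀ x ∈ X, ∀ y ∈ X, |x * S - y * S| ≤ 12 * ρ) →
      volume X ≤ ENNReal.ofReal (12 * ρ / S) := by
    intro X hX
    refine (Real.volume_le_diam X).trans ?_
    apply ediam_le
    intro x hx y hy
    rw [edist_dist, Real.dist_eq]
    apply ENNReal.ofReal_le_ofReal
    rw [le_div_iff₀ hS]
    have := hX x hx y hy
    rwa [← sub_mul, abs_mul, abs_of_pos hS] at this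
  have hsub : {x : ℝ | D / 4 ≤ |x * S| ∧ |Real.sqrt ((x * S) ^ 2 + h) - D| ≤ ρ} ⊆
      {x : ℝ | D / 4 ≤ x * S ∧ |Real.sqrt ((x * S) ^ 2 + h) - D| ≤ ρ} ∪
      {x : ℝ | D / 4 ≤ -(x * S) ∧ |Real.sqrt ((x * S) ^ 2 + h) - D| ≤ ρ} := by
    rintro x ⟨h1, h2⟩
    rcases le_total 0 (x * S) with h3 | h3
    · left; rw [abs_of_nonneg h3] at h1; exact ⟨h1, h2⟩
    · right; rw [abs_of_nonpos h3] at h1; exact ⟨h1, h2⟩
  calc _ ≤ _ := measure_mono hsub
    _ ≤ _ := measure_union_le _ _
    _ ≤ ENNReal.ofReal (12 * ρ / S) + ENNReal.ofReal (12 * ρ / S) := by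
        apply add_le_add
        · apply key
          rintro x ⟨h1, h2⟩ y ⟨h3, h4⟩
          exact root_close hD hρ hρD h1 h3 h2 h4
        · apply key
          rintro x ⟨h1, h2⟩ y ⟨h3, h4⟩
          have := root_close hD hρ hρD h1 h3 (by rwa [neg_sq]) (by rwa [neg_sq])
          have h5 : -(x * S) - -(y * S) = -(x * S - y * S) := by ring
          rwa [h5, abs_neg] at this
    _ = _ := by
        rw [← ENNReal.ofReal_add (by positivity) (by positivity)]
        congr 1
        ring

/-- **Area estimate.** -/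
theorem area {n : ℕ} {e e' : E n} (he : ‖e‖ = 1) (he' : ‖e'‖ = 1) (hS : 0 < sn e e') {D ρ R : ℝ}
    (hD : 0 < D) (hρ : 0 ≤ ρ) (hρD : ρ ≤ D / 2) (hR : 0 < R) :
    ∫⁻ s in Icc (-R) R, volume {t : ℝ | |‖t • e' - s • e‖ - D| ≤ ρ} ≤
      ENNReal.ofReal (432 * R * ρ) := by
  set S := sn e e' with hSdef
  set c := inner ℝ e e' with hc
  have hnorm : ∀ s t : ℝ, ‖t • e' - s • e‖ = Real.sqrt ((t - s * c) ^ 2 + (s * S) ^ 2) := by
    intro s t
    rw [← diff_sq he he', Real.sqrt_sq (norm_nonneg _)]
  -- shift
  have hshift : ∀ s : ℝ, volume {t : ℝ | |‖t • e' - s • e‖ - D| ≤ ρ} =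
      volume {x : ℝ | |Real.sqrt (x ^ 2 + (s * S) ^ 2) - D| ≤ ρ} := by
    intro s
    have h1 : {t : ℝ | |‖t • e' - s • e‖ - D| ≤ ρ} =
        (fun t => t + (-(s * c))) ⁻¹' {x : ℝ | |Real.sqrt (x ^ 2 + (s * S) ^ 2) - D| ≤ ρ} := by
      ext t
      simp only [mem_ofPred_eq, mem_preimage]
      rw [hnorm, ← sub_eq_add_neg]
    rw [h1, measure_preimage_add_right]
  simp_rw [hshift]
  set G1 : ℝ → Set ℝ := fun s => {x : ℝ | D / 4 ≤ |x| ∧ |Real.sqrt (x ^ 2 + (s * S) ^ 2) - D| ≤ ρ} with hG1
  set G2 : Set (ℝ × ℝ) := {p | D / 4 ≤ |p.1 * S| ∧ |Real.sqrt (p.2 ^ 2 + (p.1 * S) ^ 2) - D| ≤ ρ} with hG2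
  have hG2m : MeasurableSet G2 := by
    have m1 : Measurable (fun p : ℝ × ℝ => |p.1 * S|) := by fun_prop
    have m2 : Measurable (fun p : ℝ × ℝ => |Real.sqrt (p.2 ^ 2 + (p.1 * S) ^ 2) - D|) :=
      Measurable.abs ((Real.continuous_sqrt.measurable.comp
        (by fun_prop : Measurable (fun p : ℝ × ℝ => p.2 ^ 2 + (p.1 * S) ^ 2))).sub measurable_const)
    exact (measurableSet_le measurable_const m1).inter (measurableSet_le m2 measurable_const)
  have hsplit : ∀ s : ℝ, volume {x : ℝ | |Real.sqrt (x ^ 2 + (s * S) ^ 2) - D| ≤ ρ} ≤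
      ENNReal.ofReal (24 * ρ) + ∫⁻ x, G2.indicator 1 (s, x) := by
    intro s
    have h1 : {x : ℝ | |Real.sqrt (x ^ 2 + (s * S) ^ 2) - D| ≤ ρ} ⊆ G1 s ∪ Prod.mk s ⁻¹' G2 := by
      intro x hx
      simp only [mem_ofPred_eq] at hx
      by_cases h2 : D / 4 ≤ |x|
      · left; exact ⟨h2, hx⟩
      · right
        refine ⟨?_, hx⟩
        by_contra h3
        push Not at h2 h3
        have h4 : Real.sqrt (x ^ 2 + (s * S) ^ 2) ≤ D / 2 * (3 / 4) := by
          apply Real.sqrt_le_iff.2
          constructor
          · positivity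
          · have e1 : x ^ 2 ≤ (D / 4) ^ 2 := by
              rw [← sq_abs]
              gcongr
            have e2 : (s * S) ^ 2 ≤ (D / 4) ^ 2 := by
              rw [← sq_abs]
              exact pow_le_pow_left₀ (abs_nonneg _) h3.le 2
            nlinarith
        have h5 := (abs_le.1 hx).1
        nlinarith
    refine (measure_mono h1).trans ((measure_union_le _ _).trans ?_)
    apply add_le_add
    · have := one_dim hD hρ hρD one_pos ((s * S) ^ 2)
      simpa using this
    · rw [← lintegral_indicator_one (measurable_prodMk_left hG2m)]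
      rfl
  calc ∫⁻ s in Icc (-R) R, volume {x : ℝ | |Real.sqrt (x ^ 2 + (s * S) ^ 2) - D| ≤ ρ}
      ≤ ∫⁻ s in Icc (-R) R, (ENNReal.ofReal (24 * ρ) + ∫⁻ x, G2.indicator 1 (s, x)) :=
        lintegral_mono hsplit
    _ = ENNReal.ofReal (24 * ρ) * ENNReal.ofReal (2 * R) +
        ∫⁻ s in Icc (-R) R, ∫⁻ x, G2.indicator (1 : ℝ × ℝ → ℝ≥0∞) (s, x) := by
        rw [lintegral_add_left measurable_const, lintegral_const, Measure.restrict_apply_univ,
          Real.volume_Icc]
        congr 3
        ring
    _ ≤ ENNReal.ofReal (48 * R * ρ) + ENNReal.ofReal (384 * R * ρ) := by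
        apply add_le_add
        · rw [← ENNReal.ofReal_mul (by positivity)]
          apply ENNReal.ofReal_le_ofReal
          nlinarith
        · by_cases hRS : R * S < D / 4
          · have hz : ∀ s ∈ Icc (-R) R, ∫⁻ x, G2.indicator (1 : ℝ × ℝ → ℝ≥0∞) (s, x) = 0 := by
              intro s hs
              have : ∀ x, G2.indicator (1 : ℝ × ℝ → ℝ≥0∞) (s, x) = 0 := by
                intro x
                apply indicator_of_notMem
                rintro ⟨h1, _⟩
                simp only at h1
                rw [abs_mul, abs_of_pos hS] at h1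
                have h2 : |s| ≤ R := abs_le.2 ⟨hs.1, hs.2⟩
                have : |s| * S ≤ R * S := by gcongr
                linarith
              simp [this]
            rw [setLIntegral_congr_fun measurableSet_Icc hz]
            simp
          · push Not at hRS
            have hswap : ∫⁻ s in Icc (-R) R, ∫⁻ x, G2.indicator (1 : ℝ × ℝ → ℝ≥0∞) (s, x) ≤
                ∫⁻ x, ∫⁻ s, G2.indicator (1 : ℝ × ℝ → ℝ≥0∞) (s, x) := by
              calc _ ≤ ∫⁻ s, ∫⁻ x, G2.indicator (1 : ℝ × ℝ → ℝ≥0∞) (s, x) :=
                    setLIntegral_le_lintegral _ _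
                _ = _ := by
                    apply lintegral_lintegral_swap
                    exact (measurable_one.indicator hG2m).aemeasurable
            refine hswap.trans ?_
            have hin : ∀ x : ℝ, ∫⁻ s, G2.indicator (1 : ℝ × ℝ → ℝ≥0∞) (s, x) ≤
                (Icc (-(2 * D)) (2 * D)).indicator (fun _ => ENNReal.ofReal (24 * ρ / S)) x := by
              intro x
              by_cases hx : x ∈ Icc (-(2 * D)) (2 * D)
              · rw [indicator_of_mem hx]
                have h1 : ∫⁻ s, G2.indicator (1 : ℝ × ℝ → ℝ≥0∞) (s, x) =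
                    volume {s : ℝ | D / 4 ≤ |s * S| ∧ |Real.sqrt ((s * S) ^ 2 + x ^ 2) - D| ≤ ρ} := by
                  rw [← lintegral_indicator_one]
                  · apply lintegral_congr
                    intro s
                    simp only [hG2, indicator, mem_ofPred_eq, Pi.one_apply]
                    rw [add_comm (x ^ 2)]
                  · have : {s : ℝ | D / 4 ≤ |s * S| ∧ |Real.sqrt ((s * S) ^ 2 + x ^ 2) - D| ≤ ρ} =
                        (fun s => (s, x)) ⁻¹' G2 := by
                      ext s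
                      simp only [hG2, mem_ofPred_eq, mem_preimage]
                      rw [add_comm (x ^ 2)]
                    rw [this]
                    exact measurable_prodMk_right hG2m
                rw [h1]
                exact one_dim hD hρ hρD hS _
              · rw [indicator_of_notMem hx]
                have : ∀ s, G2.indicator (1 : ℝ × ℝ → ℝ≥0∞) (s, x) = 0 := by
                  intro s
                  apply indicator_of_notMem
                  rintro ⟨_, h2⟩
                  simp only at h2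
                  apply hx
                  have h3 : |x| ≤ Real.sqrt (x ^ 2 + (s * S) ^ 2) := by
                    apply Real.abs_le_sqrt
                    nlinarith [sq_nonneg (s * S)]
                  have h4 := (abs_le.1 h2).2
                  have h5 : |x| ≤ 2 * D := by linarith
                  exact ⟨(abs_le.1 h5).1, (abs_le.1 h5).2⟩
                simp [this]
            refine (lintegral_mono hin).trans ?_
            rw [lintegral_indicator measurableSet_Icc, lintegral_const, Measure.restrict_apply_univ,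
              Real.volume_Icc, ← ENNReal.ofReal_mul (by positivity)]
            apply ENNReal.ofReal_le_ofReal
            have h6 : D / S ≤ 4 * R := by
              rw [div_le_iff₀ hS]
              linarith
            calc 24 * ρ / S * (2 * D - -(2 * D)) = 96 * ρ * (D / S) := by ring
              _ ≤ 96 * ρ * (4 * R) := by gcongr
              _ = _ := by ring
    _ = _ := by
        rw [← ENNReal.ofReal_add (by positivity) (by positivity)]
        congr 1
        ring

end Pool.Agent.TH705.RR
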