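import Mathlib
set_option autoImplicit false

/-!
# A weighted Schur (Córdoba) estimate
-/

open MeasureTheory Set Metric
open scoped ENNReal NNReal

namespace Pool.Agent.TH705.RR

theorem cs_sq {Q : Type*} [MeasurableSpace Q] (ρ : Measure Q) {f g : Q → ℝ≥0∞}
    (hf : Measurable f) (hg : Measurable g) :
    (∫⁻ q, f q * g q ∂ρ) ^ (2 : ℝ) ≤ (∫⁻ q, f q ^ (2 : ℝ) ∂ρ) * ∫⁻ q, g q ^ (2 : ℝ) ∂ρ := by
  have h := ENNReal.lintegral_mul_le_Lp_mul_Lq ρ Real.HolderConjugate.two_two hf.aemeasurable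
    hg.aemeasurable
  have h2 := ENNReal.rpow_le_rpow h (by norm_num : (0 : ℝ) ≤ 2)
  refine h2.trans (le_of_eq ?_)
  rw [ENNReal.mul_rpow_of_nonneg _ _ (by norm_num), ← ENNReal.rpow_mul, ← ENNReal.rpow_mul]
  norm_num

/-- Hölder's inequality with the constant function. -/
theorem hol_one {Q : Type*} [MeasurableSpace Q] (ρ : Measure Q) {f : Q → ℝ≥0∞}
    (hf : Measurable f) {s : ℝ} (hs : 1 ≤ s) :
    (∫⁻ q, f q ∂ρ) ^ s ≤ (∫⁻ q, f q ^ s ∂ρ) * (ρ univ) ^ (s - 1) := by
  rcases eq_or_lt_of_le hs with h1 | h1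
  · rw [← h1]
    simp
  · have hs0 : 0 < s := by linarith
    have hconj := Real.HolderConjugate.conjExponent h1
    have h := ENNReal.lintegral_mul_le_Lp_mul_Lq ρ hconj hf.aemeasurable
      (g := fun _ => (1 : ℝ≥0∞)) measurable_const.aemeasurable
    simp only [Pi.mul_apply, mul_one, ENNReal.one_rpow, lintegral_const, one_mul] at h
    have h2 := ENNReal.rpow_le_rpow h hs0.le
    refine h2.trans (le_of_eq ?_)
    rw [ENNReal.mul_rpow_of_nonneg _ _ hs0.le, ← ENNReal.rpow_mul, ← ENNReal.rpow_mul]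
    have e1 : 1 / s * s = 1 := by field_simp
    have e2 : 1 / s.conjExponent * s = s - 1 := by
      unfold Real.conjExponent
      have : s - 1 ≠ 0 := by linarith
      field_simp
    rw [e1, e2, ENNReal.rpow_one]

section

variable {V X : Type*} [MeasurableSpace V] [MeasurableSpace X]

/-- The multiplicity. -/
noncomputable def mul' (ν : Measure V) (S : Set (V × X)) (x : X) : ℝ≥0∞ := ν {v | (v, x) ∈ S}

/-- The weight. -/
noncomputable def wgt (ν : Measure V) (m : Measure X) (S : Set (V × X)) (c : ℝ≥0∞) (v : V) : ℝ≥0∞ :=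
  ∫⁻ x in {x | (v, x) ∈ S}, (mul' ν S x + c) ∂m

theorem mul'_meas (ν : Measure V) [SFinite ν] {S : Set (V × X)} (hS : MeasurableSet S) :
    Measurable (mul' ν S) := by
  unfold mul'
  exact measurable_measure_prodMk_right hS

theorem slice_meas {S : Set (V × X)} (hS : MeasurableSet S) (v : V) :
    MeasurableSet {x | (v, x) ∈ S} :=
  (measurable_prodMk_left (x := v) : Measurable (Prod.mk v : X → V × X)) hS

/-- **Córdoba's estimate with a weight.** -/
theorem cordoba (ν : Measure V) [IsFiniteMeasure ν] (m : Measure X) [SFinite m] {S : Set (V × X)}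
    (hS : MeasurableSet S) {c : ℝ≥0∞} (hc : c ≠ 0) (hct : c ≠ ∞) {h : X → ℝ≥0∞}
    (hh : Measurable h) :
    ∫⁻ v, (∫⁻ x in {x | (v, x) ∈ S}, h x ∂m) ^ (2 : ℝ) / wgt ν m S c v ∂ν ≤
      ∫⁻ x, h x ^ (2 : ℝ) ∂m := by
  have hJm := mul'_meas ν hS
  set J : X → ℝ≥0∞ := fun x => mul' ν S x + c with hJ
  have hJm' : Measurable J := hJm.add_const c
  have hJ0 : ∀ x, J x ≠ 0 := fun x => by
    simp only [hJ]
    intro h0
    exact hc (add_eq_zero.1 h0).2
  have hJt : ∀ x, J x ≠ ∞ := fun x => by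
    simp only [hJ]
    exact ENNReal.add_ne_top.2 ⟨(measure_lt_top _ _).ne, hct⟩
  set F : X → ℝ≥0∞ := fun x => h x ^ (2 : ℝ) * (J x)⁻¹ with hF
  have hFm : Measurable F := (hh.pow_const _).mul hJm'.inv
  have hpt : ∀ v, (∫⁻ x in {x | (v, x) ∈ S}, h x ∂m) ^ (2 : ℝ) / wgt ν m S c v ≤
      ∫⁻ x in {x | (v, x) ∈ S}, F x ∂m := by
    intro v
    apply ENNReal.div_le_of_le_mul
    have e1 : ∫⁻ x in {x | (v, x) ∈ S}, h x ∂m =
        ∫⁻ x in {x | (v, x) ∈ S}, (h x * (J x) ^ (-(1 / 2 : ℝ))) * (J x) ^ (1 / 2 : ℝ) ∂m := by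
      apply lintegral_congr
      intro x
      rw [mul_assoc, ← ENNReal.rpow_add _ _ (hJ0 x) (hJt x)]
      simp
    rw [e1]
    refine (cs_sq (m.restrict {x | (v, x) ∈ S}) (hh.mul (hJm'.pow_const _))
      (hJm'.pow_const _)).trans (le_of_eq ?_)
    congr 1
    · apply lintegral_congr
      intro x
      show (h x * (J x) ^ (-(1 / 2 : ℝ))) ^ (2 : ℝ) = h x ^ (2 : ℝ) * (J x)⁻¹
      rw [ENNReal.mul_rpow_of_nonneg _ _ (by norm_num), ← ENNReal.rpow_mul]
      have : -(1 / 2 : ℝ) * 2 = -1 := by norm_num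
      rw [this, ENNReal.rpow_neg_one]
    · unfold wgt
      apply lintegral_congr
      intro x
      rw [← ENNReal.rpow_mul]
      norm_num
      rfl
  have hG : Measurable (fun q : V × X => S.indicator (fun q => F q.2) q) :=
    (hFm.comp measurable_snd).indicator hS
  calc _ ≤ ∫⁻ v, ∫⁻ x in {x | (v, x) ∈ S}, F x ∂m ∂ν := lintegral_mono hpt
    _ = ∫⁻ v, ∫⁻ x, S.indicator (fun q => F q.2) (v, x) ∂m ∂ν := by
        apply lintegral_congr
        intro v
        rw [← lintegral_indicator (slice_meas hS v)]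
        rfl
    _ = ∫⁻ x, ∫⁻ v, S.indicator (fun q => F q.2) (v, x) ∂ν ∂m :=
        lintegral_lintegral_swap hG.aemeasurable
    _ = ∫⁻ x, F x * mul' ν S x ∂m := by
        apply lintegral_congr
        intro x
        have hSx : MeasurableSet {v | (v, x) ∈ S} :=
          (measurable_prodMk_right (y := x) : Measurable (fun v : V => (v, x))) hS
        have e2 : ∀ v, S.indicator (fun q => F q.2) (v, x) =
            F x * {v | (v, x) ∈ S}.indicator (1 : V → ℝ≥0∞) v := by
          intro v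
          by_cases hv : (v, x) ∈ S
          · rw [indicator_of_mem hv, indicator_of_mem (show v ∈ {v | (v, x) ∈ S} from hv)]
            simp
          · rw [indicator_of_notMem hv, indicator_of_notMem (show v ∉ {v | (v, x) ∈ S} from hv)]
            simp
        simp_rw [e2]
        rw [lintegral_const_mul _ (measurable_one.indicator hSx), lintegral_indicator_one hSx]
        rfl
    _ ≤ ∫⁻ x, h x ^ (2 : ℝ) ∂m := by
        apply lintegral_mono
        intro x
        simp only [hF]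
        rw [mul_assoc]
        calc h x ^ (2 : ℝ) * ((J x)⁻¹ * mul' ν S x) ≤ h x ^ (2 : ℝ) * 1 := by
              gcongr
              calc (J x)⁻¹ * mul' ν S x ≤ (J x)⁻¹ * J x := by
                    gcongr
                    exact le_self_add
                _ ≤ 1 := ENNReal.inv_mul_le_one _
          _ = _ := mul_one _

/-- The estimate for `p ≥ 2`. -/
theorem cordoba_p (ν : Measure V) [IsFiniteMeasure ν] (m : Measure X) [SFinite m] {S : Set (V × X)}
    (hS : MeasurableSet S) {c : ℝ≥0∞} (hc : c ≠ 0) (hct : c ≠ ∞) {h : X → ℝ≥0∞}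
    (hh : Measurable h) {p : ℝ} (hp : 2 ≤ p) {M : ℝ≥0∞} (hM : ∀ v, m {x | (v, x) ∈ S} ≤ M)
    (hMt : M ≠ ∞) :
    ∫⁻ v, (∫⁻ x in {x | (v, x) ∈ S}, h x ∂m) ^ p / wgt ν m S c v ∂ν ≤
      M ^ (p - 2) * ∫⁻ x, h x ^ p ∂m := by
  have hMp : M ^ (p - 2) ≠ ∞ := ENNReal.rpow_ne_top_of_nonneg (by linarith) hMt
  have hh2 : Measurable (fun x => h x ^ (p / 2)) := hh.pow_const _
  have h1 := cordoba ν m hS hc hct hh2
  calc _ ≤ ∫⁻ v, M ^ (p - 2) * ((∫⁻ x in {x | (v, x) ∈ S}, h x ^ (p / 2) ∂m) ^ (2 : ℝ) /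
        wgt ν m S c v) ∂ν := by
        apply lintegral_mono
        intro v
        simp only
        rw [← mul_div_assoc]
        gcongr
        have h2 := hol_one (m.restrict {x | (v, x) ∈ S}) hh (s := p / 2) (by linarith)
        rw [Measure.restrict_apply_univ] at h2
        have h3 := ENNReal.rpow_le_rpow h2 (by norm_num : (0 : ℝ) ≤ 2)
        rw [← ENNReal.rpow_mul, ENNReal.mul_rpow_of_nonneg _ _ (by norm_num : (0 : ℝ) ≤ 2),
          ← ENNReal.rpow_mul] at h3
        have e1 : p / 2 * 2 = p := by ring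
        have e2 : (p / 2 - 1) * 2 = p - 2 := by ring
        rw [e1, e2] at h3
        refine h3.trans ?_
        rw [mul_comm]
        exact mul_le_mul' (ENNReal.rpow_le_rpow (hM v) (by linarith)) le_rfl
    _ = M ^ (p - 2) * ∫⁻ v, ((∫⁻ x in {x | (v, x) ∈ S}, h x ^ (p / 2) ∂m) ^ (2 : ℝ) /
        wgt ν m S c v) ∂ν := lintegral_const_mul' _ _ hMp
    _ ≤ M ^ (p - 2) * ∫⁻ x, (h x ^ (p / 2)) ^ (2 : ℝ) ∂m := by gcongr
    _ = _ := by
        congr 1
        apply lintegral_congr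
        intro x
        rw [← ENNReal.rpow_mul]
        congr 1
        ring

end

end Pool.Agent.TH705.RR
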