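import Pool.Agent.TH705.RR.Main
set_option autoImplicit false

/-!
# The tube inequality on average: all scales
-/

open MeasureTheory Set Metric
open scoped ENNReal NNReal

namespace Pool.Agent.TH705.RR

/-- Exponents: the sum over the scales. -/
theorem scale_sum {N α q m : ℝ} (hN : 1 ≤ N) (hm : 0 < m) (hγ : 0 < α * (q - 1) - 1) (L : ℕ) :
    ∑ l ∈ Finset.range L, (2 ^ l * N ^ (-(1 / m))) *
      ((2 ^ l * N ^ (-(1 / m))) ^ (-α) * N ^ (1 - α / m)) ^ (q - 1) ≤
      1 / (1 - 2 ^ (-(α * (q - 1) - 1))) * N ^ (q - 1 - 1 / m) := by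
  have hN0 : 0 < N := by linarith
  set γ := α * (q - 1) - 1 with hγd
  have hterm : ∀ l : ℕ, (2 ^ l * N ^ (-(1 / m))) *
      ((2 ^ l * N ^ (-(1 / m))) ^ (-α) * N ^ (1 - α / m)) ^ (q - 1) =
      ((2 : ℝ) ^ (-γ)) ^ l * N ^ (q - 1 - 1 / m) := by
    intro l
    set r := (2 : ℝ) ^ l * N ^ (-(1 / m)) with hr
    have hr0 : 0 < r := by positivity
    have h1 : r * (r ^ (-α) * N ^ (1 - α / m)) ^ (q - 1) = r ^ (-γ) * N ^ ((1 - α / m) * (q - 1)) := by
      rw [Real.mul_rpow (by positivity) (by positivity), ← Real.rpow_mul hr0.le,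
        ← Real.rpow_mul hN0.le, ← mul_assoc]
      congr 1
      nth_rewrite 1 [← Real.rpow_one r]
      rw [← Real.rpow_add hr0]
      congr 1
      rw [hγd]; ring
    rw [h1, hr, Real.mul_rpow (by positivity) (by positivity), ← Real.rpow_mul hN0.le]
    have h2 : ((2 : ℝ) ^ l) ^ (-γ) = ((2 : ℝ) ^ (-γ)) ^ l := by
      rw [← Real.rpow_natCast 2 l, ← Real.rpow_mul (by norm_num), ← Real.rpow_natCast _ l,
        ← Real.rpow_mul (by norm_num)]
      congr 1
      ring
    rw [h2, mul_assoc, ← Real.rpow_add hN0]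
    congr 2
    rw [hγd]
    field_simp
    ring
  rw [Finset.sum_congr rfl (fun l _ => hterm l), ← Finset.sum_mul]
  gcongr
  apply geo_le (by positivity)
  exact Real.rpow_lt_one_of_one_lt_of_neg (by norm_num) (by linarith)

theorem core {n : ℕ} (hn : 2 ≤ n) {α q : ℝ} (hα : 1 < α) (hαn : α < (n - 1 : ℕ))
    (hq1 : 1 + 1 / α < q) (hq2 : q ≤ 2) : ∃ C : ℝ, 0 < C ∧ ∀ A : ℝ, 0 ≤ A →
    ∀ (Ω : Type) [MeasurableSpace Ω] (P : Measure Ω) [IsProbabilityMeasure P]
    (g : Ω → E n ≃ₗᵢ[ℝ] E n), (∀ v, Measurable (fun ω => g ω v)) → Spread P g A α →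
    ∀ δ : ℝ, 0 < δ → δ < 1 → ∀ (ι : Type) [Fintype ι] (a e : ι → E n),
    (∀ i, ‖e i‖ = 1) → (∀ i j, i ≠ j → δ ≤ ‖e i - e j‖) →
    ∫⁻ ω, (∫⁻ x, mult δ (g ω) a e x ^ q) ∂P ≤
      ENNReal.ofReal (C * (1 + A) * δ ^ (n - 1) *
        (Fintype.card ι : ℝ) ^ (q - 1 / ((n - 1 : ℕ) : ℝ))) := by
  obtain ⟨K, hK, hcount⟩ := count (n := n) (by omega)
  have hv := vb_pos n
  have hα0 : 0 < α := by linarith
  have hγ : 0 < α * (q - 1) - 1 := by
    have h1 : 1 / α < q - 1 := by linarith
    rw [div_lt_iff₀ hα0] at h1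
    linarith
  have hq : 1 < q := by
    have : 0 < 1 / α := by positivity
    linarith
  set Ca : ℝ := 1 + 2 ^ α * K * (1 / (1 - 2 ^ (-(((n - 1 : ℕ) : ℝ) - α)))) with hCa
  have hCa0 : 0 ≤ Ca := by
    have h2 : (2 : ℝ) ^ (-(((n - 1 : ℕ) : ℝ) - α)) < 1 :=
      Real.rpow_lt_one_of_one_lt_of_neg (by norm_num) (by linarith)
    have h3 : 0 < 1 - (2 : ℝ) ^ (-(((n - 1 : ℕ) : ℝ) - α)) := by linarith
    positivity
  set G : ℝ := 1 / (1 - 2 ^ (-(α * (q - 1) - 1))) with hG
  have hG0 : 0 < G := by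
    have h2 : (2 : ℝ) ^ (-(α * (q - 1) - 1)) < 1 :=
      Real.rpow_lt_one_of_one_lt_of_neg (by norm_num) (by linarith)
    have h3 : 0 < 1 - (2 : ℝ) ^ (-(α * (q - 1) - 1)) := by linarith
    positivity
  set c1 : ℝ := (1 + K * 16 ^ (n - 1)) * (2 ^ n * vb n * 7) with hc1
  set c2 : ℝ := (1296 * 2 ^ n * vb n * 16 ^ α) * Ca with hc2
  have hc10 : 0 < c1 := by positivity
  have hc20 : 0 ≤ c2 := by positivity
  refine ⟨2 ^ n * vb n * 7 + (c1 + c2) * G, by positivity, ?_⟩
  intro A hA Ω _ P _ g hg hsp δ hδ hδ1 ι _ a e he hsep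
  classical
  rcases isEmpty_or_nonempty ι with hι | hι
  · have : ∀ ω x, mult δ (g ω) a e x ^ q = 0 := by
      intro ω x
      unfold mult
      rw [Finset.univ_eq_empty, Finset.sum_empty, ENNReal.zero_rpow_of_pos (by linarith)]
    simp [this]
  set N : ℝ := (Fintype.card ι : ℝ) with hN
  have hN1 : 1 ≤ N := by
    rw [hN]
    exact_mod_cast Fintype.card_pos
  have hN0 : 0 < N := by linarith
  set m : ℕ := n - 1 with hm
  have hmr : (1 : ℝ) < m := by linarith
  have hm0 : (0 : ℝ) < m := by linarith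
  set r0 : ℝ := N ^ (-(1 / (m : ℝ))) with hr0
  have hr00 : 0 < r0 := by positivity
  have hex : ∃ L : ℕ, 3 / 2 ≤ 2 ^ L * r0 := by
    obtain ⟨L, hL⟩ := pow_unbounded_of_one_lt (3 / 2 / r0) (by norm_num : (1 : ℝ) < 2)
    refine ⟨L, ?_⟩
    rw [div_lt_iff₀ hr00] at hL
    exact hL.le
  set L := Nat.find hex with hL
  have hL1 : 3 / 2 ≤ 2 ^ L * r0 := Nat.find_spec hex
  have hL2 : ∀ l < L, 2 ^ l * r0 < 3 / 2 := by
    intro l hl
    have := Nat.find_min hex hl
    push Not at this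
    exact this
  -- sets
  set T0 : ι → Ω → Set (E n) := fun i ω => {x | x ∈ tube δ (g ω (a i)) (e i) ∧
    ‖x - g ω (a i)‖ ≤ 2 * (r0 / 2)} with hT0
  set T : ι → ℕ → Ω → Set (E n) := fun i l ω => {x | x ∈ tube δ (g ω (a i)) (e i) ∧
    2 ^ l * r0 < ‖x - g ω (a i)‖ ∧ ‖x - g ω (a i)‖ ≤ 2 * (2 ^ l * r0)} with hT
  have hpt : ∀ ω x, mult δ (g ω) a e x ^ q ≤ ∑ i,
      (ENNReal.ofReal (N ^ (q - 1)) * (T0 i ω).indicator 1 x +
        ∑ l ∈ Finset.range L, (T i l ω).indicator (fun x => mult δ (g ω) a e x ^ (q - 1)) x) := by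
    intro ω x
    have h1 : mult δ (g ω) a e x ^ q = ∑ i, (tube δ (g ω (a i)) (e i)).indicator 1 x *
        mult δ (g ω) a e x ^ (q - 1) := by
      rw [← Finset.sum_mul]
      have h2 : q = 1 + (q - 1) := by ring
      nth_rewrite 1 [h2]
      rw [ENNReal.rpow_add_of_nonneg _ _ zero_le_one (by linarith), ENNReal.rpow_one]
      rfl
    rw [h1]
    apply Finset.sum_le_sum
    intro i _
    by_cases hx : x ∈ tube δ (g ω (a i)) (e i)
    · rw [indicator_of_mem hx, Pi.one_apply, one_mul]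
      have hd : ‖x - g ω (a i)‖ ≤ 3 / 2 := by
        obtain ⟨h2, h3⟩ := hx
        set t := inner ℝ (x - g ω (a i)) (e i)
        calc ‖x - g ω (a i)‖ = ‖(x - g ω (a i) - t • e i) + t • e i‖ := by congr 1; abel
          _ ≤ ‖x - g ω (a i) - t • e i‖ + ‖t • e i‖ := norm_add_le _ _
          _ ≤ δ + 1 / 2 := by
              rw [norm_smul, he, mul_one, Real.norm_eq_abs]
              linarith
          _ ≤ _ := by linarith
      by_cases h0 : ‖x - g ω (a i)‖ ≤ r0
      · have hx0 : x ∈ T0 i ω := ⟨hx, by linarith⟩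
        rw [indicator_of_mem hx0, Pi.one_apply, mul_one]
        refine le_trans ?_ le_self_add
        calc mult δ (g ω) a e x ^ (q - 1) ≤ (Fintype.card ι : ℝ≥0∞) ^ (q - 1) :=
              ENNReal.rpow_le_rpow (mult_le _ _ _ _ _) (by linarith)
          _ = _ := by
              rw [← ENNReal.ofReal_natCast, ENNReal.ofReal_rpow_of_pos hN0]
      · push Not at h0
        have h1 : 1 < ‖x - g ω (a i)‖ / r0 := by
          rw [lt_div_iff₀ hr00]; linarith
        -- find the scale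
        have hexl : ∃ k : ℕ, ‖x - g ω (a i)‖ ≤ 2 ^ k * r0 := ⟨L, hd.trans hL1⟩
        set k := Nat.find hexl with hk
        have hk1 : ‖x - g ω (a i)‖ ≤ 2 ^ k * r0 := Nat.find_spec hexl
        have hkpos : k ≠ 0 := by
          intro h
          rw [h] at hk1
          simp at hk1
          linarith
        obtain ⟨l, hl⟩ := Nat.exists_eq_succ_of_ne_zero hkpos
        have hl1 : 2 ^ l * r0 < ‖x - g ω (a i)‖ := by
          have := Nat.find_min hexl (m := l) (by rw [← hk, hl]; exact Nat.lt_succ_self l)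
          push Not at this
          exact this
        have hlL : l < L := by
          by_contra hcon
          push Not at hcon
          have h2 : 2 ^ L * r0 ≤ 2 ^ l * r0 := by
            gcongr
            norm_num
          linarith
        have hxl : x ∈ T i l ω := by
          refine ⟨hx, hl1, ?_⟩
          rw [hl, Nat.succ_eq_add_one, pow_succ] at hk1
          linarith
        refine le_trans ?_ le_add_self
        have := Finset.single_le_sum (s := Finset.range L)
          (f := fun l => (T i l ω).indicator (fun x => mult δ (g ω) a e x ^ (q - 1)) x)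
          (fun _ _ => zero_le) (Finset.mem_range.2 hlL)
        rw [indicator_of_mem hxl] at this
        exact this
    · rw [indicator_of_notMem hx, zero_mul]
      exact zero_le
  -- measurability
  have hT0m : ∀ i, MeasurableSet {p : Ω × E n | p.2 ∈ T0 i p.1} := by
    intro i
    exact (tube_meas hg δ (a i) (e i)).inter (measurableSet_le (dist_meas hg (a i)) measurable_const)
  have hTm : ∀ i l, MeasurableSet {p : Ω × E n | p.2 ∈ T i l p.1} := by
    intro i l
    have m1 := dist_meas hg (a i)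
    exact (tube_meas hg δ (a i) (e i)).inter
      ((measurableSet_lt measurable_const m1).inter (measurableSet_le m1 measurable_const))
  have hFm : Measurable (fun p : Ω × E n => mult δ (g p.1) a e p.2 ^ (q - 1)) :=
    (mult_meas hg δ a e).pow_const _
  have hT0i : ∀ i, Measurable (fun p : Ω × E n => (T0 i p.1).indicator (1 : E n → ℝ≥0∞) p.2) := by
    intro i
    have h : (fun p : Ω × E n => (T0 i p.1).indicator (1 : E n → ℝ≥0∞) p.2) =
        {p : Ω × E n | p.2 ∈ T0 i p.1}.indicator 1 := by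
      funext p
      simp only [indicator, mem_ofPred_eq, Pi.one_apply]
    rw [h]
    exact measurable_one.indicator (hT0m i)
  have hTi : ∀ i l, Measurable (fun p : Ω × E n => (T i l p.1).indicator
      (fun x => mult δ (g p.1) a e x ^ (q - 1)) p.2) := by
    intro i l
    have h : (fun p : Ω × E n => (T i l p.1).indicator
        (fun x => mult δ (g p.1) a e x ^ (q - 1)) p.2) =
        {p : Ω × E n | p.2 ∈ T i l p.1}.indicator (fun p => mult δ (g p.1) a e p.2 ^ (q - 1)) := by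
      funext p
      simp only [indicator, mem_ofPred_eq]
    rw [h]
    exact hFm.indicator (hTm i l)
  have mω : ∀ {f : Ω × E n → ℝ≥0∞}, Measurable f → ∀ ω, Measurable (fun x => f (ω, x)) :=
    fun hf ω => hf.comp measurable_prodMk_left
  have hsc : ∀ i, ∀ l ∈ Finset.range L, ∫⁻ ω, (∫⁻ x, (T i l ω).indicator
      (fun x => mult δ (g ω) a e x ^ (q - 1)) x) ∂P ≤
      ENNReal.ofReal ((c1 + c2) * (1 + A) * δ ^ m * ((2 ^ l * r0) *
        ((2 ^ l * r0) ^ (-α) * N ^ (1 - α / (m : ℝ))) ^ (q - 1))) := by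
    intro i l hl
    have hl' := hL2 l (Finset.mem_range.1 hl)
    have h1 := scale hn hα hαn hq hq2 hA hK hcount hCa hg hsp hδ hδ1 a e he hsep (N := N)
      le_rfl hN1 i (r := 2 ^ l * r0) (by
        have : (1 : ℝ) ≤ 2 ^ l := one_le_pow₀ (by norm_num)
        calc N ^ (-(1 / (m : ℝ))) = 1 * r0 := by rw [one_mul]
          _ ≤ 2 ^ l * r0 := by gcongr) (by linarith)
    refine h1.trans (ENNReal.ofReal_le_ofReal ?_)
    have h2 : (1 + K * 16 ^ (n - 1)) * (2 ^ n * vb n * 7) + 1296 * 2 ^ n * vb n * A * 16 ^ α * Ca ≤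
        (c1 + c2) * (1 + A) := by
      have e1 : 1296 * 2 ^ n * vb n * A * 16 ^ α * Ca = c2 * A := by rw [hc2]; ring
      rw [e1, ← hc1]
      nlinarith [mul_nonneg hc10.le hA]
    set W := ((2 : ℝ) ^ l * r0) ^ (-α) * N ^ (1 - α / (m : ℝ)) with hW
    have hW0 : 0 < W := by positivity
    calc _ ≤ (c1 + c2) * (1 + A) * (δ ^ m * (2 ^ l * r0)) * W ^ (q - 1) := by gcongr
      _ = _ := by ring
  have h0 : ∀ i, ∫⁻ ω, (∫⁻ x, ENNReal.ofReal (N ^ (q - 1)) * (T0 i ω).indicator 1 x) ∂P ≤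
      ENNReal.ofReal (2 ^ n * vb n * 7 * δ ^ m * N ^ (q - 1 - 1 / (m : ℝ))) := by
    intro i
    have h1 : ∀ ω, ∫⁻ x, ENNReal.ofReal (N ^ (q - 1)) * (T0 i ω).indicator (1 : E n → ℝ≥0∞) x ≤
        ENNReal.ofReal (2 ^ n * vb n * 7 * δ ^ m * N ^ (q - 1 - 1 / (m : ℝ))) := by
      intro ω
      have hT0ω : MeasurableSet (T0 i ω) :=
        (measurable_prodMk_left (x := ω) : Measurable (Prod.mk ω : E n → Ω × E n)) (hT0m i)
      rw [lintegral_const_mul _ (measurable_one.indicator hT0ω), lintegral_indicator_one hT0ω]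
      calc _ ≤ ENNReal.ofReal (N ^ (q - 1)) * ENNReal.ofReal (2 ^ n * vb n * 7 * (δ ^ m * (r0 / 2))) := by
            gcongr
            exact vol_piece (by omega) _ (he i) hδ (by positivity)
        _ = ENNReal.ofReal (N ^ (q - 1) * (2 ^ n * vb n * 7 * (δ ^ m * (r0 / 2)))) :=
            (ENNReal.ofReal_mul (by positivity)).symm
        _ ≤ _ := by
            apply ENNReal.ofReal_le_ofReal
            have h2 : N ^ (q - 1 - 1 / (m : ℝ)) = N ^ (q - 1) * r0 := by
              rw [hr0, ← Real.rpow_add hN0]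
              congr 1
            rw [h2]
            have h3 : 0 ≤ N ^ (q - 1) * (2 ^ n * vb n * 7 * (δ ^ m * r0)) := by positivity
            nlinarith
    calc _ ≤ ∫⁻ _ω, ENNReal.ofReal (2 ^ n * vb n * 7 * δ ^ m * N ^ (q - 1 - 1 / (m : ℝ))) ∂P :=
          lintegral_mono h1
      _ = _ := by rw [lintegral_const, measure_univ, mul_one]
  calc ∫⁻ ω, (∫⁻ x, mult δ (g ω) a e x ^ q) ∂P
      ≤ ∫⁻ ω, (∫⁻ x, ∑ i, (ENNReal.ofReal (N ^ (q - 1)) * (T0 i ω).indicator 1 x +
        ∑ l ∈ Finset.range L, (T i l ω).indicator (fun x => mult δ (g ω) a e x ^ (q - 1)) x)) ∂P := by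
        apply lintegral_mono
        intro ω
        apply lintegral_mono
        intro x
        exact hpt ω x
    _ = ∑ i, (∫⁻ ω, (∫⁻ x, ENNReal.ofReal (N ^ (q - 1)) * (T0 i ω).indicator 1 x) ∂P +
        ∑ l ∈ Finset.range L, ∫⁻ ω, (∫⁻ x, (T i l ω).indicator
          (fun x => mult δ (g ω) a e x ^ (q - 1)) x) ∂P) := by
        have s1 : ∀ i l, Measurable (fun ω => ∫⁻ x, (T i l ω).indicator
            (fun x => mult δ (g ω) a e x ^ (q - 1)) x) := fun i l => (hTi i l).lintegral_prod_right'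
        have s2 : ∀ i, Measurable (fun ω => ∫⁻ x, ENNReal.ofReal (N ^ (q - 1)) *
            (T0 i ω).indicator (1 : E n → ℝ≥0∞) x) :=
          fun i => ((hT0i i).const_mul _).lintegral_prod_right'
        have s3 : ∀ ω, (∫⁻ x, ∑ i, (ENNReal.ofReal (N ^ (q - 1)) * (T0 i ω).indicator 1 x +
            ∑ l ∈ Finset.range L, (T i l ω).indicator
              (fun x => mult δ (g ω) a e x ^ (q - 1)) x)) =
            ∑ i, ((∫⁻ x, ENNReal.ofReal (N ^ (q - 1)) * (T0 i ω).indicator 1 x) +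
              ∑ l ∈ Finset.range L, ∫⁻ x, (T i l ω).indicator
                (fun x => mult δ (g ω) a e x ^ (q - 1)) x) := by
          intro ω
          have t1 : ∀ i, Measurable (fun x => ENNReal.ofReal (N ^ (q - 1)) *
              (T0 i ω).indicator (1 : E n → ℝ≥0∞) x) := fun i => mω ((hT0i i).const_mul _) ω
          have t2 : ∀ i l, Measurable (fun x => (T i l ω).indicator
              (fun x => mult δ (g ω) a e x ^ (q - 1)) x) := fun i l => mω (hTi i l) ω
          have t3 : ∀ i, Measurable (fun x => ENNReal.ofReal (N ^ (q - 1)) *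
              (T0 i ω).indicator (1 : E n → ℝ≥0∞) x + ∑ l ∈ Finset.range L, (T i l ω).indicator
                (fun x => mult δ (g ω) a e x ^ (q - 1)) x) := fun i =>
            (t1 i).add (Finset.measurable_sum _ (fun l _ => t2 i l))
          rw [lintegral_finsetSum _ (fun i _ => t3 i)]
          apply Finset.sum_congr rfl
          intro i _
          rw [lintegral_add_left (t1 i), lintegral_finsetSum _ (fun l _ => t2 i l)]
        simp_rw [s3]
        have s4 : ∀ i, Measurable (fun ω => (∫⁻ x, ENNReal.ofReal (N ^ (q - 1)) *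
            (T0 i ω).indicator (1 : E n → ℝ≥0∞) x) + ∑ l ∈ Finset.range L, ∫⁻ x,
              (T i l ω).indicator (fun x => mult δ (g ω) a e x ^ (q - 1)) x) := fun i =>
          (s2 i).add (Finset.measurable_sum _ (fun l _ => s1 i l))
        rw [lintegral_finsetSum _ (fun i _ => s4 i)]
        apply Finset.sum_congr rfl
        intro i _
        rw [lintegral_add_left (s2 i), lintegral_finsetSum _ (fun l _ => s1 i l)]
    _ ≤ ∑ _i : ι, (ENNReal.ofReal (2 ^ n * vb n * 7 * δ ^ m * N ^ (q - 1 - 1 / (m : ℝ))) +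
        ∑ l ∈ Finset.range L, ENNReal.ofReal ((c1 + c2) * (1 + A) * δ ^ m * ((2 ^ l * r0) *
        ((2 ^ l * r0) ^ (-α) * N ^ (1 - α / (m : ℝ))) ^ (q - 1)))) := by
        apply Finset.sum_le_sum
        intro i _
        exact add_le_add (h0 i) (Finset.sum_le_sum (hsc i))
    _ = ENNReal.ofReal (N * (2 ^ n * vb n * 7 * δ ^ m * N ^ (q - 1 - 1 / (m : ℝ)) +
        (c1 + c2) * (1 + A) * δ ^ m * ∑ l ∈ Finset.range L, ((2 ^ l * r0) *
        ((2 ^ l * r0) ^ (-α) * N ^ (1 - α / (m : ℝ))) ^ (q - 1)))) := by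
        rw [← ENNReal.ofReal_sum_of_nonneg (fun l _ => by positivity),
          ← ENNReal.ofReal_add (by positivity) (Finset.sum_nonneg (fun l _ => by positivity)),
          Finset.sum_const, nsmul_eq_mul, Finset.card_univ, ← ENNReal.ofReal_natCast,
          ← ENNReal.ofReal_mul (by positivity), ← Finset.mul_sum]
    _ ≤ _ := by
        apply ENNReal.ofReal_le_ofReal
        have hss := scale_sum (N := N) (α := α) (q := q) (m := (m : ℝ)) hN1 hm0 hγ L
        have h5 : N ^ (q - 1 / (m : ℝ)) = N * N ^ (q - 1 - 1 / (m : ℝ)) := by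
          nth_rewrite 2 [← Real.rpow_one N]
          rw [← Real.rpow_add hN0]
          congr 1
          ring
        rw [h5]
        set Y := N ^ (q - 1 - 1 / (m : ℝ)) with hY
        have hY0 : 0 < Y := by positivity
        calc N * (2 ^ n * vb n * 7 * δ ^ m * Y + (c1 + c2) * (1 + A) * δ ^ m *
              ∑ l ∈ Finset.range L, ((2 ^ l * r0) * ((2 ^ l * r0) ^ (-α) * N ^ (1 - α / (m : ℝ))) ^ (q - 1)))
            ≤ N * (2 ^ n * vb n * 7 * δ ^ m * Y + (c1 + c2) * (1 + A) * δ ^ m * (G * Y)) := by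
              gcongr
          _ ≤ N * (2 ^ n * vb n * 7 * (1 + A) * δ ^ m * Y + (c1 + c2) * (1 + A) * δ ^ m * (G * Y)) := by
              have h7 : 2 ^ n * vb n * 7 ≤ 2 ^ n * vb n * 7 * (1 + A) :=
                le_mul_of_one_le_right (by positivity) (by linarith)
              gcongr
          _ = _ := by ring

end Pool.Agent.TH705.RR
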