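import Pool.Agent.TH705.RR.Core
set_option autoImplicit false

/-!
# General exponents; compact groups acting transitively on the sphere
-/

open MeasureTheory Set Metric
open scoped ENNReal NNReal

namespace Pool.Agent.TH705.RR

theorem spread_mono {n : ℕ} {Ω : Type*} [MeasurableSpace Ω] {P : Measure Ω} [IsProbabilityMeasure P]
    {g : Ω → E n ≃ₗᵢ[ℝ] E n} {A α β : ℝ} (hA : 0 ≤ A) (hβ : 0 ≤ β) (hβα : β ≤ α) (hsp : Spread P g A α) :
    Spread P g (A + 1) β := by
  intro v w hv hw s hs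
  rcases le_total s 1 with h | h
  · refine (hsp v w hv hw s hs).trans (ENNReal.ofReal_le_ofReal ?_)
    have h1 : s ^ α ≤ s ^ β := Real.rpow_le_rpow_of_exponent_ge hs h hβα
    have h2 : 0 ≤ s ^ β := by positivity
    calc A * s ^ α ≤ A * s ^ β := by gcongr
      _ ≤ _ := by linarith
  · refine prob_le_one.trans ?_
    rw [← ENNReal.ofReal_one]
    apply ENNReal.ofReal_le_ofReal
    have h1 : 1 ≤ s ^ β := Real.one_le_rpow h hβ
    nlinarith

/-- The tube inequality on average: all exponents. -/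
theorem general {n : ℕ} (hn : 3 ≤ n) {α q : ℝ} (hα : 1 < α) (hαn : α ≤ (n : ℝ) - 1)
    (hq : 1 + 1 / α < q) : ∃ C : ℝ, 0 < C ∧ ∀ A : ℝ, 0 ≤ A →
    ∀ (Ω : Type) [MeasurableSpace Ω] (P : Measure Ω) [IsProbabilityMeasure P]
    (g : Ω → E n ≃ₗᵢ[ℝ] E n), (∀ v, Measurable (fun ω => g ω v)) → Spread P g A α →
    ∀ δ : ℝ, 0 < δ → δ < 1 → ∀ (ι : Type) [Fintype ι] (a e : ι → E n),
    (∀ i, ‖e i‖ = 1) → (∀ i j, i ≠ j → δ ≤ ‖e i - e j‖) →
    ∫⁻ ω, (∫⁻ x, mult δ (g ω) a e x ^ q) ∂P ≤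
      ENNReal.ofReal (C * (1 + A) * δ ^ (n - 1) *
        (Fintype.card ι : ℝ) ^ (q - 1 / ((n : ℝ) - 1))) := by
  have hncast : ((n - 1 : ℕ) : ℝ) = (n : ℝ) - 1 := by
    rw [Nat.cast_sub (by omega)]; simp
  have hn2 : (2 : ℝ) ≤ (n : ℝ) - 1 := by
    have : (3 : ℝ) ≤ n := by exact_mod_cast hn
    linarith
  have hα0 : 0 < α := by linarith
  have hq1 : 0 < q - 1 := by
    have : 0 < 1 / α := by positivity
    linarith
  have hqα : 1 / (q - 1) < α := by
    have h1 : 1 / α < q - 1 := by linarith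
    rw [div_lt_iff₀ hα0] at h1
    rw [div_lt_iff₀ hq1]
    linarith
  -- choose β
  obtain ⟨β, hβ1, hβ2, hβ3, hβ4⟩ : ∃ β : ℝ, 1 < β ∧ 1 / (q - 1) < β ∧ β < (n : ℝ) - 1 ∧ β ≤ α := by
    have h1 : max 1 (1 / (q - 1)) < α := max_lt hα hqα
    refine ⟨(max 1 (1 / (q - 1)) + α) / 2, ?_, ?_, ?_, ?_⟩
    · have := le_max_left 1 (1 / (q - 1))
      linarith
    · have := le_max_right 1 (1 / (q - 1))
      linarith
    · linarith
    · linarith
  have hβ0 : 0 < β := by linarith
  have hβq : 1 + 1 / β < q := by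
    rw [div_lt_iff₀ hq1] at hβ2
    have : 1 / β < q - 1 := by
      rw [div_lt_iff₀ hβ0]
      linarith
    linarith
  have hβ2' : 1 + 1 / β < 2 := by
    have : 1 / β < 1 := by
      rw [div_lt_one hβ0]
      exact hβ1
    linarith
  obtain ⟨C, hC, hcore⟩ := core (n := n) (by omega) (α := β) (q := min q 2) hβ1
    (by rw [hncast]; exact hβ3) (lt_min hβq hβ2') (min_le_right _ _)
  refine ⟨2 * C, by positivity, ?_⟩
  intro A hA Ω _ P _ g hg hsp δ hδ hδ1 ι _ a e he hsep
  have h1 := hcore (A + 1) (by linarith) Ω P g hg (spread_mono hA hβ0.le hβ4 hsp) δ hδ hδ1 ι a e he hsep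
  rcases isEmpty_or_nonempty ι with hι | hι
  · have : ∀ ω x, mult δ (g ω) a e x ^ q = 0 := by
      intro ω x
      unfold mult
      rw [Finset.univ_eq_empty, Finset.sum_empty, ENNReal.zero_rpow_of_pos (by linarith)]
    simp [this]
  set N : ℝ := (Fintype.card ι : ℝ) with hN
  have hN1 : 1 ≤ N := by
    rw [hN]
    exact_mod_cast Fintype.card_pos
  have hN0 : 0 < N := by linarith
  have hdiff : 0 ≤ q - min q 2 := by
    have := min_le_left q 2
    linarith
  have hmin0 : 0 ≤ min q 2 := by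
    apply le_min <;> linarith
  have hpt : ∀ ω x, mult δ (g ω) a e x ^ q ≤
      ENNReal.ofReal (N ^ (q - min q 2)) * mult δ (g ω) a e x ^ (min q 2) := by
    intro ω x
    have h2 : q = (q - min q 2) + min q 2 := by ring
    nth_rewrite 1 [h2]
    rw [ENNReal.rpow_add_of_nonneg _ _ hdiff hmin0]
    gcongr
    rw [← ENNReal.ofReal_rpow_of_pos hN0]
    apply ENNReal.rpow_le_rpow _ hdiff
    rw [hN, ENNReal.ofReal_natCast]
    exact mult_le _ _ _ _ _
  calc ∫⁻ ω, (∫⁻ x, mult δ (g ω) a e x ^ q) ∂P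
      ≤ ∫⁻ ω, (∫⁻ x, ENNReal.ofReal (N ^ (q - min q 2)) * mult δ (g ω) a e x ^ (min q 2)) ∂P :=
        lintegral_mono (fun ω => lintegral_mono (fun x => hpt ω x))
    _ = ENNReal.ofReal (N ^ (q - min q 2)) * ∫⁻ ω, (∫⁻ x, mult δ (g ω) a e x ^ (min q 2)) ∂P := by
        have h3 : ∀ ω, ∫⁻ x, ENNReal.ofReal (N ^ (q - min q 2)) * mult δ (g ω) a e x ^ (min q 2) =
            ENNReal.ofReal (N ^ (q - min q 2)) * ∫⁻ x, mult δ (g ω) a e x ^ (min q 2) :=
          fun ω => lintegral_const_mul' _ _ ENNReal.ofReal_ne_top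
        simp_rw [h3]
        rw [lintegral_const_mul' _ _ ENNReal.ofReal_ne_top]
    _ ≤ ENNReal.ofReal (N ^ (q - min q 2)) * ENNReal.ofReal (C * (1 + (A + 1)) * δ ^ (n - 1) *
        N ^ (min q 2 - 1 / ((n - 1 : ℕ) : ℝ))) := by gcongr
    _ = ENNReal.ofReal (N ^ (q - min q 2) * (C * (1 + (A + 1)) * δ ^ (n - 1) *
        N ^ (min q 2 - 1 / ((n - 1 : ℕ) : ℝ)))) := (ENNReal.ofReal_mul (by positivity)).symm
    _ ≤ _ := by
        apply ENNReal.ofReal_le_ofReal
        rw [hncast]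
        have h4 : N ^ (q - min q 2) * N ^ (min q 2 - 1 / ((n : ℝ) - 1)) = N ^ (q - 1 / ((n : ℝ) - 1)) := by
          rw [← Real.rpow_add hN0]
          congr 1
          ring
        calc N ^ (q - min q 2) * (C * (1 + (A + 1)) * δ ^ (n - 1) * N ^ (min q 2 - 1 / ((n : ℝ) - 1)))
            = C * (1 + (A + 1)) * δ ^ (n - 1) * (N ^ (q - min q 2) * N ^ (min q 2 - 1 / ((n : ℝ) - 1))) := by
              ring
          _ = C * (1 + (A + 1)) * δ ^ (n - 1) * N ^ (q - 1 / ((n : ℝ) - 1)) := by rw [h4]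
          _ ≤ 2 * C * (1 + A) * δ ^ (n - 1) * N ^ (q - 1 / ((n : ℝ) - 1)) := by
              have h7 : C * (1 + (A + 1)) ≤ 2 * C * (1 + A) := by nlinarith
              gcongr

section group

variable {G : Type*} [Group G] [TopologicalSpace G] [IsTopologicalGroup G] [CompactSpace G]
  [MeasurableSpace G] [BorelSpace G]

/-- Haar probability measures on compact groups are invariant under right translations. -/
theorem haar_right (μ : Measure G) [μ.IsHaarMeasure] [IsProbabilityMeasure μ] (h : G) :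
    Measure.map (fun x => x * h) μ = μ := by
  have hm : Measurable (fun x : G => x * h) := measurable_mul_const h
  have : IsProbabilityMeasure (Measure.map (fun x => x * h) μ) :=
    Measure.isProbabilityMeasure_map hm.aemeasurable
  have : (Measure.map (fun x => x * h) μ).IsMulLeftInvariant := by
    constructor
    intro k
    rw [Measure.map_map (measurable_const_mul k) hm]
    have : (fun x => k * x) ∘ (fun x => x * h) = (fun x => x * h) ∘ (fun x => k * x) := by
      funext x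
      simp [mul_assoc]
    rw [this, ← Measure.map_map hm (measurable_const_mul k), map_mul_left_eq_self]
  have h1 := Measure.isMulInvariant_eq_smul_of_compactSpace (Measure.map (fun x => x * h) μ) μ
  have h2 : (Measure.map (fun x => x * h) μ) univ = 1 := measure_univ
  rw [h1] at h2
  simp only [Measure.smul_apply, measure_univ] at h2
  have h3 : (Measure.haarScalarFactor (Measure.map (fun x => x * h) μ) μ : ℝ≥0) = 1 := by
    rw [ENNReal.smul_def, smul_eq_mul, mul_one] at h2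
    exact_mod_cast h2
  rw [h1, h3, one_smul]

end group

/-- Joint measurability. -/
theorem joint_meas {n : ℕ} {Ω : Type*} [MeasurableSpace Ω] {g : Ω → E n ≃ₗᵢ[ℝ] E n}
    (hg : ∀ v, Measurable (fun ω => g ω v)) : Measurable (fun p : E n × Ω => g p.2 p.1) :=
  measurable_uncurry_of_continuous_of_measurable (u := fun (x : E n) (ω : Ω) => g ω x)
    (fun ω => (g ω).continuous) hg

/-- If the law of the image of a unit vector does not depend on the vector, it is spread. -/
theorem spread_of_const {n : ℕ} (hn : 1 ≤ n) {Ω : Type*} [MeasurableSpace Ω] {P : Measure Ω}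
    [IsProbabilityMeasure P] {g : Ω → E n ≃ₗᵢ[ℝ] E n} (hg : ∀ v, Measurable (fun ω => g ω v))
    (hc : ∀ v v' w : E n, ‖v‖ = 1 → ‖v'‖ = 1 → ∀ s : ℝ,
      P {ω | ‖g ω v - w‖ ≤ s} = P {ω | ‖g ω v' - w‖ ≤ s}) :
    Spread P g (5 * 2 ^ n) ((n : ℝ) - 1) := by
  intro v w hv hw s hs
  have hn1 : (0 : ℝ) ≤ (n : ℝ) - 1 := by
    have : (1 : ℝ) ≤ n := by exact_mod_cast hn
    linarith
  rcases le_total 1 s with h | h
  · refine prob_le_one.trans ?_
    rw [← ENNReal.ofReal_one]
    apply ENNReal.ofReal_le_ofReal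
    have h1 : 1 ≤ s ^ ((n : ℝ) - 1) := Real.one_le_rpow h hn1
    have h2 : (1 : ℝ) ≤ 2 ^ n := one_le_pow₀ (by norm_num)
    nlinarith
  set c := P {ω | ‖g ω v - w‖ ≤ s} with hcdef
  set U : Set (E n) := ball 0 1 \ {0} with hU
  have hUm : MeasurableSet U := measurableSet_ball.diff (measurableSet_singleton 0)
  have : Nontrivial (E n) := by
    refine ⟨v, 0, ?_⟩
    intro h0
    rw [h0, norm_zero] at hv
    exact zero_ne_one hv
  have hUv : volume U = ENNReal.ofReal (vb n) := by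
    rw [hU, measure_sdiff_null (measure_singleton 0), vol_ball 0 one_pos]
    simp
  -- Q
  set Q : Set (E n × Ω) := {p | ‖g p.2 p.1 - ‖p.1‖ • w‖ ≤ s * ‖p.1‖} with hQ
  have hQm : MeasurableSet Q := by
    have m0 := joint_meas hg
    have m1 : Measurable (fun p : E n × Ω => ‖g p.2 p.1 - ‖p.1‖ • w‖) :=
      (m0.sub ((measurable_fst.norm).smul measurable_const)).norm
    have m2 : Measurable (fun p : E n × Ω => s * ‖p.1‖) := measurable_fst.norm.const_mul s
    exact measurableSet_le m1 m2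
  have hslice : ∀ x ∈ U, P {ω | (x, ω) ∈ Q} = c := by
    rintro x ⟨_, hx0⟩
    have hx : 0 < ‖x‖ := norm_pos_iff.2 hx0
    have hxu : ‖(‖x‖⁻¹ : ℝ) • x‖ = 1 := by
      rw [norm_smul, norm_inv, norm_norm, inv_mul_cancel₀ hx.ne']
    rw [hcdef, hc v ((‖x‖⁻¹ : ℝ) • x) w hv hxu s]
    congr 1
    ext ω
    simp only [hQ, mem_ofPred_eq]
    have h1 : g ω ((‖x‖⁻¹ : ℝ) • x) - w = (‖x‖⁻¹ : ℝ) • (g ω x - ‖x‖ • w) := by
      rw [map_smul, smul_sub, smul_smul, inv_mul_cancel₀ hx.ne', one_smul]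
    rw [h1, norm_smul, norm_inv, norm_norm, inv_mul_le_iff₀ hx, mul_comm s]
  have hslice2 : ∀ ω, volume {x | x ∈ U ∧ (x, ω) ∈ Q} ≤ ENNReal.ofReal (2 ^ n * vb n * 5 * s ^ (n - 1)) := by
    intro ω
    have h1 : {x | x ∈ U ∧ (x, ω) ∈ Q} ⊆ (g ω) ⁻¹' (Rod 0 w 1 s) := by
      rintro x ⟨⟨hx1, _⟩, hx2⟩
      rw [mem_ball_zero_iff] at hx1
      refine ⟨‖x‖, ?_, ?_⟩
      · rw [abs_of_nonneg (norm_nonneg _)]
        exact hx1.le
      · rw [sub_zero]
        have : ‖g ω x - ‖x‖ • w‖ ≤ s * ‖x‖ := hx2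
        refine this.trans ?_
        nlinarith
    have hv0 := vb_pos n
    calc volume {x | x ∈ U ∧ (x, ω) ∈ Q} ≤ volume ((g ω) ⁻¹' (Rod 0 w 1 s)) := measure_mono h1
      _ = volume (Rod 0 w 1 s) := by
          exact (g ω).measurePreserving.measure_preimage_emb (g ω).toHomeomorph.measurableEmbedding
            (Rod 0 w 1 s)
      _ ≤ ENNReal.ofReal (2 ^ n * vb n * (2 * 1 + 3 * s) * s ^ (n - 1)) := vol_rod hn 0 hw zero_le_one hs
      _ ≤ _ := by
          apply ENNReal.ofReal_le_ofReal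
          have : 2 * 1 + 3 * s ≤ 5 := by linarith
          gcongr
  have hmain : c * ENNReal.ofReal (vb n) ≤ ENNReal.ofReal (2 ^ n * vb n * 5 * s ^ (n - 1)) := by
    have hind : Measurable (fun p : E n × Ω => (Q ∩ (U ×ˢ univ)).indicator (1 : E n × Ω → ℝ≥0∞) p) :=
      measurable_one.indicator (hQm.inter (hUm.prod MeasurableSet.univ))
    calc c * ENNReal.ofReal (vb n) = ∫⁻ x in U, c := by rw [setLIntegral_const, hUv]
      _ = ∫⁻ x in U, P {ω | (x, ω) ∈ Q} := by
          apply setLIntegral_congr_fun hUm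
          intro x hx
          exact (hslice x hx).symm
      _ = ∫⁻ x, (∫⁻ ω, (Q ∩ (U ×ˢ univ)).indicator (1 : E n × Ω → ℝ≥0∞) (x, ω) ∂P) := by
          rw [← lintegral_indicator hUm]
          apply lintegral_congr
          intro x
          by_cases hx : x ∈ U
          · rw [indicator_of_mem hx]
            have hm : MeasurableSet {ω | (x, ω) ∈ Q} :=
              (measurable_prodMk_left (x := x) : Measurable (Prod.mk x : Ω → E n × Ω)) hQm
            rw [← lintegral_indicator_one hm]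
            apply lintegral_congr
            intro ω
            by_cases hQ' : (x, ω) ∈ Q
            · rw [indicator_of_mem (show (x, ω) ∈ Q ∩ (U ×ˢ univ) from ⟨hQ', hx, mem_univ _⟩),
                indicator_of_mem (show ω ∈ {ω | (x, ω) ∈ Q} from hQ')]
              rfl
            · rw [indicator_of_notMem (show (x, ω) ∉ Q ∩ (U ×ˢ univ) from fun h => hQ' h.1),
                indicator_of_notMem (show ω ∉ {ω | (x, ω) ∈ Q} from hQ')]
          · rw [indicator_of_notMem hx]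
            have : ∀ ω, (Q ∩ (U ×ˢ univ)).indicator (1 : E n × Ω → ℝ≥0∞) (x, ω) = 0 := by
              intro ω
              apply indicator_of_notMem
              rintro ⟨_, h2, _⟩
              exact hx h2
            simp [this]
      _ = ∫⁻ ω, (∫⁻ x, (Q ∩ (U ×ˢ univ)).indicator (1 : E n × Ω → ℝ≥0∞) (x, ω)) ∂P := by
          apply lintegral_lintegral_swap
          exact hind.aemeasurable
      _ ≤ ∫⁻ _ω, ENNReal.ofReal (2 ^ n * vb n * 5 * s ^ (n - 1)) ∂P := by
          apply lintegral_mono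
          intro ω
          refine le_trans (le_of_eq ?_) (hslice2 ω)
          have hm : MeasurableSet {x | x ∈ U ∧ (x, ω) ∈ Q} :=
            hUm.inter ((measurable_prodMk_right (y := ω) : Measurable (fun x : E n => (x, ω))) hQm)
          rw [← lintegral_indicator_one hm]
          apply lintegral_congr
          intro x
          by_cases hQ' : x ∈ U ∧ (x, ω) ∈ Q
          · rw [indicator_of_mem (show (x, ω) ∈ Q ∩ (U ×ˢ univ) from ⟨hQ'.2, hQ'.1, mem_univ _⟩),
              indicator_of_mem (show x ∈ {x | x ∈ U ∧ (x, ω) ∈ Q} from hQ')]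
            rfl
          · rw [indicator_of_notMem (show (x, ω) ∉ Q ∩ (U ×ˢ univ) from fun h => hQ' ⟨h.2.1, h.1⟩),
              indicator_of_notMem (show x ∉ {x | x ∈ U ∧ (x, ω) ∈ Q} from hQ')]
      _ = _ := by rw [lintegral_const, measure_univ, mul_one]
  have hvb := vb_pos n
  have h5 : c ≤ ENNReal.ofReal (2 ^ n * vb n * 5 * s ^ (n - 1) / vb n) := by
    rw [ENNReal.ofReal_div_of_pos hvb, ENNReal.le_div_iff_mul_le (Or.inl (ENNReal.ofReal_pos.2 hvb).ne')
      (Or.inl ENNReal.ofReal_ne_top)]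
    exact hmain
  refine h5.trans (ENNReal.ofReal_le_ofReal (le_of_eq ?_))
  have h6 : s ^ ((n : ℝ) - 1) = s ^ (n - 1) := by
    rw [← Real.rpow_natCast, Nat.cast_sub hn]
    simp
  rw [h6]
  field_simp

/-- Compact groups acting transitively on the unit sphere. -/
theorem spread_group {n : ℕ} (hn : 1 ≤ n) {G : Type*} [Group G] [TopologicalSpace G]
    [IsTopologicalGroup G] [CompactSpace G] [MeasurableSpace G] [BorelSpace G] (μ : Measure G)
    [μ.IsHaarMeasure] [IsProbabilityMeasure μ] (ρ : G →* (E n ≃ₗᵢ[ℝ] E n))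
    (hρ : ∀ v, Measurable (fun k => ρ k v))
    (htr : ∀ v w : E n, ‖v‖ = 1 → ‖w‖ = 1 → ∃ k, ρ k v = w) :
    Spread μ (fun k => ρ k) (5 * 2 ^ n) ((n : ℝ) - 1) := by
  apply spread_of_const hn hρ
  intro v v' w hv hv' s
  obtain ⟨h, hh⟩ := htr v v' hv hv'
  have hm : MeasurableSet {k | ‖ρ k v - w‖ ≤ s} :=
    measurableSet_le ((hρ v).sub measurable_const).norm measurable_const
  have h1 : {k | ‖ρ k v' - w‖ ≤ s} = (fun x => x * h) ⁻¹' {k | ‖ρ k v - w‖ ≤ s} := by
    ext k
    simp only [mem_ofPred_eq, mem_preimage, map_mul]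
    rw [← hh]
    rfl
  rw [h1, ← Measure.map_apply (measurable_mul_const h) hm, haar_right]

end Pool.Agent.TH705.RR
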