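import Pool.Agent.TH705.RR.Energy
import Pool.Agent.TH705.RR.Group
set_option autoImplicit false

/-!
# Hausdorff dimension of the union of a family of lines with rotated positions
-/

open MeasureTheory Set Metric
open scoped ENNReal NNReal

namespace Pool.Agent.TH705.RR

theorem sn_small {n : ℕ} {e e' : E n} (he : ‖e‖ = 1) (he' : ‖e'‖ = 1) {r : ℝ} (h : sn e e' ≤ r) :
    ‖e' - e‖ ≤ 2 * r ∨ ‖e' - (-e)‖ ≤ 2 * r := by
  have h0 := sn_nonneg e e'
  have hr : 0 ≤ r := h0.trans h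
  have h1 := sn_sq he he'
  have h2 : ‖e' - e‖ ^ 2 = 2 * (1 - inner ℝ e e') := by
    rw [norm_sub_sq_real, he, he', real_inner_comm]; ring
  have h3 : ‖e' - (-e)‖ ^ 2 = 2 * (1 + inner ℝ e e') := by
    rw [sub_neg_eq_add, norm_add_sq_real, he, he', real_inner_comm]; ring
  have h4 : sn e e' ^ 2 ≤ r ^ 2 := by gcongr
  rcases le_total 0 (inner ℝ e e' : ℝ) with hc | hc
  · left
    apply (sq_le_sq₀ (norm_nonneg _) (by positivity)).1
    rw [h2]
    have h5 : inner ℝ e e' ^ 2 ≤ 1 := inner_sq_le he he'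
    have h6 : (inner ℝ e e' : ℝ) ≤ 1 := by nlinarith
    nlinarith
  · right
    apply (sq_le_sq₀ (norm_nonneg _) (by positivity)).1
    rw [h3]
    have h5 : inner ℝ e e' ^ 2 ≤ 1 := inner_sq_le he he'
    have h6 : -1 ≤ (inner ℝ e e' : ℝ) := by nlinarith
    nlinarith

/-- The distribution of the directions has dimension at least `β`. -/
def Frost {n : ℕ} {V : Type*} [MeasurableSpace V] (ν : Measure V) (e : V → E n) (B β : ℝ) : Prop :=
  ∀ u : E n, ‖u‖ = 1 → ∀ r : ℝ, 0 < r → ν {w | ‖e w - u‖ ≤ r} ≤ ENNReal.ofReal (B * r ^ β)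

theorem sn_meas {n : ℕ} {V : Type*} [MeasurableSpace V] {e : V → E n} (hem : Measurable e) (e0 : E n) :
    Measurable (fun w => sn e0 (e w)) := by
  unfold sn
  have m1 : Measurable (fun w => (inner ℝ e0 (e w) : ℝ)) := measurable_const.inner hem
  exact Real.continuous_sqrt.measurable.comp (measurable_const.sub (m1.pow_const 2))

theorem ang_energy {n : ℕ} {V : Type*} [MeasurableSpace V] {ν : Measure V} {e : V → E n}
    (hem : Measurable e) (he : ∀ v, ‖e v‖ = 1) {B β θ : ℝ} (hB : 0 ≤ B) (hθ : 0 ≤ θ) (hθβ : θ < β)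
    (hF : Frost ν e B β) {e0 : E n} (he0 : ‖e0‖ = 1) :
    ∫⁻ w, (ENNReal.ofReal (sn e0 (e w))) ^ (-θ) ∂ν ≤
      ν univ + ENNReal.ofReal (2 ^ θ * (2 * B * 2 ^ β) * (1 - 2 ^ (-(β - θ)))⁻¹) := by
  apply layer ν (sn_meas hem e0) hθ hθβ (by positivity)
  intro k
  have hk : (0 : ℝ) < (1 / 2) ^ k := by positivity
  have hsub : {x | sn e0 (e x) ≤ (1 / 2 : ℝ) ^ k} ⊆
      {w | ‖e w - e0‖ ≤ 2 * (1 / 2) ^ k} ∪ {w | ‖e w - (-e0)‖ ≤ 2 * (1 / 2) ^ k} := by
    intro x hx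
    exact sn_small he0 (he x) hx
  have h1 := hF e0 he0 (2 * (1 / 2) ^ k) (by positivity)
  have h2 := hF (-e0) (by rw [norm_neg]; exact he0) (2 * (1 / 2) ^ k) (by positivity)
  refine (measure_mono hsub).trans ((measure_union_le _ _).trans ((add_le_add h1 h2).trans ?_))
  rw [← ENNReal.ofReal_add (by positivity) (by positivity)]
  apply ENNReal.ofReal_le_ofReal
  rw [Real.mul_rpow (by norm_num) hk.le]
  linarith

section total

variable {n : ℕ} {V : Type*} [MeasurableSpace V] {Ω : Type*} [MeasurableSpace Ω]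

/-- The point of the line number `v` with parameter `t`, the positions being rotated by `g`. -/
noncomputable def lp (g : E n ≃ₗᵢ[ℝ] E n) (a e : V → E n) (x : V × ℝ) : E n :=
  g (a x.1) + x.2 • e x.1

theorem lp_meas {g : Ω → E n ≃ₗᵢ[ℝ] E n} (hg : ∀ v, Measurable (fun ω => g ω v)) {a e : V → E n}
    (ha : Measurable a) (he : Measurable e) :
    Measurable (fun z : Ω × (V × ℝ) => lp (g z.1) a e z.2) := by
  have m1 : Measurable (fun z : Ω × (V × ℝ) => g z.1 (a z.2.1)) := by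
    have m0 : Measurable (fun z : Ω × (V × ℝ) => (a z.2.1, z.1)) :=
      (ha.comp (measurable_fst.comp measurable_snd)).prodMk measurable_fst
    exact (joint_meas hg).comp m0
  have m2 : Measurable (fun z : Ω × (V × ℝ) => z.2.2 • e z.2.1) :=
    (measurable_snd.comp measurable_snd).smul (he.comp (measurable_fst.comp measurable_snd))
  exact m1.add m2

/-- The interaction kernel. -/
noncomputable def kern (p : ℝ) (g : Ω → E n ≃ₗᵢ[ℝ] E n) (a e : V → E n)
    (z : Ω × (V × ℝ) × (V × ℝ)) : ℝ≥0∞ :=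
  (ENNReal.ofReal ‖lp (g z.1) a e z.2.1 - lp (g z.1) a e z.2.2‖) ^ (-p)

theorem kern_meas {g : Ω → E n ≃ₗᵢ[ℝ] E n} (hg : ∀ v, Measurable (fun ω => g ω v)) {a e : V → E n}
    (ha : Measurable a) (he : Measurable e) (p : ℝ) : Measurable (kern p g a e) := by
  have m0 := lp_meas hg ha he
  have m1 : Measurable (fun z : Ω × (V × ℝ) × (V × ℝ) => lp (g z.1) a e z.2.1) :=
    m0.comp (measurable_fst.prodMk (measurable_fst.comp measurable_snd))
  have m2 : Measurable (fun z : Ω × (V × ℝ) × (V × ℝ) => lp (g z.1) a e z.2.2) :=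
    m0.comp (measurable_fst.prodMk (measurable_snd.comp measurable_snd))
  exact (ENNReal.measurable_ofReal.comp (m1.sub m2).norm).pow_const _

theorem iter_swap {T : Type*} [MeasurableSpace T] (ν : Measure V) (m : Measure T) (P : Measure Ω)
    [SFinite ν] [SFinite m] [SFinite P] {F : Ω × (V × T) × (V × T) → ℝ≥0∞} (hF : Measurable F) :
    ∫⁻ x, ∫⁻ y, ∫⁻ ω, F (ω, x, y) ∂P ∂(ν.prod m) ∂(ν.prod m) =
      ∫⁻ v, ∫⁻ w, ∫⁻ s, ∫⁻ t, ∫⁻ ω, F (ω, (v, s), (w, t)) ∂P ∂m ∂m ∂ν ∂ν := by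
  have k0 : Measurable (fun q : ((V × T) × (V × T)) × Ω =>
      ((q.2, q.1.1, q.1.2) : Ω × (V × T) × (V × T))) :=
    measurable_snd.prodMk (measurable_fst.fst.prodMk measurable_fst.snd)
  have k1 : Measurable (fun q : ((V × T) × (V × T)) × Ω => F (q.2, q.1.1, q.1.2)) := hF.comp k0
  set H : (V × T) × (V × T) → ℝ≥0∞ := fun q => ∫⁻ ω, F (ω, q.1, q.2) ∂P with hH
  have k2 : Measurable H := k1.lintegral_prod_right'
  have hHF : ∀ x y, ∫⁻ ω, F (ω, x, y) ∂P = H (x, y) := fun x y => rfl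
  simp_rw [hHF]
  clear_value H
  have k3 : Measurable (fun x : V × T => ∫⁻ y, H (x, y) ∂(ν.prod m)) := k2.lintegral_prod_right'
  have e1 : ∫⁻ x, ∫⁻ y, H (x, y) ∂(ν.prod m) ∂(ν.prod m) =
      ∫⁻ v, ∫⁻ s, ∫⁻ y, H ((v, s), y) ∂(ν.prod m) ∂m ∂ν := lintegral_prod _ k3.aemeasurable
  rw [e1]
  apply lintegral_congr
  intro v
  have e2 : ∀ s, ∫⁻ y, H ((v, s), y) ∂(ν.prod m) = ∫⁻ w, ∫⁻ t, H ((v, s), (w, t)) ∂m ∂ν := by
    intro s
    have k4 : Measurable (fun y : V × T => H ((v, s), y)) :=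
      k2.comp (measurable_prodMk_left (x := (v, s)))
    exact lintegral_prod _ k4.aemeasurable
  simp_rw [e2]
  have hm : Measurable (fun q : (T × V) × T => (((v, q.1.1), (q.1.2, q.2)) : (V × T) × (V × T))) :=
    (measurable_const.prodMk measurable_fst.fst).prodMk (measurable_fst.snd.prodMk measurable_snd)
  have k4 : Measurable (fun q : (T × V) × T => H ((v, q.1.1), (q.1.2, q.2))) := k2.comp hm
  have k5 : Measurable (fun q : T × V => ∫⁻ t, H ((v, q.1), (q.2, t)) ∂m) :=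
    k4.lintegral_prod_right'
  exact lintegral_lintegral_swap (f := fun s w => ∫⁻ t, H ((v, s), (w, t)) ∂m) k5.aemeasurable

theorem total_energy {ν : Measure V} [IsFiniteMeasure ν] {P : Measure Ω} [IsProbabilityMeasure P]
    {g : Ω → E n ≃ₗᵢ[ℝ] E n} (hg : ∀ v, Measurable (fun ω => g ω v)) {a e : V → E n}
    (ha : Measurable a) (hem : Measurable e) (he : ∀ v, ‖e v‖ = 1) {A α B β θ p τ R : ℝ} (hA : 0 ≤ A)
    (hB : 0 ≤ B) (hτ : 0 < τ) (hR : 0 < R) (hθ : 0 < θ) (hθα : θ ≤ α) (hθβ : θ < β) (hp : 0 ≤ p)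
    (hpθ : p < 1 + θ) (hsp : Spread P g A α) (hF : Frost ν e B β) :
    ∫⁻ x, ∫⁻ y, ∫⁻ ω, kern p g a e (ω, x, y) ∂P ∂(ν.prod (volume.restrict (TR τ R)))
      ∂(ν.prod (volume.restrict (TR τ R))) < ∞ := by
  obtain ⟨C, hC, hpair⟩ := energy_pair hA hτ hR hθ hp hpθ
  have hk := kern_meas hg ha hem p
  set M : ℝ≥0∞ := ν univ + ENNReal.ofReal (2 ^ θ * (2 * B * 2 ^ β) * (1 - 2 ^ (-(β - θ)))⁻¹) with hM
  have hMt : M < ∞ := ENNReal.add_lt_top.2 ⟨measure_lt_top _ _, ENNReal.ofReal_lt_top⟩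
  have e4 : ∀ v w, ∫⁻ s in TR τ R, ∫⁻ t in TR τ R, ∫⁻ ω, kern p g a e (ω, (v, s), (w, t)) ∂P ≤
      ENNReal.ofReal C * (ENNReal.ofReal (sn (e v) (e w))) ^ (-θ) := by
    intro v w
    refine le_trans (le_of_eq ?_) (hpair hg hθα hsp (he v) (he w) (a v - a w))
    apply lintegral_congr; intro s
    apply lintegral_congr; intro t
    apply lintegral_congr; intro ω
    have h1 : lp (g ω) a e (v, s) - lp (g ω) a e (w, t) =
        g ω (a v - a w) - (t • e w - s • e v) := by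
      unfold lp
      rw [map_sub]
      abel
    show (ENNReal.ofReal ‖lp (g ω) a e (v, s) - lp (g ω) a e (w, t)‖) ^ (-p) = _
    rw [h1]
  rw [iter_swap ν (volume.restrict (TR τ R)) P hk]
  calc ∫⁻ v, ∫⁻ w, (∫⁻ s in TR τ R, ∫⁻ t in TR τ R, ∫⁻ ω,
        kern p g a e (ω, (v, s), (w, t)) ∂P) ∂ν ∂ν
      ≤ ∫⁻ v, ∫⁻ w, ENNReal.ofReal C * (ENNReal.ofReal (sn (e v) (e w))) ^ (-θ) ∂ν ∂ν :=
        lintegral_mono (fun v => lintegral_mono (fun w => e4 v w))
    _ ≤ ∫⁻ _v, ENNReal.ofReal C * M ∂ν := by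
        apply lintegral_mono
        intro v
        show ∫⁻ w, ENNReal.ofReal C * (ENNReal.ofReal (sn (e v) (e w))) ^ (-θ) ∂ν ≤ _
        rw [lintegral_const_mul' _ _ ENNReal.ofReal_ne_top]
        exact mul_le_mul' le_rfl (ang_energy hem he hB hθ.le hθβ hF (he v))
    _ < ∞ := by
        rw [lintegral_const]
        exact ENNReal.mul_lt_top (ENNReal.mul_lt_top ENNReal.ofReal_lt_top hMt) (measure_lt_top _ _)

end total

/-- Mass distribution principle. -/
theorem mass {X : Type*} [MeasurableSpace X] {n : ℕ} (m : Measure X) {Φ : X → E n} {s : ℝ}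
    (hs : 0 < s) {G : Set X} {K : Set (E n)} (hΦ : Measurable Φ) {M : ℝ≥0∞}
    (hM : M ≠ ∞) (hG : ∀ x ∈ G, ∫⁻ y, (ENNReal.ofReal ‖Φ x - Φ y‖) ^ (-s) ∂m ≤ M)
    (hGK : ∀ x ∈ G, Φ x ∈ K) (hpos : 0 < m G) : μH[s] K ≠ 0 := by
  intro hz
  have hkey : ∀ ε : ℝ, 0 < ε → m G ≤ M * ENNReal.ofReal (2 * ε) := by
    intro ε hε
    obtain ⟨t, r, h1, h2, h3, h4⟩ := H023R3.KG.small_cover hs hz hε
    have h5 : ∀ i, m (G ∩ Φ ⁻¹' (t i)) ≤ M * ENNReal.ofReal (r i ^ s) := by
      intro i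
      rcases (G ∩ Φ ⁻¹' (t i)).eq_empty_or_nonempty with he | ⟨x, hxG, hxt⟩
      · rw [he]; simp
      · set D : Set X := Φ ⁻¹' closedBall (Φ x) (r i) with hD
        have hDm : MeasurableSet D := hΦ measurableSet_closedBall
        have h6 : G ∩ Φ ⁻¹' (t i) ⊆ D := by
          rintro y ⟨_, hy⟩
          exact h3 i _ hy _ hxt
        have h7 : ENNReal.ofReal (r i ^ (-s)) * m D ≤ M := by
          calc ENNReal.ofReal (r i ^ (-s)) * m D
              = ∫⁻ _ in D, ENNReal.ofReal (r i ^ (-s)) ∂m := by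
                rw [setLIntegral_const]
            _ ≤ ∫⁻ y in D, (ENNReal.ofReal ‖Φ x - Φ y‖) ^ (-s) ∂m := by
                apply setLIntegral_mono' hDm
                intro y hy
                rw [← ENNReal.ofReal_rpow_of_pos (h2 i)]
                apply H023R3.KG.rneg hs.le
                apply ENNReal.ofReal_le_ofReal
                have : dist (Φ y) (Φ x) ≤ r i := hy
                rwa [dist_comm, dist_eq_norm] at this
            _ ≤ ∫⁻ y, (ENNReal.ofReal ‖Φ x - Φ y‖) ^ (-s) ∂m := setLIntegral_le_lintegral _ _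
            _ ≤ M := hG x hxG
        have hr0 : 0 < r i ^ s := Real.rpow_pos_of_pos (h2 i) _
        calc m (G ∩ Φ ⁻¹' (t i)) ≤ m D := measure_mono h6
          _ = ENNReal.ofReal (r i ^ s) * (ENNReal.ofReal (r i ^ (-s)) * m D) := by
              rw [← mul_assoc, ← ENNReal.ofReal_mul hr0.le, ← Real.rpow_add (h2 i)]
              simp
          _ ≤ ENNReal.ofReal (r i ^ s) * M := by gcongr
          _ = _ := mul_comm _ _
    calc m G ≤ m (⋃ i, G ∩ Φ ⁻¹' (t i)) := by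
          apply measure_mono
          intro x hx
          obtain ⟨i, hi⟩ := mem_iUnion.1 (h1 (hGK x hx))
          exact mem_iUnion.2 ⟨i, hx, hi⟩
      _ ≤ ∑' i, m (G ∩ Φ ⁻¹' (t i)) := measure_iUnion_le _
      _ ≤ ∑' i, M * ENNReal.ofReal (r i ^ s) := ENNReal.tsum_le_tsum h5
      _ = M * ∑' i, ENNReal.ofReal (r i ^ s) := ENNReal.tsum_mul_left
      _ ≤ _ := by gcongr
  have hGt : m G ≠ ∞ := by
    have := hkey 1 one_pos
    exact (this.trans_lt (ENNReal.mul_lt_top hM.lt_top ENNReal.ofReal_lt_top)).ne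
  have hg0 : 0 < (m G).toReal := ENNReal.toReal_pos hpos.ne' hGt
  have h8 := hkey ((m G).toReal / (4 * (M.toReal + 1))) (by positivity)
  have h9 : m G = ENNReal.ofReal (m G).toReal := (ENNReal.ofReal_toReal hGt).symm
  have h10 : M = ENNReal.ofReal M.toReal := (ENNReal.ofReal_toReal hM).symm
  rw [h9, h10, ← ENNReal.ofReal_mul ENNReal.toReal_nonneg] at h8
  have hM0 : 0 ≤ M.toReal := ENNReal.toReal_nonneg
  rw [ENNReal.toReal_ofReal hM0, ENNReal.toReal_ofReal hg0.le,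
    ENNReal.ofReal_le_ofReal_iff (by positivity)] at h8
  have h11 : M.toReal * (2 * ((m G).toReal / (4 * (M.toReal + 1)))) ≤ (m G).toReal / 2 := by
    have : M.toReal / (M.toReal + 1) ≤ 1 := by
      rw [div_le_one (by linarith)]
      linarith
    calc M.toReal * (2 * ((m G).toReal / (4 * (M.toReal + 1))))
        = (M.toReal / (M.toReal + 1)) * ((m G).toReal / 2) := by
          field_simp
          ring
      _ ≤ 1 * ((m G).toReal / 2) := by gcongr
      _ = _ := one_mul _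
  linarith

end Pool.Agent.TH705.RR
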