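import Pool.Agent.TH705.RR.Ang
import Pool.Agent.TH705.RR.Energy2
set_option autoImplicit false

/-!
# Long cylinders
-/

open MeasureTheory Set Metric
open scoped ENNReal NNReal

namespace Pool.Agent.TH705.RR

/-- The infinite closed cylinder of radius `δ` around the line through `a` in direction `e`. -/
def cyl {n : ℕ} (δ : ℝ) (a e : E n) : Set (E n) :=
  {y | ‖(y - a) - (inner ℝ (y - a) e) • e‖ ≤ δ}

theorem cyl_closed {n : ℕ} (δ : ℝ) (a e : E n) : IsClosed (cyl δ a e) := by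
  have h2 : Continuous (fun y : E n => ‖(y - a) - (inner ℝ (y - a) e) • e‖) := by fun_prop
  exact isClosed_le h2 continuous_const

/-- The expected volume of the part at distance between `r` and `2r` from the first centre of the
intersection of two tubes. -/
theorem pairC {n : ℕ} (hn : 1 ≤ n) {Ω : Type*} [MeasurableSpace Ω] {P : Measure Ω} [SFinite P]
    {g : Ω → E n ≃ₗᵢ[ℝ] E n} (hg : ∀ v, Measurable (fun ω => g ω v)) {A α : ℝ} (hA : 0 ≤ A)
    (hα : 0 ≤ α) (hsp : Spread P g A α) {e e' : E n} (he : ‖e‖ = 1) (he' : ‖e'‖ = 1) (a a' : E n)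
    {δ r : ℝ} (hδ : 0 < δ) (hr : 0 < r) (hrS : 16 * δ ≤ r * sn e e') :
    ∫⁻ ω, volume {x | x ∈ cyl δ (g ω a) e ∧ x ∈ cyl δ (g ω a') e' ∧ r < ‖x - g ω a‖ ∧
        ‖x - g ω a‖ ≤ 2 * r} ∂P ≤
      ENNReal.ofReal (1296 * 2 ^ n * vb n * A * 16 ^ α * (δ ^ (n - 1) * r) *
        (δ / (r * sn e e')) ^ α) := by
  set S := sn e e' with hSdef
  have hS0 : 0 < S := by
    by_contra h
    push Not at h
    nlinarith
  have hS1 : S ≤ 1 := sn_le_one e e'
  have hrδ : 16 * δ ≤ r := by nlinarith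
  set R : ℝ := 3 * r with hR
  set D : E n := a - a' with hD
  -- the set of good pairs
  set Q : Set (Ω × (ℝ × ℝ)) := {p | r - 2 * δ ≤ |p.2.1| ∧
    ‖g p.1 D - (p.2.2 • e' - p.2.1 • e)‖ ≤ 4 * δ} with hQ
  have hQm : MeasurableSet Q := by
    have m1 : Measurable (fun p : Ω × (ℝ × ℝ) => |p.2.1|) := by fun_prop
    have m2 : Measurable (fun p : Ω × (ℝ × ℝ) => ‖g p.1 D - (p.2.2 • e' - p.2.1 • e)‖) := by
      apply Measurable.norm
      apply Measurable.sub
      · exact (hg D).comp measurable_fst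
      · fun_prop
    exact (measurableSet_le measurable_const m1).inter (measurableSet_le m2 measurable_const)
  set μ2 : Measure (ℝ × ℝ) := ((volume : Measure ℝ).restrict (Icc (-R) R)).prod volume with hμ2
  set V : ℝ≥0∞ := ENNReal.ofReal ((2 * δ) ^ n * vb n) with hV
  -- step 1: for fixed ω
  have step1 : ∀ ω, ENNReal.ofReal (4 * δ ^ 2) * volume {x | x ∈ cyl δ (g ω a) e ∧
      x ∈ cyl δ (g ω a') e' ∧ r < ‖x - g ω a‖ ∧ ‖x - g ω a‖ ≤ 2 * r} ≤
      V * ∫⁻ p, Q.indicator (1 : Ω × (ℝ × ℝ) → ℝ≥0∞) (ω, p) ∂μ2 := by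
    intro ω
    set B : Set (E n) := {x | x ∈ cyl δ (g ω a) e ∧
      x ∈ cyl δ (g ω a') e' ∧ r < ‖x - g ω a‖ ∧ ‖x - g ω a‖ ≤ 2 * r} with hB
    have hBm : MeasurableSet B := by
      have m1 : Measurable (fun x : E n => ‖x - g ω a‖) := by fun_prop
      exact (cyl_closed _ _ _).measurableSet.inter ((cyl_closed _ _ _).measurableSet.inter
        ((measurableSet_lt measurable_const m1).inter (measurableSet_le m1 measurable_const)))
    set Z : Set (E n × (ℝ × ℝ)) := {z | ‖z.1 - (g ω a + z.2.1 • e)‖ ≤ 2 * δ ∧ (ω, z.2) ∈ Q} with hZ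
    have hZm : MeasurableSet Z := by
      have m1 : Measurable (fun z : E n × (ℝ × ℝ) => ‖z.1 - (g ω a + z.2.1 • e)‖) := by fun_prop
      have m2 : Measurable (fun z : E n × (ℝ × ℝ) => (ω, z.2)) :=
        measurable_const.prodMk measurable_snd
      exact (measurableSet_le m1 measurable_const).inter (m2 hQm)
    have hx : ∀ x ∈ B, ENNReal.ofReal (4 * δ ^ 2) ≤
        ∫⁻ p, Z.indicator (1 : E n × (ℝ × ℝ) → ℝ≥0∞) (x, p) ∂μ2 := by
      rintro x ⟨h1, h2, h3, h4⟩
      change ‖(x - g ω a) - (inner ℝ (x - g ω a) e) • e‖ ≤ δ at h1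
      change ‖(x - g ω a') - (inner ℝ (x - g ω a') e') • e'‖ ≤ δ at h2
      set t := inner ℝ (x - g ω a) e with ht
      set t' := inner ℝ (x - g ω a') e' with ht'
      have habs : |t| ≤ 2 * r := by
        have := abs_real_inner_le_norm (x - g ω a) e
        rw [he, mul_one] at this
        exact this.trans h4
      have habs2 : r - δ ≤ |t| := by
        have h5 : ‖x - g ω a‖ ≤ δ + |t| := by
          calc ‖x - g ω a‖ = ‖(x - g ω a - t • e) + t • e‖ := by congr 1; abel
            _ ≤ ‖x - g ω a - t • e‖ + ‖t • e‖ := norm_add_le _ _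
            _ ≤ δ + |t| := by
                rw [norm_smul, he, mul_one, Real.norm_eq_abs]
                linarith
        linarith
      have hsub : Icc (t - δ) (t + δ) ×ˢ Icc (t' - δ) (t' + δ) ⊆
          {p : ℝ × ℝ | (x, p) ∈ Z} ∩ (Icc (-R) R ×ˢ univ) := by
        rintro ⟨s, s'⟩ ⟨hs, hs'⟩
        simp only at hs hs'
        have hst : |s - t| ≤ δ := abs_le.2 ⟨by linarith [hs.1], by linarith [hs.2]⟩
        have hst' : |s' - t'| ≤ δ := abs_le.2 ⟨by linarith [hs'.1], by linarith [hs'.2]⟩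
        have n1 : ‖x - (g ω a + s • e)‖ ≤ 2 * δ := by
          have : x - (g ω a + s • e) = (x - g ω a - t • e) - (s - t) • e := by
            rw [sub_smul]; abel
          rw [this]
          refine (norm_sub_le _ _).trans ?_
          rw [norm_smul, he, mul_one, Real.norm_eq_abs]
          linarith
        have n2 : ‖x - (g ω a' + s' • e')‖ ≤ 2 * δ := by
          have : x - (g ω a' + s' • e') = (x - g ω a' - t' • e') - (s' - t') • e' := by
            rw [sub_smul]; abel
          rw [this]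
          refine (norm_sub_le _ _).trans ?_
          rw [norm_smul, he', mul_one, Real.norm_eq_abs]
          linarith
        have hs1 : |s| ≤ |t| + δ := by
          have := abs_add_le (s - t) t
          rw [sub_add_cancel] at this
          linarith
        have hs2 : |t| ≤ |s| + δ := by
          have := abs_add_le (t - s) s
          rw [sub_add_cancel, abs_sub_comm] at this
          linarith
        refine ⟨⟨n1, ?_, ?_⟩, ?_, mem_univ _⟩
        · show r - 2 * δ ≤ |s|
          linarith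
        · show ‖g ω D - (s' • e' - s • e)‖ ≤ 4 * δ
          have : g ω D - (s' • e' - s • e) = (x - (g ω a' + s' • e')) - (x - (g ω a + s • e)) := by
            rw [hD, map_sub]; abel
          rw [this]
          refine (norm_sub_le _ _).trans ?_
          linarith
        · have : |s| ≤ R := by rw [hR]; linarith
          exact abs_le.1 this
      have hZx : MeasurableSet {p : ℝ × ℝ | (x, p) ∈ Z} :=
        (measurable_prodMk_left (x := x) : Measurable (Prod.mk x : ℝ × ℝ → E n × (ℝ × ℝ))) hZm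
      have h6 : ∫⁻ p, Z.indicator (1 : E n × (ℝ × ℝ) → ℝ≥0∞) (x, p) ∂μ2 =
          μ2 {p : ℝ × ℝ | (x, p) ∈ Z} := by
        rw [← lintegral_indicator_one hZx]
        rfl
      rw [h6, hμ2]
      have h7 : ((volume : Measure ℝ).restrict (Icc (-R) R)).prod (volume : Measure ℝ) =
          ((volume : Measure ℝ).prod volume).restrict (Icc (-R) R ×ˢ univ) := by
        rw [← Measure.prod_restrict, Measure.restrict_univ]
      rw [h7, Measure.restrict_apply hZx]
      refine le_trans ?_ (measure_mono hsub)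
      rw [Measure.prod_prod, Real.volume_Icc, Real.volume_Icc, ← ENNReal.ofReal_mul (by linarith)]
      apply ENNReal.ofReal_le_ofReal
      nlinarith
    calc ENNReal.ofReal (4 * δ ^ 2) * volume B
        = ∫⁻ x in B, ENNReal.ofReal (4 * δ ^ 2) := by rw [setLIntegral_const]
      _ ≤ ∫⁻ x in B, ∫⁻ p, Z.indicator (1 : E n × (ℝ × ℝ) → ℝ≥0∞) (x, p) ∂μ2 :=
          setLIntegral_mono' hBm hx
      _ ≤ ∫⁻ x, ∫⁻ p, Z.indicator (1 : E n × (ℝ × ℝ) → ℝ≥0∞) (x, p) ∂μ2 :=
          setLIntegral_le_lintegral _ _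
      _ = ∫⁻ p, (∫⁻ x, Z.indicator (1 : E n × (ℝ × ℝ) → ℝ≥0∞) (x, p)) ∂μ2 := by
          apply lintegral_lintegral_swap
          exact (measurable_one.indicator hZm).aemeasurable
      _ = ∫⁻ p, V * Q.indicator (1 : Ω × (ℝ × ℝ) → ℝ≥0∞) (ω, p) ∂μ2 := by
          apply lintegral_congr
          intro p
          by_cases hp : (ω, p) ∈ Q
          · rw [indicator_of_mem hp]
            have : ∀ x, Z.indicator (1 : E n × (ℝ × ℝ) → ℝ≥0∞) (x, p) =
                (closedBall (g ω a + p.1 • e) (2 * δ)).indicator 1 x := by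
              intro x
              by_cases hxx : x ∈ closedBall (g ω a + p.1 • e) (2 * δ)
              · rw [indicator_of_mem hxx, indicator_of_mem]
                · rfl
                · rw [mem_closedBall, dist_eq_norm] at hxx
                  exact ⟨hxx, hp⟩
              · rw [indicator_of_notMem hxx, indicator_of_notMem]
                rintro ⟨h, _⟩
                apply hxx
                rw [mem_closedBall, dist_eq_norm]
                exact h
            simp_rw [this]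
            rw [lintegral_indicator_one measurableSet_closedBall, vol_cball _ (by positivity)]
            simp [hV]
          · rw [indicator_of_notMem hp, mul_zero]
            have : ∀ x, Z.indicator (1 : E n × (ℝ × ℝ) → ℝ≥0∞) (x, p) = 0 := by
              intro x
              apply indicator_of_notMem
              rintro ⟨_, h⟩
              exact hp h
            simp [this]
      _ = V * ∫⁻ p, Q.indicator (1 : Ω × (ℝ × ℝ) → ℝ≥0∞) (ω, p) ∂μ2 := by
          apply lintegral_const_mul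
          exact (measurable_one.indicator hQm).comp measurable_prodMk_left
  -- step 2: swap
  have step2 : ENNReal.ofReal (4 * δ ^ 2) * ∫⁻ ω, volume {x | x ∈ cyl δ (g ω a) e ∧
      x ∈ cyl δ (g ω a') e' ∧ r < ‖x - g ω a‖ ∧ ‖x - g ω a‖ ≤ 2 * r} ∂P ≤
      V * ∫⁻ p, P {ω | (ω, p) ∈ Q} ∂μ2 := by
    calc _ ≤ ∫⁻ ω, V * ∫⁻ p, Q.indicator (1 : Ω × (ℝ × ℝ) → ℝ≥0∞) (ω, p) ∂μ2 ∂P := by
          rw [← lintegral_const_mul' _ _ ENNReal.ofReal_ne_top]
          exact lintegral_mono step1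
      _ = V * ∫⁻ ω, ∫⁻ p, Q.indicator (1 : Ω × (ℝ × ℝ) → ℝ≥0∞) (ω, p) ∂μ2 ∂P := by
          rw [lintegral_const_mul' _ _ ENNReal.ofReal_ne_top]
      _ = V * ∫⁻ p, ∫⁻ ω, Q.indicator (1 : Ω × (ℝ × ℝ) → ℝ≥0∞) (ω, p) ∂P ∂μ2 := by
          congr 1
          apply lintegral_lintegral_swap
          exact (measurable_one.indicator hQm).aemeasurable
      _ = _ := by
          congr 1
          apply lintegral_congr
          intro p
          have hQp : MeasurableSet {ω | (ω, p) ∈ Q} :=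
            (measurable_prodMk_right (y := p) : Measurable (fun ω : Ω => (ω, p))) hQm
          rw [← lintegral_indicator_one hQp]
          rfl
  -- step 3: the probability
  set c : ℝ := A * (16 * δ / (r * S)) ^ α with hc
  have hc0 : 0 ≤ c := by positivity
  have hrS0 : 0 < r * S := by positivity
  have hbig : ∀ p : ℝ × ℝ, r - 2 * δ ≤ |p.1| → |‖p.2 • e' - p.1 • e‖ - ‖D‖| ≤ 4 * δ →
      r * S / 2 ≤ ‖D‖ := by
    intro p hp1 hp2
    have h1 : |p.1| * S ≤ ‖p.2 • e' - p.1 • e‖ := by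
      have h2 := diff_sq he he' p.1 p.2
      have h3 : (|p.1| * S) ^ 2 ≤ ‖p.2 • e' - p.1 • e‖ ^ 2 := by
        rw [h2, mul_pow, sq_abs, mul_pow]
        nlinarith [sq_nonneg (p.2 - p.1 * inner ℝ e e')]
      exact (sq_le_sq₀ (by positivity) (norm_nonneg _)).1 h3
    have h4 := (abs_le.1 hp2).2
    have h5 : (r - 2 * δ) * S ≤ |p.1| * S := by gcongr
    have h6 : δ * S ≤ δ * 1 := by gcongr
    nlinarith
  have step3 : ∀ p : ℝ × ℝ, P {ω | (ω, p) ∈ Q} ≤
      ENNReal.ofReal c * {p : ℝ × ℝ | r * S / 2 ≤ ‖D‖ ∧ |‖p.2 • e' - p.1 • e‖ - ‖D‖| ≤ 4 * δ}.indicator 1 p := by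
    intro p
    by_cases hp : p ∈ {p : ℝ × ℝ | r * S / 2 ≤ ‖D‖ ∧ |‖p.2 • e' - p.1 • e‖ - ‖D‖| ≤ 4 * δ}
    · rw [indicator_of_mem hp, Pi.one_apply, mul_one]
      obtain ⟨hp1, hp2⟩ := hp
      have h8 : 8 * δ ≤ ‖D‖ := by linarith
      have h1 := spread_far hsp (D := D) (u := p.2 • e' - p.1 • e) (ρ := 4 * δ) (by positivity)
        (by linarith)
      refine le_trans (measure_mono (fun ω hω => hω.2)) (h1.trans ?_)
      apply ENNReal.ofReal_le_ofReal
      rw [hc]
      apply mul_le_mul_of_nonneg_left _ hA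
      apply Real.rpow_le_rpow (by positivity) _ hα
      rw [div_le_div_iff₀ (by linarith) hrS0]
      nlinarith
    · rw [indicator_of_notMem hp, mul_zero, nonpos_iff_eq_zero]
      have : {ω | (ω, p) ∈ Q} = ∅ := by
        rw [eq_empty_iff_forall_notMem]
        rintro ω ⟨h1, h2⟩
        simp only at h1 h2
        have h3 : |‖p.2 • e' - p.1 • e‖ - ‖D‖| ≤ 4 * δ := by
          have h4 := abs_norm_sub_norm_le (g ω D) (p.2 • e' - p.1 • e)
          rw [LinearIsometryEquiv.norm_map, abs_sub_comm] at h4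
          exact h4.trans h2
        exact hp ⟨hbig p h1 h3, h3⟩
      rw [this]
      simp
  -- step 4: the area
  have step4 : ∫⁻ p, {p : ℝ × ℝ | r * S / 2 ≤ ‖D‖ ∧ |‖p.2 • e' - p.1 • e‖ - ‖D‖| ≤ 4 * δ}.indicator
      (1 : ℝ × ℝ → ℝ≥0∞) p ∂μ2 ≤ ENNReal.ofReal (432 * R * (4 * δ)) := by
    by_cases hDb : r * S / 2 ≤ ‖D‖
    · have h8 : 8 * δ ≤ ‖D‖ := by linarith
      have hm : Measurable (fun p : ℝ × ℝ => {p : ℝ × ℝ | r * S / 2 ≤ ‖D‖ ∧
          |‖p.2 • e' - p.1 • e‖ - ‖D‖| ≤ 4 * δ}.indicator (1 : ℝ × ℝ → ℝ≥0∞) p) := by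
        apply measurable_one.indicator
        have m1 : Measurable (fun p : ℝ × ℝ => |‖p.2 • e' - p.1 • e‖ - ‖D‖|) := by fun_prop
        exact (MeasurableSet.const _).inter (measurableSet_le m1 measurable_const)
      rw [hμ2, lintegral_prod _ hm.aemeasurable]
      refine le_trans (le_of_eq ?_) (area he he' hS0 (by linarith : 0 < ‖D‖) (by positivity)
        (by linarith) (by positivity))
      apply lintegral_congr
      intro s
      rw [← lintegral_indicator_one]
      · apply lintegral_congr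
        intro t
        simp only [indicator, mem_ofPred_eq, Pi.one_apply]
        simp only [hDb, true_and]
      · have m1 : Measurable (fun t : ℝ => |‖t • e' - s • e‖ - ‖D‖|) := by fun_prop
        exact measurableSet_le m1 measurable_const
    · have : ∀ p : ℝ × ℝ, {p : ℝ × ℝ | r * S / 2 ≤ ‖D‖ ∧ |‖p.2 • e' - p.1 • e‖ - ‖D‖| ≤ 4 * δ}.indicator
          (1 : ℝ × ℝ → ℝ≥0∞) p = 0 := by
        intro p
        apply indicator_of_notMem
        rintro ⟨h, _⟩
        exact hDb h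
      simp [this]
  -- conclusion
  have fin : ENNReal.ofReal (4 * δ ^ 2) * ∫⁻ ω, volume {x | x ∈ cyl δ (g ω a) e ∧
      x ∈ cyl δ (g ω a') e' ∧ r < ‖x - g ω a‖ ∧ ‖x - g ω a‖ ≤ 2 * r} ∂P ≤
      ENNReal.ofReal (((2 * δ) ^ n * vb n) * (c * (432 * R * (4 * δ)))) := by
    refine step2.trans ?_
    have h1 : ∫⁻ p, P {ω | (ω, p) ∈ Q} ∂μ2 ≤ ENNReal.ofReal c * ENNReal.ofReal (432 * R * (4 * δ)) := by
      refine (lintegral_mono step3).trans ?_
      rw [lintegral_const_mul' _ _ ENNReal.ofReal_ne_top]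
      gcongr
    have hvb := vb_pos n
    rw [ENNReal.ofReal_mul (by positivity), ENNReal.ofReal_mul hc0]
    gcongr
  have h4δ : 0 < 4 * δ ^ 2 := by positivity
  have hvb := vb_pos n
  have h9 : ∫⁻ ω, volume {x | x ∈ cyl δ (g ω a) e ∧
      x ∈ cyl δ (g ω a') e' ∧ r < ‖x - g ω a‖ ∧ ‖x - g ω a‖ ≤ 2 * r} ∂P ≤
      ENNReal.ofReal (((2 * δ) ^ n * vb n) * (c * (432 * R * (4 * δ))) / (4 * δ ^ 2)) := by
    rw [ENNReal.ofReal_div_of_pos h4δ, ENNReal.le_div_iff_mul_le (Or.inl (ENNReal.ofReal_pos.2 h4δ).ne')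
      (Or.inl ENNReal.ofReal_ne_top), mul_comm]
    exact fin
  refine h9.trans (ENNReal.ofReal_le_ofReal (le_of_eq ?_))
  obtain ⟨m, rfl⟩ : ∃ m, n = m + 1 := ⟨n - 1, by omega⟩
  rw [hc, hR, Nat.add_sub_cancel]
  have h10 : (16 * δ / (r * S)) ^ α = 16 ^ α * (δ / (r * S)) ^ α := by
    rw [← Real.mul_rpow (by norm_num) (by positivity)]
    congr 1
    ring
  rw [h10]
  field_simp
  ring


theorem vol_pieceC {n : ℕ} (hn : 1 ≤ n) (a : E n) {e : E n} (he : ‖e‖ = 1) {δ r : ℝ} (hδ : 0 < δ)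
    (hr : 0 < r) : volume {x | x ∈ cyl δ a e ∧ ‖x - a‖ ≤ 2 * r} ≤
      ENNReal.ofReal (2 ^ n * vb n * 7 * (δ ^ (n - 1) * r)) := by
  have hv := vb_pos n
  rcases le_total δ r with h | h
  · have hsub : {x | x ∈ cyl δ a e ∧ ‖x - a‖ ≤ 2 * r} ⊆ Rod a e (2 * r) δ := by
      rintro x ⟨h1, h2⟩
      refine ⟨inner ℝ (x - a) e, ?_, h1⟩
      have := abs_real_inner_le_norm (x - a) e
      rw [he, mul_one] at this
      exact this.trans h2
    refine (measure_mono hsub).trans ((vol_rod hn a he (by positivity) hδ).trans ?_)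
    apply ENNReal.ofReal_le_ofReal
    have h1 : 2 * (2 * r) + 3 * δ ≤ 7 * r := by linarith
    calc 2 ^ n * vb n * (2 * (2 * r) + 3 * δ) * δ ^ (n - 1) ≤ 2 ^ n * vb n * (7 * r) * δ ^ (n - 1) := by
          gcongr
      _ = _ := by ring
  · have hsub : {x | x ∈ cyl δ a e ∧ ‖x - a‖ ≤ 2 * r} ⊆ closedBall a (2 * r) := by
      rintro x ⟨_, h2⟩
      rw [mem_closedBall, dist_eq_norm]
      exact h2
    refine (measure_mono hsub).trans (le_of_eq_of_le (vol_cball _ (by positivity)) ?_)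
    apply ENNReal.ofReal_le_ofReal
    obtain ⟨m, rfl⟩ : ∃ m, n = m + 1 := ⟨n - 1, by omega⟩
    rw [Nat.add_sub_cancel]
    calc (2 * r) ^ (m + 1) * vb (m + 1) = 2 ^ (m + 1) * vb (m + 1) * (r ^ m * r) := by ring
      _ ≤ 2 ^ (m + 1) * vb (m + 1) * (δ ^ m * r) := by gcongr
      _ ≤ _ := by
          have : 0 ≤ 2 ^ (m + 1) * vb (m + 1) * (δ ^ m * r) := by positivity
          nlinarith

end Pool.Agent.TH705.RR
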