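import Pool.Agent.TH705.RR.Mx
set_option autoImplicit false

/-!
# The weighted maximal inequality at one dyadic scale
-/

open MeasureTheory Set Metric Filter
open scoped ENNReal NNReal

namespace Pool.Agent.TH705.RR

/-- The elementary inequality between the exponents. -/
theorem kap_bound {γ p R : ℝ} (hγ : 0 ≤ γ) (hp : 2 ≤ p) (j k : ℕ) (hR : 1 ≤ R)
    (hk : 2 ^ k * dl j ≤ R) :
    kap γ k * (2 ^ k * dl j) ^ (p - 1) ≤ R ^ p * dl j ^ (min γ (p - 1)) := by
  have hd := dl_pos j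
  have hd1 := dl_le_one j
  have h2k : (1 : ℝ) ≤ (2 : ℝ) ^ k := one_le_pow₀ (by norm_num)
  have h2k0 : (0 : ℝ) < (2 : ℝ) ^ k := by positivity
  have hR0 : 0 < R := by linarith
  have e1 : kap γ k * (2 ^ k * dl j) ^ (p - 1) = ((2 : ℝ) ^ k) ^ (p - 1 - γ) * dl j ^ (p - 1) := by
    unfold kap
    rw [Real.mul_rpow h2k0.le hd.le, ← mul_assoc, ← Real.rpow_add h2k0]
    congr 2
    ring
  rw [e1]
  rcases le_total γ (p - 1) with h | h
  · rw [min_eq_left h]
    have e2 : ((2 : ℝ) ^ k) ^ (p - 1 - γ) * dl j ^ (p - 1) =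
        (2 ^ k * dl j) ^ (p - 1 - γ) * dl j ^ γ := by
      rw [Real.mul_rpow h2k0.le hd.le, mul_assoc, ← Real.rpow_add hd]
      congr 2
      ring
    rw [e2]
    apply mul_le_mul_of_nonneg_right _ (by positivity)
    calc (2 ^ k * dl j) ^ (p - 1 - γ) ≤ R ^ (p - 1 - γ) :=
          Real.rpow_le_rpow (by positivity) hk (by linarith)
      _ ≤ R ^ p := Real.rpow_le_rpow_of_exponent_le hR (by linarith)
  · rw [min_eq_right h]
    apply mul_le_mul_of_nonneg_right _ (by positivity)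
    calc ((2 : ℝ) ^ k) ^ (p - 1 - γ) ≤ 1 := Real.rpow_le_one_of_one_le_of_nonpos h2k (by linarith)
      _ ≤ R ^ p := Real.one_le_rpow hR (by linarith)

section

variable {n : ℕ} {V : Type*} [MeasurableSpace V]

/-- The incidences with the small balls. -/
def cor (δ : ℝ) (g : E n ≃ₗᵢ[ℝ] E n) (a : V → E n) : Set (V × E n) :=
  {q | ‖q.2 - g (a q.1)‖ ≤ δ}

/-- The pieces of the cylinder. -/
def pc (j : ℕ) (g : E n ≃ₗᵢ[ℝ] E n) (a e : V → E n) : ℕ → Set (V × E n)
  | 0 => cor (dl j) g a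
  | k + 1 => incs (dl j) (2 ^ k * dl j) g a e

/-- The long cylinder. -/
def big (j h : ℕ) (g : E n ≃ₗᵢ[ℝ] E n) (a e : V → E n) : Set (V × E n) :=
  {q | q.2 ∈ cyl (dl j) (g (a q.1)) (e q.1) ∧ ‖q.2 - g (a q.1)‖ ≤ 2 ^ (h + 1)}

/-- The integral over the slice. -/
noncomputable def sli (S : Set (V × E n)) (f : E n → ℝ≥0∞) (v : V) : ℝ≥0∞ :=
  ∫⁻ x in {x | (v, x) ∈ S}, f x

theorem cor_meas {g : E n ≃ₗᵢ[ℝ] E n} {a : V → E n} (ha : Measurable a) (δ : ℝ) :
    MeasurableSet (cor δ g a) := by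
  have m0 : Measurable (fun q : V × E n => g (a q.1)) :=
    g.continuous.measurable.comp (ha.comp measurable_fst)
  exact measurableSet_le (measurable_snd.sub m0).norm measurable_const

theorem pc_meas (j : ℕ) {g : E n ≃ₗᵢ[ℝ] E n} {a e : V → E n} (ha : Measurable a)
    (he : Measurable e) (i : ℕ) : MeasurableSet (pc j g a e i) := by
  cases i with
  | zero => exact cor_meas ha _
  | succ k => exact incs_meas ha he _ _

theorem big_meas (j h : ℕ) {g : E n ≃ₗᵢ[ℝ] E n} {a e : V → E n} (ha : Measurable a)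
    (he : Measurable e) : MeasurableSet (big j h g a e) := by
  have m0 : Measurable (fun q : V × E n => g (a q.1)) :=
    g.continuous.measurable.comp (ha.comp measurable_fst)
  have m1 : Measurable (fun q : V × E n => q.2 - g (a q.1)) := measurable_snd.sub m0
  have me : Measurable (fun q : V × E n => e q.1) := he.comp measurable_fst
  have m2 : Measurable (fun q : V × E n => (inner ℝ (q.2 - g (a q.1)) (e q.1) : ℝ)) :=
    m1.inner me
  have m3 : Measurable (fun q : V × E n => ‖(q.2 - g (a q.1)) -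
      (inner ℝ (q.2 - g (a q.1)) (e q.1) : ℝ) • e q.1‖) := (m1.sub (m2.smul me)).norm
  exact (measurableSet_le m3 measurable_const).inter (measurableSet_le m1.norm measurable_const)

theorem sli_eq {S : Set (V × E n)} (hS : MeasurableSet S) (f : E n → ℝ≥0∞) (v : V) :
    sli S f v = ∫⁻ x, S.indicator (fun q => f q.2) (v, x) := by
  unfold sli
  rw [← lintegral_indicator (slice_meas hS v)]
  rfl

theorem sli_meas {S : Set (V × E n)} (hS : MeasurableSet S) {f : E n → ℝ≥0∞}
    (hf : Measurable f) : Measurable (sli S f) := by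
  have h1 : sli S f = fun v => ∫⁻ x, S.indicator (fun q => f q.2) (v, x) := by
    funext v
    exact sli_eq hS f v
  rw [h1]
  exact ((hf.comp measurable_snd).indicator hS).lintegral_prod_right'

omit [MeasurableSpace V] in
theorem cover {j h : ℕ} {g : E n ≃ₗᵢ[ℝ] E n} {a e : V → E n} {q : V × E n}
    (hq : q ∈ big j h g a e) : ∃ i ∈ Finset.range (j + h + 2), q ∈ pc j g a e i := by
  classical
  obtain ⟨h1, h2⟩ := hq
  have hd := dl_pos j
  set ρ : ℝ := ‖q.2 - g (a q.1)‖ with hρ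
  by_cases h0 : ρ ≤ dl j
  · exact ⟨0, Finset.mem_range.2 (by omega), h0⟩
  push Not at h0
  have e0 : (2 : ℝ) ^ (j + h + 1) * dl j = 2 ^ (h + 1) := by
    unfold dl
    rw [show j + h + 1 = (h + 1) + j by ring, pow_add (2 : ℝ) (h + 1) j, mul_assoc, ← mul_pow]
    norm_num
  have hex : ∃ k : ℕ, ρ ≤ 2 ^ k * dl j := ⟨j + h + 1, h2.trans e0.ge⟩
  set m := Nat.find hex with hm
  have hm1 : ρ ≤ 2 ^ m * dl j := Nat.find_spec hex
  have hm2 : m ≤ j + h + 1 := Nat.find_min' hex (h2.trans e0.ge)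
  have hm0 : m ≠ 0 := by
    intro h3
    rw [h3, pow_zero, one_mul] at hm1
    linarith
  obtain ⟨k, hk⟩ : ∃ k, m = k + 1 := ⟨m - 1, by omega⟩
  have hk1 : 2 ^ k * dl j < ρ := by
    have := Nat.find_min hex (m := k) (by omega)
    push Not at this
    exact this
  refine ⟨m, Finset.mem_range.2 (by omega), ?_⟩
  rw [hk]
  refine ⟨h1, hk1, ?_⟩
  rw [hk, pow_succ] at hm1
  have : (2 : ℝ) ^ k * 2 * dl j = 2 * (2 ^ k * dl j) := by ring
  rw [this] at hm1
  exact hm1

theorem sli_le (j h : ℕ) {g : E n ≃ₗᵢ[ℝ] E n} {a e : V → E n} (ha : Measurable a)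
    (he : Measurable e) {f : E n → ℝ≥0∞} (hf : Measurable f) (v : V) :
    sli (big j h g a e) f v ≤ ∑ i ∈ Finset.range (j + h + 2), sli (pc j g a e i) f v := by
  rw [sli_eq (big_meas j h ha he)]
  simp_rw [sli_eq (pc_meas j ha he _)]
  have hm : ∀ i, Measurable (fun x : E n => (pc j g a e i).indicator (fun q => f q.2) (v, x)) :=
    fun i => ((hf.comp measurable_snd).indicator (pc_meas j ha he i)).comp measurable_prodMk_left
  rw [← lintegral_finsetSum _ (fun i _ => hm i)]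
  apply lintegral_mono
  intro x
  simp only
  by_cases hx : (v, x) ∈ big j h g a e
  · obtain ⟨i, hi, hxi⟩ := cover hx
    rw [indicator_of_mem hx]
    calc f x = (pc j g a e i).indicator (fun q => f q.2) (v, x) := by
          rw [indicator_of_mem hxi]
      _ ≤ _ := Finset.single_le_sum
          (f := fun i => (pc j g a e i).indicator (fun q => f q.2) (v, x))
          (fun _ _ => zero_le) hi
  · rw [indicator_of_notMem hx]
    exact zero_le

/-- The volume constant. -/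
noncomputable def C0 (n : ℕ) : ℝ := 2 ^ n * vb n * 7

theorem C0_pos (n : ℕ) : 0 < C0 n := by
  have := vb_pos n
  unfold C0
  positivity

/-- The bound of one piece. -/
theorem piece_bound (ν : Measure V) [IsFiniteMeasure ν] (hn : 1 ≤ n) {g : E n ≃ₗᵢ[ℝ] E n}
    {a : ℕ → V → E n} {e : V → E n} (ha : ∀ j, Measurable (a j)) (hem : Measurable e)
    (he : ∀ v, ‖e v‖ = 1) {γ p : ℝ}
    (hγ : 0 ≤ γ) (hp : 2 ≤ p) {f : E n → ℝ≥0∞} (hf : Measurable f) (h j k : ℕ)
    (hk : k < j + h + 1) :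
    ∫⁻ v, sli (incs (dl j) (2 ^ k * dl j) g (a j) e) f v ^ p / tot ν γ h g a e v ∂ν ≤
      ENNReal.ofReal (((j : ℝ) + 1) ^ 4 * (C0 n ^ (p - 2) * ((2 : ℝ) ^ h) ^ p *
        ((dl j ^ (n - 1)) ^ (p - 1) * dl j ^ (min γ (p - 1))))) * ∫⁻ x, f x ^ p := by
  have hd := dl_pos j
  have hC0 := C0_pos n
  set r : ℝ := 2 ^ k * dl j with hr
  have hr0 : 0 < r := by positivity
  have hs := siz_pos n γ j k
  set X : ℝ := dl j ^ (n - 1) * r with hX
  have hX0 : 0 < X := by positivity
  have hjp : (0 : ℝ) < ((j : ℝ) + 1) ^ 4 := by positivity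
  have hc0 : cjk n γ j k ≠ 0 := by
    unfold cjk
    exact (ENNReal.ofReal_pos.2 (by positivity)).ne'
  have hct : cjk n γ j k ≠ ∞ := by
    unfold cjk
    exact ENNReal.ofReal_ne_top
  have hcinv : (cjk n γ j k)⁻¹ = ENNReal.ofReal (((j : ℝ) + 1) ^ 4 * siz n γ j k) := by
    unfold cjk
    rw [← ENNReal.ofReal_inv_of_pos (by positivity)]
    congr 1
    rw [mul_inv, inv_inv, inv_inv]
  have hS := incs_meas (h := g) (ha j) hem (dl j) r
  have hkap := kap_pos γ k
  have hcord := cordoba_p ν (volume : Measure (E n)) hS (c := ENNReal.ofReal (kap γ k))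
    (ENNReal.ofReal_pos.2 hkap).ne' ENNReal.ofReal_ne_top hf hp
    (M := ENNReal.ofReal (C0 n * X)) (by
      intro v
      refine (measure_mono ?_).trans (vol_pieceC hn (g (a j v)) (he v) hd hr0)
      rintro x ⟨h1, _, h3⟩
      exact ⟨h1, h3⟩) ENNReal.ofReal_ne_top
  have hrR : r ≤ (2 : ℝ) ^ h := by
    have h1 : (2 : ℝ) ^ k ≤ (2 : ℝ) ^ (h + j) := pow_le_pow_right₀ (by norm_num) (by omega)
    calc r ≤ (2 : ℝ) ^ (h + j) * dl j := by rw [hr]; gcongr
      _ = (2 : ℝ) ^ h := by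
          unfold dl
          rw [pow_add, mul_assoc, ← mul_pow]
          norm_num
  have hkb := kap_bound hγ hp j k (one_le_pow₀ (by norm_num : (1 : ℝ) ≤ 2) : (1 : ℝ) ≤ (2 : ℝ) ^ h) hrR
  calc ∫⁻ v, sli (incs (dl j) r g (a j) e) f v ^ p / tot ν γ h g a e v ∂ν
      ≤ ∫⁻ v, (cjk n γ j k)⁻¹ * (sli (incs (dl j) r g (a j) e) f v ^ p / wjk ν γ g (a j) e j k v) ∂ν := by
        apply lintegral_mono
        intro v
        simp only
        calc sli (incs (dl j) r g (a j) e) f v ^ p / tot ν γ h g a e v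
            ≤ sli (incs (dl j) r g (a j) e) f v ^ p / (cjk n γ j k * wjk ν γ g (a j) e j k v) :=
              ENNReal.div_le_div_left (le_tot ν γ h g a e v hk) _
          _ = _ := by
              rw [div_eq_mul_inv, div_eq_mul_inv, ENNReal.mul_inv (Or.inl hc0) (Or.inl hct)]
              ring
    _ = (cjk n γ j k)⁻¹ * ∫⁻ v, (sli (incs (dl j) r g (a j) e) f v ^ p / wjk ν γ g (a j) e j k v) ∂ν := by
        rw [lintegral_const_mul' _ _ (ENNReal.inv_ne_top.2 hc0)]
    _ ≤ (cjk n γ j k)⁻¹ * (ENNReal.ofReal (C0 n * X) ^ (p - 2) * ∫⁻ x, f x ^ p) :=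
        mul_le_mul' le_rfl hcord
    _ = ENNReal.ofReal (((j : ℝ) + 1) ^ 4 * siz n γ j k * (C0 n * X) ^ (p - 2)) *
          ∫⁻ x, f x ^ p := by
        rw [hcinv, ENNReal.ofReal_rpow_of_pos (by positivity), ← mul_assoc,
          ← ENNReal.ofReal_mul (by positivity)]
    _ ≤ _ := by
        apply mul_le_mul' _ le_rfl
        apply ENNReal.ofReal_le_ofReal
        have e1 : siz n γ j k * (C0 n * X) ^ (p - 2) =
            C0 n ^ (p - 2) * ((dl j ^ (n - 1)) ^ (p - 1) * (kap γ k * r ^ (p - 1))) := by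
          have e2 : siz n γ j k = kap γ k * X := rfl
          have e3 : X ^ (p - 1) = X * X ^ (p - 2) := by
            have : p - 1 = 1 + (p - 2) := by ring
            rw [this, Real.rpow_add hX0, Real.rpow_one]
          have e4 : X ^ (p - 1) = (dl j ^ (n - 1)) ^ (p - 1) * r ^ (p - 1) := by
            rw [hX, Real.mul_rpow (by positivity) hr0.le]
          rw [e2, Real.mul_rpow hC0.le hX0.le]
          calc kap γ k * X * (C0 n ^ (p - 2) * X ^ (p - 2)) =
              C0 n ^ (p - 2) * (kap γ k * (X * X ^ (p - 2))) := by ring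
            _ = _ := by rw [← e3, e4]; ring
        rw [mul_assoc, e1]
        apply mul_le_mul_of_nonneg_left _ hjp.le
        rw [mul_assoc (C0 n ^ (p - 2))]
        apply mul_le_mul_of_nonneg_left _ (by positivity)
        calc (dl j ^ (n - 1)) ^ (p - 1) * (kap γ k * r ^ (p - 1))
            ≤ (dl j ^ (n - 1)) ^ (p - 1) * (((2 : ℝ) ^ h) ^ p * dl j ^ (min γ (p - 1))) := by
              gcongr
          _ = _ := by ring

/-- The bound of the core. -/
theorem core_bound (ν : Measure V) [IsFiniteMeasure ν] (hn : 1 ≤ n) {g : E n ≃ₗᵢ[ℝ] E n}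
    {a : ℕ → V → E n} {e : V → E n} {γ p : ℝ} (hp : 2 ≤ p) {f : E n → ℝ≥0∞} (hf : Measurable f) (h j : ℕ) :
    ∫⁻ v, sli (cor (dl j) g (a j)) f v ^ p / tot ν γ h g a e v ∂ν ≤
      ENNReal.ofReal ((ν univ).toReal * (vb n ^ (p - 1) *
        ((dl j ^ (n - 1)) ^ (p - 1) * dl j ^ (min γ (p - 1))))) * ∫⁻ x, f x ^ p := by
  have hd := dl_pos j
  have hd1 := dl_le_one j
  have hvb := vb_pos n
  have hpt : ∀ v, sli (cor (dl j) g (a j)) f v ^ p / tot ν γ h g a e v ≤
      ENNReal.ofReal (vb n ^ (p - 1) * ((dl j ^ (n - 1)) ^ (p - 1) * dl j ^ (min γ (p - 1)))) *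
        ∫⁻ x, f x ^ p := by
    intro v
    have h1 : sli (cor (dl j) g (a j)) f v ^ p / tot ν γ h g a e v ≤ sli (cor (dl j) g (a j)) f v ^ p := by
      apply ENNReal.div_le_of_le_mul
      calc sli (cor (dl j) g (a j)) f v ^ p = sli (cor (dl j) g (a j)) f v ^ p * 1 := (mul_one _).symm
        _ ≤ _ := mul_le_mul' le_rfl (one_le_tot ν γ h g a e v)
    refine h1.trans ?_
    have hset : {x | (v, x) ∈ cor (dl j) g (a j)} = closedBall (g (a j v)) (dl j) := by
      ext x
      rw [mem_closedBall, dist_eq_norm]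
      rfl
    unfold sli
    rw [hset]
    refine (hol_one (volume.restrict (closedBall (g (a j v)) (dl j))) hf
      (by linarith : (1 : ℝ) ≤ p)).trans ?_
    rw [Measure.restrict_apply_univ, vol_cball _ hd.le, mul_comm]
    have e1 : ENNReal.ofReal (dl j ^ n * vb n) ^ (p - 1) =
        ENNReal.ofReal ((dl j ^ n * vb n) ^ (p - 1)) :=
      ENNReal.ofReal_rpow_of_pos (by positivity)
    rw [e1]
    apply mul_le_mul' _ (setLIntegral_le_lintegral _ _)
    apply ENNReal.ofReal_le_ofReal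
    obtain ⟨m, rfl⟩ : ∃ m, n = m + 1 := ⟨n - 1, by omega⟩
    rw [Nat.add_sub_cancel, pow_succ, Real.mul_rpow (by positivity) hvb.le,
      Real.mul_rpow (by positivity) hd.le]
    have h3 : dl j ^ (p - 1) ≤ dl j ^ (min γ (p - 1)) :=
      Real.rpow_le_rpow_of_exponent_ge hd hd1 (min_le_right _ _)
    calc (dl j ^ m) ^ (p - 1) * dl j ^ (p - 1) * vb (m + 1) ^ (p - 1) =
        vb (m + 1) ^ (p - 1) * ((dl j ^ m) ^ (p - 1) * dl j ^ (p - 1)) := by ring
      _ ≤ _ := by gcongr
  calc _ ≤ ∫⁻ _v, (ENNReal.ofReal (vb n ^ (p - 1) *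
        ((dl j ^ (n - 1)) ^ (p - 1) * dl j ^ (min γ (p - 1)))) * ∫⁻ x, f x ^ p) ∂ν :=
        lintegral_mono hpt
    _ = _ := by
        rw [lintegral_const, ENNReal.ofReal_mul ENNReal.toReal_nonneg,
          ENNReal.ofReal_toReal (measure_ne_top ν univ)]
        ring

/-- The constant. -/
noncomputable def Cd (n : ℕ) (p : ℝ) (h : ℕ) (m : ℝ) : ℝ :=
  ((h : ℝ) + 2) ^ (p - 1) * (m * vb n ^ (p - 1) + ((h : ℝ) + 1) * (C0 n ^ (p - 2) * ((2 : ℝ) ^ h) ^ p))

theorem Cd_nonneg (n : ℕ) (p : ℝ) (h : ℕ) {m : ℝ} (hm : 0 ≤ m) : 0 ≤ Cd n p h m := by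
  have := vb_pos n
  have := C0_pos n
  unfold Cd
  positivity

/-- **The weighted maximal inequality at one dyadic scale.** -/
theorem det (ν : Measure V) [IsFiniteMeasure ν] (hn : 1 ≤ n) {g : E n ≃ₗᵢ[ℝ] E n}
    {a : ℕ → V → E n} {e : V → E n} (ha : ∀ j, Measurable (a j)) (hem : Measurable e)
    (he : ∀ v, ‖e v‖ = 1) {γ p : ℝ}
    (hγ : 0 ≤ γ) (hp : 2 ≤ p) {f : E n → ℝ≥0∞} (hf : Measurable f) (h j : ℕ) :
    ∫⁻ v, sli (big j h g (a j) e) f v ^ p / tot ν γ h g a e v ∂ν ≤
      ENNReal.ofReal (Cd n p h (ν univ).toReal * (((j : ℝ) + 1) ^ (p + 4) *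
        ((dl j ^ (n - 1)) ^ (p - 1) * dl j ^ (min γ (p - 1))))) * ∫⁻ x, f x ^ p := by
  have hd := dl_pos j
  have hC0 := C0_pos n
  have hvb := vb_pos n
  set D : ℝ := (dl j ^ (n - 1)) ^ (p - 1) * dl j ^ (min γ (p - 1)) with hD
  have hD0 : 0 < D := by positivity
  set T : ℕ := j + h + 2 with hT
  have hTp : (T : ℝ≥0∞) ^ (p - 1) ≠ ∞ :=
    ENNReal.rpow_ne_top_of_nonneg (by linarith) (ENNReal.natCast_ne_top T)
  have hUm : Measurable (fun v => tot ν γ h g a e v) := tot_meas1 ν ha hem γ h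
  set K1 : ℝ := (ν univ).toReal * (vb n ^ (p - 1) * D) with hK1
  set K2 : ℝ := ((j : ℝ) + 1) ^ 4 * (C0 n ^ (p - 2) * ((2 : ℝ) ^ h) ^ p * D) with hK2
  have hK10 : 0 ≤ K1 := mul_nonneg ENNReal.toReal_nonneg (by positivity)
  have hK20 : 0 ≤ K2 := by positivity
  have hterm : ∀ i ∈ Finset.range T, ∫⁻ v, sli (pc j g (a j) e i) f v ^ p / tot ν γ h g a e v ∂ν ≤
      ENNReal.ofReal (if i = 0 then K1 else K2) * ∫⁻ x, f x ^ p := by
    intro i hi
    by_cases h0 : i = 0
    · rw [if_pos h0, h0]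
      have e1 : pc j g (a j) e 0 = cor (dl j) g (a j) := rfl
      rw [e1]
      exact core_bound ν hn hp hf h j
    · rw [if_neg h0]
      obtain ⟨k, rfl⟩ : ∃ k, i = k + 1 := ⟨i - 1, by omega⟩
      have e1 : pc j g (a j) e (k + 1) = incs (dl j) (2 ^ k * dl j) g (a j) e := rfl
      rw [e1]
      exact piece_bound ν hn ha hem he hγ hp hf h j k (by
        have := Finset.mem_range.1 hi
        omega)
  have hsum : ∑ i ∈ Finset.range T, (if i = 0 then K1 else K2) = K1 + (j + h + 1 : ℕ) * K2 := by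
    rw [hT, show j + h + 2 = (j + h + 1) + 1 by ring, Finset.sum_range_succ']
    simp only [Nat.succ_ne_zero, if_false, if_true, Finset.sum_const, Finset.card_range,
      nsmul_eq_mul]
    ring
  calc ∫⁻ v, sli (big j h g (a j) e) f v ^ p / tot ν γ h g a e v ∂ν
      ≤ ∫⁻ v, (T : ℝ≥0∞) ^ (p - 1) * ∑ i ∈ Finset.range T,
          sli (pc j g (a j) e i) f v ^ p / tot ν γ h g a e v ∂ν := by
        apply lintegral_mono
        intro v
        simp only
        have h1 := ENNReal.rpow_le_rpow (sli_le j h (g := g) (ha j) hem hf v)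
          (by linarith : (0 : ℝ) ≤ p)
        have h2 := ENNReal.rpow_sum_le_const_mul_sum_rpow (Finset.range T)
          (fun i => sli (pc j g (a j) e i) f v) (by linarith : (1 : ℝ) ≤ p)
        rw [Finset.card_range] at h2
        calc sli (big j h g (a j) e) f v ^ p / tot ν γ h g a e v
            ≤ ((T : ℝ≥0∞) ^ (p - 1) * ∑ i ∈ Finset.range T, sli (pc j g (a j) e i) f v ^ p) /
                tot ν γ h g a e v := ENNReal.div_le_div_right (h1.trans h2) _
          _ = _ := by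
              simp only [div_eq_mul_inv]
              rw [mul_assoc, Finset.sum_mul]
    _ = (T : ℝ≥0∞) ^ (p - 1) * ∑ i ∈ Finset.range T,
          ∫⁻ v, sli (pc j g (a j) e i) f v ^ p / tot ν γ h g a e v ∂ν := by
        rw [lintegral_const_mul' _ _ hTp]
        congr 1
        apply lintegral_finsetSum
        intro i _
        exact ((sli_meas (pc_meas j (ha j) hem i) hf).pow_const p).div hUm
    _ ≤ (T : ℝ≥0∞) ^ (p - 1) * ∑ i ∈ Finset.range T,
          (ENNReal.ofReal (if i = 0 then K1 else K2) * ∫⁻ x, f x ^ p) :=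
        mul_le_mul' le_rfl (Finset.sum_le_sum hterm)
    _ = ENNReal.ofReal ((T : ℝ) ^ (p - 1) * (K1 + (j + h + 1 : ℕ) * K2)) *
          ∫⁻ x, f x ^ p := by
        rw [← Finset.sum_mul, ← ENNReal.ofReal_sum_of_nonneg, hsum, ← mul_assoc,
          ENNReal.ofReal_mul (by positivity)]
        · congr 2
          rw [← ENNReal.ofReal_rpow_of_nonneg (by positivity) (by linarith), ENNReal.ofReal_natCast]
        · intro i _
          split_ifs
          · exact hK10
          · exact hK20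
    _ ≤ _ := by
        apply mul_le_mul' _ le_rfl
        apply ENNReal.ofReal_le_ofReal
        have hj1 : (1 : ℝ) ≤ (j : ℝ) + 1 := by
          have : (0 : ℝ) ≤ j := Nat.cast_nonneg j
          linarith
        have hν : 0 ≤ (ν univ).toReal := ENNReal.toReal_nonneg
        have hT1 : (T : ℝ) ^ (p - 1) ≤ ((h : ℝ) + 2) ^ (p - 1) * ((j : ℝ) + 1) ^ (p - 1) := by
          rw [← Real.mul_rpow (by positivity) (by positivity)]
          apply Real.rpow_le_rpow (by positivity) _ (by linarith)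
          rw [hT]
          push_cast
          have : (0 : ℝ) ≤ (h : ℝ) * j := by positivity
          have : (0 : ℝ) ≤ (j : ℝ) := Nat.cast_nonneg j
          nlinarith
        have hT2 : ((j + h + 1 : ℕ) : ℝ) ≤ ((h : ℝ) + 1) * ((j : ℝ) + 1) := by
          push_cast
          have : (0 : ℝ) ≤ (h : ℝ) * j := by positivity
          nlinarith
        have hj5 : (1 : ℝ) ≤ ((j : ℝ) + 1) ^ 5 := one_le_pow₀ hj1
        have hin : K1 + (j + h + 1 : ℕ) * K2 ≤
            ((ν univ).toReal * vb n ^ (p - 1) +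
              ((h : ℝ) + 1) * (C0 n ^ (p - 2) * ((2 : ℝ) ^ h) ^ p)) * (((j : ℝ) + 1) ^ 5 * D) := by
          have q1 : K1 * 1 ≤ K1 * ((j : ℝ) + 1) ^ 5 := mul_le_mul_of_nonneg_left hj5 hK10
          have q2 : ((j + h + 1 : ℕ) : ℝ) * K2 ≤ (((h : ℝ) + 1) * ((j : ℝ) + 1)) * K2 :=
            mul_le_mul_of_nonneg_right hT2 hK20
          calc _ ≤ K1 * ((j : ℝ) + 1) ^ 5 + (((h : ℝ) + 1) * ((j : ℝ) + 1)) * K2 := by
                linarith
            _ = _ := by
                rw [hK1, hK2]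
                ring
        have hpow : ((j : ℝ) + 1) ^ (p + 4) = ((j : ℝ) + 1) ^ (p - 1) * ((j : ℝ) + 1) ^ 5 := by
          rw [← Real.rpow_natCast, ← Real.rpow_add (by positivity)]
          congr 1
          push_cast
          ring
        calc _ ≤ (((h : ℝ) + 2) ^ (p - 1) * ((j : ℝ) + 1) ^ (p - 1)) *
              (((ν univ).toReal * vb n ^ (p - 1) +
              ((h : ℝ) + 1) * (C0 n ^ (p - 2) * ((2 : ℝ) ^ h) ^ p)) * (((j : ℝ) + 1) ^ 5 * D)) := by
                gcongr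
          _ = _ := by
              unfold Cd
              rw [hpow]
              ring

end

end Pool.Agent.TH705.RR
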