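import Pool.Agent.TH705.RR.Energy2
set_option autoImplicit false

/-!
# Hausdorff dimension of the union of a family of lines with rotated positions: conclusion
-/

open MeasureTheory Set Metric Filter
open scoped ENNReal NNReal

namespace Pool.Agent.TH705.RR

section

variable {n : ℕ} {V : Type*} [MeasurableSpace V] {Ω : Type*} [MeasurableSpace Ω]

/-- The exponents. -/
noncomputable def ex (γ : ℝ) (k : ℕ) : ℝ := 1 + γ * (1 - 1 / ((k : ℝ) + 2))

theorem ex_pos {γ : ℝ} (hγ : 0 < γ) (k : ℕ) : 0 < ex γ k := by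
  unfold ex
  have hk : (0 : ℝ) ≤ k := Nat.cast_nonneg k
  have h1 : 1 / ((k : ℝ) + 2) ≤ 1 := by
    rw [div_le_one (by linarith)]; linarith
  have : 0 ≤ γ * (1 - 1 / ((k : ℝ) + 2)) := mul_nonneg hγ.le (by linarith)
  linarith

theorem ex_big {γ s : ℝ} (hγ : 0 < γ) (hs : s < 1 + γ) : ∃ k : ℕ, s < ex γ k := by
  obtain ⟨k, hk⟩ := exists_nat_gt (γ / (1 + γ - s))
  refine ⟨k, ?_⟩
  have h1 : 0 < 1 + γ - s := by linarith
  rw [div_lt_iff₀ h1] at hk
  have hk0 : (0 : ℝ) ≤ k := Nat.cast_nonneg k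
  have h2 : γ * (1 / ((k : ℝ) + 2)) < 1 + γ - s := by
    rw [mul_one_div, div_lt_iff₀ (by linarith)]
    nlinarith
  unfold ex
  linarith

theorem ae_good {ν : Measure V} [IsFiniteMeasure ν] {P : Measure Ω} [IsProbabilityMeasure P]
    {g : Ω → E n ≃ₗᵢ[ℝ] E n} (hg : ∀ v, Measurable (fun ω => g ω v)) {a e : V → E n}
    (ha : Measurable a) (hem : Measurable e) (he : ∀ v, ‖e v‖ = 1) {A α B β : ℝ} (hA : 0 ≤ A)
    (hB : 0 ≤ B) (hα : 0 < α) (hβ : 0 < β) (hsp : Spread P g A α) (hF : Frost ν e B β) :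
    ∀ᵐ ω ∂P, ∀ k N : ℕ, ∀ᵐ x ∂(ν.prod (volume.restrict (TR (1 / ((N : ℝ) + 1)) (N + 1)))),
      ∫⁻ y, kern (ex (min α β) k) g a e (ω, x, y)
        ∂(ν.prod (volume.restrict (TR (1 / ((N : ℝ) + 1)) (N + 1)))) < ∞ := by
  rw [ae_all_iff]
  intro k
  rw [ae_all_iff]
  intro N
  set γ : ℝ := min α β with hγ
  have hγ0 : 0 < γ := lt_min hα hβ
  have hk : (0 : ℝ) ≤ k := Nat.cast_nonneg k
  have hN : (0 : ℝ) ≤ N := Nat.cast_nonneg N
  have h1 : 0 < 1 / ((k : ℝ) + 2) := by positivity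
  have h2 : 1 / ((k : ℝ) + 2) ≤ 1 := by
    rw [div_le_one (by linarith)]; linarith
  have hθ0 : 0 < γ * (1 - 1 / ((k : ℝ) + 2) / 2) := mul_pos hγ0 (by linarith)
  have hθγ : γ * (1 - 1 / ((k : ℝ) + 2) / 2) < γ := by nlinarith
  exact H023R3.KG.ae_ae_of_energy P (ν.prod (volume.restrict (TR (1 / ((N : ℝ) + 1)) (N + 1))))
    (kern_meas hg ha hem (ex γ k))
    (total_energy hg ha hem he hA hB (by positivity) (by positivity) hθ0
      (hθγ.le.trans (min_le_left _ _)) (hθγ.trans_le (min_le_right _ _)) (ex_pos hγ0 k).le (by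
        unfold ex
        nlinarith) hsp hF)

theorem dim_general {ν : Measure V} [IsFiniteMeasure ν] {P : Measure Ω} [IsProbabilityMeasure P]
    {g : Ω → E n ≃ₗᵢ[ℝ] E n} (hg : ∀ v, Measurable (fun ω => g ω v)) {a e : V → E n}
    (ha : Measurable a) (hem : Measurable e) (he : ∀ v, ‖e v‖ = 1) {A α B β : ℝ} (hA : 0 ≤ A)
    (hB : 0 ≤ B) (hα : 0 < α) (hβ : 0 < β) (hsp : Spread P g A α) (hF : Frost ν e B β) :
    ∀ᵐ ω ∂P, ∀ K : Set (E n), dimH K < ENNReal.ofReal (1 + min α β) →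
      ∀ᵐ v ∂ν, volume {t : ℝ | g ω (a v) + t • e v ∈ K} = 0 := by
  filter_upwards [ae_good hg ha hem he hA hB hα hβ hsp hF] with ω hω K hK
  set γ : ℝ := min α β with hγ
  have hγ0 : 0 < γ := lt_min hα hβ
  obtain ⟨s, hs1, hs2⟩ := ENNReal.lt_iff_exists_nnreal_btwn.1 hK
  have hs2' : (s : ℝ) < 1 + γ := by
    have h1 : (s : ℝ≥0∞) = ENNReal.ofReal (s : ℝ) := (ENNReal.ofReal_coe_nnreal).symm
    rw [h1] at hs2
    exact (ENNReal.ofReal_lt_ofReal_iff (by linarith)).1 hs2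
  obtain ⟨k, hk⟩ := ex_big hγ0 hs2'
  have hp0 := ex_pos hγ0 k
  set p : ℝ := ex γ k with hp
  have hz : μH[p] K = 0 := by
    have h1 : dimH K < ((Real.toNNReal p : ℝ≥0) : ℝ≥0∞) := by
      refine hs1.trans_le (ENNReal.coe_le_coe.2 ?_)
      rw [← NNReal.coe_le_coe, Real.coe_toNNReal _ hp0.le]
      exact hk.le
    have h2 := hausdorffMeasure_of_dimH_lt h1
    rwa [Real.coe_toNNReal _ hp0.le] at h2
  by_contra hcon
  rw [ae_iff] at hcon
  set Q : Set (V × ℝ) := {x | lp (g ω) a e x ∈ K} with hQ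
  -- one of the pieces
  have hU : ∀ t : ℝ, t ≠ 0 → ∃ N : ℕ, t ∈ TR (1 / ((N : ℝ) + 1)) ((N : ℝ) + 1) := by
    intro t ht
    have ht0 : 0 < |t| := abs_pos.2 ht
    obtain ⟨N, hN⟩ := exists_nat_ge (max |t| (1 / |t|))
    refine ⟨N, ?_, ?_⟩
    · have h1 : 1 / |t| ≤ N := (le_max_right _ _).trans hN
      rw [div_le_iff₀ ht0] at h1
      rw [div_le_iff₀ (by positivity)]
      nlinarith
    · have h1 : |t| ≤ N := (le_max_left _ _).trans hN
      linarith
  have hN : ∃ N : ℕ, (ν.prod (volume.restrict (TR (1 / ((N : ℝ) + 1)) (N + 1)))) Q ≠ 0 := by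
    by_contra hcon2
    push Not at hcon2
    apply hcon
    have h1 : ∀ᵐ v ∂ν, ∀ N : ℕ,
        (volume.restrict (TR (1 / ((N : ℝ) + 1)) (N + 1))) (Prod.mk v ⁻¹' Q) = 0 := by
      rw [ae_all_iff]
      intro N
      exact Measure.measure_ae_null_of_prod_null (hcon2 N)
    have h2 : ∀ᵐ v ∂ν, volume {t : ℝ | g ω (a v) + t • e v ∈ K} = 0 := by
      filter_upwards [h1] with v hv
      have h3 : {t : ℝ | g ω (a v) + t • e v ∈ K} ⊆
          {0} ∪ ⋃ N : ℕ, (Prod.mk v ⁻¹' Q) ∩ TR (1 / ((N : ℝ) + 1)) (N + 1) := by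
        intro t ht
        by_cases h0 : t = 0
        · left; exact h0
        · right
          obtain ⟨N, hN⟩ := hU t h0
          exact mem_iUnion.2 ⟨N, ht, hN⟩
      refine measure_mono_null h3 (measure_union_null (by simp) (measure_iUnion_null (fun N => ?_)))
      have h4 := hv N
      rwa [Measure.restrict_apply' (TR_meas _ _)] at h4
    exact ae_iff.1 h2
  obtain ⟨N, hN⟩ := hN
  set m := ν.prod (volume.restrict (TR (1 / ((N : ℝ) + 1)) ((N : ℝ) + 1))) with hm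
  set F : V × ℝ → ℝ≥0∞ := fun x => ∫⁻ y, kern p g a e (ω, x, y) ∂m with hFdef
  have hfin : ∀ᵐ x ∂m, F x < ∞ := hω k N
  have hM : ∃ M : ℕ, 0 < m (Q ∩ {x | F x ≤ M}) := by
    by_contra hcon2
    push Not at hcon2
    have h1 : m (⋃ M : ℕ, Q ∩ {x | F x ≤ M}) = 0 :=
      measure_iUnion_null (fun M => le_antisymm (hcon2 M) zero_le)
    have h2 : Q ⊆ (⋃ M : ℕ, Q ∩ {x | F x ≤ M}) ∪ {x | ¬ F x < ∞} := by
      intro x hx
      by_cases hPx : F x < ∞
      · left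
        obtain ⟨M, hM⟩ := ENNReal.exists_nat_gt hPx.ne
        exact mem_iUnion.2 ⟨M, hx, hM.le⟩
      · right; exact hPx
    have h3 : m {x | ¬ F x < ∞} = 0 := ae_iff.1 hfin
    exact hN (measure_mono_null h2 (measure_union_null h1 h3))
  obtain ⟨M, hM⟩ := hM
  have hlm : Measurable (lp (g ω) a e) := by
    have h1 : Measurable (fun x : V × ℝ => g ω (a x.1)) :=
      (g ω).continuous.measurable.comp (ha.comp measurable_fst)
    exact h1.add (measurable_snd.smul (hem.comp measurable_fst))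
  exact mass m (Φ := lp (g ω) a e) hp0 (G := Q ∩ {x | F x ≤ M}) (K := K) hlm
    (ENNReal.natCast_ne_top M) (fun x hx => hx.2) (fun x hx => hx.1) hM hz

end

end Pool.Agent.TH705.RR
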