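import Pool.Agent.TH705.RR.Pair
import Pool.Agent.H023R3.KakGen
set_option autoImplicit false

/-!
# Energies of families of lines with rotated positions
-/

open MeasureTheory Set Metric
open scoped ENNReal NNReal

namespace Pool.Agent.TH705.RR

theorem layer_pt {u p : ℝ} (hp : 0 ≤ p) :
    (ENNReal.ofReal u) ^ (-p) ≤ 1 + ∑' k : ℕ, ENNReal.ofReal (((2 : ℝ) ^ (k + 1)) ^ p) *
      (if u ≤ (1 / 2 : ℝ) ^ k then 1 else 0) := by
  rcases le_or_gt 1 u with h1 | h1
  · refine le_trans ?_ le_self_add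
    have h2 : (1 : ℝ≥0∞) ≤ ENNReal.ofReal u := by
      rw [← ENNReal.ofReal_one]
      exact ENNReal.ofReal_le_ofReal h1
    calc (ENNReal.ofReal u) ^ (-p) ≤ 1 ^ (-p) := H023R3.KG.rneg hp h2
      _ = 1 := ENNReal.one_rpow _
  · refine le_trans ?_ le_add_self
    rcases le_or_gt u 0 with h0 | h0
    · have hterm : ∀ k : ℕ, (1 : ℝ≥0∞) ≤ ENNReal.ofReal (((2 : ℝ) ^ (k + 1)) ^ p) *
          (if u ≤ (1 / 2 : ℝ) ^ k then 1 else 0) := by
        intro k
        have h2 : u ≤ (1 / 2 : ℝ) ^ k := h0.trans (by positivity)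
        rw [if_pos h2, mul_one, ← ENNReal.ofReal_one]
        apply ENNReal.ofReal_le_ofReal
        apply Real.one_le_rpow _ hp
        exact one_le_pow₀ (by norm_num)
      have h3 : ∑' _k : ℕ, (1 : ℝ≥0∞) = ∞ := ENNReal.tsum_const_eq_top_of_ne_zero one_ne_zero
      have h4 : (∞ : ℝ≥0∞) ≤ ∑' k : ℕ, ENNReal.ofReal (((2 : ℝ) ^ (k + 1)) ^ p) *
          (if u ≤ (1 / 2 : ℝ) ^ k then 1 else 0) := by
        rw [← h3]
        exact ENNReal.tsum_le_tsum hterm
      exact le_top.trans h4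
    · have h2 : 1 ≤ 1 / u := by
        rw [le_div_iff₀ h0]; linarith
      obtain ⟨k, hk1, hk2⟩ := exists_nat_pow_near h2 (by norm_num : (1 : ℝ) < 2)
      have h3 : u ≤ (1 / 2 : ℝ) ^ k := by
        rw [one_div_pow, le_div_iff₀ (by positivity), mul_comm]
        rwa [le_div_iff₀ h0] at hk1
      refine le_trans ?_ (ENNReal.le_tsum k)
      rw [if_pos h3, mul_one, ENNReal.ofReal_rpow_of_pos h0]
      apply ENNReal.ofReal_le_ofReal
      rw [Real.rpow_neg h0.le, ← Real.inv_rpow h0.le]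
      apply Real.rpow_le_rpow (by positivity) _ hp
      rw [inv_eq_one_div]
      exact hk2.le

/-- Layer cake. -/
theorem layer {X : Type*} [MeasurableSpace X] (m : Measure X) {u : X → ℝ} (hu : Measurable u)
    {p β B : ℝ} (hp : 0 ≤ p) (hpβ : p < β) (hB : 0 ≤ B)
    (h : ∀ k : ℕ, m {x | u x ≤ (1 / 2 : ℝ) ^ k} ≤ ENNReal.ofReal (B * ((1 / 2 : ℝ) ^ k) ^ β)) :
    ∫⁻ x, (ENNReal.ofReal (u x)) ^ (-p) ∂m ≤
      m univ + ENNReal.ofReal (2 ^ p * B * (1 - 2 ^ (-(β - p)))⁻¹) := by
  have hmk : ∀ k : ℕ, MeasurableSet {x | u x ≤ (1 / 2 : ℝ) ^ k} := fun k =>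
    measurableSet_le hu measurable_const
  have hm1 : ∀ k : ℕ, Measurable (fun x => ENNReal.ofReal (((2 : ℝ) ^ (k + 1)) ^ p) *
      (if u x ≤ (1 / 2 : ℝ) ^ k then (1 : ℝ≥0∞) else 0)) := fun k =>
    (Measurable.ite (hmk k) measurable_const measurable_const).const_mul _
  have hx0 : (0 : ℝ) < 2 ^ (-(β - p)) := by positivity
  have hx1 : (2 : ℝ) ^ (-(β - p)) < 1 :=
    Real.rpow_lt_one_of_one_lt_of_neg (by norm_num) (by linarith)
  have hterm : ∀ k : ℕ, ((2 : ℝ) ^ (k + 1)) ^ p * (B * ((1 / 2 : ℝ) ^ k) ^ β) =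
      2 ^ p * B * ((2 : ℝ) ^ (-(β - p))) ^ k := by
    intro k
    have e1 : ((2 : ℝ) ^ (k + 1)) ^ p = 2 ^ p * ((2 : ℝ) ^ p) ^ k := by
      rw [pow_succ, Real.mul_rpow (by positivity) (by norm_num), ← Real.rpow_natCast 2 k,
        ← Real.rpow_mul (by norm_num), ← Real.rpow_natCast _ k, ← Real.rpow_mul (by norm_num)]
      rw [mul_comm (k : ℝ) p]
      ring
    have e2 : ((1 / 2 : ℝ) ^ k) ^ β = ((2 : ℝ) ^ (-β)) ^ k := by
      rw [one_div, ← Real.rpow_natCast _ k, ← Real.rpow_natCast _ k, Real.inv_rpow (by norm_num),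
        ← Real.rpow_neg (by norm_num), ← Real.rpow_mul (by norm_num), ← Real.rpow_mul (by norm_num)]
      congr 1
      ring
    have e3 : (2 : ℝ) ^ (-(β - p)) = (2 : ℝ) ^ p * (2 : ℝ) ^ (-β) := by
      rw [← Real.rpow_add (by norm_num)]
      congr 1
      ring
    rw [e1, e2, e3, mul_pow]
    ring
  calc ∫⁻ x, (ENNReal.ofReal (u x)) ^ (-p) ∂m
      ≤ ∫⁻ x, (1 + ∑' k : ℕ, ENNReal.ofReal (((2 : ℝ) ^ (k + 1)) ^ p) *
        (if u x ≤ (1 / 2 : ℝ) ^ k then 1 else 0)) ∂m := lintegral_mono (fun x => layer_pt hp)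
    _ = m univ + ∑' k : ℕ, ENNReal.ofReal (((2 : ℝ) ^ (k + 1)) ^ p) *
        m {x | u x ≤ (1 / 2 : ℝ) ^ k} := by
        rw [lintegral_add_left measurable_const, lintegral_const, one_mul,
          lintegral_tsum (fun k => (hm1 k).aemeasurable)]
        congr 1
        apply tsum_congr
        intro k
        have : Measurable (fun x => (if u x ≤ (1 / 2 : ℝ) ^ k then (1 : ℝ≥0∞) else 0)) :=
          Measurable.ite (hmk k) measurable_const measurable_const
        rw [lintegral_const_mul _ this, ← lintegral_indicator_one (hmk k)]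
        congr 1
    _ ≤ m univ + ∑' k : ℕ, ENNReal.ofReal (2 ^ p * B * ((2 : ℝ) ^ (-(β - p))) ^ k) := by
        gcongr with k
        rw [← hterm, ENNReal.ofReal_mul (by positivity)]
        gcongr
        exact h k
    _ = m univ + ENNReal.ofReal (2 ^ p * B * (1 - 2 ^ (-(β - p)))⁻¹) := by
        rw [← ENNReal.ofReal_tsum_of_nonneg (fun k => by positivity)
          ((summable_geometric_of_lt_one hx0.le hx1).mul_left _), tsum_mul_left,
          tsum_geometric_of_lt_one hx0.le hx1]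

/-- The range of the position parameter. -/
def TR (τ R : ℝ) : Set ℝ := {s | τ ≤ |s| ∧ |s| ≤ R}

theorem TR_meas (τ R : ℝ) : MeasurableSet (TR τ R) := by
  have m1 : Measurable (fun s : ℝ => |s|) := by fun_prop
  exact (measurableSet_le measurable_const m1).inter (measurableSet_le m1 measurable_const)

theorem TR_sub (τ R : ℝ) : TR τ R ⊆ Icc (-R) R := fun _ hs => abs_le.1 hs.2

theorem TR_vol (τ R : ℝ) : volume (TR τ R) ≤ ENNReal.ofReal (2 * R) := by
  refine (measure_mono (TR_sub τ R)).trans (le_of_eq ?_)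
  rw [Real.volume_Icc]
  congr 1
  ring

instance (τ R : ℝ) : IsFiniteMeasure (volume.restrict (TR τ R)) :=
  ⟨by rw [Measure.restrict_apply_univ]; exact (TR_vol τ R).trans_lt ENNReal.ofReal_lt_top⟩

/-- The probability that two points with parameters in the range are close. -/
theorem pair_close {n : ℕ} {Ω : Type*} [MeasurableSpace Ω] {P : Measure Ω} [IsProbabilityMeasure P]
    {g : Ω → E n ≃ₗᵢ[ℝ] E n} (hg : ∀ v, Measurable (fun ω => g ω v)) {A α : ℝ} (hA : 0 ≤ A)
    (hsp : Spread P g A α) {e e' : E n} (he : ‖e‖ = 1) (he' : ‖e'‖ = 1)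
    (D : E n) {τ R ρ θ : ℝ} (hτ : 0 < τ) (hR : 0 < R) (hρ : 0 < ρ) (hθ : 0 ≤ θ) (hθα : θ ≤ α)
    (hS : 0 < sn e e') :
    (((volume.restrict (TR τ R)).prod (volume.restrict (TR τ R))).prod P)
      {z : (ℝ × ℝ) × Ω | ‖g z.2 D - (z.1.2 • e' - z.1.1 • e)‖ ≤ ρ} ≤
      ENNReal.ofReal ((432 * A + 4) * R * ρ * (8 * ρ / (τ * sn e e')) ^ θ) := by
  have hα : 0 ≤ α := hθ.trans hθα
  set S := sn e e' with hSdef
  have hτS : 0 < τ * S := by positivity
  set Q : Set ((ℝ × ℝ) × Ω) := {z | ‖g z.2 D - (z.1.2 • e' - z.1.1 • e)‖ ≤ ρ} with hQ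
  have hQm : MeasurableSet Q := by
    have m1 : Measurable (fun z : (ℝ × ℝ) × Ω => g z.2 D) := (hg D).comp measurable_snd
    have m2 : Measurable (fun z : (ℝ × ℝ) × Ω => z.1.2 • e' - z.1.1 • e) := by fun_prop
    exact measurableSet_le (m1.sub m2).norm measurable_const
  have hmp : (volume.restrict (TR τ R)).prod (volume.restrict (TR τ R)) ≤
      (volume.restrict (TR τ R)).prod (volume : Measure ℝ) :=
    Measure.prod_mono le_rfl Measure.restrict_le_self
  by_cases hc : ρ ≤ τ * S / 8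
  · -- close: use the law of the rotation
    set c : ℝ := A * (8 * ρ / (τ * S)) ^ θ with hcdef
    have hc0 : 0 ≤ c := by positivity
    set W : Set (ℝ × ℝ) := {p | τ * S / 2 ≤ ‖D‖ ∧ |‖p.2 • e' - p.1 • e‖ - ‖D‖| ≤ ρ} with hW
    have hWm : MeasurableSet W := by
      have m1 : Measurable (fun p : ℝ × ℝ => |‖p.2 • e' - p.1 • e‖ - ‖D‖|) := by fun_prop
      exact (MeasurableSet.const _).inter (measurableSet_le m1 measurable_const)
    have hbig : ∀ p : ℝ × ℝ, p.1 ∈ TR τ R → |‖p.2 • e' - p.1 • e‖ - ‖D‖| ≤ ρ →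
        τ * S / 2 ≤ ‖D‖ := by
      intro p hp hpW
      have h1 : |p.1| * S ≤ ‖p.2 • e' - p.1 • e‖ := by
        have h2 := diff_sq he he' p.1 p.2
        have h3 : (|p.1| * S) ^ 2 ≤ ‖p.2 • e' - p.1 • e‖ ^ 2 := by
          rw [h2, mul_pow, sq_abs, mul_pow]
          nlinarith [sq_nonneg (p.2 - p.1 * inner ℝ e e')]
        exact (sq_le_sq₀ (by positivity) (norm_nonneg _)).1 h3
      have h4 : τ * S ≤ |p.1| * S := by
        gcongr
        exact hp.1
      have h5 := (abs_le.1 hpW).2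
      linarith
    have hslice : ∀ p : ℝ × ℝ, p.1 ∈ TR τ R → P {ω | (p, ω) ∈ Q} ≤
        ENNReal.ofReal c * W.indicator 1 p := by
      intro p hp
      by_cases hpW : p ∈ W
      · rw [indicator_of_mem hpW, Pi.one_apply, mul_one]
        have h6 : τ * S / 2 ≤ ‖D‖ := hpW.1
        have h7 : ρ < ‖D‖ := by linarith
        refine le_trans ?_ ((spread_far hsp (D := D) (u := p.2 • e' - p.1 • e) hρ h7).trans ?_)
        · exact le_rfl
        apply ENNReal.ofReal_le_ofReal
        rw [hcdef]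
        apply mul_le_mul_of_nonneg_left _ hA
        have hD0 : 0 < ‖D‖ := hρ.trans h7
        have h8 : 2 * ρ / ‖D‖ ≤ 8 * ρ / (τ * S) := by
          rw [div_le_div_iff₀ hD0 hτS]
          nlinarith
        have h9 : 8 * ρ / (τ * S) ≤ 1 := by
          rw [div_le_one hτS]; linarith
        calc (2 * ρ / ‖D‖) ^ α ≤ (8 * ρ / (τ * S)) ^ α := Real.rpow_le_rpow (by positivity) h8 hα
          _ ≤ (8 * ρ / (τ * S)) ^ θ := Real.rpow_le_rpow_of_exponent_ge (by positivity) h9 hθα
      · rw [indicator_of_notMem hpW, mul_zero, nonpos_iff_eq_zero]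
        have : {ω | (p, ω) ∈ Q} = ∅ := by
          rw [eq_empty_iff_forall_notMem]
          intro ω hω
          have h2 : ‖g ω D - (p.2 • e' - p.1 • e)‖ ≤ ρ := hω
          have h4 := abs_norm_sub_norm_le (g ω D) (p.2 • e' - p.1 • e)
          rw [LinearIsometryEquiv.norm_map, abs_sub_comm] at h4
          have h5 := h4.trans h2
          exact hpW ⟨hbig p hp h5, h5⟩
        rw [this]
        simp
    calc (((volume.restrict (TR τ R)).prod (volume.restrict (TR τ R))).prod P) Q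
        ≤ (((volume.restrict (TR τ R)).prod volume).prod P) Q :=
          Measure.prod_mono hmp le_rfl Q
      _ = ∫⁻ p, P (Prod.mk p ⁻¹' Q) ∂((volume.restrict (TR τ R)).prod volume) :=
          Measure.prod_apply hQm
      _ = ∫⁻ s in TR τ R, ∫⁻ t, P (Prod.mk (s, t) ⁻¹' Q) := by
          apply lintegral_prod
          exact (measurable_measure_prodMk_left hQm).aemeasurable
      _ ≤ ∫⁻ s in TR τ R, ∫⁻ t, ENNReal.ofReal c * W.indicator 1 (s, t) := by
          apply setLIntegral_mono' (TR_meas τ R)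
          intro s hs
          apply lintegral_mono
          intro t
          exact hslice (s, t) hs
      _ ≤ ∫⁻ s in Icc (-R) R, ∫⁻ t, ENNReal.ofReal c * W.indicator 1 (s, t) :=
          lintegral_mono_set (TR_sub τ R)
      _ = ∫⁻ s in Icc (-R) R, ENNReal.ofReal c * volume {t : ℝ | (s, t) ∈ W} := by
          apply lintegral_congr
          intro s
          rw [lintegral_const_mul' _ _ ENNReal.ofReal_ne_top]
          congr 1
          have hWs : MeasurableSet {t : ℝ | (s, t) ∈ W} :=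
            (measurable_prodMk_left (x := s) : Measurable (Prod.mk s : ℝ → ℝ × ℝ)) hWm
          rw [← lintegral_indicator_one hWs]
          rfl
      _ = ENNReal.ofReal c * ∫⁻ s in Icc (-R) R, volume {t : ℝ | (s, t) ∈ W} :=
          lintegral_const_mul' _ _ ENNReal.ofReal_ne_top
      _ ≤ ENNReal.ofReal c * ENNReal.ofReal (432 * R * ρ) := by
          gcongr
          by_cases hD : τ * S / 2 ≤ ‖D‖
          · refine le_trans (le_of_eq ?_) (area he he' hS (by linarith : 0 < ‖D‖) hρ.le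
              (by linarith) hR)
            apply lintegral_congr
            intro s
            congr 1
            ext t
            simp only [hW, mem_ofPred_eq, hD, true_and]
          · have : ∀ s : ℝ, volume {t : ℝ | (s, t) ∈ W} = 0 := by
              intro s
              have : {t : ℝ | (s, t) ∈ W} = ∅ := by
                rw [eq_empty_iff_forall_notMem]
                intro t ht
                exact hD ht.1
              rw [this, measure_empty]
            simp [this]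
      _ ≤ _ := by
          rw [← ENNReal.ofReal_mul hc0]
          apply ENNReal.ofReal_le_ofReal
          rw [hcdef]
          have : 0 ≤ (8 * ρ / (τ * S)) ^ θ := by positivity
          nlinarith [mul_nonneg (mul_nonneg hR.le hρ.le) this]
  · -- far apart: trivial bound
    push Not at hc
    have hone : 1 ≤ (8 * ρ / (τ * S)) ^ θ := by
      apply Real.one_le_rpow _ hθ
      rw [le_div_iff₀ hτS]
      linarith
    have hline : ∀ (ω : Ω) (s : ℝ), volume {t : ℝ | ‖g ω D - (t • e' - s • e)‖ ≤ ρ} ≤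
        ENNReal.ofReal (2 * ρ) := by
      intro ω s
      refine (Real.volume_le_diam _).trans ?_
      apply ediam_le
      intro x hx y hy
      rw [edist_dist, Real.dist_eq]
      apply ENNReal.ofReal_le_ofReal
      have h1 : ‖(x - y) • e'‖ ≤ 2 * ρ := by
        have : (x - y) • e' = (g ω D - (y • e' - s • e)) - (g ω D - (x • e' - s • e)) := by
          rw [sub_smul]; abel
        rw [this]
        refine (norm_sub_le _ _).trans ?_
        have h2 : ‖g ω D - (y • e' - s • e)‖ ≤ ρ := hy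
        have h3 : ‖g ω D - (x • e' - s • e)‖ ≤ ρ := hx
        linarith
      rwa [norm_smul, he', mul_one, Real.norm_eq_abs] at h1
    calc (((volume.restrict (TR τ R)).prod (volume.restrict (TR τ R))).prod P) Q
        ≤ (((volume.restrict (TR τ R)).prod volume).prod P) Q :=
          Measure.prod_mono hmp le_rfl Q
      _ = ∫⁻ ω, ((volume.restrict (TR τ R)).prod volume) ((fun p => (p, ω)) ⁻¹' Q) ∂P :=
          Measure.prod_apply_symm hQm
      _ ≤ ∫⁻ _ω, ENNReal.ofReal (2 * R) * ENNReal.ofReal (2 * ρ) ∂P := by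
          apply lintegral_mono
          intro ω
          have hQω : MeasurableSet ((fun p : ℝ × ℝ => (p, ω)) ⁻¹' Q) :=
            (measurable_prodMk_right (y := ω) : Measurable (fun p : ℝ × ℝ => (p, ω))) hQm
          show ((volume.restrict (TR τ R)).prod volume) ((fun p : ℝ × ℝ => (p, ω)) ⁻¹' Q) ≤ _
          rw [Measure.prod_apply hQω]
          calc ∫⁻ s in TR τ R, volume (Prod.mk s ⁻¹' ((fun p : ℝ × ℝ => (p, ω)) ⁻¹' Q))
              ≤ ∫⁻ s in TR τ R, ENNReal.ofReal (2 * ρ) := lintegral_mono (fun s => hline ω s)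
            _ = ENNReal.ofReal (2 * ρ) * volume (TR τ R) := setLIntegral_const _ _
            _ ≤ ENNReal.ofReal (2 * ρ) * ENNReal.ofReal (2 * R) := by
                gcongr
                exact TR_vol τ R
            _ = _ := mul_comm _ _
      _ = ENNReal.ofReal (2 * R) * ENNReal.ofReal (2 * ρ) := by
          rw [lintegral_const, measure_univ, mul_one]
      _ ≤ _ := by
          rw [← ENNReal.ofReal_mul (by positivity)]
          apply ENNReal.ofReal_le_ofReal
          have h1 : 0 ≤ 432 * A * R * ρ * (8 * ρ / (τ * S)) ^ θ := by positivity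
          have h2 : 4 * R * ρ * 1 ≤ 4 * R * ρ * (8 * ρ / (τ * S)) ^ θ := by gcongr
          nlinarith

/-- Mean energy of the interaction of two lines. -/
theorem energy_pair {A τ R θ p : ℝ} (hA : 0 ≤ A) (hτ : 0 < τ) (hR : 0 < R) (hθ : 0 < θ)
    (hp : 0 ≤ p) (hpθ : p < 1 + θ) : ∃ C : ℝ, 0 < C ∧ ∀ {n : ℕ} {Ω : Type*} [MeasurableSpace Ω]
    {P : Measure Ω} [IsProbabilityMeasure P] {g : Ω → E n ≃ₗᵢ[ℝ] E n}
    (_ : ∀ v, Measurable (fun ω => g ω v)) {α : ℝ} (_ : θ ≤ α) (_ : Spread P g A α) {e e' : E n}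
    (_ : ‖e‖ = 1) (_ : ‖e'‖ = 1) (D : E n),
    ∫⁻ s in TR τ R, ∫⁻ t in TR τ R, ∫⁻ ω, (ENNReal.ofReal ‖g ω D - (t • e' - s • e)‖) ^ (-p) ∂P ≤
      ENNReal.ofReal C * (ENNReal.ofReal (sn e e')) ^ (-θ) := by
  set G : ℝ := (1 - 2 ^ (-(1 + θ - p)))⁻¹ with hG
  have hG0 : 0 < G := by
    have hx1 : (2 : ℝ) ^ (-(1 + θ - p)) < 1 :=
      Real.rpow_lt_one_of_one_lt_of_neg (by norm_num) (by linarith)
    have : 0 < 1 - (2 : ℝ) ^ (-(1 + θ - p)) := by linarith
    positivity
  set C : ℝ := 4 * R ^ 2 + 2 ^ p * ((432 * A + 4) * R * (8 / τ) ^ θ) * G with hC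
  have hC0 : 0 < C := by positivity
  refine ⟨C, hC0, ?_⟩
  intro n Ω _ P _ g hg α hθα hsp e e' he he' D
  rcases eq_or_lt_of_le (sn_nonneg e e') with hS | hS
  · rw [← hS, ENNReal.ofReal_zero, ENNReal.zero_rpow_of_neg (by linarith),
      ENNReal.mul_top (ENNReal.ofReal_pos.2 hC0).ne']
    exact le_top
  set S := sn e e' with hSdef
  have hS1 : S ≤ 1 := sn_le_one e e'
  set m : Measure ((ℝ × ℝ) × Ω) :=
    ((volume.restrict (TR τ R)).prod (volume.restrict (TR τ R))).prod P with hm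
  set u : (ℝ × ℝ) × Ω → ℝ := fun z => ‖g z.2 D - (z.1.2 • e' - z.1.1 • e)‖ with hu
  have hum : Measurable u := by
    have m1 : Measurable (fun z : (ℝ × ℝ) × Ω => g z.2 D) := (hg D).comp measurable_snd
    have m2 : Measurable (fun z : (ℝ × ℝ) × Ω => z.1.2 • e' - z.1.1 • e) := by fun_prop
    exact (m1.sub m2).norm
  have hkm : Measurable (fun z => (ENNReal.ofReal (u z)) ^ (-p)) :=
    (ENNReal.measurable_ofReal.comp hum).pow_const _
  set B : ℝ := (432 * A + 4) * R * (8 / (τ * S)) ^ θ with hB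
  have hB0 : 0 ≤ B := by positivity
  have hlay := layer m hum hp hpθ hB0 (by
    intro k
    refine (pair_close hg hA hsp he he' D hτ hR (by positivity : (0:ℝ) < (1 / 2) ^ k) hθ.le hθα
      hS).trans (ENNReal.ofReal_le_ofReal (le_of_eq ?_))
    rw [hB, Real.rpow_add (by positivity), Real.rpow_one]
    have h1 : 8 * (1 / 2 : ℝ) ^ k / (τ * S) = 8 / (τ * S) * (1 / 2) ^ k := by ring
    rw [← hSdef, h1, Real.mul_rpow (by positivity) (by positivity)]
    ring)
  have hmu : m univ ≤ ENNReal.ofReal (4 * R ^ 2) := by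
    rw [hm, ← univ_prod_univ, Measure.prod_prod, ← univ_prod_univ, Measure.prod_prod,
      measure_univ (μ := P), mul_one, Measure.restrict_apply_univ]
    calc volume (TR τ R) * volume (TR τ R) ≤ ENNReal.ofReal (2 * R) * ENNReal.ofReal (2 * R) := by
          gcongr <;> exact TR_vol τ R
      _ = _ := by
          rw [← ENNReal.ofReal_mul (by positivity)]
          congr 1
          ring
  have hiter : ∫⁻ s in TR τ R, ∫⁻ t in TR τ R, ∫⁻ ω,
      (ENNReal.ofReal ‖g ω D - (t • e' - s • e)‖) ^ (-p) ∂P =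
      ∫⁻ z, (ENNReal.ofReal (u z)) ^ (-p) ∂m := by
    rw [hm, lintegral_prod _ hkm.aemeasurable, lintegral_prod]
    exact hkm.lintegral_prod_right'.aemeasurable
  rw [hiter]
  refine hlay.trans ?_
  have hSθ : (ENNReal.ofReal S) ^ (-θ) = ENNReal.ofReal (S ^ (-θ)) :=
    ENNReal.ofReal_rpow_of_pos hS
  rw [hSθ, ← ENNReal.ofReal_mul hC0.le]
  have hSθ1 : 1 ≤ S ^ (-θ) := Real.one_le_rpow_of_pos_of_le_one_of_nonpos hS hS1 (by linarith)
  have h2 : (8 / (τ * S)) ^ θ = (8 / τ) ^ θ * S ^ (-θ) := by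
    rw [Real.rpow_neg hS.le, ← Real.inv_rpow hS.le, ← Real.mul_rpow (by positivity) (by positivity)]
    congr 1
    field_simp
  calc m univ + ENNReal.ofReal (2 ^ p * B * (1 - 2 ^ (-(1 + θ - p)))⁻¹)
      ≤ ENNReal.ofReal (4 * R ^ 2) + ENNReal.ofReal (2 ^ p * B * G) := by
        gcongr
    _ = ENNReal.ofReal (4 * R ^ 2 + 2 ^ p * B * G) :=
        (ENNReal.ofReal_add (by positivity) (by positivity)).symm
    _ ≤ _ := by
        apply ENNReal.ofReal_le_ofReal
        rw [hC, hB, h2]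
        have h3 : 4 * R ^ 2 * 1 ≤ 4 * R ^ 2 * S ^ (-θ) := by gcongr
        have h4 : 2 ^ p * ((432 * A + 4) * R * ((8 / τ) ^ θ * S ^ (-θ))) * G =
            2 ^ p * ((432 * A + 4) * R * (8 / τ) ^ θ) * G * S ^ (-θ) := by ring
        rw [h4, add_mul]
        linarith

end Pool.Agent.TH705.RR
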