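import Pool.Agent.TH705.RR.On
set_option autoImplicit false

/-!
# Norms and probabilities
-/

open MeasureTheory Set Metric
open scoped ENNReal NNReal

namespace Pool.Agent.TH705.RR

/-- The number of tubes through `x`, as a real function. -/
noncomputable def mu {n : ℕ} {ι : Type} [Fintype ι] (δ : ℝ) (b e : ι → E n) (x : E n) : ℝ :=
  ∑ i, (tube δ (b i) (e i)).indicator (fun _ => (1 : ℝ)) x

theorem mu_nonneg {n : ℕ} {ι : Type} [Fintype ι] (δ : ℝ) (b e : ι → E n) (x : E n) :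
    0 ≤ mu δ b e x := by
  unfold mu
  apply Finset.sum_nonneg
  intro i _
  exact indicator_nonneg (fun _ _ => zero_le_one) x

theorem enorm_mu {n : ℕ} {ι : Type} [Fintype ι] (δ : ℝ) (h : E n ≃ₗᵢ[ℝ] E n) (a e : ι → E n)
    (x : E n) : ‖mu δ (fun i => h (a i)) e x‖ₑ = mult δ h a e x := by
  rw [Real.enorm_of_nonneg (mu_nonneg _ _ _ _)]
  unfold mu mult
  rw [ENNReal.ofReal_sum_of_nonneg (fun i _ => indicator_nonneg (fun _ _ => zero_le_one) x)]
  apply Finset.sum_congr rfl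
  intro i _
  by_cases hx : x ∈ tube δ (h (a i)) (e i)
  · rw [indicator_of_mem hx, indicator_of_mem hx]; simp
  · rw [indicator_of_notMem hx, indicator_of_notMem hx]; simp

theorem eLp_mu {n : ℕ} {ι : Type} [Fintype ι] (δ : ℝ) (h : E n ≃ₗᵢ[ℝ] E n) (a e : ι → E n)
    {q : ℝ} (hq : 0 < q) : eLpNorm (mu δ (fun i => h (a i)) e) (ENNReal.ofReal q) volume =
      (∫⁻ x, mult δ h a e x ^ q) ^ (1 / q) := by
  rw [eLpNorm_eq_lintegral_rpow_enorm_toReal (ENNReal.ofReal_pos.2 hq).ne' ENNReal.ofReal_ne_top,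
    ENNReal.toReal_ofReal hq.le]
  congr 1
  apply lintegral_congr
  intro x
  rw [enorm_mu]

theorem eLp_mu_pow {n : ℕ} {ι : Type} [Fintype ι] (δ : ℝ) (h : E n ≃ₗᵢ[ℝ] E n) (a e : ι → E n)
    {q : ℝ} (hq : 0 < q) : eLpNorm (mu δ (fun i => h (a i)) e) (ENNReal.ofReal q) volume ^ q =
      ∫⁻ x, mult δ h a e x ^ q := by
  rw [eLp_mu δ h a e hq, ← ENNReal.rpow_mul, one_div, inv_mul_cancel₀ hq.ne', ENNReal.rpow_one]

/-- From the mean to a large probability. -/
theorem prob_bad {n : ℕ} (hn : 3 ≤ n) {q C : ℝ} (hq : 1 < q) (hC : 0 < C) {Ω : Type*}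
    [MeasurableSpace Ω] {P : Measure Ω} [IsProbabilityMeasure P] {g : Ω → E n ≃ₗᵢ[ℝ] E n}
    (hg : ∀ v, Measurable (fun ω => g ω v)) {δ : ℝ} (hδ : 0 < δ) {ι : Type} [Fintype ι]
    (a e : ι → E n) (hb : ∫⁻ ω, eLpNorm (mu δ (fun i => g ω (a i)) e) (ENNReal.ofReal q) volume ^ q ∂P ≤
      ENNReal.ofReal (C * δ ^ (n - 1) * (Fintype.card ι : ℝ) ^ (q - 1 / ((n : ℝ) - 1)))) {η : ℝ}
    (hη : 0 < η) :
    P {ω | ¬ eLpNorm (mu δ (fun i => g ω (a i)) e) (ENNReal.ofReal q) volume ≤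
      ENNReal.ofReal ((C / η) ^ (1 / q) * δ ^ (((n : ℝ) - 1) / q) *
        (Fintype.card ι : ℝ) ^ (1 - 1 / (q * ((n : ℝ) - 1))))} ≤ ENNReal.ofReal η := by
  have hq0 : 0 < q := by linarith
  have hn2 : (2 : ℝ) ≤ (n : ℝ) - 1 := by
    have : (3 : ℝ) ≤ n := by exact_mod_cast hn
    linarith
  rcases isEmpty_or_nonempty ι with hι | hι
  · have h0 : ∀ ω, eLpNorm (mu δ (fun i => g ω (a i)) e) (ENNReal.ofReal q) volume = 0 := by
      intro ω
      have : mu δ (fun i => g ω (a i)) e = 0 := by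
        funext x
        unfold mu
        rw [Finset.univ_eq_empty, Finset.sum_empty]
        rfl
      rw [this]
      exact eLpNorm_zero
    have : {ω | ¬ eLpNorm (mu δ (fun i => g ω (a i)) e) (ENNReal.ofReal q) volume ≤
      ENNReal.ofReal ((C / η) ^ (1 / q) * δ ^ (((n : ℝ) - 1) / q) *
        (Fintype.card ι : ℝ) ^ (1 - 1 / (q * ((n : ℝ) - 1))))} = ∅ := by
      ext ω
      simp only [mem_ofPred_eq, mem_empty_iff_false, iff_false, not_not]
      rw [h0 ω]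
      exact zero_le
    rw [this, measure_empty]
    exact zero_le
  set N : ℝ := (Fintype.card ι : ℝ) with hN
  have hN1 : 1 ≤ N := by
    rw [hN]
    exact_mod_cast Fintype.card_pos
  have hN0 : 0 < N := by linarith
  set M : ℝ := C * δ ^ (n - 1) * N ^ (q - 1 / ((n : ℝ) - 1)) with hM
  have hM0 : 0 < M := by positivity
  have hroot : (C / η) ^ (1 / q) * δ ^ (((n : ℝ) - 1) / q) * N ^ (1 - 1 / (q * ((n : ℝ) - 1))) =
      (M / η) ^ (1 / q) := by
    have h1 : M / η = (C / η) * δ ^ (n - 1) * N ^ (q - 1 / ((n : ℝ) - 1)) := by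
      rw [hM]; ring
    rw [h1, Real.mul_rpow (by positivity) (by positivity), Real.mul_rpow (by positivity) (by positivity),
      ← Real.rpow_natCast, ← Real.rpow_mul hδ.le, ← Real.rpow_mul hN0.le]
    have h2 : ((n - 1 : ℕ) : ℝ) = (n : ℝ) - 1 := by
      rw [Nat.cast_sub (by omega)]; simp
    rw [h2]
    congr 2
    · congr 1
      field_simp
    · field_simp
  set X : Ω → ℝ≥0∞ := fun ω => ∫⁻ x, mult δ (g ω) a e x ^ q with hX
  have hXm : Measurable X := ((mult_meas hg δ a e).pow_const q).lintegral_prod_right'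
  have hsub : {ω | ¬ eLpNorm (mu δ (fun i => g ω (a i)) e) (ENNReal.ofReal q) volume ≤
      ENNReal.ofReal ((C / η) ^ (1 / q) * δ ^ (((n : ℝ) - 1) / q) * N ^ (1 - 1 / (q * ((n : ℝ) - 1))))} ⊆
      {ω | ENNReal.ofReal (M / η) ≤ X ω} := by
    intro ω hω
    by_contra hcon
    apply hω
    have hcon' : X ω ≤ ENNReal.ofReal (M / η) := by
      simp only [mem_ofPred_eq, not_le] at hcon
      exact hcon.le
    rw [eLp_mu δ (g ω) a e hq0, hroot, ← ENNReal.ofReal_rpow_of_pos (by positivity)]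
    exact ENNReal.rpow_le_rpow hcon' (by positivity)
  refine (measure_mono hsub).trans ?_
  have hmk := mul_meas_ge_le_lintegral₀ (μ := P) hXm.aemeasurable (ENNReal.ofReal (M / η))
  have hb' : ∫⁻ ω, X ω ∂P ≤ ENNReal.ofReal M := by
    refine le_trans (le_of_eq ?_) hb
    apply lintegral_congr
    intro ω
    exact (eLp_mu_pow δ (g ω) a e hq0).symm
  have h3 : ENNReal.ofReal (M / η) * P {ω | ENNReal.ofReal (M / η) ≤ X ω} ≤
      ENNReal.ofReal (M / η) * ENNReal.ofReal η := by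
    refine (hmk.trans hb').trans (le_of_eq ?_)
    rw [← ENNReal.ofReal_mul (by positivity)]
    congr 1
    field_simp
  have h4 : ENNReal.ofReal (M / η) ≠ 0 := (ENNReal.ofReal_pos.2 (by positivity)).ne'
  exact (ENNReal.mul_le_mul_iff_right h4 ENNReal.ofReal_ne_top).1 h3

/-- Rotating the directions instead of the centres. -/
theorem mu_dir {n : ℕ} {ι : Type} [Fintype ι] (δ : ℝ) (h : E n ≃ₗᵢ[ℝ] E n) (a e : ι → E n) (x : E n) :
    mu δ a (fun i => h (e i)) (h x) = mu δ (fun i => h.symm (a i)) e x := by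
  unfold mu
  apply Finset.sum_congr rfl
  intro i _
  have h1 : h x - a i = h (x - h.symm (a i)) := by
    rw [map_sub, LinearIsometryEquiv.apply_symm_apply]
  have h2 : inner ℝ (h x - a i) (h (e i)) = inner ℝ (x - h.symm (a i)) (e i) := by
    rw [h1, LinearIsometryEquiv.inner_map_map]
  have h3 : ‖(h x - a i) - (inner ℝ (h x - a i) (h (e i))) • h (e i)‖ =
      ‖(x - h.symm (a i)) - (inner ℝ (x - h.symm (a i)) (e i)) • e i‖ := by
    rw [h2, h1, ← map_smul, ← map_sub, LinearIsometryEquiv.norm_map]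
  have h4 : h x ∈ tube δ (a i) (h (e i)) ↔ x ∈ tube δ (h.symm (a i)) (e i) := by
    unfold tube
    simp only [mem_ofPred_eq]
    rw [h3, h2]
  by_cases hx : x ∈ tube δ (h.symm (a i)) (e i)
  · rw [indicator_of_mem hx, indicator_of_mem (h4.2 hx)]
  · rw [indicator_of_notMem hx, indicator_of_notMem (fun hc => hx (h4.1 hc))]

theorem eLp_dir {n : ℕ} {ι : Type} [Fintype ι] (δ : ℝ) (h : E n ≃ₗᵢ[ℝ] E n) (a e : ι → E n)
    (q : ℝ≥0∞) : eLpNorm (mu δ a (fun i => h (e i))) q volume =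
      eLpNorm (mu δ (fun i => h.symm (a i)) e) q volume := by
  have hm : Measurable (mu δ a (fun i => h (e i))) := by
    unfold mu
    apply Finset.measurable_sum
    intro i _
    exact measurable_const.indicator (tube_closed δ (a i) (h (e i))).measurableSet
  rw [← eLpNorm_comp_measurePreserving hm.aestronglyMeasurable h.measurePreserving]
  congr 1
  funext x
  exact mu_dir δ h a e x

theorem symm_meas {n : ℕ} {Ω : Type*} [MeasurableSpace Ω] {g : Ω → E n ≃ₗᵢ[ℝ] E n}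
    (hg : ∀ v, Measurable (fun ω => g ω v)) (v : E n) : Measurable (fun ω => (g ω).symm v) := by
  have h : (fun ω => (g ω).symm v) = fun ω => ∑ i, (inner ℝ (g ω (EuclideanSpace.basisFun (Fin n) ℝ i)) v) •
      EuclideanSpace.basisFun (Fin n) ℝ i := by
    funext ω
    have h1 := (EuclideanSpace.basisFun (Fin n) ℝ).sum_repr' ((g ω).symm v)
    rw [← h1]
    apply Finset.sum_congr rfl
    intro i _
    congr 1
    have h2 : (inner ℝ (g ω (EuclideanSpace.basisFun (Fin n) ℝ i)) (g ω ((g ω).symm v)) : ℝ) =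
        inner ℝ (EuclideanSpace.basisFun (Fin n) ℝ i) ((g ω).symm v) :=
      LinearIsometryEquiv.inner_map_map (𝕜 := ℝ) (g ω)
        (EuclideanSpace.basisFun (Fin n) ℝ i) ((g ω).symm v)
    have h3 : g ω ((g ω).symm v) = v := (g ω).apply_symm_apply v
    rw [h3] at h2
    exact h2.symm
  rw [h]
  apply Finset.measurable_sum
  intro i _
  have m1 : Measurable (fun ω => (inner ℝ (g ω (EuclideanSpace.basisFun (Fin n) ℝ i)) v : ℝ)) :=
    (hg _).inner measurable_const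
  exact m1.smul measurable_const

theorem spread_symm {n : ℕ} {Ω : Type*} [MeasurableSpace Ω] {P : Measure Ω}
    {g : Ω → E n ≃ₗᵢ[ℝ] E n} {A α : ℝ} (hsp : Spread P g A α) :
    Spread P (fun ω => (g ω).symm) A α := by
  intro v w hv hw s hs
  refine le_trans (le_of_eq ?_) (hsp w v hw hv s hs)
  congr 1
  ext ω
  simp only [mem_ofPred_eq]
  have : ‖(g ω).symm v - w‖ = ‖g ω w - v‖ := by
    rw [← (g ω).norm_map, map_sub, LinearIsometryEquiv.apply_symm_apply, norm_sub_rev]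
  rw [this]

/-- The general theorem for the two norms. -/
theorem general2 {n : ℕ} (hn : 3 ≤ n) {α q : ℝ} (hα : 1 < α) (hαn : α ≤ (n : ℝ) - 1)
    (hq : 1 + 1 / α < q) : ∃ C : ℝ, 0 < C ∧ ∀ A : ℝ, 0 ≤ A →
    ∀ (Ω : Type) [MeasurableSpace Ω] (P : Measure Ω) [IsProbabilityMeasure P]
    (g : Ω → E n ≃ₗᵢ[ℝ] E n), (∀ v, Measurable (fun ω => g ω v)) → Spread P g A α →
    ∀ δ : ℝ, 0 < δ → δ < 1 → ∀ (ι : Type) [Fintype ι] (a e : ι → E n),
    (∀ i, ‖e i‖ = 1) → (∀ i j, i ≠ j → δ ≤ ‖e i - e j‖) →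
    ∫⁻ ω, eLpNorm (mu δ (fun i => g ω (a i)) e) (ENNReal.ofReal q) volume ^ q ∂P ≤
      ENNReal.ofReal (C * (1 + A) * δ ^ (n - 1) * (Fintype.card ι : ℝ) ^ (q - 1 / ((n : ℝ) - 1))) ∧
    ∫⁻ ω, eLpNorm (mu δ a (fun i => g ω (e i))) (ENNReal.ofReal q) volume ^ q ∂P ≤
      ENNReal.ofReal (C * (1 + A) * δ ^ (n - 1) * (Fintype.card ι : ℝ) ^ (q - 1 / ((n : ℝ) - 1))) := by
  obtain ⟨C, hC, H⟩ := general hn hα hαn hq
  have hα0 : 0 < 1 / α := by positivity
  have hq0 : 0 < q := by linarith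
  refine ⟨C, hC, ?_⟩
  intro A hA Ω _ P _ g hg hsp δ hδ hδ1 ι _ a e he hsep
  constructor
  · refine le_trans (le_of_eq ?_) (H A hA Ω P g hg hsp δ hδ hδ1 ι a e he hsep)
    apply lintegral_congr
    intro ω
    exact eLp_mu_pow δ (g ω) a e hq0
  · refine le_trans (le_of_eq ?_) (H A hA Ω P (fun ω => (g ω).symm) (symm_meas hg) (spread_symm hsp)
      δ hδ hδ1 ι a e he hsep)
    apply lintegral_congr
    intro ω
    rw [eLp_dir]
    exact eLp_mu_pow δ (g ω).symm a e hq0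

/-- The right-hand side of the conjectured inequality, without the constant. -/
noncomputable def rhs (n : ℕ) (q δ : ℝ) (N : ℕ) : ℝ :=
  δ ^ (((n : ℝ) - 1) / q) * (N : ℝ) ^ (1 - 1 / (q * ((n : ℝ) - 1)))

theorem rhs_pow {n : ℕ} (hn : 3 ≤ n) {q δ : ℝ} (hq : 0 < q) (hδ : 0 < δ) (N : ℕ) :
    rhs n q δ N ^ q = δ ^ (n - 1) * (N : ℝ) ^ (q - 1 / ((n : ℝ) - 1)) := by
  have hn2 : (2 : ℝ) ≤ (n : ℝ) - 1 := by
    have : (3 : ℝ) ≤ n := by exact_mod_cast hn
    linarith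
  have h2 : ((n - 1 : ℕ) : ℝ) = (n : ℝ) - 1 := by
    rw [Nat.cast_sub (by omega)]; simp
  unfold rhs
  rw [Real.mul_rpow (by positivity) (by positivity), ← Real.rpow_mul hδ.le,
    ← Real.rpow_mul (Nat.cast_nonneg N), ← Real.rpow_natCast, h2]
  congr 2
  · field_simp
  · field_simp

theorem spread_group' {n : ℕ} (hn : 1 ≤ n) {G : Type} [Group G] [TopologicalSpace G]
    [IsTopologicalGroup G] [CompactSpace G] [MeasurableSpace G] [BorelSpace G] (μ : Measure G)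
    [μ.IsHaarMeasure] [IsProbabilityMeasure μ] (ρ : G →* (E n ≃ₗᵢ[ℝ] E n))
    (hρ : ∀ v, Measurable (fun k => ρ k v))
    (htr : ∀ v w : E n, ‖v‖ = 1 → ‖w‖ = 1 → ∃ k, ρ k v = w) :
    Spread μ (fun k => ρ k) (5 * 2 ^ n) ((n : ℝ) - 1) := spread_group hn μ ρ hρ htr

/-- From means to all indices at once, with a quadratic loss. -/
theorem all_scales {Ω : Type*} [MeasurableSpace Ω] {P : Measure Ω} (X : ℕ → Ω → ℝ≥0∞)
    (hX : ∀ k, Measurable (X k)) (R : ℕ → ℝ) (hR : ∀ k, 0 ≤ R k) {C : ℝ} (hC : 0 ≤ C)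
    (h : ∀ k, ∫⁻ ω, X k ω ∂P ≤ ENNReal.ofReal (C * R k)) :
    ∀ᵐ ω ∂P, ∃ B : ℝ, 0 ≤ B ∧ ∀ k : ℕ, X k ω ≤ ENNReal.ofReal (B * (((k : ℝ) + 1) ^ 2 * R k)) := by
  -- indices with vanishing right-hand side
  have h0 : ∀ᵐ ω ∂P, ∀ k, R k = 0 → X k ω = 0 := by
    rw [ae_all_iff]
    intro k
    by_cases hk : R k = 0
    · have h1 := h k
      rw [hk, mul_zero, ENNReal.ofReal_zero, nonpos_iff_eq_zero, lintegral_eq_zero_iff (hX k)] at h1
      filter_upwards [h1] with ω hω _ using hω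
    · exact Filter.Eventually.of_forall (fun ω h2 => absurd h2 hk)
  set w : ℕ → ℝ := fun k => (((k : ℝ) + 1) ^ 2)⁻¹ * (R k)⁻¹ with hw
  have hw0 : ∀ k, 0 ≤ w k := fun k => by
    have := hR k
    positivity
  have hsum : Summable (fun k : ℕ => C * (((k : ℝ) + 1) ^ 2)⁻¹) := by
    apply Summable.mul_left
    have := (summable_nat_add_iff 1).2 (Real.summable_nat_pow_inv.2 (by norm_num : 1 < 2))
    simpa using this
  have hY : ∫⁻ ω, (∑' k, X k ω * ENNReal.ofReal (w k)) ∂P < ∞ := by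
    rw [lintegral_tsum (fun k => ((hX k).mul_const _).aemeasurable)]
    refine lt_of_le_of_lt (ENNReal.tsum_le_tsum (g := fun k : ℕ =>
      ENNReal.ofReal (C * (((k : ℝ) + 1) ^ 2)⁻¹))
      ?_) ?_
    · intro k
      rw [lintegral_mul_const _ (hX k)]
      calc (∫⁻ ω, X k ω ∂P) * ENNReal.ofReal (w k) ≤ ENNReal.ofReal (C * R k) * ENNReal.ofReal (w k) := by
            gcongr
            exact h k
        _ = ENNReal.ofReal (C * R k * w k) := (ENNReal.ofReal_mul (mul_nonneg hC (hR k))).symm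
        _ ≤ _ := by
            apply ENNReal.ofReal_le_ofReal
            rw [hw]
            rcases eq_or_lt_of_le (hR k) with h3 | h3
            · rw [← h3]
              simp
              positivity
            · have : C * R k * ((((k : ℝ) + 1) ^ 2)⁻¹ * (R k)⁻¹) = C * (((k : ℝ) + 1) ^ 2)⁻¹ := by
                field_simp
              rw [this]
    · rw [← ENNReal.ofReal_tsum_of_nonneg (fun k => by positivity) hsum]
      exact ENNReal.ofReal_lt_top
  have hYm : Measurable (fun ω => ∑' k, X k ω * ENNReal.ofReal (w k)) :=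
    Measurable.tsum (fun k => (hX k).mul_const _)
  filter_upwards [ae_lt_top hYm hY.ne, h0] with ω hω hω0
  refine ⟨(∑' k, X k ω * ENNReal.ofReal (w k)).toReal, ENNReal.toReal_nonneg, ?_⟩
  intro k
  by_cases hk : R k = 0
  · rw [hω0 k hk]
    exact zero_le
  · have hRk : 0 < R k := lt_of_le_of_ne (hR k) (Ne.symm hk)
    have h1 : X k ω * ENNReal.ofReal (w k) ≤ ∑' k, X k ω * ENNReal.ofReal (w k) :=
      ENNReal.le_tsum k
    rw [ENNReal.ofReal_mul ENNReal.toReal_nonneg, ENNReal.ofReal_toReal hω.ne]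
    calc X k ω = X k ω * ENNReal.ofReal (w k) * ENNReal.ofReal (((k : ℝ) + 1) ^ 2 * R k) := by
          rw [mul_assoc, ← ENNReal.ofReal_mul (hw0 k)]
          have : w k * (((k : ℝ) + 1) ^ 2 * R k) = 1 := by
            rw [hw]
            have : ((k : ℝ) + 1) ^ 2 ≠ 0 := by positivity
            field_simp
          rw [this, ENNReal.ofReal_one, mul_one]
      _ ≤ _ := by gcongr

/-- Two sequences at the same time. -/
theorem all_scales_two {Ω : Type*} [MeasurableSpace Ω] {P : Measure Ω} (X Y : ℕ → Ω → ℝ≥0∞)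
    (hX : ∀ k, Measurable (X k)) (hY : ∀ k, Measurable (Y k)) (R : ℕ → ℝ) (hR : ∀ k, 0 ≤ R k) {C : ℝ}
    (hC : 0 ≤ C) (h : ∀ k, ∫⁻ ω, X k ω ∂P ≤ ENNReal.ofReal (C * R k))
    (h' : ∀ k, ∫⁻ ω, Y k ω ∂P ≤ ENNReal.ofReal (C * R k)) :
    ∀ᵐ ω ∂P, ∃ B : ℝ, 0 ≤ B ∧ ∀ k : ℕ, X k ω ≤ ENNReal.ofReal (B * (((k : ℝ) + 1) ^ 2 * R k)) ∧
      Y k ω ≤ ENNReal.ofReal (B * (((k : ℝ) + 1) ^ 2 * R k)) := by
  filter_upwards [all_scales X hX R hR hC h, all_scales Y hY R hR hC h'] with ω h1 h2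
  obtain ⟨B, hB, h1⟩ := h1
  obtain ⟨B', hB', h2⟩ := h2
  refine ⟨B + B', by positivity, fun k => ⟨(h1 k).trans (ENNReal.ofReal_le_ofReal ?_),
    (h2 k).trans (ENNReal.ofReal_le_ofReal ?_)⟩⟩
  · have := hR k
    have h3 : 0 ≤ B' * (((k : ℝ) + 1) ^ 2 * R k) := by positivity
    nlinarith
  · have := hR k
    have h3 : 0 ≤ B * (((k : ℝ) + 1) ^ 2 * R k) := by positivity
    nlinarith

end Pool.Agent.TH705.RR
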