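import Pool.Agent.TH705.RR.Ang
set_option autoImplicit false

/-!
# The tube inequality on average over rotations of the centres
-/

open MeasureTheory Set Metric
open scoped ENNReal NNReal

namespace Pool.Agent.TH705.RR

/-- The number of tubes through `x`, centres moved by `h`. -/
noncomputable def mult {n : ℕ} {ι : Type} [Fintype ι] (δ : ℝ) (h : E n ≃ₗᵢ[ℝ] E n) (a e : ι → E n)
    (x : E n) : ℝ≥0∞ := ∑ i, (tube δ (h (a i)) (e i)).indicator 1 x

theorem mult_le {n : ℕ} {ι : Type} [Fintype ι] (δ : ℝ) (h : E n ≃ₗᵢ[ℝ] E n) (a e : ι → E n)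
    (x : E n) : mult δ h a e x ≤ Fintype.card ι := by
  unfold mult
  calc _ ≤ ∑ _i : ι, (1 : ℝ≥0∞) := by
        apply Finset.sum_le_sum
        intro i _
        exact indicator_le_self' (fun _ _ => zero_le) x |>.trans (le_of_eq rfl)
    _ = _ := by simp

section
variable {n : ℕ} {Ω : Type*} [MeasurableSpace Ω] {g : Ω → E n ≃ₗᵢ[ℝ] E n}

theorem tube_meas (hg : ∀ v, Measurable (fun ω => g ω v)) (δ : ℝ) (a e : E n) :
    MeasurableSet {p : Ω × E n | p.2 ∈ tube δ (g p.1 a) e} := by
  have m0 : Measurable (fun p : Ω × E n => p.2 - g p.1 a) :=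
    measurable_snd.sub ((hg a).comp measurable_fst)
  have m1 : Measurable (fun p : Ω × E n => inner ℝ (p.2 - g p.1 a) e) :=
    m0.inner measurable_const
  have m2 : Measurable (fun p : Ω × E n => |inner ℝ (p.2 - g p.1 a) e|) := m1.abs
  have m3 : Measurable (fun p : Ω × E n =>
      ‖(p.2 - g p.1 a) - (inner ℝ (p.2 - g p.1 a) e) • e‖) :=
    (m0.sub (m1.smul measurable_const)).norm
  exact (measurableSet_le m2 measurable_const).inter (measurableSet_le m3 measurable_const)

theorem ind_meas (hg : ∀ v, Measurable (fun ω => g ω v)) (δ : ℝ) (a e : E n) :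
    Measurable (fun p : Ω × E n => (tube δ (g p.1 a) e).indicator (1 : E n → ℝ≥0∞) p.2) := by
  have h : (fun p : Ω × E n => (tube δ (g p.1 a) e).indicator (1 : E n → ℝ≥0∞) p.2) =
      {p : Ω × E n | p.2 ∈ tube δ (g p.1 a) e}.indicator 1 := by
    funext p
    simp only [indicator, mem_ofPred_eq, Pi.one_apply]
  rw [h]
  exact measurable_one.indicator (tube_meas hg δ a e)

theorem mult_meas {ι : Type} [Fintype ι] (hg : ∀ v, Measurable (fun ω => g ω v)) (δ : ℝ)
    (a e : ι → E n) : Measurable (fun p : Ω × E n => mult δ (g p.1) a e p.2) := by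
  unfold mult
  exact Finset.measurable_sum _ (fun i _ => ind_meas hg δ (a i) (e i))

theorem dist_meas (hg : ∀ v, Measurable (fun ω => g ω v)) (a : E n) :
    Measurable (fun p : Ω × E n => ‖p.2 - g p.1 a‖) :=
  (measurable_snd.sub ((hg a).comp measurable_fst)).norm

end

/-- The estimate for one scale `r` around one centre. -/
theorem scale {n : ℕ} (hn : 2 ≤ n) {α q A K Ca : ℝ} (hα : 1 < α) (hαn : α < (n - 1 : ℕ))
    (hq1 : 1 < q) (hq2 : q ≤ 2) (hA : 0 ≤ A) (hK : 1 ≤ K)
    (hcount : ∀ (δ : ℝ), 0 < δ → δ < 1 → ∀ {ι : Type} [Fintype ι]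
      (e : ι → E n), (∀ i, ‖e i‖ = 1) → (∀ i j, i ≠ j → δ ≤ ‖e i - e j‖) → ∀ (w : E n), ‖w‖ = 1 →
      ∀ (J : Finset ι) (y : ℝ), δ ≤ y → (∀ j ∈ J, sn w (e j) ≤ y) →
        (J.card : ℝ) ≤ K * (y / δ) ^ (n - 1))
    (hCa : Ca = 1 + 2 ^ α * K * (1 / (1 - 2 ^ (-(((n - 1 : ℕ) : ℝ) - α)))))
    {Ω : Type*} [MeasurableSpace Ω] {P : Measure Ω} [IsProbabilityMeasure P]
    {g : Ω → E n ≃ₗᵢ[ℝ] E n} (hg : ∀ v, Measurable (fun ω => g ω v)) (hsp : Spread P g A α)
    {δ : ℝ} (hδ : 0 < δ) (hδ1 : δ < 1) {ι : Type} [Fintype ι] (a e : ι → E n)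
    (he : ∀ i, ‖e i‖ = 1) (hsep : ∀ i j, i ≠ j → δ ≤ ‖e i - e j‖) {N : ℝ}
    (hN : (Fintype.card ι : ℝ) ≤ N) (hN1 : 1 ≤ N) (i : ι) {r : ℝ}
    (hr0 : N ^ (-(1 / ((n - 1 : ℕ) : ℝ))) ≤ r) (hr16 : r ≤ 16) :
    ∫⁻ ω, (∫⁻ x, {x | x ∈ tube δ (g ω (a i)) (e i) ∧ r < ‖x - g ω (a i)‖ ∧
        ‖x - g ω (a i)‖ ≤ 2 * r}.indicator (fun x => mult δ (g ω) a e x ^ (q - 1)) x) ∂P ≤
      ENNReal.ofReal (((1 + K * 16 ^ (n - 1)) * (2 ^ n * vb n * 7) +
        (1296 * 2 ^ n * vb n * A * 16 ^ α) * Ca) * (δ ^ (n - 1) * r) *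
          (r ^ (-α) * N ^ (1 - α / ((n - 1 : ℕ) : ℝ))) ^ (q - 1)) := by
  classical
  set m : ℕ := n - 1 with hm
  have hm1 : 1 ≤ m := by omega
  have hmr : (1 : ℝ) < m := by linarith
  have hm0 : (0 : ℝ) < m := by linarith
  have hN0 : 0 < N := by linarith
  have hrpos : 0 < r := lt_of_lt_of_le (by positivity) hr0
  have hv := vb_pos n
  set lam : ℝ := r ^ (-α) * N ^ (1 - α / (m : ℝ)) with hlam
  have hlam0 : 0 < lam := by positivity
  -- near and far
  set near : Finset ι := Finset.univ.filter (fun j => sn (e i) (e j) < 16 * δ / r) with hnear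
  set far : Finset ι := Finset.univ.filter (fun j => ¬ sn (e i) (e j) < 16 * δ / r) with hfar
  have hyr : δ ≤ 16 * δ / r := by
    rw [le_div_iff₀ hrpos]
    nlinarith
  have hnc : (near.card : ℝ) ≤ K * 16 ^ m * lam := by
    have h1 := hcount δ hδ hδ1 e he hsep (e i) (he i) near (16 * δ / r) hyr (by
      intro j hj
      exact (Finset.mem_filter.1 hj).2.le)
    have h2 : (16 * δ / r / δ) ^ m = 16 ^ m * (1 / r) ^ m := by
      rw [← mul_pow]
      congr 1
      field_simp
    rw [h2, ← mul_assoc] at h1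
    refine h1.trans ?_
    gcongr
    -- (1/r)^m ≤ lam
    rw [hlam]
    have h3 : (1 / r) ^ m = r ^ (-(m : ℝ)) := by
      rw [Real.rpow_neg hrpos.le, Real.rpow_natCast, one_div, inv_pow]
    rw [h3]
    have h4 : -(m : ℝ) = -α + -((m : ℝ) - α) := by ring
    rw [h4, Real.rpow_add hrpos]
    gcongr
    have h5 : r ^ (-((m : ℝ) - α)) ≤ (N ^ (-(1 / (m : ℝ)))) ^ (-((m : ℝ) - α)) :=
      Real.rpow_le_rpow_of_nonpos (by positivity) hr0 (by linarith)
    refine h5.trans (le_of_eq ?_)
    rw [← Real.rpow_mul hN0.le]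
    congr 1
    field_simp
  -- the pointwise bound
  set B : ι → Ω → Set (E n) := fun j ω => {x | x ∈ tube δ (g ω (a i)) (e i) ∧
    x ∈ tube δ (g ω (a j)) (e j) ∧ r < ‖x - g ω (a i)‖ ∧ ‖x - g ω (a i)‖ ≤ 2 * r} with hB
  set T : Ω → Set (E n) := fun ω => {x | x ∈ tube δ (g ω (a i)) (e i) ∧ r < ‖x - g ω (a i)‖ ∧
        ‖x - g ω (a i)‖ ≤ 2 * r} with hT
  set l : ℝ≥0∞ := ENNReal.ofReal lam with hl
  have hl0 : l ≠ 0 := (ENNReal.ofReal_pos.2 hlam0).ne'
  have hlt : l ≠ ∞ := ENNReal.ofReal_ne_top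
  have hpt : ∀ ω x, (T ω).indicator (fun x => mult δ (g ω) a e x ^ (q - 1)) x ≤
      ENNReal.ofReal ((1 + K * 16 ^ m) * lam ^ (q - 1)) * (T ω).indicator 1 x +
        l ^ (q - 1 - 1) * ∑ j ∈ far, (B j ω).indicator 1 x := by
    intro ω x
    by_cases hx : x ∈ T ω
    · rw [indicator_of_mem hx, indicator_of_mem hx, Pi.one_apply, mul_one]
      have h1 : mult δ (g ω) a e x ≤ ENNReal.ofReal (K * 16 ^ m * lam) +
          ∑ j ∈ far, (B j ω).indicator 1 x := by
        unfold mult
        rw [← Finset.sum_filter_add_sum_filter_not Finset.univ (fun j => sn (e i) (e j) < 16 * δ / r)]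
        apply add_le_add
        · calc ∑ j ∈ near, (tube δ (g ω (a j)) (e j)).indicator (1 : E n → ℝ≥0∞) x
              ≤ ∑ _j ∈ near, (1 : ℝ≥0∞) := by
                apply Finset.sum_le_sum
                intro j _
                exact indicator_le_self' (fun _ _ => zero_le) x |>.trans (le_of_eq rfl)
            _ = near.card := by simp
            _ ≤ ENNReal.ofReal (K * 16 ^ m * lam) := by
                rw [← ENNReal.ofReal_natCast]
                exact ENNReal.ofReal_le_ofReal hnc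
        · apply Finset.sum_le_sum
          intro j _
          by_cases hj : x ∈ tube δ (g ω (a j)) (e j)
          · have hmem : x ∈ B j ω := ⟨hx.1, hj, hx.2.1, hx.2.2⟩
            rw [indicator_of_mem hj, indicator_of_mem hmem]
          · rw [indicator_of_notMem hj]
            exact zero_le
      calc mult δ (g ω) a e x ^ (q - 1) ≤ l ^ (q - 1) + l ^ (q - 1 - 1) * mult δ (g ω) a e x :=
            young hl0 hlt (by linarith) (by linarith)
        _ ≤ l ^ (q - 1) + l ^ (q - 1 - 1) * (ENNReal.ofReal (K * 16 ^ m * lam) +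
            ∑ j ∈ far, (B j ω).indicator 1 x) := by gcongr
        _ = (l ^ (q - 1) + l ^ (q - 1 - 1) * ENNReal.ofReal (K * 16 ^ m * lam)) +
            l ^ (q - 1 - 1) * ∑ j ∈ far, (B j ω).indicator 1 x := by ring
        _ = _ := by
            congr 1
            rw [hl, ENNReal.ofReal_rpow_of_pos hlam0, ENNReal.ofReal_rpow_of_pos hlam0,
              ← ENNReal.ofReal_mul (by positivity), ← ENNReal.ofReal_add (by positivity) (by positivity)]
            congr 1
            have h2 : lam ^ (q - 1 - 1) * lam = lam ^ (q - 1) := by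
              nth_rewrite 2 [← Real.rpow_one lam]
              rw [← Real.rpow_add hlam0]
              congr 1
              ring
            calc lam ^ (q - 1) + lam ^ (q - 1 - 1) * (K * 16 ^ m * lam)
                = lam ^ (q - 1) + K * 16 ^ m * (lam ^ (q - 1 - 1) * lam) := by ring
              _ = _ := by rw [h2]; ring
    · rw [indicator_of_notMem hx]
      exact zero_le
  -- measurability
  have hBm : ∀ j, MeasurableSet {p : Ω × E n | p.2 ∈ B j p.1} := by
    intro j
    have m1 := dist_meas hg (a i)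
    exact (tube_meas hg δ (a i) (e i)).inter ((tube_meas hg δ (a j) (e j)).inter
      ((measurableSet_lt measurable_const m1).inter (measurableSet_le m1 measurable_const)))
  have hTm : MeasurableSet {p : Ω × E n | p.2 ∈ T p.1} := by
    have m1 := dist_meas hg (a i)
    exact (tube_meas hg δ (a i) (e i)).inter
      ((measurableSet_lt measurable_const m1).inter (measurableSet_le m1 measurable_const))
  have hBmω : ∀ j ω, MeasurableSet (B j ω) := fun j ω =>
    (measurable_prodMk_left (x := ω) : Measurable (Prod.mk ω : E n → Ω × E n)) (hBm j)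
  have hTmω : ∀ ω, MeasurableSet (T ω) := fun ω =>
    (measurable_prodMk_left (x := ω) : Measurable (Prod.mk ω : E n → Ω × E n)) hTm
  have hx : ∀ ω, ∫⁻ x, (T ω).indicator (fun x => mult δ (g ω) a e x ^ (q - 1)) x ≤
      ENNReal.ofReal ((1 + K * 16 ^ m) * lam ^ (q - 1)) * volume (T ω) +
        l ^ (q - 1 - 1) * ∑ j ∈ far, volume (B j ω) := by
    intro ω
    refine (lintegral_mono (hpt ω)).trans (le_of_eq ?_)
    have m1 : Measurable (fun x => ENNReal.ofReal ((1 + K * 16 ^ m) * lam ^ (q - 1)) *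
        (T ω).indicator (1 : E n → ℝ≥0∞) x) := (measurable_one.indicator (hTmω ω)).const_mul _
    have m2 : Measurable (fun x => ∑ j ∈ far, (B j ω).indicator (1 : E n → ℝ≥0∞) x) :=
      Finset.measurable_sum _ (fun j _ => measurable_one.indicator (hBmω j ω))
    rw [lintegral_add_left m1, lintegral_const_mul _ (measurable_one.indicator (hTmω ω)),
      lintegral_const_mul _ m2, lintegral_finsetSum _ (fun j _ => measurable_one.indicator (hBmω j ω)),
      lintegral_indicator_one (hTmω ω)]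
    congr 2
    apply Finset.sum_congr rfl
    intro j _
    exact lintegral_indicator_one (hBmω j ω)
  have hvT : ∀ ω, volume (T ω) ≤ ENNReal.ofReal (2 ^ n * vb n * 7 * (δ ^ m * r)) := by
    intro ω
    refine le_trans (measure_mono ?_) (vol_piece (by omega) (g ω (a i)) (he i) hδ hrpos)
    rintro x ⟨h1, _, h3⟩
    exact ⟨h1, h3⟩
  have hvm : ∀ j, Measurable (fun ω => volume (B j ω)) := fun j =>
    measurable_measure_prodMk_left (hBm j)
  have hfarsum : ∑ j ∈ far, (δ / (r * sn (e i) (e j))) ^ α ≤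
      r ^ (-α) * (Ca * N ^ (1 - α / (m : ℝ))) := by
    have hfs : ∀ j ∈ far, 16 * δ / r ≤ sn (e i) (e j) := by
      intro j hj
      have := (Finset.mem_filter.1 hj).2
      push Not at this
      exact this
    have h1 := ang_sum far (fun j => sn (e i) (e j) / δ) (K := K) (α := α) (N := N) (m := m)
      (by linarith) (by linarith) hαn hN1 (by
        refine le_trans ?_ hN
        exact_mod_cast Finset.card_le_univ far) (by
        intro j hj
        rw [le_div_iff₀ hδ, one_mul]
        exact hyr.trans (hfs j hj)) (by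
        intro t ht
        have h2 := hcount δ hδ hδ1 e he hsep (e i) (he i)
          (far.filter (fun j => sn (e i) (e j) / δ ≤ t)) (t * δ) (by nlinarith) (by
            intro j hj
            have := (Finset.mem_filter.1 hj).2
            rwa [div_le_iff₀ hδ] at this)
        rwa [mul_div_cancel_right₀ _ hδ.ne'] at h2)
    rw [← hCa] at h1
    calc ∑ j ∈ far, (δ / (r * sn (e i) (e j))) ^ α
        = ∑ j ∈ far, r ^ (-α) * (sn (e i) (e j) / δ) ^ (-α) := by
          apply Finset.sum_congr rfl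
          intro j hj
          have hs : 0 < sn (e i) (e j) := lt_of_lt_of_le (by positivity) (hfs j hj)
          have h2 : δ / (r * sn (e i) (e j)) = (r * (sn (e i) (e j) / δ))⁻¹ := by
            field_simp
          rw [h2, Real.inv_rpow (by positivity), ← Real.rpow_neg (by positivity),
            Real.mul_rpow hrpos.le (by positivity)]
      _ = r ^ (-α) * ∑ j ∈ far, (sn (e i) (e j) / δ) ^ (-α) := by rw [Finset.mul_sum]
      _ ≤ _ := by gcongr
  have hpair : ∑ j ∈ far, ∫⁻ ω, volume (B j ω) ∂P ≤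
      ENNReal.ofReal ((1296 * 2 ^ n * vb n * A * 16 ^ α) * Ca * (δ ^ m * r) * lam) := by
    have hfs : ∀ j ∈ far, 16 * δ ≤ r * sn (e i) (e j) := by
      intro j hj
      have := (Finset.mem_filter.1 hj).2
      push Not at this
      rw [div_le_iff₀ hrpos] at this
      linarith
    calc ∑ j ∈ far, ∫⁻ ω, volume (B j ω) ∂P
        ≤ ∑ j ∈ far, ENNReal.ofReal (1296 * 2 ^ n * vb n * A * 16 ^ α * (δ ^ m * r) *
            (δ / (r * sn (e i) (e j))) ^ α) := by
          apply Finset.sum_le_sum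
          intro j hj
          exact pair (by omega) hg hA (by linarith) hsp (he i) (he j) (a i) (a j) hδ hrpos (hfs j hj)
      _ = ENNReal.ofReal (∑ j ∈ far, 1296 * 2 ^ n * vb n * A * 16 ^ α * (δ ^ m * r) *
            (δ / (r * sn (e i) (e j))) ^ α) := by
          rw [ENNReal.ofReal_sum_of_nonneg]
          intro j hj
          have : 0 ≤ sn (e i) (e j) := sn_nonneg _ _
          positivity
      _ ≤ _ := by
          apply ENNReal.ofReal_le_ofReal
          rw [← Finset.mul_sum]
          calc 1296 * 2 ^ n * vb n * A * 16 ^ α * (δ ^ m * r) *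
                ∑ j ∈ far, (δ / (r * sn (e i) (e j))) ^ α
              ≤ 1296 * 2 ^ n * vb n * A * 16 ^ α * (δ ^ m * r) *
                (r ^ (-α) * (Ca * N ^ (1 - α / (m : ℝ)))) := by gcongr
            _ = _ := by rw [hlam]; ring
  calc _ ≤ ∫⁻ ω, (ENNReal.ofReal ((1 + K * 16 ^ m) * lam ^ (q - 1)) *
          ENNReal.ofReal (2 ^ n * vb n * 7 * (δ ^ m * r)) +
        l ^ (q - 1 - 1) * ∑ j ∈ far, volume (B j ω)) ∂P := by
        apply lintegral_mono
        intro ω
        exact (hx ω).trans (add_le_add (mul_le_mul' le_rfl (hvT ω)) le_rfl)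
    _ = ENNReal.ofReal ((1 + K * 16 ^ m) * lam ^ (q - 1)) *
          ENNReal.ofReal (2 ^ n * vb n * 7 * (δ ^ m * r)) +
        l ^ (q - 1 - 1) * ∑ j ∈ far, ∫⁻ ω, volume (B j ω) ∂P := by
        rw [lintegral_add_left measurable_const, lintegral_const, measure_univ, mul_one,
          lintegral_const_mul _ (Finset.measurable_sum _ (fun j _ => hvm j)),
          lintegral_finsetSum _ (fun j _ => hvm j)]
    _ ≤ ENNReal.ofReal ((1 + K * 16 ^ m) * lam ^ (q - 1)) *
          ENNReal.ofReal (2 ^ n * vb n * 7 * (δ ^ m * r)) +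
        l ^ (q - 1 - 1) * ENNReal.ofReal ((1296 * 2 ^ n * vb n * A * 16 ^ α) * Ca *
          (δ ^ m * r) * lam) := by gcongr
    _ = _ := by
        have hCa0 : 0 ≤ Ca := by
          have h2 : (2 : ℝ) ^ (-((m : ℝ) - α)) < 1 :=
            Real.rpow_lt_one_of_one_lt_of_neg (by norm_num) (by linarith)
          have h3 : 0 < 1 - (2 : ℝ) ^ (-((m : ℝ) - α)) := by linarith
          rw [hCa]
          positivity
        rw [hl, ENNReal.ofReal_rpow_of_pos hlam0, ← ENNReal.ofReal_mul (by positivity),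
          ← ENNReal.ofReal_mul (by positivity), ← ENNReal.ofReal_add (by positivity) (by positivity)]
        congr 1
        have h2 : lam ^ (q - 1 - 1) * lam = lam ^ (q - 1) := by
          nth_rewrite 2 [← Real.rpow_one lam]
          rw [← Real.rpow_add hlam0]
          congr 1
          ring
        calc (1 + K * 16 ^ m) * lam ^ (q - 1) * (2 ^ n * vb n * 7 * (δ ^ m * r)) +
              lam ^ (q - 1 - 1) * (1296 * 2 ^ n * vb n * A * 16 ^ α * Ca * (δ ^ m * r) * lam)
            = (1 + K * 16 ^ m) * lam ^ (q - 1) * (2 ^ n * vb n * 7 * (δ ^ m * r)) +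
              (1296 * 2 ^ n * vb n * A * 16 ^ α * Ca * (δ ^ m * r)) * (lam ^ (q - 1 - 1) * lam) := by ring
          _ = _ := by rw [h2]; ring

end Pool.Agent.TH705.RR
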