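import Pool.Agent.TH705.RR.Det
import Pool.Agent.W131.HM.CapVol
set_option autoImplicit false

/-!
# Averages over tubes
-/

open MeasureTheory Set Metric Filter
open scoped ENNReal NNReal

namespace Pool.Agent.TH705.RR

/-- The closed cylinder of length `2 H` and radius `δ`. -/
def tubeH {n : ℕ} (H δ : ℝ) (c e : E n) : Set (E n) :=
  {y | |inner ℝ (y - c) e| ≤ H ∧ ‖(y - c) - (inner ℝ (y - c) e) • e‖ ≤ δ}

/-- The average over the tube. -/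
noncomputable def avgH {n : ℕ} (f : E n → ℝ≥0∞) (H δ : ℝ) (c e : E n) : ℝ≥0∞ :=
  (∫⁻ y in tubeH H δ c e, f y) / volume (tubeH H δ c e)

theorem avgH_congr {n : ℕ} {f f' : E n → ℝ≥0∞} (h : f =ᵐ[volume] f') (H δ : ℝ) (c e : E n) :
    avgH f H δ c e = avgH f' H δ c e := by
  unfold avgH
  congr 1
  exact lintegral_congr_ae (ae_restrict_of_ae h)

theorem vol_low {n : ℕ} (hn : 1 ≤ n) : ∃ κ : ℝ, 0 < κ ∧ ∀ (a e : E n) (H δ : ℝ), ‖e‖ = 1 →
    1 / 2 ≤ H → 0 < δ → δ ≤ 1 → ENNReal.ofReal (κ * δ ^ (n - 1)) ≤ volume (tubeH H δ a e) := by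
  obtain ⟨d, rfl⟩ : ∃ d, n = d + 1 := ⟨n - 1, by omega⟩
  obtain ⟨κ, hκ, h⟩ := W131.HM.VOL d
  refine ⟨κ, hκ, ?_⟩
  intro a e H δ he hH hδ hδ1
  rw [Nat.add_sub_cancel]
  refine (h a e δ he hδ hδ1).1.trans (measure_mono ?_)
  rintro y ⟨h1, h2⟩
  exact ⟨h1.trans hH, h2⟩

theorem tube_sub {n : ℕ} {H δ : ℝ} {c e : E n} (he : ‖e‖ = 1) {j h : ℕ} (hδ : δ ≤ dl j)
    (hH : H + 1 ≤ 2 ^ (h + 1)) {y : E n} (hy : y ∈ tubeH H δ c e) :
    y ∈ cyl (dl j) c e ∧ ‖y - c‖ ≤ 2 ^ (h + 1) := by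
  obtain ⟨h1, h2⟩ := hy
  refine ⟨h2.trans hδ, ?_⟩
  have hd1 := dl_le_one j
  calc ‖y - c‖ = ‖((y - c) - (inner ℝ (y - c) e) • e) + (inner ℝ (y - c) e) • e‖ := by
        congr 1; abel
    _ ≤ ‖(y - c) - (inner ℝ (y - c) e) • e‖ + ‖(inner ℝ (y - c) e) • e‖ := norm_add_le _ _
    _ ≤ 2 ^ (h + 1) := by
        rw [norm_smul, he, mul_one, Real.norm_eq_abs]
        linarith

section

variable {n : ℕ} {V : Type*} [MeasurableSpace V]

omit [MeasurableSpace V] in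
theorem avg_le {κ : ℝ} (hκ : 0 < κ) (hvol : ∀ (a e : E n) (H δ : ℝ), ‖e‖ = 1 →
    1 / 2 ≤ H → 0 < δ → δ ≤ 1 → ENNReal.ofReal (κ * δ ^ (n - 1)) ≤ volume (tubeH H δ a e))
    {H δ : ℝ} (hH2 : 1 / 2 ≤ H) {g : E n ≃ₗᵢ[ℝ] E n} {a e : V → E n} (he : ∀ v, ‖e v‖ = 1)
    {j h : ℕ} (hδ0 : 0 < δ) (hδ : δ ≤ dl j) (hH : H + 1 ≤ 2 ^ (h + 1)) (f : E n → ℝ≥0∞) (v : V) :
    avgH f H δ (g (a v)) (e v) ≤ ENNReal.ofReal ((κ * δ ^ (n - 1))⁻¹) * sli (big j h g a e) f v := by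
  unfold avgH sli
  rw [ENNReal.ofReal_inv_of_pos (by positivity), mul_comm, ← div_eq_mul_inv]
  apply ENNReal.div_le_div _ (hvol _ _ _ _ (he v) hH2 hδ0 (hδ.trans (dl_le_one j)))
  apply lintegral_mono_set
  intro y hy
  exact tube_sub (he v) hδ hH hy

/-- The constant of the maximal inequality. -/
noncomputable def CC (n : ℕ) (κ p : ℝ) (h : ℕ) (m : ℝ) : ℝ :=
  κ⁻¹ ^ p * Cd n p h m * (2 ^ n) ^ (p - 1)

theorem Cd_mono (n : ℕ) (p : ℝ) (h : ℕ) {m m' : ℝ} (hm : m ≤ m') : Cd n p h m ≤ Cd n p h m' := by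
  have := vb_pos n
  unfold Cd
  gcongr

end

/-- The comparison of the exponents. -/
theorem expo {n : ℕ} {κ p γ δ M : ℝ} (hn : 1 ≤ n) (hκ : 0 < κ) (hp : 2 ≤ p) (hγ : 0 ≤ γ) {j : ℕ}
    (hδ : dl (j + 1) < δ) (hM : 0 ≤ M) :
    (κ * δ ^ (n - 1))⁻¹ ^ p * (M * ((dl j ^ (n - 1)) ^ (p - 1) * dl j ^ (min γ (p - 1)))) ≤
      κ⁻¹ ^ p * M * (2 ^ n) ^ (p - 1) * δ ^ (-(max ((n : ℝ) - 1 - γ) (n - p))) := by
  have hd := dl_pos j
  have hd1 := dl_pos (j + 1)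
  have hδ0 : 0 < δ := hd1.trans hδ
  have hdδ : dl j ≤ 2 * δ := by
    have : dl (j + 1) = dl j * (1 / 2) := by unfold dl; rw [pow_succ]
    linarith
  set X : ℝ := δ ^ (n - 1) with hX
  have hX0 : 0 < X := by positivity
  have h0 : 0 ≤ min γ (p - 1) := le_min hγ (by linarith)
  have h1 : (dl j ^ (n - 1)) ^ (p - 1) ≤ (2 ^ (n - 1)) ^ (p - 1) * X ^ (p - 1) := by
    rw [← Real.mul_rpow (by positivity) hX0.le, hX, ← mul_pow]
    apply Real.rpow_le_rpow (by positivity) _ (by linarith)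
    gcongr
  have h2 : dl j ^ (min γ (p - 1)) ≤ 2 ^ (p - 1) * δ ^ (min γ (p - 1)) := by
    calc dl j ^ (min γ (p - 1)) ≤ (2 * δ) ^ (min γ (p - 1)) :=
            Real.rpow_le_rpow hd.le hdδ h0
        _ = 2 ^ (min γ (p - 1)) * δ ^ (min γ (p - 1)) := Real.mul_rpow (by norm_num) hδ0.le
        _ ≤ _ := by
            apply mul_le_mul_of_nonneg_right _ (by positivity)
            exact Real.rpow_le_rpow_of_exponent_le (by norm_num) (min_le_right _ _)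
  have e1 : (κ * X)⁻¹ ^ p = κ⁻¹ ^ p * X ^ (-p) := by
    rw [mul_inv, Real.mul_rpow (by positivity) (by positivity), Real.inv_rpow hX0.le,
      Real.rpow_neg hX0.le]
  have e2 : X ^ (-p) * X ^ (p - 1) = X⁻¹ := by
    rw [← Real.rpow_add hX0, ← Real.rpow_neg_one]
    congr 1
    ring
  have e3 : ((2 : ℝ) ^ (n - 1)) ^ (p - 1) * 2 ^ (p - 1) = (2 ^ n) ^ (p - 1) := by
    rw [← Real.mul_rpow (by positivity) (by norm_num), ← pow_succ, Nat.sub_add_cancel hn]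
  have e4 : X⁻¹ * δ ^ (min γ (p - 1)) = δ ^ (-(max ((n : ℝ) - 1 - γ) (n - p))) := by
    have e5 : X⁻¹ = δ ^ (-((n : ℝ) - 1)) := by
      rw [hX, Real.rpow_neg hδ0.le, ← Real.rpow_natCast, Nat.cast_sub hn, Nat.cast_one]
    rw [e5, ← Real.rpow_add hδ0]
    congr 1
    rcases le_total γ (p - 1) with h | h
    · rw [min_eq_left h, max_eq_left (by linarith)]
      ring
    · rw [min_eq_right h, max_eq_right (by linarith)]
      ring
  rw [e1]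
  calc κ⁻¹ ^ p * X ^ (-p) * (M * ((dl j ^ (n - 1)) ^ (p - 1) * dl j ^ (min γ (p - 1))))
      ≤ κ⁻¹ ^ p * X ^ (-p) * (M * (((2 ^ (n - 1)) ^ (p - 1) * X ^ (p - 1)) *
        (2 ^ (p - 1) * δ ^ (min γ (p - 1))))) := by gcongr
    _ = κ⁻¹ ^ p * M * (((2 : ℝ) ^ (n - 1)) ^ (p - 1) * 2 ^ (p - 1)) *
        ((X ^ (-p) * X ^ (p - 1)) * δ ^ (min γ (p - 1))) := by ring
    _ = _ := by rw [e2, e3, e4]

section

variable {n : ℕ} {V : Type*} [MeasurableSpace V]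

/-- **The weighted estimate.** -/
theorem max_det (hn : 1 ≤ n) {κ : ℝ} (hκ : 0 < κ) (hvol : ∀ (a e : E n) (H δ : ℝ), ‖e‖ = 1 →
    1 / 2 ≤ H → 0 < δ → δ ≤ 1 → ENNReal.ofReal (κ * δ ^ (n - 1)) ≤ volume (tubeH H δ a e))
    {H : ℝ} (hH2 : 1 / 2 ≤ H) {h : ℕ} (hH : H + 1 ≤ 2 ^ (h + 1)) (ν : Measure V)
    [IsFiniteMeasure ν] {m : ℝ} (hm : (ν univ).toReal ≤ m) {g : E n ≃ₗᵢ[ℝ] E n}
    {a : ℕ → V → E n} {e : V → E n} (ha : ∀ j, Measurable (a j)) (hem : Measurable e)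
    (he : ∀ v, ‖e v‖ = 1) {γ p : ℝ} (hγ : 0 ≤ γ) (hp : 2 ≤ p) {f : E n → ℝ≥0∞}
    (hf : AEMeasurable f volume) {j : ℕ} {δ : ℝ} (hδ1 : dl (j + 1) < δ) (hδ2 : δ ≤ dl j) :
    ∫⁻ v, avgH f H δ (g (a j v)) (e v) ^ p / tot ν γ h g a e v ∂ν ≤
      ENNReal.ofReal (CC n κ p h m * ((j : ℝ) + 1) ^ (p + 4) *
        δ ^ (-(max ((n : ℝ) - 1 - γ) (n - p)))) * ∫⁻ x, f x ^ p := by
  have hδ0 : 0 < δ := (dl_pos _).trans hδ1
  have hm0 : 0 ≤ m := ENNReal.toReal_nonneg.trans hm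
  set f' := hf.mk f with hf'
  have hf'm : Measurable f' := hf.measurable_mk
  have hff' : f =ᵐ[volume] f' := hf.ae_eq_mk
  have hint : ∫⁻ x, f x ^ p = ∫⁻ x, f' x ^ p := by
    apply lintegral_congr_ae
    filter_upwards [hff'] with x hx
    rw [hx]
  have hav : ∀ v, avgH f H δ (g (a j v)) (e v) = avgH f' H δ (g (a j v)) (e v) :=
    fun v => avgH_congr hff' _ _ _ _
  simp_rw [hav]
  rw [hint]
  set c : ℝ := (κ * δ ^ (n - 1))⁻¹ with hc
  have hc0 : 0 < c := by positivity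
  have hcd := det ν hn (g := g) ha hem he hγ hp hf'm h j
  calc ∫⁻ v, avgH f' H δ (g (a j v)) (e v) ^ p / tot ν γ h g a e v ∂ν
      ≤ ∫⁻ v, ENNReal.ofReal (c ^ p) * (sli (big j h g (a j) e) f' v ^ p / tot ν γ h g a e v) ∂ν := by
        apply lintegral_mono
        intro v
        simp only
        rw [← mul_div_assoc]
        apply ENNReal.div_le_div_right
        have h1 := ENNReal.rpow_le_rpow (avg_le (g := g) (a := a j) hκ hvol hH2 he hδ0 hδ2 hH f' v)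
          (by linarith : (0 : ℝ) ≤ p)
        rw [ENNReal.mul_rpow_of_nonneg _ _ (by linarith : (0 : ℝ) ≤ p),
          ENNReal.ofReal_rpow_of_pos hc0] at h1
        exact h1
    _ = ENNReal.ofReal (c ^ p) * ∫⁻ v, (sli (big j h g (a j) e) f' v ^ p / tot ν γ h g a e v) ∂ν :=
        lintegral_const_mul' _ _ ENNReal.ofReal_ne_top
    _ ≤ ENNReal.ofReal (c ^ p) * (ENNReal.ofReal (Cd n p h (ν univ).toReal * (((j : ℝ) + 1) ^ (p + 4) *
        ((dl j ^ (n - 1)) ^ (p - 1) * dl j ^ (min γ (p - 1))))) * ∫⁻ x, f' x ^ p) :=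
        mul_le_mul' le_rfl hcd
    _ = ENNReal.ofReal (c ^ p * (Cd n p h (ν univ).toReal * (((j : ℝ) + 1) ^ (p + 4) *
        ((dl j ^ (n - 1)) ^ (p - 1) * dl j ^ (min γ (p - 1)))))) * ∫⁻ x, f' x ^ p := by
        rw [← mul_assoc, ← ENNReal.ofReal_mul (by positivity)]
    _ ≤ _ := by
        apply mul_le_mul' _ le_rfl
        apply ENNReal.ofReal_le_ofReal
        have hCdm := Cd_mono n p h hm
        have hCd0 := Cd_nonneg n p h hm0
        have hj : (0 : ℝ) < (j : ℝ) + 1 := by positivity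
        have hd := dl_pos j
        calc c ^ p * (Cd n p h (ν univ).toReal * (((j : ℝ) + 1) ^ (p + 4) *
              ((dl j ^ (n - 1)) ^ (p - 1) * dl j ^ (min γ (p - 1)))))
            ≤ c ^ p * (Cd n p h m * (((j : ℝ) + 1) ^ (p + 4) *
              ((dl j ^ (n - 1)) ^ (p - 1) * dl j ^ (min γ (p - 1))))) := by gcongr
          _ = c ^ p * ((Cd n p h m * ((j : ℝ) + 1) ^ (p + 4)) *
              ((dl j ^ (n - 1)) ^ (p - 1) * dl j ^ (min γ (p - 1)))) := by ring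
          _ ≤ _ := expo hn hκ hp hγ hδ1 (by positivity)
          _ = _ := by
              unfold CC
              ring

/-- The number of the scale. -/
theorem scaleM {δ : ℝ} (hδ0 : 0 < δ) (hδ1 : δ < 1) : ∃ j : ℕ, dl (j + 1) < δ ∧ δ ≤ dl j ∧
    (j : ℝ) + 1 ≤ 2 * (1 + Real.log (1 / δ)) := by
  obtain ⟨j, h1, h2⟩ := exists_nat_pow_near_of_lt_one hδ0 hδ1.le (by norm_num : (0 : ℝ) < 1 / 2)
    (by norm_num)
  refine ⟨j, h1, h2, ?_⟩
  have h3 := Real.log_le_log hδ0 h2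
  rw [Real.log_pow, one_div, Real.log_inv] at h3
  rw [one_div, Real.log_inv]
  have h4 : (1 / 2 : ℝ) < Real.log 2 := by
    have := Real.log_two_gt_d9
    linarith
  have h5 : (j : ℝ) * (1 / 2) ≤ j * Real.log 2 := by gcongr
  linarith

/-- The estimate for all scales. -/
theorem max_all (hn : 1 ≤ n) {κ : ℝ} (hκ : 0 < κ) (hvol : ∀ (a e : E n) (H δ : ℝ), ‖e‖ = 1 →
    1 / 2 ≤ H → 0 < δ → δ ≤ 1 → ENNReal.ofReal (κ * δ ^ (n - 1)) ≤ volume (tubeH H δ a e))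
    {H : ℝ} (hH2 : 1 / 2 ≤ H) {h : ℕ} (hH : H + 1 ≤ 2 ^ (h + 1)) (ν : Measure V)
    [IsFiniteMeasure ν] {m : ℝ} (hm : (ν univ).toReal ≤ m) {g : E n ≃ₗᵢ[ℝ] E n}
    {a e : V → E n} (ha : Measurable a) (hem : Measurable e)
    (he : ∀ v, ‖e v‖ = 1) {γ p : ℝ} (hγ : 0 ≤ γ) (hp : 2 ≤ p) {f : E n → ℝ≥0∞}
    (hf : AEMeasurable f volume) {δ : ℝ} (hδ0 : 0 < δ) (hδ1 : δ < 1) :
    ∫⁻ v, avgH f H δ (g (a v)) (e v) ^ p / tot ν γ h g (fun _ => a) e v ∂ν ≤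
      ENNReal.ofReal (CC n κ p h m * 2 ^ (p + 4) * ((1 + Real.log (1 / δ)) ^ (p + 4) *
        δ ^ (-(max ((n : ℝ) - 1 - γ) (n - p))))) * ∫⁻ x, f x ^ p := by
  have hm0 : 0 ≤ m := ENNReal.toReal_nonneg.trans hm
  obtain ⟨j, h1, h2, h3⟩ := scaleM hδ0 hδ1
  refine (max_det hn hκ hvol hH2 hH ν hm (g := g) (a := fun _ => a) (fun _ => ha) hem he hγ hp hf
    h1 h2).trans ?_
  apply mul_le_mul' _ le_rfl
  apply ENNReal.ofReal_le_ofReal
  have hCd0 := Cd_nonneg n p h hm0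
  have hCC : 0 ≤ CC n κ p h m := by unfold CC; positivity
  have hlog : 0 ≤ Real.log (1 / δ) := Real.log_nonneg (by rw [le_div_iff₀ hδ0]; linarith)
  have h4 : ((j : ℝ) + 1) ^ (p + 4) ≤ 2 ^ (p + 4) * (1 + Real.log (1 / δ)) ^ (p + 4) := by
    rw [← Real.mul_rpow (by norm_num) (by positivity)]
    exact Real.rpow_le_rpow (by positivity) h3 (by linarith)
  calc CC n κ p h m * ((j : ℝ) + 1) ^ (p + 4) * δ ^ (-(max ((n : ℝ) - 1 - γ) (n - p)))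
      ≤ CC n κ p h m * (2 ^ (p + 4) * (1 + Real.log (1 / δ)) ^ (p + 4)) *
        δ ^ (-(max ((n : ℝ) - 1 - γ) (n - p))) := by gcongr
    _ = _ := by ring

/-- The incidences with the tubes. -/
def tubs (H δ : ℝ) (b e : V → E n) : Set (V × E n) := {q | q.2 ∈ tubeH H δ (b q.1) (e q.1)}

theorem tubs_meas (H δ : ℝ) {b e : V → E n} (hb : Measurable b) (he : Measurable e) :
    MeasurableSet (tubs H δ b e) := by
  have m1 : Measurable (fun q : V × E n => q.2 - b q.1) :=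
    measurable_snd.sub (hb.comp measurable_fst)
  have me : Measurable (fun q : V × E n => e q.1) := he.comp measurable_fst
  have m2 : Measurable (fun q : V × E n => (inner ℝ (q.2 - b q.1) (e q.1) : ℝ)) :=
    m1.inner me
  have m3 : Measurable (fun q : V × E n => ‖(q.2 - b q.1) -
      (inner ℝ (q.2 - b q.1) (e q.1) : ℝ) • e q.1‖) := (m1.sub (m2.smul me)).norm
  exact (measurableSet_le m2.abs measurable_const).inter (measurableSet_le m3 measurable_const)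

theorem avg_meas (H δ : ℝ) {b e : V → E n} (hb : Measurable b) (he : Measurable e)
    {f : E n → ℝ≥0∞} (hf : AEMeasurable f volume) :
    Measurable (fun v => avgH f H δ (b v) (e v)) := by
  have hav : (fun v => avgH f H δ (b v) (e v)) = fun v => avgH (hf.mk f) H δ (b v) (e v) := by
    funext v
    exact avgH_congr hf.ae_eq_mk _ _ _ _
  rw [hav]
  have hS := tubs_meas H δ hb he
  have h1 := sli_meas hS hf.measurable_mk
  have h2 : Measurable (fun v => volume {y | (v, y) ∈ tubs H δ b e}) :=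
    measurable_measure_prodMk_left hS
  exact h1.div h2

/-- From the weighted estimate to the estimate on a large set. -/
theorem on_set (ν : Measure V) {U : V → ℝ≥0∞} (hU1 : ∀ v, 1 ≤ U v) {N : ℝ≥0∞} (hN : N ≠ ∞)
    {S : Set V} (hSm : MeasurableSet S) (hS : ∀ v ∈ S, U v ≤ N) (F : V → ℝ≥0∞) (p : ℝ) :
    ∫⁻ v in S, F v ^ p ∂ν ≤ N * ∫⁻ v, F v ^ p / U v ∂ν := by
  calc ∫⁻ v in S, F v ^ p ∂ν ≤ ∫⁻ v in S, N * (F v ^ p / U v) ∂ν := by
        apply setLIntegral_mono' hSm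
        intro v hv
        have h1 : U v ≠ 0 := (lt_of_lt_of_le one_pos (hU1 v)).ne'
        have h2 : U v ≠ ∞ := ((hS v hv).trans_lt hN.lt_top).ne
        calc F v ^ p = U v * (F v ^ p / U v) := (ENNReal.mul_div_cancel h1 h2).symm
          _ ≤ _ := mul_le_mul' (hS v hv) le_rfl
    _ = N * ∫⁻ v in S, F v ^ p / U v ∂ν := lintegral_const_mul' _ _ hN
    _ ≤ _ := mul_le_mul' le_rfl (setLIntegral_le_lintegral _ _)

/-- From the weighted estimate to the estimate with half of the exponent. -/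
theorem half (ν : Measure V) {U : V → ℝ≥0∞} (hUm : Measurable U) (hU1 : ∀ v, 1 ≤ U v)
    (hU : ∫⁻ v, U v ∂ν ≠ ∞) {F : V → ℝ≥0∞} (hF : Measurable F) (p : ℝ) :
    (∫⁻ v, F v ^ (p / 2) ∂ν) ^ (2 : ℝ) ≤ (∫⁻ v, U v ∂ν) * ∫⁻ v, F v ^ p / U v ∂ν := by
  have hfin := ae_lt_top hUm hU
  have e1 : ∫⁻ v, F v ^ (p / 2) ∂ν =
      ∫⁻ v, U v ^ (1 / 2 : ℝ) * (F v ^ (p / 2) * U v ^ (-(1 / 2 : ℝ))) ∂ν := by
    apply lintegral_congr_ae
    filter_upwards [hfin] with v hv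
    have h0 : U v ≠ 0 := (lt_of_lt_of_le one_pos (hU1 v)).ne'
    have e2 : U v ^ (1 / 2 : ℝ) * U v ^ (-(1 / 2 : ℝ)) = 1 := by
      rw [← ENNReal.rpow_add _ _ h0 hv.ne]
      simp
    calc F v ^ (p / 2) = F v ^ (p / 2) * (U v ^ (1 / 2 : ℝ) * U v ^ (-(1 / 2 : ℝ))) := by
          rw [e2, mul_one]
      _ = _ := by ring
  rw [e1]
  refine (cs_sq ν (hUm.pow_const _) ((hF.pow_const _).mul (hUm.pow_const _))).trans
    (le_of_eq ?_)
  congr 1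
  · apply lintegral_congr
    intro v
    rw [← ENNReal.rpow_mul]
    norm_num
  · apply lintegral_congr
    intro v
    show (F v ^ (p / 2) * U v ^ (-(1 / 2 : ℝ))) ^ (2 : ℝ) = F v ^ p / U v
    rw [ENNReal.mul_rpow_of_nonneg _ _ (by norm_num), ← ENNReal.rpow_mul, ← ENNReal.rpow_mul]
    have e3 : p / 2 * 2 = p := by ring
    have e4 : -(1 / 2 : ℝ) * 2 = -1 := by norm_num
    rw [e3, e4, ENNReal.rpow_neg_one]
    rfl

end

end Pool.Agent.TH705.RR
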