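import Pool.Agent.TH705.RR.Dim
import Pool.Agent.TH705.RR.Fin
set_option autoImplicit false

/-!
# Lines in all directions
-/

open MeasureTheory Set Metric Filter
open scoped ENNReal NNReal Pointwise

namespace Pool.Agent.TH705.RR

/-- The surface measure. -/
noncomputable def surf (n : ℕ) : Measure (sphere (0 : E n) 1) := (volume : Measure (E n)).toSphere

instance (n : ℕ) : IsFiniteMeasure (surf n) := by
  unfold surf
  infer_instance

theorem surf_frost {n : ℕ} (hn : 1 ≤ n) :
    Frost (surf n) (fun w => (w : E n)) ((n : ℝ) * (2 ^ n * vb n * 5)) ((n : ℝ) - 1) := by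
  intro u hu r hr
  have hv := vb_pos n
  have hn1 : (0 : ℝ) ≤ (n : ℝ) - 1 := by
    have : (1 : ℝ) ≤ n := by exact_mod_cast hn
    linarith
  have hn0 : (0 : ℝ) < n := by
    have : (1 : ℝ) ≤ n := by exact_mod_cast hn
    linarith
  have hms : MeasurableSet {w : sphere (0 : E n) 1 | ‖(w : E n) - u‖ ≤ r} := by
    have m1 : Measurable (fun w : sphere (0 : E n) 1 => ‖(w : E n) - u‖) := by fun_prop
    exact measurableSet_le m1 measurable_const
  rcases le_total r 1 with h | h
  · have hsub : Ioo (0 : ℝ) 1 • (((↑) : sphere (0 : E n) 1 → E n) ''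
        {w : sphere (0 : E n) 1 | ‖(w : E n) - u‖ ≤ r}) ⊆ Rod 0 u 1 r := by
      rintro x hx
      obtain ⟨l, hl, y, ⟨w, hw, rfl⟩, rfl⟩ := Set.mem_smul.1 hx
      refine ⟨l, ?_, ?_⟩
      · rw [abs_of_pos hl.1]; exact hl.2.le
      · rw [sub_zero, ← smul_sub, norm_smul, Real.norm_eq_abs, abs_of_pos hl.1]
        have hw' : ‖(w : E n) - u‖ ≤ r := hw
        calc l * ‖(w : E n) - u‖ ≤ 1 * r := by
              apply mul_le_mul hl.2.le hw' (norm_nonneg _) zero_le_one
          _ = r := one_mul r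
    unfold surf
    rw [Measure.toSphere_apply' _ hms, finrank_euclideanSpace_fin]
    calc (n : ℝ≥0∞) * volume (Ioo (0 : ℝ) 1 • (((↑) : sphere (0 : E n) 1 → E n) ''
        {w : sphere (0 : E n) 1 | ‖(w : E n) - u‖ ≤ r}))
        ≤ (n : ℝ≥0∞) * ENNReal.ofReal (2 ^ n * vb n * (2 * 1 + 3 * r) * r ^ (n - 1)) := by
          gcongr
          exact (measure_mono hsub).trans (vol_rod hn 0 hu zero_le_one hr)
      _ = ENNReal.ofReal ((n : ℝ) * (2 ^ n * vb n * (2 * 1 + 3 * r) * r ^ (n - 1))) := by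
          rw [ENNReal.ofReal_mul hn0.le, ENNReal.ofReal_natCast]
      _ ≤ _ := by
          apply ENNReal.ofReal_le_ofReal
          have h6 : r ^ ((n : ℝ) - 1) = r ^ (n - 1) := by
            rw [← Real.rpow_natCast, Nat.cast_sub hn]
            simp
          rw [h6]
          have : 2 * 1 + 3 * r ≤ 5 := by linarith
          calc (n : ℝ) * (2 ^ n * vb n * (2 * 1 + 3 * r) * r ^ (n - 1))
              ≤ (n : ℝ) * (2 ^ n * vb n * 5 * r ^ (n - 1)) := by gcongr
            _ = _ := by ring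
  · refine (measure_mono (subset_univ _)).trans ?_
    have hnt : Nontrivial (E n) := by
      refine ⟨u, 0, ?_⟩
      intro h0
      rw [h0, norm_zero] at hu
      exact zero_ne_one hu
    unfold surf
    rw [Measure.toSphere_apply_univ, finrank_euclideanSpace_fin, vol_ball 0 one_pos,
      ← ENNReal.ofReal_natCast, ← ENNReal.ofReal_mul hn0.le]
    apply ENNReal.ofReal_le_ofReal
    have h1 : 1 ≤ r ^ ((n : ℝ) - 1) := Real.one_le_rpow h hn1
    have h2 : (1 : ℝ) ≤ 2 ^ n := one_le_pow₀ (by norm_num)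
    rw [one_pow, one_mul]
    calc (n : ℝ) * vb n = (n : ℝ) * (1 * vb n * 1) * 1 := by ring
      _ ≤ (n : ℝ) * (2 ^ n * vb n * 5) * r ^ ((n : ℝ) - 1) := by gcongr; norm_num

/-- The version with rotated directions. -/
theorem dim_general_dir {n : ℕ} {V : Type*} [MeasurableSpace V] {Ω : Type*} [MeasurableSpace Ω]
    {ν : Measure V} [IsFiniteMeasure ν] {P : Measure Ω} [IsProbabilityMeasure P]
    {g : Ω → E n ≃ₗᵢ[ℝ] E n} (hg : ∀ v, Measurable (fun ω => g ω v)) {a e : V → E n}
    (ha : Measurable a) (hem : Measurable e) (he : ∀ v, ‖e v‖ = 1) {A α B β : ℝ} (hA : 0 ≤ A)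
    (hB : 0 ≤ B) (hα : 0 < α) (hβ : 0 < β) (hsp : Spread P g A α) (hF : Frost ν e B β) :
    ∀ᵐ ω ∂P, ∀ K : Set (E n), dimH K < ENNReal.ofReal (1 + min α β) →
      ∀ᵐ v ∂ν, volume {t : ℝ | a v + t • g ω (e v) ∈ K} = 0 := by
  filter_upwards [dim_general (symm_meas hg) ha hem he hA hB hα hβ (spread_symm hsp) hF] with ω hω K hK
  have h1 : dimH ((g ω).symm '' K) < ENNReal.ofReal (1 + min α β) := by
    have h2 : dimH ((g ω).symm '' K) = dimH K := (g ω).symm.isometry.dimH_image K
    rw [h2]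
    exact hK
  filter_upwards [hω _ h1] with v hv
  refine measure_mono_null ?_ hv
  intro t ht
  refine ⟨a v + t • g ω (e v), ht, ?_⟩
  rw [map_add, map_smul, LinearIsometryEquiv.symm_apply_apply]

end Pool.Agent.TH705.RR
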