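import Pool.Agent.TH705.RR.Wt2
import Pool.Agent.TH705.RR.Sph
set_option autoImplicit false

/-!
# Maximal functions of the families of lines with rotated positions
-/

open MeasureTheory Set Metric Filter
open scoped ENNReal NNReal

namespace Pool.Agent.TH705.RR

/-- The scales. -/
noncomputable def dl (j : ℕ) : ℝ := (1 / 2 : ℝ) ^ j

theorem dl_pos (j : ℕ) : 0 < dl j := by unfold dl; positivity

theorem dl_le_one (j : ℕ) : dl j ≤ 1 := pow_le_one₀ (by norm_num) (by norm_num)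

/-- The decay factor. -/
noncomputable def kap (γ : ℝ) (k : ℕ) : ℝ := ((2 : ℝ) ^ k) ^ (-γ)

theorem kap_pos (γ : ℝ) (k : ℕ) : 0 < kap γ k := by unfold kap; positivity

/-- The size of the weight of the piece. -/
noncomputable def siz (n : ℕ) (γ : ℝ) (j k : ℕ) : ℝ := kap γ k * (dl j ^ (n - 1) * (2 ^ k * dl j))

theorem siz_pos (n : ℕ) (γ : ℝ) (j k : ℕ) : 0 < siz n γ j k := by
  have := kap_pos γ k
  have := dl_pos j
  unfold siz
  positivity

section

variable {n : ℕ} {V : Type*} [MeasurableSpace V] {Ω : Type*} [MeasurableSpace Ω]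

/-- The weight of the piece number `k` at the scale number `j`. -/
noncomputable def wjk (ν : Measure V) (γ : ℝ) (h : E n ≃ₗᵢ[ℝ] E n) (a e : V → E n) (j k : ℕ)
    (v : V) : ℝ≥0∞ :=
  wgt ν volume (incs (dl j) (2 ^ k * dl j) h a e) (ENNReal.ofReal (kap γ k)) v

/-- The coefficient of the weight. -/
noncomputable def cjk (n : ℕ) (γ : ℝ) (j k : ℕ) : ℝ≥0∞ :=
  ENNReal.ofReal ((((j : ℝ) + 1) ^ 4)⁻¹ * (siz n γ j k)⁻¹)

/-- The total weight; the positions may depend on the scale. -/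
noncomputable def tot (ν : Measure V) (γ : ℝ) (h : ℕ) (g : E n ≃ₗᵢ[ℝ] E n) (a : ℕ → V → E n)
    (e : V → E n) (v : V) : ℝ≥0∞ :=
  1 + ∑' j : ℕ, ∑ k ∈ Finset.range (j + h + 1), cjk n γ j k * wjk ν γ g (a j) e j k v

theorem tot_meas (ν : Measure V) [IsFiniteMeasure ν] {g : Ω → E n ≃ₗᵢ[ℝ] E n}
    (hg : ∀ v, Measurable (fun ω => g ω v)) {a : ℕ → V → E n} {e : V → E n}
    (ha : ∀ j, Measurable (a j)) (he : Measurable e)
    (γ : ℝ) (h : ℕ) : Measurable (fun z : Ω × V => tot ν γ h (g z.1) a e z.2) := by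
  unfold tot
  refine Measurable.const_add (Measurable.tsum (fun j => ?_)) 1
  apply Finset.measurable_sum
  intro k _
  exact (W_meas ν hg (ha j) he (dl j) (2 ^ k * dl j) (ENNReal.ofReal (kap γ k))).const_mul _

theorem tot_meas1 (ν : Measure V) [IsFiniteMeasure ν] {g : E n ≃ₗᵢ[ℝ] E n}
    {a : ℕ → V → E n} {e : V → E n} (ha : ∀ j, Measurable (a j)) (he : Measurable e) (γ : ℝ)
    (h : ℕ) : Measurable (fun v => tot ν γ h g a e v) := by
  have h1 := tot_meas (Ω := Unit) ν (g := fun _ => g) (fun v => measurable_const) ha he γ h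
  have h2 : Measurable (fun v : V => (((), v) : Unit × V)) := measurable_const.prodMk measurable_id
  have h3 := h1.comp h2
  have e1 : ((fun z : Unit × V => tot ν γ h ((fun _ => g) z.1) a e z.2) ∘ fun v : V =>
      (((), v) : Unit × V)) = fun v => tot ν γ h g a e v := rfl
  rw [e1] at h3
  exact h3

theorem one_le_tot (ν : Measure V) (γ : ℝ) (h : ℕ) (g : E n ≃ₗᵢ[ℝ] E n) (a : ℕ → V → E n)
    (e : V → E n) (v : V) : 1 ≤ tot ν γ h g a e v := le_self_add

theorem le_tot (ν : Measure V) (γ : ℝ) (h : ℕ) (g : E n ≃ₗᵢ[ℝ] E n) (a : ℕ → V → E n)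
    (e : V → E n) (v : V) {j k : ℕ} (hk : k < j + h + 1) :
    cjk n γ j k * wjk ν γ g (a j) e j k v ≤ tot ν γ h g a e v := by
  unfold tot
  refine le_trans ?_ le_add_self
  refine le_trans ?_ (ENNReal.le_tsum j)
  exact Finset.single_le_sum (f := fun k => cjk n γ j k * wjk ν γ g (a j) e j k v)
    (fun _ _ => zero_le) (Finset.mem_range.2 hk)

/-- The constant of the mean of a piece. -/
noncomputable def Cw (n : ℕ) (A B β γ m : ℝ) : ℝ :=
  2 ^ n * vb n * (7 + 1296 * A) * ((2 * B * 2 ^ β + m) * 2 ^ γ * 16 ^ γ) + 2 ^ n * vb n * 7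

/-- The constant of the mean of the total weight. -/
noncomputable def Kt (n : ℕ) (A B β γ : ℝ) (h : ℕ) (m : ℝ) : ℝ :=
  (1 + ∑' j : ℕ, Cw n A B β γ m * ((h : ℝ) + 1) ^ 2 * (((j : ℝ) + 1) ^ 2)⁻¹) * m

/-- The mean of the total weight. -/
theorem tot_mean {ν : Measure V} [IsFiniteMeasure ν] {P : Measure Ω} [IsProbabilityMeasure P]
    (hn : 1 ≤ n) {g : Ω → E n ≃ₗᵢ[ℝ] E n} (hg : ∀ v, Measurable (fun ω => g ω v))
    {a : ℕ → V → E n} {e : V → E n}
    (ha : ∀ j, Measurable (a j)) (hem : Measurable e) (he : ∀ v, ‖e v‖ = 1) {A α B β γ m : ℝ}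
    (hA : 0 ≤ A)
    (hB : 0 ≤ B) (hγ : 0 ≤ γ) (hγα : γ ≤ α) (hγβ : γ ≤ β) (hsp : Spread P g A α)
    (hF : Frost ν e B β) (hm : (ν univ).toReal ≤ m) (h : ℕ) :
    ∫⁻ ω, ∫⁻ v, tot ν γ h (g ω) a e v ∂ν ∂P ≤ ENNReal.ofReal (Kt n A B β γ h m) := by
  have hvb := vb_pos n
  have hm0 : 0 ≤ m := ENNReal.toReal_nonneg.trans hm
  set C : ℝ := Cw n A B β γ m with hC
  have hC0 : 0 ≤ C := by
    rw [hC]
    unfold Cw
    positivity
  have hCle : (2 ^ n * vb n * (7 + 1296 * A) * ((2 * B * 2 ^ β + (ν univ).toReal) * 2 ^ γ *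
        16 ^ γ) + 2 ^ n * vb n * 7) ≤ C := by
    rw [hC]
    unfold Cw
    gcongr
  have hTm := tot_meas ν hg ha hem γ h
  have hterm : ∀ (v : V) (j k : ℕ), k ∈ Finset.range (j + h + 1) →
      ∫⁻ ω, cjk n γ j k * wjk ν γ (g ω) (a j) e j k v ∂P ≤
        ENNReal.ofReal (C * ((h : ℝ) + 1) * (((j : ℝ) + 1) ^ 3)⁻¹) := by
    intro v j k hk
    have hk' : (k : ℝ) + 1 ≤ ((h : ℝ) + 1) * ((j : ℝ) + 1) := by
      have h1 : k + 1 ≤ j + h + 1 := by
        have := Finset.mem_range.1 hk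
        omega
      have h2 : (k : ℝ) + 1 ≤ (j : ℝ) + h + 1 := by exact_mod_cast h1
      have h3 : (0 : ℝ) ≤ (h : ℝ) * j := by positivity
      nlinarith
    rw [lintegral_const_mul' _ _ (by unfold cjk; exact ENNReal.ofReal_ne_top)]
    have h1 := W_mean_k (ν := ν) hn hg (ha j) hem he hA hB hγ hγα hγβ hsp hF (dl_pos j) k v
    have hs := siz_pos n γ j k
    calc cjk n γ j k * ∫⁻ ω, wjk ν γ (g ω) (a j) e j k v ∂P
        ≤ cjk n γ j k * ENNReal.ofReal (C * (((k : ℝ) + 1) * ((2 : ℝ) ^ k) ^ (-γ) *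
          (dl j ^ (n - 1) * (2 ^ k * dl j)))) := by
          refine mul_le_mul' le_rfl (h1.trans (ENNReal.ofReal_le_ofReal ?_))
          apply mul_le_mul_of_nonneg_right hCle
          have := dl_pos j
          positivity
      _ = ENNReal.ofReal ((((j : ℝ) + 1) ^ 4)⁻¹ * (siz n γ j k)⁻¹ *
          (C * (((k : ℝ) + 1) * ((2 : ℝ) ^ k) ^ (-γ) * (dl j ^ (n - 1) * (2 ^ k * dl j))))) := by
          unfold cjk
          rw [← ENNReal.ofReal_mul (by positivity)]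
      _ ≤ _ := by
          apply ENNReal.ofReal_le_ofReal
          have e1 : C * (((k : ℝ) + 1) * ((2 : ℝ) ^ k) ^ (-γ) * (dl j ^ (n - 1) * (2 ^ k * dl j))) =
              C * ((k : ℝ) + 1) * siz n γ j k := by
            unfold siz kap
            ring
          rw [e1]
          calc (((j : ℝ) + 1) ^ 4)⁻¹ * (siz n γ j k)⁻¹ * (C * ((k : ℝ) + 1) * siz n γ j k)
              = (((j : ℝ) + 1) ^ 4)⁻¹ * (C * ((k : ℝ) + 1)) := by field_simp
            _ ≤ (((j : ℝ) + 1) ^ 4)⁻¹ * (C * (((h : ℝ) + 1) * ((j : ℝ) + 1))) := by gcongr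
            _ = C * ((h : ℝ) + 1) * (((j : ℝ) + 1) ^ 3)⁻¹ := by field_simp
  have hsum : Summable (fun j : ℕ => C * ((h : ℝ) + 1) ^ 2 * (((j : ℝ) + 1) ^ 2)⁻¹) := by
    apply Summable.mul_left
    have := (summable_nat_add_iff 1).2 (Real.summable_nat_pow_inv.2 (by norm_num : 1 < 2))
    simpa using this
  have hmean : ∀ v, ∫⁻ ω, tot ν γ h (g ω) a e v ∂P ≤
      1 + ∑' j : ℕ, ENNReal.ofReal (C * ((h : ℝ) + 1) ^ 2 * (((j : ℝ) + 1) ^ 2)⁻¹) := by
    intro v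
    have m1 : ∀ j k : ℕ, Measurable (fun ω => cjk n γ j k * wjk ν γ (g ω) (a j) e j k v) := by
      intro j k
      have := (W_meas ν hg (ha j) hem (dl j) (2 ^ k * dl j) (ENNReal.ofReal (kap γ k))).comp
        (measurable_prodMk_right (y := v) : Measurable (fun ω : Ω => (ω, v)))
      exact this.const_mul _
    have m2 : ∀ j : ℕ, Measurable (fun ω => ∑ k ∈ Finset.range (j + h + 1),
        cjk n γ j k * wjk ν γ (g ω) (a j) e j k v) :=
      fun j => Finset.measurable_sum _ (fun k _ => m1 j k)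
    unfold tot
    rw [lintegral_add_left measurable_const, lintegral_const, measure_univ, mul_one,
      lintegral_tsum (fun j => (m2 j).aemeasurable)]
    gcongr with j
    rw [lintegral_finsetSum _ (fun k _ => m1 j k)]
    calc ∑ k ∈ Finset.range (j + h + 1), ∫⁻ ω, cjk n γ j k * wjk ν γ (g ω) (a j) e j k v ∂P
        ≤ ∑ _k ∈ Finset.range (j + h + 1),
          ENNReal.ofReal (C * ((h : ℝ) + 1) * (((j : ℝ) + 1) ^ 3)⁻¹) :=
          Finset.sum_le_sum (hterm v j)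
      _ = ENNReal.ofReal ((j + h + 1 : ℕ) * (C * ((h : ℝ) + 1) * (((j : ℝ) + 1) ^ 3)⁻¹)) := by
          rw [Finset.sum_const, Finset.card_range, nsmul_eq_mul, ← ENNReal.ofReal_natCast,
            ← ENNReal.ofReal_mul (by positivity)]
      _ ≤ _ := by
          apply ENNReal.ofReal_le_ofReal
          have h2 : ((j + h + 1 : ℕ) : ℝ) ≤ ((h : ℝ) + 1) * ((j : ℝ) + 1) := by
            push_cast
            have h3 : (0 : ℝ) ≤ (h : ℝ) * j := by positivity
            nlinarith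
          calc ((j + h + 1 : ℕ) : ℝ) * (C * ((h : ℝ) + 1) * (((j : ℝ) + 1) ^ 3)⁻¹)
              ≤ (((h : ℝ) + 1) * ((j : ℝ) + 1)) * (C * ((h : ℝ) + 1) * (((j : ℝ) + 1) ^ 3)⁻¹) := by
                gcongr
            _ = _ := by field_simp
  have hM : 1 + ∑' j : ℕ, ENNReal.ofReal (C * ((h : ℝ) + 1) ^ 2 * (((j : ℝ) + 1) ^ 2)⁻¹) =
      ENNReal.ofReal (1 + ∑' j : ℕ, C * ((h : ℝ) + 1) ^ 2 * (((j : ℝ) + 1) ^ 2)⁻¹) := by
    rw [ENNReal.ofReal_add zero_le_one (tsum_nonneg (fun j => by positivity)), ENNReal.ofReal_one,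
      ENNReal.ofReal_tsum_of_nonneg (fun j => by positivity) hsum]
  have h0 : 0 ≤ 1 + ∑' j : ℕ, C * ((h : ℝ) + 1) ^ 2 * (((j : ℝ) + 1) ^ 2)⁻¹ :=
    add_nonneg zero_le_one (tsum_nonneg (fun j => by positivity))
  calc ∫⁻ ω, ∫⁻ v, tot ν γ h (g ω) a e v ∂ν ∂P = ∫⁻ v, ∫⁻ ω, tot ν γ h (g ω) a e v ∂P ∂ν :=
        lintegral_lintegral_swap hTm.aemeasurable
    _ ≤ ∫⁻ _v, ENNReal.ofReal (1 + ∑' j : ℕ, C * ((h : ℝ) + 1) ^ 2 * (((j : ℝ) + 1) ^ 2)⁻¹) ∂ν :=
        lintegral_mono (fun v => (hmean v).trans_eq hM)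
    _ = ENNReal.ofReal (1 + ∑' j : ℕ, C * ((h : ℝ) + 1) ^ 2 * (((j : ℝ) + 1) ^ 2)⁻¹) *
          ENNReal.ofReal (ν univ).toReal := by
        rw [lintegral_const, ENNReal.ofReal_toReal (measure_ne_top ν univ)]
    _ ≤ _ := by
        rw [← ENNReal.ofReal_mul h0]
        apply ENNReal.ofReal_le_ofReal
        unfold Kt
        exact mul_le_mul_of_nonneg_left hm h0

end

end Pool.Agent.TH705.RR
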