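import Pool.Agent.TH705.RR.Group
set_option autoImplicit false

/-!
# The orthogonal group
-/

open MeasureTheory Set Metric
open scoped ENNReal NNReal

namespace Pool.Agent.TH705.RR

/-- The orthogonal group of `ℝ^n`. -/
noncomputable abbrev On (n : ℕ) := unitary (E n →L[ℝ] E n)

instance cstar_On (n : ℕ) : ContinuousStar (E n →L[ℝ] E n) :=
  ⟨(ContinuousLinearMap.adjoint (𝕜 := ℝ) (E := E n) (F := E n)).continuous⟩

instance compact_On (n : ℕ) : CompactSpace (On n) := by
  have h1 : IsClosed (unitary (E n →L[ℝ] E n) : Set (E n →L[ℝ] E n)) := isClosed_unitary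
  have h2 : Bornology.IsBounded (unitary (E n →L[ℝ] E n) : Set (E n →L[ℝ] E n)) := by
    apply (isBounded_iff_forall_norm_le).2
    refine ⟨1, ?_⟩
    intro u hu
    apply ContinuousLinearMap.opNorm_le_bound _ zero_le_one
    intro x
    rw [one_mul]
    exact (Unitary.norm_map ⟨u, hu⟩ x).le
  have h3 : ProperSpace (E n →L[ℝ] E n) := FiniteDimensional.proper ℝ _
  exact isCompact_iff_compactSpace.1 (Metric.isCompact_of_isClosed_isBounded h1 h2)

/-- The action of the orthogonal group. -/
noncomputable def act (n : ℕ) : On n →* (E n ≃ₗᵢ[ℝ] E n) := Unitary.linearIsometryEquiv.toMonoidHom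

theorem act_apply {n : ℕ} (k : On n) (v : E n) : act n k v = (k : E n →L[ℝ] E n) v := rfl

theorem act_cont {n : ℕ} (v : E n) : Continuous (fun k : On n => act n k v) := by
  have h : (fun k : On n => act n k v) = fun k : On n => (k : E n →L[ℝ] E n) v := rfl
  rw [h]
  exact (ContinuousLinearMap.apply ℝ (E n) v).continuous.comp continuous_subtype_val

theorem act_trans {n : ℕ} (v w : E n) (hv : ‖v‖ = 1) (hw : ‖w‖ = 1) : ∃ k, act n k v = w := by
  refine ⟨Unitary.linearIsometryEquiv.symm ((ℝ ∙ (v - w))ᗮ.reflection), ?_⟩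
  have h : act n (Unitary.linearIsometryEquiv.symm ((ℝ ∙ (v - w))ᗮ.reflection)) =
      (ℝ ∙ (v - w))ᗮ.reflection := Unitary.linearIsometryEquiv.apply_symm_apply _
  rw [h]
  exact Submodule.reflection_sub (by rw [hv, hw])

end Pool.Agent.TH705.RR
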