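import Pool.Agent.TH705.RR.Area
set_option autoImplicit false

/-!
# The expected volume of the intersection of two tubes with rotated centres
-/

open MeasureTheory Set Metric
open scoped ENNReal NNReal

namespace Pool.Agent.TH705.RR

/-- The `δ`-tube with centre `a` and direction `e` (a unit vector): the closed cylinder of length
`1` and radius `δ` around the segment with centre `a` and direction `e`. -/
def tube {n : ℕ} (δ : ℝ) (a e : E n) : Set (E n) :=
  {y | |inner ℝ (y - a) e| ≤ 1 / 2 ∧ ‖(y - a) - (inner ℝ (y - a) e) • e‖ ≤ δ}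

theorem tube_closed {n : ℕ} (δ : ℝ) (a e : E n) : IsClosed (tube δ a e) := by
  have h1 : Continuous (fun y : E n => |inner ℝ (y - a) e|) := by fun_prop
  have h2 : Continuous (fun y : E n => ‖(y - a) - (inner ℝ (y - a) e) • e‖) := by fun_prop
  exact (isClosed_le h1 continuous_const).inter (isClosed_le h2 continuous_const)

/-- The law of the image of every unit vector has dimension at least `α`, uniformly. -/
def Spread {n : ℕ} {Ω : Type*} [MeasurableSpace Ω] (P : Measure Ω) (g : Ω → E n ≃ₗᵢ[ℝ] E n)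
    (A α : ℝ) : Prop :=
  ∀ v w : E n, ‖v‖ = 1 → ‖w‖ = 1 → ∀ s : ℝ, 0 < s →
    P {ω | ‖g ω v - w‖ ≤ s} ≤ ENNReal.ofReal (A * s ^ α)

theorem spread_far {n : ℕ} {Ω : Type*} [MeasurableSpace Ω] {P : Measure Ω}
    {g : Ω → E n ≃ₗᵢ[ℝ] E n} {A α : ℝ} (hsp : Spread P g A α) {D u : E n} {ρ : ℝ} (hρ : 0 < ρ)
    (hD : ρ < ‖D‖) : P {ω | ‖g ω D - u‖ ≤ ρ} ≤ ENNReal.ofReal (A * (2 * ρ / ‖D‖) ^ α) := by
  have hD0 : 0 < ‖D‖ := hρ.trans hD
  by_cases hu : |‖u‖ - ‖D‖| ≤ ρ
  · have hu0 : 0 < ‖u‖ := by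
      have := (abs_le.1 hu).1
      linarith
    have hv : ‖(‖D‖⁻¹ : ℝ) • D‖ = 1 := by
      rw [norm_smul, norm_inv, norm_norm, inv_mul_cancel₀ hD0.ne']
    have hw : ‖(‖u‖⁻¹ : ℝ) • u‖ = 1 := by
      rw [norm_smul, norm_inv, norm_norm, inv_mul_cancel₀ hu0.ne']
    refine le_trans (measure_mono ?_) (hsp _ _ hv hw (2 * ρ / ‖D‖) (by positivity))
    intro ω hω
    simp only [mem_ofPred_eq] at hω ⊢
    have h1 : g ω ((‖D‖⁻¹ : ℝ) • D) - (‖u‖⁻¹ : ℝ) • u =
        (‖D‖⁻¹ : ℝ) • (g ω D - u) + ((‖D‖⁻¹ : ℝ) - ‖u‖⁻¹) • u := by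
      rw [map_smul, smul_sub, sub_smul]
      abel
    rw [h1]
    refine (norm_add_le _ _).trans ?_
    rw [norm_smul, norm_smul, norm_inv, norm_norm, Real.norm_eq_abs]
    have h2 : |(‖D‖⁻¹ : ℝ) - ‖u‖⁻¹| * ‖u‖ ≤ ρ / ‖D‖ := by
      have h3 : (‖D‖⁻¹ : ℝ) - ‖u‖⁻¹ = (‖u‖ - ‖D‖) / (‖D‖ * ‖u‖) := by
        field_simp
      rw [h3, abs_div, abs_of_pos (mul_pos hD0 hu0)]
      have h4 : |‖u‖ - ‖D‖| / (‖D‖ * ‖u‖) * ‖u‖ = |‖u‖ - ‖D‖| / ‖D‖ := by
        field_simp
      rw [h4]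
      gcongr
    have h5 : ‖D‖⁻¹ * ‖g ω D - u‖ ≤ ρ / ‖D‖ := by
      rw [inv_mul_eq_div]
      gcongr
    have h6 : 2 * ρ / ‖D‖ = ρ / ‖D‖ + ρ / ‖D‖ := by ring
    linarith
  · have : {ω | ‖g ω D - u‖ ≤ ρ} = ∅ := by
      rw [eq_empty_iff_forall_notMem]
      intro ω hω
      simp only [mem_ofPred_eq] at hω
      apply hu
      have h1 := abs_norm_sub_norm_le (g ω D) u
      rw [LinearIsometryEquiv.norm_map, abs_sub_comm] at h1
      exact h1.trans hω
    rw [this]
    simp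

/-- The expected volume of the part at distance between `r` and `2r` from the first centre of the
intersection of two tubes. -/
theorem pair {n : ℕ} (hn : 1 ≤ n) {Ω : Type*} [MeasurableSpace Ω] {P : Measure Ω} [SFinite P]
    {g : Ω → E n ≃ₗᵢ[ℝ] E n} (hg : ∀ v, Measurable (fun ω => g ω v)) {A α : ℝ} (hA : 0 ≤ A)
    (hα : 0 ≤ α) (hsp : Spread P g A α) {e e' : E n} (he : ‖e‖ = 1) (he' : ‖e'‖ = 1) (a a' : E n)
    {δ r : ℝ} (hδ : 0 < δ) (hr : 0 < r) (hrS : 16 * δ ≤ r * sn e e') :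
    ∫⁻ ω, volume {x | x ∈ tube δ (g ω a) e ∧ x ∈ tube δ (g ω a') e' ∧ r < ‖x - g ω a‖ ∧
        ‖x - g ω a‖ ≤ 2 * r} ∂P ≤
      ENNReal.ofReal (1296 * 2 ^ n * vb n * A * 16 ^ α * (δ ^ (n - 1) * r) *
        (δ / (r * sn e e')) ^ α) := by
  set S := sn e e' with hSdef
  have hS0 : 0 < S := by
    by_contra h
    push Not at h
    nlinarith
  have hS1 : S ≤ 1 := sn_le_one e e'
  have hrδ : 16 * δ ≤ r := by nlinarith
  set R : ℝ := 3 * r with hR
  set D : E n := a - a' with hD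
  -- the set of good pairs
  set Q : Set (Ω × (ℝ × ℝ)) := {p | r - 2 * δ ≤ |p.2.1| ∧
    ‖g p.1 D - (p.2.2 • e' - p.2.1 • e)‖ ≤ 4 * δ} with hQ
  have hQm : MeasurableSet Q := by
    have m1 : Measurable (fun p : Ω × (ℝ × ℝ) => |p.2.1|) := by fun_prop
    have m2 : Measurable (fun p : Ω × (ℝ × ℝ) => ‖g p.1 D - (p.2.2 • e' - p.2.1 • e)‖) := by
      apply Measurable.norm
      apply Measurable.sub
      · exact (hg D).comp measurable_fst
      · fun_prop
    exact (measurableSet_le measurable_const m1).inter (measurableSet_le m2 measurable_const)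
  set μ2 : Measure (ℝ × ℝ) := ((volume : Measure ℝ).restrict (Icc (-R) R)).prod volume with hμ2
  set V : ℝ≥0∞ := ENNReal.ofReal ((2 * δ) ^ n * vb n) with hV
  -- step 1: for fixed ω
  have step1 : ∀ ω, ENNReal.ofReal (4 * δ ^ 2) * volume {x | x ∈ tube δ (g ω a) e ∧
      x ∈ tube δ (g ω a') e' ∧ r < ‖x - g ω a‖ ∧ ‖x - g ω a‖ ≤ 2 * r} ≤
      V * ∫⁻ p, Q.indicator (1 : Ω × (ℝ × ℝ) → ℝ≥0∞) (ω, p) ∂μ2 := by
    intro ω
    set B : Set (E n) := {x | x ∈ tube δ (g ω a) e ∧
      x ∈ tube δ (g ω a') e' ∧ r < ‖x - g ω a‖ ∧ ‖x - g ω a‖ ≤ 2 * r} with hB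
    have hBm : MeasurableSet B := by
      have m1 : Measurable (fun x : E n => ‖x - g ω a‖) := by fun_prop
      exact (tube_closed _ _ _).measurableSet.inter ((tube_closed _ _ _).measurableSet.inter
        ((measurableSet_lt measurable_const m1).inter (measurableSet_le m1 measurable_const)))
    set Z : Set (E n × (ℝ × ℝ)) := {z | ‖z.1 - (g ω a + z.2.1 • e)‖ ≤ 2 * δ ∧ (ω, z.2) ∈ Q} with hZ
    have hZm : MeasurableSet Z := by
      have m1 : Measurable (fun z : E n × (ℝ × ℝ) => ‖z.1 - (g ω a + z.2.1 • e)‖) := by fun_prop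
      have m2 : Measurable (fun z : E n × (ℝ × ℝ) => (ω, z.2)) :=
        measurable_const.prodMk measurable_snd
      exact (measurableSet_le m1 measurable_const).inter (m2 hQm)
    have hx : ∀ x ∈ B, ENNReal.ofReal (4 * δ ^ 2) ≤
        ∫⁻ p, Z.indicator (1 : E n × (ℝ × ℝ) → ℝ≥0∞) (x, p) ∂μ2 := by
      rintro x ⟨⟨_, h1⟩, ⟨_, h2⟩, h3, h4⟩
      set t := inner ℝ (x - g ω a) e with ht
      set t' := inner ℝ (x - g ω a') e' with ht'
      have habs : |t| ≤ 2 * r := by
        have := abs_real_inner_le_norm (x - g ω a) e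
        rw [he, mul_one] at this
        exact this.trans h4
      have habs2 : r - δ ≤ |t| := by
        have h5 : ‖x - g ω a‖ ≤ δ + |t| := by
          calc ‖x - g ω a‖ = ‖(x - g ω a - t • e) + t • e‖ := by congr 1; abel
            _ ≤ ‖x - g ω a - t • e‖ + ‖t • e‖ := norm_add_le _ _
            _ ≤ δ + |t| := by
                rw [norm_smul, he, mul_one, Real.norm_eq_abs]
                linarith
        linarith
      have hsub : Icc (t - δ) (t + δ) ×ˢ Icc (t' - δ) (t' + δ) ⊆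
          {p : ℝ × ℝ | (x, p) ∈ Z} ∩ (Icc (-R) R ×ˢ univ) := by
        rintro ⟨s, s'⟩ ⟨hs, hs'⟩
        simp only at hs hs'
        have hst : |s - t| ≤ δ := abs_le.2 ⟨by linarith [hs.1], by linarith [hs.2]⟩
        have hst' : |s' - t'| ≤ δ := abs_le.2 ⟨by linarith [hs'.1], by linarith [hs'.2]⟩
        have n1 : ‖x - (g ω a + s • e)‖ ≤ 2 * δ := by
          have : x - (g ω a + s • e) = (x - g ω a - t • e) - (s - t) • e := by
            rw [sub_smul]; abel
          rw [this]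
          refine (norm_sub_le _ _).trans ?_
          rw [norm_smul, he, mul_one, Real.norm_eq_abs]
          linarith
        have n2 : ‖x - (g ω a' + s' • e')‖ ≤ 2 * δ := by
          have : x - (g ω a' + s' • e') = (x - g ω a' - t' • e') - (s' - t') • e' := by
            rw [sub_smul]; abel
          rw [this]
          refine (norm_sub_le _ _).trans ?_
          rw [norm_smul, he', mul_one, Real.norm_eq_abs]
          linarith
        have hs1 : |s| ≤ |t| + δ := by
          have := abs_add_le (s - t) t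
          rw [sub_add_cancel] at this
          linarith
        have hs2 : |t| ≤ |s| + δ := by
          have := abs_add_le (t - s) s
          rw [sub_add_cancel, abs_sub_comm] at this
          linarith
        refine ⟨⟨n1, ?_, ?_⟩, ?_, mem_univ _⟩
        · show r - 2 * δ ≤ |s|
          linarith
        · show ‖g ω D - (s' • e' - s • e)‖ ≤ 4 * δ
          have : g ω D - (s' • e' - s • e) = (x - (g ω a' + s' • e')) - (x - (g ω a + s • e)) := by
            rw [hD, map_sub]; abel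
          rw [this]
          refine (norm_sub_le _ _).trans ?_
          linarith
        · have : |s| ≤ R := by rw [hR]; linarith
          exact abs_le.1 this
      have hZx : MeasurableSet {p : ℝ × ℝ | (x, p) ∈ Z} :=
        (measurable_prodMk_left (x := x) : Measurable (Prod.mk x : ℝ × ℝ → E n × (ℝ × ℝ))) hZm
      have h6 : ∫⁻ p, Z.indicator (1 : E n × (ℝ × ℝ) → ℝ≥0∞) (x, p) ∂μ2 =
          μ2 {p : ℝ × ℝ | (x, p) ∈ Z} := by
        rw [← lintegral_indicator_one hZx]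
        rfl
      rw [h6, hμ2]
      have h7 : ((volume : Measure ℝ).restrict (Icc (-R) R)).prod (volume : Measure ℝ) =
          ((volume : Measure ℝ).prod volume).restrict (Icc (-R) R ×ˢ univ) := by
        rw [← Measure.prod_restrict, Measure.restrict_univ]
      rw [h7, Measure.restrict_apply hZx]
      refine le_trans ?_ (measure_mono hsub)
      rw [Measure.prod_prod, Real.volume_Icc, Real.volume_Icc, ← ENNReal.ofReal_mul (by linarith)]
      apply ENNReal.ofReal_le_ofReal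
      nlinarith
    calc ENNReal.ofReal (4 * δ ^ 2) * volume B
        = ∫⁻ x in B, ENNReal.ofReal (4 * δ ^ 2) := by rw [setLIntegral_const]
      _ ≤ ∫⁻ x in B, ∫⁻ p, Z.indicator (1 : E n × (ℝ × ℝ) → ℝ≥0∞) (x, p) ∂μ2 :=
          setLIntegral_mono' hBm hx
      _ ≤ ∫⁻ x, ∫⁻ p, Z.indicator (1 : E n × (ℝ × ℝ) → ℝ≥0∞) (x, p) ∂μ2 :=
          setLIntegral_le_lintegral _ _
      _ = ∫⁻ p, (∫⁻ x, Z.indicator (1 : E n × (ℝ × ℝ) → ℝ≥0∞) (x, p)) ∂μ2 := by
          apply lintegral_lintegral_swap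
          exact (measurable_one.indicator hZm).aemeasurable
      _ = ∫⁻ p, V * Q.indicator (1 : Ω × (ℝ × ℝ) → ℝ≥0∞) (ω, p) ∂μ2 := by
          apply lintegral_congr
          intro p
          by_cases hp : (ω, p) ∈ Q
          · rw [indicator_of_mem hp]
            have : ∀ x, Z.indicator (1 : E n × (ℝ × ℝ) → ℝ≥0∞) (x, p) =
                (closedBall (g ω a + p.1 • e) (2 * δ)).indicator 1 x := by
              intro x
              by_cases hxx : x ∈ closedBall (g ω a + p.1 • e) (2 * δ)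
              · rw [indicator_of_mem hxx, indicator_of_mem]
                · rfl
                · rw [mem_closedBall, dist_eq_norm] at hxx
                  exact ⟨hxx, hp⟩
              · rw [indicator_of_notMem hxx, indicator_of_notMem]
                rintro ⟨h, _⟩
                apply hxx
                rw [mem_closedBall, dist_eq_norm]
                exact h
            simp_rw [this]
            rw [lintegral_indicator_one measurableSet_closedBall, vol_cball _ (by positivity)]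
            simp [hV]
          · rw [indicator_of_notMem hp, mul_zero]
            have : ∀ x, Z.indicator (1 : E n × (ℝ × ℝ) → ℝ≥0∞) (x, p) = 0 := by
              intro x
              apply indicator_of_notMem
              rintro ⟨_, h⟩
              exact hp h
            simp [this]
      _ = V * ∫⁻ p, Q.indicator (1 : Ω × (ℝ × ℝ) → ℝ≥0∞) (ω, p) ∂μ2 := by
          apply lintegral_const_mul
          exact (measurable_one.indicator hQm).comp measurable_prodMk_left
  -- step 2: swap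
  have step2 : ENNReal.ofReal (4 * δ ^ 2) * ∫⁻ ω, volume {x | x ∈ tube δ (g ω a) e ∧
      x ∈ tube δ (g ω a') e' ∧ r < ‖x - g ω a‖ ∧ ‖x - g ω a‖ ≤ 2 * r} ∂P ≤
      V * ∫⁻ p, P {ω | (ω, p) ∈ Q} ∂μ2 := by
    calc _ ≤ ∫⁻ ω, V * ∫⁻ p, Q.indicator (1 : Ω × (ℝ × ℝ) → ℝ≥0∞) (ω, p) ∂μ2 ∂P := by
          rw [← lintegral_const_mul' _ _ ENNReal.ofReal_ne_top]
          exact lintegral_mono step1
      _ = V * ∫⁻ ω, ∫⁻ p, Q.indicator (1 : Ω × (ℝ × ℝ) → ℝ≥0∞) (ω, p) ∂μ2 ∂P := by
          rw [lintegral_const_mul' _ _ ENNReal.ofReal_ne_top]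
      _ = V * ∫⁻ p, ∫⁻ ω, Q.indicator (1 : Ω × (ℝ × ℝ) → ℝ≥0∞) (ω, p) ∂P ∂μ2 := by
          congr 1
          apply lintegral_lintegral_swap
          exact (measurable_one.indicator hQm).aemeasurable
      _ = _ := by
          congr 1
          apply lintegral_congr
          intro p
          have hQp : MeasurableSet {ω | (ω, p) ∈ Q} :=
            (measurable_prodMk_right (y := p) : Measurable (fun ω : Ω => (ω, p))) hQm
          rw [← lintegral_indicator_one hQp]
          rfl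
  -- step 3: the probability
  set c : ℝ := A * (16 * δ / (r * S)) ^ α with hc
  have hc0 : 0 ≤ c := by positivity
  have hrS0 : 0 < r * S := by positivity
  have hbig : ∀ p : ℝ × ℝ, r - 2 * δ ≤ |p.1| → |‖p.2 • e' - p.1 • e‖ - ‖D‖| ≤ 4 * δ →
      r * S / 2 ≤ ‖D‖ := by
    intro p hp1 hp2
    have h1 : |p.1| * S ≤ ‖p.2 • e' - p.1 • e‖ := by
      have h2 := diff_sq he he' p.1 p.2
      have h3 : (|p.1| * S) ^ 2 ≤ ‖p.2 • e' - p.1 • e‖ ^ 2 := by
        rw [h2, mul_pow, sq_abs, mul_pow]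
        nlinarith [sq_nonneg (p.2 - p.1 * inner ℝ e e')]
      exact (sq_le_sq₀ (by positivity) (norm_nonneg _)).1 h3
    have h4 := (abs_le.1 hp2).2
    have h5 : (r - 2 * δ) * S ≤ |p.1| * S := by gcongr
    have h6 : δ * S ≤ δ * 1 := by gcongr
    nlinarith
  have step3 : ∀ p : ℝ × ℝ, P {ω | (ω, p) ∈ Q} ≤
      ENNReal.ofReal c * {p : ℝ × ℝ | r * S / 2 ≤ ‖D‖ ∧ |‖p.2 • e' - p.1 • e‖ - ‖D‖| ≤ 4 * δ}.indicator 1 p := by
    intro p
    by_cases hp : p ∈ {p : ℝ × ℝ | r * S / 2 ≤ ‖D‖ ∧ |‖p.2 • e' - p.1 • e‖ - ‖D‖| ≤ 4 * δ}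
    · rw [indicator_of_mem hp, Pi.one_apply, mul_one]
      obtain ⟨hp1, hp2⟩ := hp
      have h8 : 8 * δ ≤ ‖D‖ := by linarith
      have h1 := spread_far hsp (D := D) (u := p.2 • e' - p.1 • e) (ρ := 4 * δ) (by positivity)
        (by linarith)
      refine le_trans (measure_mono (fun ω hω => hω.2)) (h1.trans ?_)
      apply ENNReal.ofReal_le_ofReal
      rw [hc]
      apply mul_le_mul_of_nonneg_left _ hA
      apply Real.rpow_le_rpow (by positivity) _ hα
      rw [div_le_div_iff₀ (by linarith) hrS0]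
      nlinarith
    · rw [indicator_of_notMem hp, mul_zero, nonpos_iff_eq_zero]
      have : {ω | (ω, p) ∈ Q} = ∅ := by
        rw [eq_empty_iff_forall_notMem]
        rintro ω ⟨h1, h2⟩
        simp only at h1 h2
        have h3 : |‖p.2 • e' - p.1 • e‖ - ‖D‖| ≤ 4 * δ := by
          have h4 := abs_norm_sub_norm_le (g ω D) (p.2 • e' - p.1 • e)
          rw [LinearIsometryEquiv.norm_map, abs_sub_comm] at h4
          exact h4.trans h2
        exact hp ⟨hbig p h1 h3, h3⟩
      rw [this]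
      simp
  -- step 4: the area
  have step4 : ∫⁻ p, {p : ℝ × ℝ | r * S / 2 ≤ ‖D‖ ∧ |‖p.2 • e' - p.1 • e‖ - ‖D‖| ≤ 4 * δ}.indicator
      (1 : ℝ × ℝ → ℝ≥0∞) p ∂μ2 ≤ ENNReal.ofReal (432 * R * (4 * δ)) := by
    by_cases hDb : r * S / 2 ≤ ‖D‖
    · have h8 : 8 * δ ≤ ‖D‖ := by linarith
      have hm : Measurable (fun p : ℝ × ℝ => {p : ℝ × ℝ | r * S / 2 ≤ ‖D‖ ∧
          |‖p.2 • e' - p.1 • e‖ - ‖D‖| ≤ 4 * δ}.indicator (1 : ℝ × ℝ → ℝ≥0∞) p) := by
        apply measurable_one.indicator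
        have m1 : Measurable (fun p : ℝ × ℝ => |‖p.2 • e' - p.1 • e‖ - ‖D‖|) := by fun_prop
        exact (MeasurableSet.const _).inter (measurableSet_le m1 measurable_const)
      rw [hμ2, lintegral_prod _ hm.aemeasurable]
      refine le_trans (le_of_eq ?_) (area he he' hS0 (by linarith : 0 < ‖D‖) (by positivity)
        (by linarith) (by positivity))
      apply lintegral_congr
      intro s
      rw [← lintegral_indicator_one]
      · apply lintegral_congr
        intro t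
        simp only [indicator, mem_ofPred_eq, Pi.one_apply]
        simp only [hDb, true_and]
      · have m1 : Measurable (fun t : ℝ => |‖t • e' - s • e‖ - ‖D‖|) := by fun_prop
        exact measurableSet_le m1 measurable_const
    · have : ∀ p : ℝ × ℝ, {p : ℝ × ℝ | r * S / 2 ≤ ‖D‖ ∧ |‖p.2 • e' - p.1 • e‖ - ‖D‖| ≤ 4 * δ}.indicator
          (1 : ℝ × ℝ → ℝ≥0∞) p = 0 := by
        intro p
        apply indicator_of_notMem
        rintro ⟨h, _⟩
        exact hDb h
      simp [this]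
  -- conclusion
  have fin : ENNReal.ofReal (4 * δ ^ 2) * ∫⁻ ω, volume {x | x ∈ tube δ (g ω a) e ∧
      x ∈ tube δ (g ω a') e' ∧ r < ‖x - g ω a‖ ∧ ‖x - g ω a‖ ≤ 2 * r} ∂P ≤
      ENNReal.ofReal (((2 * δ) ^ n * vb n) * (c * (432 * R * (4 * δ)))) := by
    refine step2.trans ?_
    have h1 : ∫⁻ p, P {ω | (ω, p) ∈ Q} ∂μ2 ≤ ENNReal.ofReal c * ENNReal.ofReal (432 * R * (4 * δ)) := by
      refine (lintegral_mono step3).trans ?_
      rw [lintegral_const_mul' _ _ ENNReal.ofReal_ne_top]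
      gcongr
    have hvb := vb_pos n
    rw [ENNReal.ofReal_mul (by positivity), ENNReal.ofReal_mul hc0]
    gcongr
  have h4δ : 0 < 4 * δ ^ 2 := by positivity
  have hvb := vb_pos n
  have h9 : ∫⁻ ω, volume {x | x ∈ tube δ (g ω a) e ∧
      x ∈ tube δ (g ω a') e' ∧ r < ‖x - g ω a‖ ∧ ‖x - g ω a‖ ≤ 2 * r} ∂P ≤
      ENNReal.ofReal (((2 * δ) ^ n * vb n) * (c * (432 * R * (4 * δ))) / (4 * δ ^ 2)) := by
    rw [ENNReal.ofReal_div_of_pos h4δ, ENNReal.le_div_iff_mul_le (Or.inl (ENNReal.ofReal_pos.2 h4δ).ne')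
      (Or.inl ENNReal.ofReal_ne_top), mul_comm]
    exact fin
  refine h9.trans (ENNReal.ofReal_le_ofReal (le_of_eq ?_))
  obtain ⟨m, rfl⟩ : ∃ m, n = m + 1 := ⟨n - 1, by omega⟩
  rw [hc, hR, Nat.add_sub_cancel]
  have h10 : (16 * δ / (r * S)) ^ α = 16 ^ α * (δ / (r * S)) ^ α := by
    rw [← Real.mul_rpow (by norm_num) (by positivity)]
    congr 1
    ring
  rw [h10]
  field_simp
  ring

end Pool.Agent.TH705.RR
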