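import Pool.Agent.TH705.RR.Fin
import Pool.Agent.W193.AC.INT

set_option autoImplicit false

/-!
# Boxes dual to caps of the paraboloid: the moment bound on average over isometries
-/

open MeasureTheory Set Metric
open scoped ENNReal NNReal

namespace Pool.Agent.TH705.RR

open Pool.Agent.H810R3.Tub

/-- The law of the image of every unit vector has dimension at least `α`, uniformly. -/
def SpreadS {d : ℕ} {Ω : Type*} [MeasurableSpace Ω] (P : Measure Ω)
    (g : Ω → Space d ≃ₗᵢ[ℝ] Space d) (A α : ℝ) : Prop :=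
  ∀ v w : Space d, ‖v‖ = 1 → ‖w‖ = 1 → ∀ s : ℝ, 0 < s →
    P {x | ‖g x v - w‖ ≤ s} ≤ ENNReal.ofReal (A * s ^ α)

/-- transport to the coordinate space -/
noncomputable def cj {d : ℕ} (g : Space d ≃ₗᵢ[ℝ] Space d) : E (d + 1) ≃ₗᵢ[ℝ] E (d + 1) :=
  (Pool.Agent.W193.AC.iso d).symm.trans (g.trans (Pool.Agent.W193.AC.iso d))

theorem cj_iso {d : ℕ} (g : Space d ≃ₗᵢ[ℝ] Space d) (v : Space d) :
    cj g (Pool.Agent.W193.AC.iso d v) = Pool.Agent.W193.AC.iso d (g v) := by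
  unfold cj
  simp

theorem cj_apply {d : ℕ} (g : Space d ≃ₗᵢ[ℝ] Space d) (v : E (d + 1)) :
    cj g v = Pool.Agent.W193.AC.iso d (g ((Pool.Agent.W193.AC.iso d).symm v)) := rfl

theorem cj_meas {d : ℕ} {Ω : Type*} [MeasurableSpace Ω] {g : Ω → Space d ≃ₗᵢ[ℝ] Space d}
    (hg : ∀ v, Measurable (fun x => g x v)) (v : E (d + 1)) :
    Measurable (fun x => cj (g x) v) := by
  simp only [cj_apply]
  exact (Pool.Agent.W193.AC.iso d).continuous.measurable.comp (hg _)

theorem cj_spread {d : ℕ} {Ω : Type*} [MeasurableSpace Ω] {P : Measure Ω}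
    {g : Ω → Space d ≃ₗᵢ[ℝ] Space d} {A α : ℝ} (h : SpreadS P g A α) :
    Spread P (fun x => cj (g x)) A α := by
  intro v w hv hw s hs
  have h1 := h ((Pool.Agent.W193.AC.iso d).symm v) ((Pool.Agent.W193.AC.iso d).symm w)
    (by rw [LinearIsometryEquiv.norm_map]; exact hv)
    (by rw [LinearIsometryEquiv.norm_map]; exact hw) s hs
  refine le_trans (le_of_eq ?_) h1
  congr 1
  ext x
  simp only [mem_ofPred_eq, cj_apply]
  rw [← (Pool.Agent.W193.AC.iso d).norm_map (g x _ - _), map_sub,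
    LinearIsometryEquiv.apply_symm_apply]

theorem box_sub_cyl {d : ℕ} (hd : 2 ≤ d) {σ N : ℝ} (hσ : 0 < σ) (hσ1 : σ ≤ 1) (hN : 1 ≤ N)
    {e : Space d} {f : Fin d → Space d}
    (h : Orthonormal ℝ (Fin.cons e f : Fin (d + 1) → Space d)) (a : Space d) :
    box N e f a ⊆ Pool.Agent.W193.AC.cyl (2 * d / σ * N ^ 2) (σ / 4 / N) a e := by
  intro y hy
  have hN0 : 0 < N := by linarith
  have hd2 : (2 : ℝ) ≤ d := by exact_mod_cast hd
  refine ⟨?_, ?_⟩
  · have h1 := hy.1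
    rw [real_inner_comm] at h1
    refine h1.trans ?_
    have h2 : 1 ≤ 2 * (d : ℝ) / σ := by
      rw [le_div_iff₀ hσ]
      linarith
    have h3 : 0 < N ^ 2 := by positivity
    nlinarith
  · have h1 := box_perp hN h hy
    have h2 : (inner ℝ (y - a) e : ℝ) = inner ℝ e (y - a) := real_inner_comm _ _
    rw [h2]
    refine h1.trans (le_of_eq ?_)
    field_simp
    ring

theorem moment {d : ℕ} (hd : 2 ≤ d) {α q σ : ℝ} (hα : 1 < α) (hαd : α ≤ d) (hq : 1 + 1 / α < q)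
    (hσ : 0 < σ) (hσ1 : σ ≤ 1) :
    ∃ E0 : ℝ, 0 < E0 ∧ ∀ A : ℝ, 0 ≤ A → ∀ (Ω : Type) [MeasurableSpace Ω] (P : Measure Ω)
      [IsProbabilityMeasure P] (g : Ω → Space d ≃ₗᵢ[ℝ] Space d),
      (∀ v, Measurable (fun x => g x v)) → SpreadS P g A α → ∀ N : ℝ, 1 ≤ N →
      ∀ (ι : Type) [Fintype ι] (ω : ι → Vec d) (f : ι → Fin d → Space d), (∀ i, ‖ω i‖ ≤ 1) →
      (∀ i j, i ≠ j → σ / N ≤ ‖ω i - ω j‖) →
      (∀ i, Orthonormal ℝ (Fin.cons (nor (ω i)) (f i) : Fin (d + 1) → Space d)) →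
      ∀ a : ι → Space d, ∃ Z : Ω → ℝ≥0∞, Measurable Z ∧
        (∀ x, ∫⁻ y, Fb N ω f (fun i => g x (a i)) y ^ q ≤ Z x) ∧
        ∫⁻ x, Z x ∂P ≤ ENNReal.ofReal
          (E0 * (1 + A) * N ^ (d + 2) * (Fintype.card ι : ℝ) ^ (q - 1 / d)) := by
  have hd2 : (2 : ℝ) ≤ d := by exact_mod_cast hd
  have hα0 : 0 < 1 / α := by positivity
  have hq0 : 0 < q := by linarith
  obtain ⟨C, hC, H⟩ := general (n := d + 1) (by omega) hα
    (by push_cast; linarith) hq
  refine ⟨(2 * d / σ) ^ (d + 1) * (σ / 4) ^ d * C, by positivity, ?_⟩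
  intro A hA Ω _ P _ g hg hsp N hN ι _ ω f hω hsep hf a
  have hN0 : 0 < N := by linarith
  set R : ℝ := 2 * d / σ * N ^ 2 with hR
  set δ : ℝ := σ / 4 / N with hδ
  have hR0 : 0 < R := by positivity
  have hδ0 : 0 < δ := by positivity
  have hδ1 : δ < 1 := by
    rw [hδ, div_lt_one hN0]
    linarith
  set a' : ι → E (d + 1) := fun i => Pool.Agent.W193.AC.iso d (R⁻¹ • a i) with ha'
  set e' : ι → E (d + 1) := fun i => Pool.Agent.W193.AC.iso d (nor (ω i)) with he'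
  have h1 := H A hA Ω P (fun x => cj (g x)) (cj_meas hg) (cj_spread hsp) δ hδ0 hδ1 ι a' e' (by
    intro i
    rw [he', LinearIsometryEquiv.norm_map]
    exact norm_e (hf i)) (by
    intro i j hij
    simp only [he']
    rw [← map_sub, LinearIsometryEquiv.norm_map]
    have h3 := Pool.Agent.W193.AC.nor_sep (ω i) (ω j) (hω i) (hω j)
    have h4 := hsep i j hij
    have h5 : δ = σ / N / 4 := by rw [hδ]; ring
    rw [h5]
    linarith)
  refine ⟨fun x => ENNReal.ofReal (R ^ (d + 1)) * ∫⁻ z, mult δ (cj (g x)) a' e' z ^ q, ?_, ?_, ?_⟩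
  · apply Measurable.const_mul
    have h2 : Measurable (fun p : Ω × E (d + 1) => mult δ (cj (g p.1)) a' e' p.2 ^ q) :=
      (mult_meas (cj_meas hg) δ a' e').pow_const q
    exact h2.lintegral_prod_right'
  · intro x
    have h2 : ∀ y, Fb N ω f (fun i => g x (a i)) y ≤
        ∑ i, (Pool.Agent.W193.AC.cyl R δ (g x (a i)) (nor (ω i))).indicator
          (fun _ => (1 : ℝ≥0∞)) y := by
      intro y
      unfold Fb
      apply Finset.sum_le_sum
      intro i _
      exact indicator_le_indicator_of_subset (box_sub_cyl hd hσ hσ1 hN (hf i) _)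
        (fun _ => zero_le) y
    calc ∫⁻ y, Fb N ω f (fun i => g x (a i)) y ^ q
        ≤ ∫⁻ y, (∑ i, (Pool.Agent.W193.AC.cyl R δ (g x (a i)) (nor (ω i))).indicator
          (fun _ => (1 : ℝ≥0∞)) y) ^ q :=
          lintegral_mono fun y => ENNReal.rpow_le_rpow (h2 y) hq0.le
      _ ≤ _ := by
          refine Pool.Agent.W193.AC.cyl_int hR0 (fun i => g x (a i)) (fun i => nor (ω i)) ?_
          refine le_of_eq ?_
          apply lintegral_congr
          intro z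
          congr 1
          unfold mult
          apply Finset.sum_congr rfl
          intro i _
          have h3 : cj (g x) (a' i) = Pool.Agent.W193.AC.iso d (R⁻¹ • g x (a i)) := by
            simp only [ha']
            rw [cj_iso, map_smul]
          rw [h3]
          rfl
  · rw [lintegral_const_mul' _ _ ENNReal.ofReal_ne_top]
    refine (mul_le_mul' le_rfl h1).trans (le_of_eq ?_)
    rw [← ENNReal.ofReal_mul (by positivity)]
    congr 1
    have e0 : ((d + 1 : ℕ) : ℝ) - 1 = d := by push_cast; ring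
    have e1 : d + 1 - 1 = d := by omega
    rw [e0, e1, hR, hδ, mul_pow, div_pow (σ / 4) N d]
    field_simp
    ring

/-- large probability -/
theorem prob {d : ℕ} (hd : 2 ≤ d) {α q σ : ℝ} (hα : 1 < α) (hαd : α ≤ d) (hq : 1 + 1 / α < q)
    (hσ : 0 < σ) (hσ1 : σ ≤ 1) :
    ∃ E0 : ℝ, 0 < E0 ∧ ∀ A : ℝ, 0 ≤ A → ∀ (Ω : Type) [MeasurableSpace Ω] (P : Measure Ω)
      [IsProbabilityMeasure P] (g : Ω → Space d ≃ₗᵢ[ℝ] Space d),
      (∀ v, Measurable (fun x => g x v)) → SpreadS P g A α → ∀ N : ℝ, 1 ≤ N →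
      ∀ (ι : Type) [Fintype ι] [Nonempty ι] (ω : ι → Vec d) (f : ι → Fin d → Space d),
      (∀ i, ‖ω i‖ ≤ 1) →
      (∀ i j, i ≠ j → σ / N ≤ ‖ω i - ω j‖) →
      (∀ i, Orthonormal ℝ (Fin.cons (nor (ω i)) (f i) : Fin (d + 1) → Space d)) →
      ∀ (a : ι → Space d) (η : ℝ), 0 < η →
        P {x | ¬ ∫⁻ y, Fb N ω f (fun i => g x (a i)) y ^ q ≤ ENNReal.ofReal
          (E0 * ((1 + A) / η) * N ^ (d + 2) * (Fintype.card ι : ℝ) ^ (q - 1 / d))} ≤
          ENNReal.ofReal η := by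
  obtain ⟨E0, hE0, H⟩ := moment hd hα hαd hq hσ hσ1
  refine ⟨E0, hE0, ?_⟩
  intro A hA Ω _ P _ g hg hsp N hN ι _ _ ω f hω hsep hf a η hη
  obtain ⟨Z, hZm, hZ1, hZ2⟩ := H A hA Ω P g hg hsp N hN ι ω f hω hsep hf a
  have hc : (0:ℝ) < Fintype.card ι := by exact_mod_cast Fintype.card_pos
  have hN0 : 0 < N := by linarith
  set T : ℝ := E0 * (1 + A) * N ^ (d + 2) * (Fintype.card ι : ℝ) ^ (q - 1 / d) with hT
  have hT0 : 0 < T := by positivity
  have e1 : E0 * ((1 + A) / η) * N ^ (d + 2) * (Fintype.card ι : ℝ) ^ (q - 1 / d) = T / η := by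
    rw [hT]; ring
  rw [e1]
  have hTη : 0 < T / η := by positivity
  calc P {x | ¬ ∫⁻ y, Fb N ω f (fun i => g x (a i)) y ^ q ≤ ENNReal.ofReal (T / η)}
      ≤ P {x | ENNReal.ofReal (T / η) ≤ Z x} := by
        apply measure_mono
        intro x hx
        simp only [mem_ofPred_eq, not_le] at hx ⊢
        exact (hx.trans_le (hZ1 x)).le
    _ ≤ (∫⁻ x, Z x ∂P) / ENNReal.ofReal (T / η) :=
        meas_ge_le_lintegral_div hZm.aemeasurable (ENNReal.ofReal_pos.2 hTη).ne'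
          ENNReal.ofReal_ne_top
    _ ≤ ENNReal.ofReal T / ENNReal.ofReal (T / η) := by gcongr
    _ = ENNReal.ofReal η := by
        rw [← ENNReal.ofReal_div_of_pos hTη]
        congr 1
        field_simp

end Pool.Agent.TH705.RR
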