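import Pool.Agent.TH705.RR.TubA
import Pool.Agent.H810R3.Tub.Compare
import Pool.Agent.H810R3.Tub.Lp

set_option autoImplicit false

/-!
# Boxes dual to caps of the paraboloid: the inequality from the moment bound
-/

open MeasureTheory Set Filter Topology ENNReal NNReal Metric

namespace Pool.Agent.TH705.RR

open Pool.Agent.H810R3.Tub

/-- Comparison of the norms, for large exponents. -/
theorem large (d : ℕ) {ι : Type} [Fintype ι] [Nonempty ι] {N q Q D : ℝ} (hN : 1 ≤ N)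
    (hq1 : 1 < q) (hQ0 : 0 < Q) (hD1 : 1 ≤ D) (ω : ι → Vec d) (f : ι → Fin d → Space d)
    (hf : ∀ i, Orthonormal ℝ (Fin.cons (nor (ω i)) (f i) : Fin (d + 1) → Space d)) (a : ι → Space d)
    (hQi : ∫⁻ y, Fb N ω f a y ^ q ≤ ENNReal.ofReal Q)
    (hA2 : Q ≤ D ^ q * ((Fintype.card ι : ℝ) ^ q * ((N / 2) ^ (d + 1) * wv d)))
    (p : ℝ≥0∞) (hp : ENNReal.ofReal q ≤ p) :
    eLpNorm (fun y : Space d => ∑ i, (box N (nor (ω i)) (f i) (a i)).indicator (fun _ => (1 : ℝ)) y) p volume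
      ≤ ENNReal.ofReal D *
        eLpNorm (fun y : Space d => ∑ i,
          (box N (nor (ω i)) (f i) 0).indicator (fun _ => (1 : ℝ)) y) p volume := by
  have hd0 : (0 : ℝ) ≤ d := Nat.cast_nonneg d
  have hN0 : 0 < N := by linarith
  have hq0 : 0 < q := by linarith
  have hD0 : 0 < D := by linarith
  set w : ℝ := wv d with hw
  have hw0 : 0 < w := wv_pos d
  have hwe : volume (ball (0 : Space d) 1) = ENNReal.ofReal w := by
    rw [hw, wv, ENNReal.ofReal_toReal measure_ball_lt_top.ne]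
  set c : ℝ := (Fintype.card ι : ℝ) with hc
  have hc0 : 0 < c := by
    have h1 : (0 : ℝ) < (Fintype.card ι : ℝ) := by
      have := Fintype.card_pos (α := ι)
      exact_mod_cast this
    exact h1
  have hbv : volume (ball (0 : Space d) (N / 2)) = ENNReal.ofReal ((N / 2) ^ (d + 1) * w) := by
    rw [Measure.addHaar_ball_of_pos _ _ (by positivity), finrank_space, hwe,
      ← ENNReal.ofReal_mul (by positivity)]
  have hball : ∀ y ∈ ball (0 : Space d) (N / 2), Fb N ω f (fun _ => (0 : Space d)) y = ENNReal.ofReal c := by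
    intro y hy
    unfold Fb
    rw [Finset.sum_congr rfl (fun i _ => indicator_of_mem (ball_sub_box hN (hf i) hy) _)]
    simp [hc]
  have hFc : ∀ y, Fb N ω f a y ≤ ENNReal.ofReal c := by
    intro y
    refine (Fb_le N ω f a y).trans (le_of_eq ?_)
    rw [hc, ENNReal.ofReal_natCast]
  have hD1e : (1 : ℝ≥0∞) ≤ ENNReal.ofReal D := by
    rw [← ENNReal.ofReal_one]
    exact ENNReal.ofReal_le_ofReal hD1
  rcases eq_or_ne p ∞ with hpt | hpt
  · -- the case of the supremum norm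
    rw [hpt, eLpNorm_exponent_top, eLpNorm_exponent_top]
    have h1 : eLpNormEssSup (fun y : Space d => ∑ i, (box N (nor (ω i)) (f i)
        (a i)).indicator (fun _ => (1 : ℝ)) y) volume ≤ ENNReal.ofReal c := by
      unfold eLpNormEssSup
      refine essSup_le_of_ae_le _ (Filter.Eventually.of_forall fun y => ?_)
      show ‖∑ i, (box N (nor (ω i)) (f i) (a i)).indicator (fun _ => (1 : ℝ)) y‖ₑ ≤ ENNReal.ofReal c
      rw [enorm_sum_box]
      exact hFc y
    have h2 : ENNReal.ofReal c ≤ eLpNormEssSup (fun y : Space d => ∑ i,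
        (box N (nor (ω i)) (f i) 0).indicator (fun _ => (1 : ℝ)) y) volume := by
      have h3 := ae_le_eLpNormEssSup (f := fun y : Space d => ∑ i,
        (box N (nor (ω i)) (f i) 0).indicator (fun _ => (1 : ℝ)) y) (μ := volume)
      have h4 : volume (ball (0 : Space d) (N / 2)) ≠ 0 := (measure_ball_pos _ _ (by positivity)).ne'
      obtain ⟨y, hy1, hy2⟩ : ∃ y ∈ ball (0 : Space d) (N / 2), ‖∑ i,
          (box N (nor (ω i)) (f i) 0).indicator (fun _ => (1 : ℝ)) y‖ₑ ≤ eLpNormEssSup (fun y : Space d => ∑ i,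
          (box N (nor (ω i)) (f i) 0).indicator (fun _ => (1 : ℝ)) y) volume := by
        by_contra hcon
        push Not at hcon
        apply h4
        refine measure_mono_null ?_ (ae_iff.1 h3)
        intro y hy
        exact not_le.2 (hcon y hy)
      have h5 := enorm_sum_box N ω f (fun _ => (0 : Space d)) y
      rw [h5, hball y hy1] at hy2
      exact hy2
    calc _ ≤ 1 * ENNReal.ofReal c := by rw [one_mul]; exact h1
      _ ≤ _ := mul_le_mul' hD1e h2
  · -- finite exponents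
    have hp0 : p ≠ 0 := by
      intro h
      rw [h, nonpos_iff_eq_zero, ENNReal.ofReal_eq_zero] at hp
      linarith
    set r : ℝ := p.toReal with hr
    have hrq : q ≤ r := by
      rw [hr]
      exact (ENNReal.ofReal_le_iff_le_toReal hpt).1 hp
    have hr0 : 0 < r := by linarith
    rw [eLpNorm_eq_lintegral_rpow_enorm_toReal hp0 hpt, eLpNorm_eq_lintegral_rpow_enorm_toReal hp0 hpt, ← hr]
    have e1 : ∫⁻ y : Space d, ‖∑ i, (box N (nor (ω i)) (f i) (a i)).indicator (fun _ => (1 : ℝ)) y‖ₑ ^ r =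
        ∫⁻ y, Fb N ω f a y ^ r := by
      refine lintegral_congr fun y => ?_
      rw [enorm_sum_box]
    have e2 : ∫⁻ y : Space d, ‖∑ i, (box N (nor (ω i)) (f i) 0).indicator (fun _ => (1 : ℝ)) y‖ₑ ^ r =
        ∫⁻ y, Fb N ω f (fun _ => 0) y ^ r := by
      refine lintegral_congr fun y => ?_
      rw [← enorm_sum_box]
    rw [e1, e2]
    have key : ∫⁻ y, Fb N ω f a y ^ r ≤ ENNReal.ofReal (D ^ r) * ∫⁻ y, Fb N ω f (fun _ => 0) y ^ r := by
      have h1 : ∫⁻ y, Fb N ω f a y ^ r ≤ ENNReal.ofReal (c ^ (r - q) * Q) := by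
        calc ∫⁻ y, Fb N ω f a y ^ r ≤ ∫⁻ y, ENNReal.ofReal (c ^ (r - q)) * Fb N ω f a y ^ q := by
              refine lintegral_mono fun y => ?_
              simp only
              have e3 : Fb N ω f a y ^ r = Fb N ω f a y ^ (r - q) * Fb N ω f a y ^ q := by
                rw [← ENNReal.rpow_add_of_nonneg _ _ (by linarith) hq0.le, sub_add_cancel]
              rw [e3, ← ENNReal.ofReal_rpow_of_pos hc0]
              exact mul_le_mul' (ENNReal.rpow_le_rpow (hFc y) (by linarith)) le_rfl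
          _ = ENNReal.ofReal (c ^ (r - q)) * ∫⁻ y, Fb N ω f a y ^ q :=
              lintegral_const_mul' _ _ ENNReal.ofReal_ne_top
          _ ≤ ENNReal.ofReal (c ^ (r - q)) * ENNReal.ofReal Q := mul_le_mul' le_rfl hQi
          _ = _ := (ENNReal.ofReal_mul (by positivity)).symm
      have h2 : ENNReal.ofReal (c ^ r * ((N / 2) ^ (d + 1) * w)) ≤ ∫⁻ y, Fb N ω f (fun _ => 0) y ^ r := by
        calc ENNReal.ofReal (c ^ r * ((N / 2) ^ (d + 1) * w))
            = ENNReal.ofReal (c ^ r) * volume (ball (0 : Space d) (N / 2)) := by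
              rw [hbv, ENNReal.ofReal_mul (by positivity)]
          _ = ∫⁻ _ in ball (0 : Space d) (N / 2), ENNReal.ofReal (c ^ r) := by
              rw [setLIntegral_const]
          _ = ∫⁻ y in ball (0 : Space d) (N / 2), Fb N ω f (fun _ => 0) y ^ r := by
              refine setLIntegral_congr_fun measurableSet_ball fun y hy => ?_
              rw [hball y hy, ENNReal.ofReal_rpow_of_pos hc0]
          _ ≤ _ := setLIntegral_le_lintegral _ _
      have h3 : c ^ (r - q) * Q ≤ D ^ r * (c ^ r * ((N / 2) ^ (d + 1) * w)) := by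
        have h4 : D ^ q ≤ D ^ r := Real.rpow_le_rpow_of_exponent_le hD1 hrq
        have h5 : c ^ (r - q) * c ^ q = c ^ r := by
          rw [← Real.rpow_add hc0, sub_add_cancel]
        calc c ^ (r - q) * Q ≤ c ^ (r - q) * (D ^ q * (c ^ q * ((N / 2) ^ (d + 1) * w))) :=
              mul_le_mul_of_nonneg_left hA2 (by positivity)
          _ = D ^ q * ((c ^ (r - q) * c ^ q) * ((N / 2) ^ (d + 1) * w)) := by ring
          _ = D ^ q * (c ^ r * ((N / 2) ^ (d + 1) * w)) := by rw [h5]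
          _ ≤ _ := mul_le_mul_of_nonneg_right h4 (by positivity)
      calc ∫⁻ y, Fb N ω f a y ^ r ≤ ENNReal.ofReal (c ^ (r - q) * Q) := h1
        _ ≤ ENNReal.ofReal (D ^ r * (c ^ r * ((N / 2) ^ (d + 1) * w))) := ENNReal.ofReal_le_ofReal h3
        _ = ENNReal.ofReal (D ^ r) * ENNReal.ofReal (c ^ r * ((N / 2) ^ (d + 1) * w)) :=
            ENNReal.ofReal_mul (by positivity)
        _ ≤ _ := mul_le_mul' le_rfl h2
    calc (∫⁻ y, Fb N ω f a y ^ r) ^ (1 / r)
        ≤ (ENNReal.ofReal (D ^ r) * ∫⁻ y, Fb N ω f (fun _ => 0) y ^ r) ^ (1 / r) :=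
          ENNReal.rpow_le_rpow key (by positivity)
      _ = ENNReal.ofReal D * (∫⁻ y, Fb N ω f (fun _ => 0) y ^ r) ^ (1 / r) := by
          rw [ENNReal.mul_rpow_of_nonneg _ _ (by positivity), ENNReal.ofReal_rpow_of_pos (by positivity),
            ← Real.rpow_mul hD0.le, mul_one_div_cancel hr0.ne', Real.rpow_one]

theorem arith3 {d : ℕ} (hd0 : (0 : ℝ) < d) {E Y q N c κ w C : ℝ} (hE : 0 < E) (hY : 0 < Y)
    (hN : 1 ≤ N) (hκ : 0 < κ)
    (hc : κ * N ^ d ≤ c) (hw : 0 < w) (hC : E * κ ^ (-(1 / (d : ℝ))) * 2 ^ (d + 1) / w ≤ C) :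
    E * Y * N ^ (d + 2) * c ^ (q - 1 / d) ≤
      (C * Y) * (c ^ q * ((N / 2) ^ (d + 1) * w)) := by
  have hN0 : 0 < N := by linarith
  have hc0 : 0 < c := lt_of_lt_of_le (by positivity) hc
  have h1 := rpow_c hd0 hN0 hκ hc q
  have e3 : N ^ (d + 2) * N ^ (-1 : ℝ) = N ^ (d + 1) := by
    rw [Real.rpow_neg_one, pow_succ N (d + 1)]
    field_simp
  calc E * Y * N ^ (d + 2) * c ^ (q - 1 / d)
      ≤ E * Y * N ^ (d + 2) * (c ^ q * (κ ^ (-(1 / (d : ℝ))) * N ^ (-1 : ℝ))) := by gcongr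
    _ = (E * κ ^ (-(1 / (d : ℝ))) * 2 ^ (d + 1) / w) * Y * (c ^ q * ((N / 2) ^ (d + 1) * w)) := by
        rw [div_pow]
        have e4 : E * Y * N ^ (d + 2) * (c ^ q * (κ ^ (-(1 / (d : ℝ))) * N ^ (-1 : ℝ))) =
          E * Y * (c ^ q * κ ^ (-(1 / (d : ℝ)))) * (N ^ (d + 2) * N ^ (-1 : ℝ)) := by ring
        rw [e4, e3]
        field_simp
    _ ≤ _ := by
        have : 0 ≤ C := le_trans (by positivity) hC
        gcongr

/-- both ranges of exponents -/
theorem both {d : ℕ} (hd : 2 ≤ d) {q κ E0 : ℝ} (hq : 1 + 1 / (d : ℝ) < q) (hκ : 0 < κ)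
    (hE : 0 < E0) : ∃ C : ℝ, 1 ≤ C ∧ ∀ Y : ℝ, 1 ≤ Y → ∀ N : ℝ, 1 ≤ N → ∀ (ι : Type) [Fintype ι]
      (ω : ι → Vec d) (f : ι → Fin d → Space d),
      (∀ i, Orthonormal ℝ (Fin.cons (nor (ω i)) (f i) : Fin (d + 1) → Space d)) →
      κ * N ^ d ≤ (Fintype.card ι : ℝ) → ∀ a : ι → Space d,
      ∫⁻ y, Fb N ω f a y ^ q ≤ ENNReal.ofReal
        (E0 * Y * N ^ (d + 2) * (Fintype.card ι : ℝ) ^ (q - 1 / d)) →
      (∀ p : ℝ≥0∞, 1 ≤ p →
        eLpNorm (fun y : Space d => ∑ i, (box N (nor (ω i)) (f i) (a i)).indicator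
          (fun _ => (1 : ℝ)) y) p volume ≤
        ENNReal.ofReal ((C * Y) ^ (1 / q) * N ^ ((d : ℝ) - (d + 1) / q)) *
        eLpNorm (fun y : Space d => ∑ i, (box N (nor (ω i)) (f i) 0).indicator
          (fun _ => (1 : ℝ)) y) p volume) ∧
      (∀ p : ℝ≥0∞, ENNReal.ofReal q ≤ p →
        eLpNorm (fun y : Space d => ∑ i, (box N (nor (ω i)) (f i) (a i)).indicator
          (fun _ => (1 : ℝ)) y) p volume ≤
        ENNReal.ofReal ((C * Y) ^ (1 / q)) *
        eLpNorm (fun y : Space d => ∑ i, (box N (nor (ω i)) (f i) 0).indicator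
          (fun _ => (1 : ℝ)) y) p volume) := by
  have hd2 : (2 : ℝ) ≤ d := by exact_mod_cast hd
  have hd0 : (0 : ℝ) < d := by linarith
  have hd1 : 0 < 1 / (d : ℝ) := by positivity
  have hq1 : 1 < q := by linarith
  have hq0 : 0 < q := by linarith
  have hw0 : 0 < wv d := wv_pos d
  set b₀ : ℝ := (1 + (d : ℝ)) ^ (d + 1) * wv d with hb₀
  have hb0 : 0 < b₀ := by positivity
  set C0 : ℝ := max 1 (max (E0 * b₀ ^ (q - 1) * κ ^ (-(1 / (d : ℝ))))
    (E0 * κ ^ (-(1 / (d : ℝ))) * 2 ^ (d + 1) / wv d)) with hC0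
  have hC1 : 1 ≤ C0 := le_max_left _ _
  have hC2 : E0 * b₀ ^ (q - 1) * κ ^ (-(1 / (d : ℝ))) ≤ C0 := (le_max_left _ _).trans (le_max_right _ _)
  have hC3 : E0 * κ ^ (-(1 / (d : ℝ))) * 2 ^ (d + 1) / wv d ≤ C0 := (le_max_right _ _).trans (le_max_right _ _)
  have hC00 : 0 < C0 := by linarith
  refine ⟨C0, hC1, ?_⟩
  intro Y hY N hN ι _ ω f hf hcard a hQi
  have hN0 : 0 < N := by linarith
  have hY0 : 0 < Y := by linarith
  have hc0 : (0 : ℝ) < (Fintype.card ι : ℝ) := lt_of_lt_of_le (by positivity) hcard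
  have hne : Nonempty ι := by
    rw [← Fintype.card_pos_iff]
    exact_mod_cast hc0
  set ε : ℝ := (d : ℝ) - (d + 1) / q with hε
  have hε0 : 0 < ε := by
    rw [hε, sub_pos, div_lt_iff₀ hq0]
    have h1 : (1 + 1 / (d : ℝ)) * d = d + 1 := by field_simp
    nlinarith
  have hηq : d * q - d - 1 = ε * q := by
    rw [hε, sub_mul, div_mul_cancel₀ _ hq0.ne']
    ring
  have hCY : 1 ≤ C0 * Y := by nlinarith
  have hCY0 : 0 < C0 * Y := by linarith
  have hD1 : 1 ≤ (C0 * Y) ^ (1 / q) := Real.one_le_rpow hCY (by positivity)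
  set Q : ℝ := E0 * Y * N ^ (d + 2) * (Fintype.card ι : ℝ) ^ (q - 1 / d) with hQ
  have hQ0 : 0 < Q := by positivity
  constructor
  · intro p hp
    have hNe : 1 ≤ N ^ ε := Real.one_le_rpow hN hε0.le
    have hD1' : 1 ≤ (C0 * Y) ^ (1 / q) * N ^ ε := by nlinarith
    have hDq : ((C0 * Y) ^ (1 / q) * N ^ ε) ^ q = C0 * Y * N ^ (ε * q) := by
      rw [Real.mul_rpow (by positivity) (by positivity), ← Real.rpow_mul hCY0.le,
        ← Real.rpow_mul hN0.le, one_div_mul_cancel hq0.ne', Real.rpow_one]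
    refine compare d hN hq1 hQ0 hD1' ω f hf a hQi ?_ ?_ p hp
    · rw [hDq]
      exact arith1 hd0 hE hY0 hq1 hηq le_rfl hN hκ hcard hb0 hC2
    · rw [hDq]
      exact arith2 hd0 hE hY0 hq1 hε0 hN hκ hcard hw0 hC3
  · intro p hp
    have hDq : ((C0 * Y) ^ (1 / q)) ^ q = C0 * Y := by
      rw [← Real.rpow_mul hCY0.le, one_div_mul_cancel hq0.ne', Real.rpow_one]
    refine large d hN hq1 hQ0 hD1 ω f hf a hQi ?_ p hp
    rw [hDq]
    exact arith3 hd0 hE hY0 hN hκ hcard hw0 hC3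

end Pool.Agent.TH705.RR
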