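import Pool.Agent.TH705.RR.TubB
import Pool.Agent.TH705.RR.On

set_option autoImplicit false

/-!
# Boxes dual to caps of the paraboloid: laws, groups, sequences
-/

open MeasureTheory Set Metric
open scoped ENNReal NNReal

namespace Pool.Agent.TH705.RR

open Pool.Agent.H810R3.Tub

/-- the two inequalities with large probability -/
theorem tub_most {d : ℕ} (hd : 2 ≤ d) {σ κ α q : ℝ} (hσ : 0 < σ) (hσ1 : σ ≤ 1) (hκ : 0 < κ)
    (hα : 1 < α) (hαd : α ≤ d) (hq : 1 + 1 / α < q) :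
    ∃ C : ℝ, 1 ≤ C ∧ ∀ A : ℝ, 0 ≤ A → ∀ (Ω : Type) [MeasurableSpace Ω] (P : Measure Ω)
      [IsProbabilityMeasure P] (g : Ω → Space d ≃ₗᵢ[ℝ] Space d),
      (∀ v, Measurable (fun x => g x v)) → SpreadS P g A α → ∀ N : ℝ, 1 ≤ N →
      ∀ (ι : Type) [Fintype ι] (ω : ι → Vec d) (f : ι → Fin d → Space d),
      (∀ i, ‖ω i‖ ≤ 1) →
      (∀ i j, i ≠ j → σ / N ≤ ‖ω i - ω j‖) → κ * N ^ d ≤ (Fintype.card ι : ℝ) →
      (∀ i, Orthonormal ℝ (Fin.cons (nor (ω i)) (f i) : Fin (d + 1) → Space d)) →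
      ∀ (a : ι → Space d) (η : ℝ), 0 < η → η ≤ 1 →
        P {x | ¬ ((∀ p : ℝ≥0∞, 1 ≤ p →
        eLpNorm (fun y : Space d => ∑ i, (box N (nor (ω i)) (f i) (g x (a i))).indicator
          (fun _ => (1 : ℝ)) y) p volume ≤
        ENNReal.ofReal ((C * (1 + A) / η) ^ (1 / q) * N ^ ((d : ℝ) - (d + 1) / q)) *
        eLpNorm (fun y : Space d => ∑ i, (box N (nor (ω i)) (f i) 0).indicator
          (fun _ => (1 : ℝ)) y) p volume) ∧
      (∀ p : ℝ≥0∞, ENNReal.ofReal q ≤ p →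
        eLpNorm (fun y : Space d => ∑ i, (box N (nor (ω i)) (f i) (g x (a i))).indicator
          (fun _ => (1 : ℝ)) y) p volume ≤
        ENNReal.ofReal ((C * (1 + A) / η) ^ (1 / q)) *
        eLpNorm (fun y : Space d => ∑ i, (box N (nor (ω i)) (f i) 0).indicator
          (fun _ => (1 : ℝ)) y) p volume))} ≤ ENNReal.ofReal η := by
  have hd2 : (2 : ℝ) ≤ d := by exact_mod_cast hd
  have hq' : 1 + 1 / (d : ℝ) < q := by
    have : 1 / (d : ℝ) ≤ 1 / α := one_div_le_one_div_of_le (by linarith) hαd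
    linarith
  obtain ⟨E0, hE0, H⟩ := prob hd hα hαd hq hσ hσ1
  obtain ⟨C, hC, HB⟩ := both hd hq' hκ hE0
  refine ⟨C, hC, ?_⟩
  intro A hA Ω _ P _ g hg hsp N hN ι _ ω f hω hsep hcard hf a η hη hη1
  have hN0 : 0 < N := by linarith
  have hc0 : (0 : ℝ) < (Fintype.card ι : ℝ) := lt_of_lt_of_le (by positivity) hcard
  have hne : Nonempty ι := by
    rw [← Fintype.card_pos_iff]
    exact_mod_cast hc0
  refine le_trans (measure_mono ?_) (H A hA Ω P g hg hsp N hN ι ω f hω hsep hf a η hη)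
  intro x hx
  simp only [mem_ofPred_eq] at hx ⊢
  intro hcon
  apply hx
  have hY : 1 ≤ (1 + A) / η := by
    rw [le_div_iff₀ hη]
    linarith
  have e1 : C * (1 + A) / η = C * ((1 + A) / η) := by ring
  rw [e1]
  exact HB ((1 + A) / η) hY N hN ι ω f hf hcard (fun i => g x (a i)) hcon

theorem cj_mul {d : ℕ} (g h : Space d ≃ₗᵢ[ℝ] Space d) : cj (g * h) = cj g * cj h := by
  apply LinearIsometryEquiv.ext
  intro v
  show cj (g * h) v = cj g (cj h v)
  simp only [cj_apply, LinearIsometryEquiv.symm_apply_apply]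
  rfl

/-- transport back -/
noncomputable def cb {d : ℕ} (h : E (d + 1) ≃ₗᵢ[ℝ] E (d + 1)) : Space d ≃ₗᵢ[ℝ] Space d :=
  (Pool.Agent.W193.AC.iso d).trans (h.trans (Pool.Agent.W193.AC.iso d).symm)

theorem cb_apply {d : ℕ} (h : E (d + 1) ≃ₗᵢ[ℝ] E (d + 1)) (v : Space d) :
    cb h v = (Pool.Agent.W193.AC.iso d).symm (h (Pool.Agent.W193.AC.iso d v)) := rfl

/-- Haar measure of a group acting transitively on the unit sphere -/
theorem spreadS_group {d : ℕ} {G : Type} [Group G] [TopologicalSpace G]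
    [IsTopologicalGroup G] [CompactSpace G] [MeasurableSpace G] [BorelSpace G] (μ : Measure G)
    [μ.IsHaarMeasure] [IsProbabilityMeasure μ] (ρ : G → (Space d ≃ₗᵢ[ℝ] Space d))
    (hact : ∀ k l v, ρ (k * l) v = ρ k (ρ l v))
    (hρ : ∀ v, Measurable (fun k => ρ k v))
    (htr : ∀ v w : Space d, ‖v‖ = 1 → ‖w‖ = 1 → ∃ k, ρ k v = w) :
    SpreadS μ ρ (5 * 2 ^ (d + 1)) d := by
  have h1 := spread_group' (n := d + 1) (by omega) μ (MonoidHom.mk' (fun k => cj (ρ k)) (by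
      intro k l
      apply LinearIsometryEquiv.ext
      intro v
      show cj (ρ (k * l)) v = cj (ρ k) (cj (ρ l) v)
      simp only [cj_apply, LinearIsometryEquiv.symm_apply_apply, hact])) (cj_meas hρ) (by
      intro v w hv hw
      obtain ⟨k, hk⟩ := htr ((Pool.Agent.W193.AC.iso d).symm v) ((Pool.Agent.W193.AC.iso d).symm w)
        (by rw [LinearIsometryEquiv.norm_map]; exact hv)
        (by rw [LinearIsometryEquiv.norm_map]; exact hw)
      refine ⟨k, ?_⟩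
      show cj (ρ k) v = w
      rw [cj_apply, hk, LinearIsometryEquiv.apply_symm_apply])
  intro v w hv hw s hs
  have h2 := h1 (Pool.Agent.W193.AC.iso d v) (Pool.Agent.W193.AC.iso d w)
    (by rw [LinearIsometryEquiv.norm_map]; exact hv)
    (by rw [LinearIsometryEquiv.norm_map]; exact hw) s hs
  have e1 : (((d + 1 : ℕ) : ℝ) - 1) = d := by push_cast; ring
  rw [e1] at h2
  refine le_trans (le_of_eq ?_) h2
  congr 1
  ext k
  simp only [mem_ofPred_eq]
  show ‖ρ k v - w‖ ≤ s ↔ ‖cj (ρ k) (Pool.Agent.W193.AC.iso d v) - Pool.Agent.W193.AC.iso d w‖ ≤ s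
  rw [cj_iso, ← map_sub, LinearIsometryEquiv.norm_map]

/-- Borel-Cantelli for events indexed by a level -/
theorem level {Ω : Type*} [MeasurableSpace Ω] {P : Measure Ω} (B : ℕ → ℝ → Set Ω)
    (hB : ∀ j η, 0 < η → η ≤ 1 → P (B j η) ≤ ENNReal.ofReal η) :
    ∀ᵐ x ∂P, ∃ m : ℕ, ∀ j : ℕ, x ∉ B j (1 / (((m : ℝ) + 1) * ((j : ℝ) + 1) ^ 2)) := by
  have hS : Summable (fun j : ℕ => 1 / ((j : ℝ) + 1) ^ 2) := by
    have h1 := (summable_nat_add_iff 1).2 (Real.summable_one_div_nat_pow.2 (by norm_num : 1 < 2))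
    simpa using h1
  set S : ℝ := ∑' j : ℕ, 1 / ((j : ℝ) + 1) ^ 2 with hSdef
  have hS0 : 0 ≤ S := tsum_nonneg fun j => by positivity
  rw [ae_iff]
  have hm : ∀ m : ℕ, P {x | ¬ ∃ m : ℕ, ∀ j : ℕ, x ∉ B j (1 / (((m : ℝ) + 1) * ((j : ℝ) + 1) ^ 2))} ≤
      ENNReal.ofReal (S / ((m : ℝ) + 1)) := by
    intro m
    have hm0 : (0 : ℝ) < (m : ℝ) + 1 := by positivity
    calc P {x | ¬ ∃ m : ℕ, ∀ j : ℕ, x ∉ B j (1 / (((m : ℝ) + 1) * ((j : ℝ) + 1) ^ 2))}
        ≤ P (⋃ j : ℕ, B j (1 / (((m : ℝ) + 1) * ((j : ℝ) + 1) ^ 2))) := by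
          apply measure_mono
          intro x hx
          simp only [mem_ofPred_eq, not_exists, not_forall, not_not] at hx
          obtain ⟨j, hj⟩ := hx m
          exact mem_iUnion.2 ⟨j, hj⟩
      _ ≤ ∑' j : ℕ, P (B j (1 / (((m : ℝ) + 1) * ((j : ℝ) + 1) ^ 2))) := measure_iUnion_le _
      _ ≤ ∑' j : ℕ, ENNReal.ofReal (1 / (((m : ℝ) + 1) * ((j : ℝ) + 1) ^ 2)) := by
          apply ENNReal.tsum_le_tsum
          intro j
          apply hB
          · positivity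
          · rw [div_le_one (by positivity)]
            have h1 : (1 : ℝ) ≤ (m : ℝ) + 1 := by
              have : (0 : ℝ) ≤ m := Nat.cast_nonneg m
              linarith
            have h2 : (1 : ℝ) ≤ ((j : ℝ) + 1) ^ 2 := by
              have : (0 : ℝ) ≤ j := Nat.cast_nonneg j
              nlinarith
            nlinarith
      _ = ENNReal.ofReal (∑' j : ℕ, 1 / (((m : ℝ) + 1) * ((j : ℝ) + 1) ^ 2)) := by
          rw [ENNReal.ofReal_tsum_of_nonneg (fun j => by positivity)]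
          have h3 : (fun j : ℕ => 1 / (((m : ℝ) + 1) * ((j : ℝ) + 1) ^ 2)) =
              fun j : ℕ => (1 / ((m : ℝ) + 1)) * (1 / ((j : ℝ) + 1) ^ 2) := by
            funext j
            rw [one_div_mul_one_div]
          rw [h3]
          exact hS.mul_left _
      _ = ENNReal.ofReal (S / ((m : ℝ) + 1)) := by
          congr 1
          have h3 : (fun j : ℕ => 1 / (((m : ℝ) + 1) * ((j : ℝ) + 1) ^ 2)) =
              fun j : ℕ => (1 / ((m : ℝ) + 1)) * (1 / ((j : ℝ) + 1) ^ 2) := by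
            funext j
            rw [one_div_mul_one_div]
          rw [h3, tsum_mul_left, ← hSdef]
          ring
  have hlim : Filter.Tendsto (fun m : ℕ => ENNReal.ofReal (S / ((m : ℝ) + 1))) Filter.atTop
      (nhds 0) := by
    rw [← ENNReal.ofReal_zero]
    apply ENNReal.tendsto_ofReal
    have h1 := (tendsto_one_div_add_atTop_nhds_zero_nat (𝕜 := ℝ)).const_mul S
    simp only [mul_zero] at h1
    refine h1.congr ?_
    intro m
    ring
  exact le_antisymm (ge_of_tendsto' hlim hm) (zero_le)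

/-- choice of the exponent -/
theorem expo {d : ℕ} (hd : 2 ≤ d) {ε : ℝ} (hε : 0 < ε) :
    ∃ q : ℝ, 1 + 1 / (d : ℝ) < q ∧ q ≤ 1 + 1 / (d : ℝ) + ε ∧ (d : ℝ) - (d + 1) / q ≤ ε ∧
      0 < (d : ℝ) - (d + 1) / q := by
  have hd2 : (2 : ℝ) ≤ d := by exact_mod_cast hd
  set δ : ℝ := min ε (1 / 2) with hδ
  have h1 : δ ≤ ε := min_le_left _ _
  have h2 : δ ≤ 1 / 2 := min_le_right _ _
  have h0 : 0 < δ := lt_min hε (by norm_num)
  have h3 : 0 < (d : ℝ) - δ := by linarith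
  refine ⟨(d + 1) / (d - δ), ?_, ?_, ?_, ?_⟩
  · rw [lt_div_iff₀ h3]
    have e1 : (1 + 1 / (d : ℝ)) * (d - δ) = (d + 1) - δ * (1 + 1 / (d : ℝ)) := by
      field_simp
    rw [e1]
    have : 0 < δ * (1 + 1 / (d : ℝ)) := by positivity
    linarith
  · rw [div_le_iff₀ h3]
    have e1 : (1 + 1 / (d : ℝ) + ε) * (d - δ) = (d + 1) - δ * (1 + 1 / (d : ℝ)) + ε * (d - δ) := by
      field_simp
    rw [e1]
    have h4 : 1 / (d : ℝ) ≤ 1 / 2 := one_div_le_one_div_of_le (by norm_num) hd2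
    have h5 : δ * (1 + 1 / (d : ℝ)) ≤ δ * (3 / 2) := by gcongr; linarith
    have h6 : ε * (3 / 2) ≤ ε * (d - δ) := by gcongr; linarith
    have h7 : δ * (3 / 2) ≤ ε * (3 / 2) := by gcongr
    linarith
  · have e1 : ((d : ℝ) + 1) / ((d + 1) / (d - δ)) = d - δ := by
      field_simp
    rw [e1]
    linarith
  · have e1 : ((d : ℝ) + 1) / ((d + 1) / (d - δ)) = d - δ := by
      field_simp
    rw [e1]
    linarith

end Pool.Agent.TH705.RR
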