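import Mathlib
set_option autoImplicit false

/-!
# Volumes of rods, and counting separated directions
-/

open MeasureTheory Set Metric
open scoped ENNReal NNReal

namespace Pool.Agent.TH705.RR

/-- Euclidean space of dimension `n`. -/
abbrev E (n : ℕ) : Type := EuclideanSpace ℝ (Fin n)

/-- The volume of the unit ball. -/
noncomputable def vb (n : ℕ) : ℝ := (volume (closedBall (0 : E n) 1)).toReal

theorem vb_pos (n : ℕ) : 0 < vb n := by
  unfold vb
  apply ENNReal.toReal_pos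
  · exact (measure_closedBall_pos volume _ one_pos).ne'
  · exact measure_closedBall_lt_top.ne

theorem ofReal_vb (n : ℕ) : ENNReal.ofReal (vb n) = volume (closedBall (0 : E n) 1) :=
  ENNReal.ofReal_toReal measure_closedBall_lt_top.ne

theorem vol_cball {n : ℕ} (x : E n) {r : ℝ} (hr : 0 ≤ r) :
    volume (closedBall x r) = ENNReal.ofReal (r ^ n * vb n) := by
  rw [Measure.addHaar_closedBall' volume x hr, finrank_euclideanSpace_fin, ← ofReal_vb,
    ENNReal.ofReal_mul (by positivity)]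

theorem vol_ball {n : ℕ} (x : E n) {r : ℝ} (hr : 0 < r) :
    volume (ball x r) = ENNReal.ofReal (r ^ n * vb n) := by
  rw [Measure.addHaar_ball_of_pos volume x hr, finrank_euclideanSpace_fin,
    ← Measure.addHaar_unitClosedBall_eq_addHaar_unitBall, ← ofReal_vb,
    ENNReal.ofReal_mul (by positivity)]

/-- The rod: points within `ρ` of the segment `[-L e, L e]` moved to `a`. -/
def Rod {n : ℕ} (a e : E n) (L ρ : ℝ) : Set (E n) := {x | ∃ t : ℝ, |t| ≤ L ∧ ‖x - a - t • e‖ ≤ ρ}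

theorem vol_rod {n : ℕ} (hn : 1 ≤ n) (a : E n) {e : E n} (he : ‖e‖ = 1) {L ρ : ℝ} (hL : 0 ≤ L)
    (hρ : 0 < ρ) :
    volume (Rod a e L ρ) ≤ ENNReal.ofReal (2 ^ n * vb n * (2 * L + 3 * ρ) * ρ ^ (n - 1)) := by
  set K : ℕ := ⌈L / ρ⌉₊ with hK
  have hKr : (K : ℝ) < L / ρ + 1 := Nat.ceil_lt_add_one (by positivity)
  have hsub : Rod a e L ρ ⊆ ⋃ k ∈ Finset.Icc (-(K : ℤ)) K, closedBall (a + (k * ρ : ℝ) • e) (2 * ρ) := by
    rintro x ⟨t, ht, hx⟩
    have hfl := Int.floor_le (t / ρ)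
    have hfl2 := Int.lt_floor_add_one (t / ρ)
    set k : ℤ := ⌊t / ρ⌋ with hk
    have h1 : |t - k * ρ| ≤ ρ := by
      rw [abs_le]
      have e1 : t = t / ρ * ρ := by field_simp
      constructor
      · nlinarith
      · nlinarith
    have hk1 : k ≤ K := by
      have h2 : (k : ℝ) ≤ K := by
        have h3 : t / ρ ≤ L / ρ := by
          gcongr
          exact (abs_le.1 ht).2
        exact hfl.trans (h3.trans (Nat.le_ceil _))
      exact_mod_cast h2
    have hk2 : -(K : ℤ) ≤ k := by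
      have h2 : (-(K : ℤ) : ℤ) ≤ ⌊t / ρ⌋ := by
        rw [Int.le_floor]
        push_cast
        have h3 : -(L / ρ) ≤ t / ρ := by
          rw [← neg_div]
          gcongr
          exact (abs_le.1 ht).1
        have h4 := Nat.le_ceil (L / ρ)
        linarith
      exact h2
    refine mem_iUnion₂.2 ⟨k, Finset.mem_Icc.2 ⟨hk2, hk1⟩, ?_⟩
    rw [mem_closedBall, dist_eq_norm]
    have h5 : x - (a + (k * ρ : ℝ) • e) = (x - a - t • e) + (t - k * ρ) • e := by
      rw [sub_smul]; abel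
    rw [h5]
    refine (norm_add_le _ _).trans ?_
    rw [norm_smul, he, mul_one, Real.norm_eq_abs]
    linarith
  calc volume (Rod a e L ρ) ≤ volume (⋃ k ∈ Finset.Icc (-(K : ℤ)) K, closedBall (a + (k * ρ : ℝ) • e) (2 * ρ)) :=
        measure_mono hsub
    _ ≤ ∑ k ∈ Finset.Icc (-(K : ℤ)) K, volume (closedBall (a + (k * ρ : ℝ) • e) (2 * ρ)) :=
        measure_biUnion_finset_le _ _
    _ = ENNReal.ofReal ((2 * K + 1) * ((2 * ρ) ^ n * vb n)) := by
        have hc : ∀ k ∈ Finset.Icc (-(K : ℤ)) K, volume (closedBall (a + (k * ρ : ℝ) • e) (2 * ρ)) =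
            ENNReal.ofReal ((2 * ρ) ^ n * vb n) := fun k _ => vol_cball _ (by positivity)
        have hcard : (Finset.Icc (-(K : ℤ)) K).card = 2 * K + 1 := by
          rw [Int.card_Icc]
          omega
        rw [Finset.sum_congr rfl hc, Finset.sum_const, nsmul_eq_mul, hcard,
          ← ENNReal.ofReal_natCast, ← ENNReal.ofReal_mul (by positivity)]
        push_cast
        rfl
    _ ≤ _ := by
        apply ENNReal.ofReal_le_ofReal
        have hv := vb_pos n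
        obtain ⟨m, rfl⟩ : ∃ m, n = m + 1 := ⟨n - 1, by omega⟩
        simp only [Nat.add_sub_cancel]
        have h1 : (2 * (K : ℝ) + 1) * ρ ≤ 2 * L + 3 * ρ := by
          have : (K : ℝ) * ρ ≤ L + ρ := by
            have h2 : (K : ℝ) * ρ ≤ (L / ρ + 1) * ρ := by gcongr
            have h3 : (L / ρ + 1) * ρ = L + ρ := by field_simp
            linarith
          linarith
        calc (2 * (K : ℝ) + 1) * ((2 * ρ) ^ (m + 1) * vb (m + 1))
            = 2 ^ (m + 1) * vb (m + 1) * ((2 * (K : ℝ) + 1) * ρ) * ρ ^ m := by ring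
          _ ≤ 2 ^ (m + 1) * vb (m + 1) * (2 * L + 3 * ρ) * ρ ^ m := by gcongr

/-- The sine of the angle between unit vectors. -/
noncomputable def sn {n : ℕ} (e e' : E n) : ℝ := Real.sqrt (1 - inner ℝ e e' ^ 2)

theorem sn_nonneg {n : ℕ} (e e' : E n) : 0 ≤ sn e e' := Real.sqrt_nonneg _

theorem inner_sq_le {n : ℕ} {e e' : E n} (he : ‖e‖ = 1) (he' : ‖e'‖ = 1) :
    inner ℝ e e' ^ 2 ≤ 1 := by
  have h := abs_real_inner_le_norm e e'
  rw [he, he', one_mul] at h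
  have := abs_le.1 h
  nlinarith

theorem sn_sq {n : ℕ} {e e' : E n} (he : ‖e‖ = 1) (he' : ‖e'‖ = 1) :
    sn e e' ^ 2 = 1 - inner ℝ e e' ^ 2 := by
  unfold sn
  rw [Real.sq_sqrt]
  have := inner_sq_le he he'
  linarith

theorem sn_le_one {n : ℕ} (e e' : E n) : sn e e' ≤ 1 := by
  unfold sn
  rw [Real.sqrt_le_one]
  nlinarith [sq_nonneg (inner ℝ e e' : ℝ)]

theorem sn_comm {n : ℕ} (e e' : E n) : sn e e' = sn e' e := by
  unfold sn
  rw [real_inner_comm]

/-- Distance of `e'` from the line through `e`. -/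
theorem perp_norm {n : ℕ} {e e' : E n} (he : ‖e‖ = 1) (he' : ‖e'‖ = 1) :
    ‖e' - (inner ℝ e e') • e‖ = sn e e' := by
  have h : ‖e' - (inner ℝ e e') • e‖ ^ 2 = sn e e' ^ 2 := by
    rw [sn_sq he he', norm_sub_sq_real, norm_smul, he, he', mul_one, Real.norm_eq_abs, sq_abs,
      inner_smul_right, real_inner_comm]
    ring
  exact (sq_eq_sq₀ (norm_nonneg _) (sn_nonneg _ _)).1 h

theorem diff_sq {n : ℕ} {e e' : E n} (he : ‖e‖ = 1) (he' : ‖e'‖ = 1) (s t : ℝ) :
    ‖t • e' - s • e‖ ^ 2 = (t - s * inner ℝ e e') ^ 2 + (s * sn e e') ^ 2 := by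
  rw [mul_pow, sn_sq he he', norm_sub_sq_real, norm_smul, norm_smul, he, he', mul_one, mul_one,
    Real.norm_eq_abs, Real.norm_eq_abs, sq_abs, sq_abs, inner_smul_right, inner_smul_left,
    real_inner_comm]
  simp only [conj_trivial]
  ring

/-- Counting `δ`-separated unit vectors near a line. -/
theorem count {n : ℕ} (hn : 1 ≤ n) : ∃ K : ℝ, 1 ≤ K ∧ ∀ (δ : ℝ), 0 < δ → δ < 1 → ∀ {ι : Type} [Fintype ι]
    (e : ι → E n), (∀ i, ‖e i‖ = 1) → (∀ i j, i ≠ j → δ ≤ ‖e i - e j‖) → ∀ (w : E n), ‖w‖ = 1 →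
    ∀ (J : Finset ι) (y : ℝ), δ ≤ y → (∀ j ∈ J, sn w (e j) ≤ y) →
      (J.card : ℝ) ≤ K * (y / δ) ^ (n - 1) := by
  have hv := vb_pos n
  obtain ⟨m, rfl⟩ : ∃ m, n = m + 1 := ⟨n - 1, by omega⟩
  simp only [Nat.add_sub_cancel]
  refine ⟨16 ^ (m + 1) * 4 * 2 ^ m + 1, by nlinarith [show (0:ℝ) ≤ 16 ^ (m + 1) * 4 * 2 ^ m by positivity], ?_⟩
  intro δ hδ hδ1 ι _ e he hsep w hw J y hy hJ
  classical
  -- reduce to y ≤ 1
  obtain ⟨z, hz1, hz2, hz3, hz4⟩ : ∃ z : ℝ, δ ≤ z ∧ z ≤ 1 ∧ z ≤ y ∧ ∀ j ∈ J, sn w (e j) ≤ z := by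
    rcases le_total y 1 with h | h
    · exact ⟨y, hy, h, le_rfl, hJ⟩
    · exact ⟨1, hδ1.le, le_rfl, h, fun j _ => sn_le_one _ _⟩
  set M : ℕ := ⌊2 / δ⌋₊ with hM
  have hM1 : (M : ℝ) ≤ 2 / δ := Nat.floor_le (by positivity)
  have hM2 : 2 / δ < (M : ℝ) + 1 := Nat.lt_floor_add_one _
  set c : ι × ℕ → E (m + 1) := fun p => ((1 / 2 : ℝ) + p.2 * (δ / 4)) • e p.1 with hc
  set I : Finset (ι × ℕ) := J ×ˢ Finset.range (M + 1) with hI
  have ht : ∀ k ∈ Finset.range (M + 1), (1 / 2 : ℝ) ≤ 1 / 2 + k * (δ / 4) ∧ (1 / 2 : ℝ) + k * (δ / 4) ≤ 1 := by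
    intro k hk
    have hk' : k ≤ M := Nat.lt_succ_iff.1 (Finset.mem_range.1 hk)
    have hk2 : (k : ℝ) ≤ 2 / δ := le_trans (by exact_mod_cast hk') hM1
    constructor
    · have : 0 ≤ (k : ℝ) * (δ / 4) := by positivity
      linarith
    · have : (k : ℝ) * (δ / 4) ≤ 2 / δ * (δ / 4) := by gcongr
      have h2 : 2 / δ * (δ / 4) = 1 / 2 := by field_simp; norm_num
      linarith
  have hdist : ∀ p ∈ I, ∀ p' ∈ I, p ≠ p' → δ / 4 ≤ dist (c p) (c p') := by
    rintro ⟨j, k⟩ hp ⟨j', k'⟩ hp' hne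
    simp only [hI, Finset.mem_product] at hp hp'
    rw [dist_eq_norm]
    simp only [hc]
    have hk := ht k hp.2
    have hk' := ht k' hp'.2
    by_cases hjj : j = j'
    · subst hjj
      rw [← sub_smul, norm_smul, he, mul_one, Real.norm_eq_abs]
      have hkk : k ≠ k' := fun h => hne (by rw [h])
      have h1 : (1 : ℝ) ≤ |(k : ℝ) - k'| := by
        have : (1 : ℤ) ≤ |(k : ℤ) - k'| := Int.one_le_abs (sub_ne_zero.2 (by exact_mod_cast hkk))
        exact_mod_cast this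
      have h2 : (1 / 2 + (k : ℝ) * (δ / 4)) - (1 / 2 + (k' : ℝ) * (δ / 4)) = ((k : ℝ) - k') * (δ / 4) := by ring
      rw [h2, abs_mul, abs_of_pos (by positivity : (0:ℝ) < δ / 4)]
      nlinarith
    · have hs := hsep j j' hjj
      set t := (1 / 2 : ℝ) + k * (δ / 4)
      set t' := (1 / 2 : ℝ) + k' * (δ / 4)
      have h1 : ‖t • e j - t' • e j'‖ ^ 2 = (t - t') ^ 2 + t * t' * ‖e j - e j'‖ ^ 2 := by
        rw [norm_sub_sq_real, norm_sub_sq_real, norm_smul, norm_smul, he, he, inner_smul_left, inner_smul_right,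
          Real.norm_eq_abs, Real.norm_eq_abs, mul_one, mul_one, sq_abs, sq_abs]
        simp only [conj_trivial]
        ring
      have h2 : (δ / 2) ^ 2 ≤ ‖t • e j - t' • e j'‖ ^ 2 := by
        rw [h1]
        have h3 : (1 / 4 : ℝ) ≤ t * t' := by nlinarith [hk.1, hk'.1]
        have h4 : δ ^ 2 ≤ ‖e j - e j'‖ ^ 2 := by gcongr
        nlinarith [sq_nonneg (t - t'), sq_nonneg ‖e j - e j'‖]
      have h3 := abs_le_of_sq_le_sq h2 (norm_nonneg _)
      have h4 := (abs_le.1 h3).2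
      linarith
  have hdisj : Set.PairwiseDisjoint (↑I : Set (ι × ℕ)) (fun p => ball (c p) (δ / 8)) := by
    intro p hp p' hp' hne
    apply ball_disjoint_ball
    have := hdist p hp p' hp' hne
    linarith
  have hsub : (⋃ p ∈ I, ball (c p) (δ / 8)) ⊆ Rod 0 w 1 (2 * z) := by
    intro x hx
    obtain ⟨⟨j, k⟩, hp, hx⟩ := mem_iUnion₂.1 hx
    simp only [hI, Finset.mem_product] at hp
    have hk := ht k hp.2
    rw [mem_ball, dist_eq_norm] at hx
    simp only [hc] at hx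
    set t := (1 / 2 : ℝ) + k * (δ / 4)
    have hin : |inner ℝ w (e j)| ≤ 1 := by
      have h := abs_real_inner_le_norm w (e j)
      rwa [hw, he, one_mul] at h
    refine ⟨t * inner ℝ w (e j), ?_, ?_⟩
    · rw [abs_mul, abs_of_pos (by linarith : 0 < t)]
      nlinarith [abs_nonneg (inner ℝ w (e j))]
    · have h1 : x - 0 - (t * inner ℝ w (e j)) • w = (x - t • e j) + t • (e j - (inner ℝ w (e j)) • w) := by
        rw [smul_sub, smul_smul]; abel
      rw [h1]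
      refine (norm_add_le _ _).trans ?_
      rw [norm_smul, perp_norm hw (he j), Real.norm_eq_abs, abs_of_pos (by linarith : 0 < t)]
      have h2 := hz4 j hp.1
      have h3 : t * sn w (e j) ≤ 1 * z := by
        gcongr
        · exact sn_nonneg _ _
        · exact hk.2
      linarith
  have hvol : (I.card : ℝ≥0∞) * ENNReal.ofReal ((δ / 8) ^ (m + 1) * vb (m + 1)) ≤
      ENNReal.ofReal (2 ^ (m + 1) * vb (m + 1) * (2 * 1 + 3 * (2 * z)) * (2 * z) ^ m) := by
    have h1 := vol_rod (n := m + 1) (Nat.succ_pos m) (0 : E (m + 1)) hw (zero_le_one)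
      (by linarith : 0 < 2 * z)
    have hmm : m + 1 - 1 = m := by omega
    rw [hmm] at h1
    refine le_trans ?_ h1
    refine le_trans ?_ (measure_mono hsub)
    rw [measure_biUnion_finset hdisj (fun p _ => measurableSet_ball)]
    rw [Finset.sum_congr rfl (fun p _ => vol_ball (c p) (by positivity : (0:ℝ) < δ / 8)),
      Finset.sum_const, nsmul_eq_mul]
  have hvol' : (I.card : ℝ) * ((δ / 8) ^ (m + 1) * vb (m + 1)) ≤
      2 ^ (m + 1) * vb (m + 1) * (2 * 1 + 3 * (2 * z)) * (2 * z) ^ m := by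
    have hz0 : 0 < z := by linarith
    rw [← ENNReal.ofReal_natCast, ← ENNReal.ofReal_mul (by positivity)] at hvol
    exact (ENNReal.ofReal_le_ofReal_iff (by positivity)).1 hvol
  have hz0 : 0 < z := by linarith
  have hIc : (I.card : ℝ) = J.card * ((M : ℝ) + 1) := by
    rw [hI, Finset.card_product, Finset.card_range]
    push_cast
    ring
  rw [hIc] at hvol'
  have h8 : (2 * 1 + 3 * (2 * z)) ≤ 8 := by linarith
  have hkey : (J.card : ℝ) * (2 / δ) * (δ / 8) ^ (m + 1) ≤ 2 ^ (m + 1) * 8 * (2 * z) ^ m := by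
    have h1 : (J.card : ℝ) * (2 / δ) * (δ / 8) ^ (m + 1) * vb (m + 1) ≤ 2 ^ (m + 1) * 8 * (2 * z) ^ m * vb (m + 1) := by
      calc (J.card : ℝ) * (2 / δ) * (δ / 8) ^ (m + 1) * vb (m + 1)
          ≤ (J.card : ℝ) * ((M : ℝ) + 1) * (δ / 8) ^ (m + 1) * vb (m + 1) := by gcongr
        _ = (J.card : ℝ) * ((M : ℝ) + 1) * ((δ / 8) ^ (m + 1) * vb (m + 1)) := by ring
        _ ≤ _ := hvol'
        _ ≤ 2 ^ (m + 1) * vb (m + 1) * 8 * (2 * z) ^ m := by gcongr
        _ = _ := by ring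
    exact le_of_mul_le_mul_right h1 hv
  have hδm : 0 < δ ^ m := by positivity
  have hfin : (J.card : ℝ) ≤ 16 ^ (m + 1) * 4 * 2 ^ m * (z / δ) ^ m := by
    have e1 : (J.card : ℝ) * (2 / δ) * (δ / 8) ^ (m + 1) = (J.card : ℝ) * δ ^ m * (2 / 8 ^ (m + 1)) := by
      rw [div_pow, pow_succ δ m]
      field_simp
    rw [e1] at hkey
    have h16 : (16 : ℝ) ^ (m + 1) = 2 ^ (m + 1) * 8 ^ (m + 1) := by
      rw [← mul_pow]; norm_num
    rw [div_pow, h16]
    have h3 : (J.card : ℝ) * δ ^ m ≤ 2 ^ (m + 1) * 8 ^ (m + 1) * 4 * 2 ^ m * z ^ m := by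
      rw [mul_pow] at hkey
      have h4 : (J.card : ℝ) * δ ^ m = (J.card : ℝ) * δ ^ m * (2 / 8 ^ (m + 1)) * (8 ^ (m + 1) / 2) := by
        field_simp
      rw [h4]
      calc (J.card : ℝ) * δ ^ m * (2 / 8 ^ (m + 1)) * (8 ^ (m + 1) / 2)
          ≤ 2 ^ (m + 1) * 8 * (2 ^ m * z ^ m) * (8 ^ (m + 1) / 2) := by gcongr
        _ = _ := by ring
    rw [← mul_div_assoc, le_div_iff₀ hδm]
    exact h3
  have hpow : (z / δ) ^ m ≤ (y / δ) ^ m := by gcongr
  have hy0 : 0 ≤ (y / δ) ^ m := by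
    have : 0 < y := by linarith
    positivity
  calc (J.card : ℝ) ≤ 16 ^ (m + 1) * 4 * 2 ^ m * (z / δ) ^ m := hfin
    _ ≤ 16 ^ (m + 1) * 4 * 2 ^ m * (y / δ) ^ m := by gcongr
    _ ≤ _ := by nlinarith

end Pool.Agent.TH705.RR
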