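import Pool.Agent.TH705.RR.Cyl
import Pool.Agent.TH705.RR.Cord
set_option autoImplicit false

/-!
# The mean of the weight
-/

open MeasureTheory Set Metric
open scoped ENNReal NNReal

namespace Pool.Agent.TH705.RR

section ang

variable {n : ℕ} {V : Type*} [MeasurableSpace V]

/-- Frostman condition in terms of the angle. -/
theorem frost_sn {ν : Measure V} [IsFiniteMeasure ν] {e : V → E n} (he : ∀ v, ‖e v‖ = 1) {B β γ : ℝ}
    (hB : 0 ≤ B) (hγ : 0 ≤ γ) (hγβ : γ ≤ β) (hF : Frost ν e B β) {e0 : E n} (he0 : ‖e0‖ = 1) {y : ℝ}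
    (hy : 0 < y) : ν {w | sn e0 (e w) ≤ y} ≤
      ENNReal.ofReal ((2 * B * 2 ^ β + (ν univ).toReal) * y ^ γ) := by
  rcases le_total y 1 with h | h
  · have hsub : {w | sn e0 (e w) ≤ y} ⊆ {w | ‖e w - e0‖ ≤ 2 * y} ∪ {w | ‖e w - (-e0)‖ ≤ 2 * y} := by
      intro x hx
      exact sn_small he0 (he x) hx
    have h1 := hF e0 he0 (2 * y) (by positivity)
    have h2 := hF (-e0) (by rw [norm_neg]; exact he0) (2 * y) (by positivity)
    refine (measure_mono hsub).trans ((measure_union_le _ _).trans ((add_le_add h1 h2).trans ?_))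
    rw [← ENNReal.ofReal_add (by positivity) (by positivity)]
    apply ENNReal.ofReal_le_ofReal
    rw [Real.mul_rpow (by norm_num) hy.le]
    have h3 : y ^ β ≤ y ^ γ := Real.rpow_le_rpow_of_exponent_ge hy h hγβ
    have h4 : 0 ≤ (ν univ).toReal * y ^ γ := by positivity
    have h5 : B * (2 ^ β * y ^ β) + B * (2 ^ β * y ^ β) ≤ 2 * B * 2 ^ β * y ^ γ := by
      calc B * (2 ^ β * y ^ β) + B * (2 ^ β * y ^ β) = 2 * B * 2 ^ β * y ^ β := by ring
        _ ≤ _ := by gcongr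
    linarith
  · refine (measure_mono (subset_univ _)).trans ?_
    rw [← ENNReal.ofReal_toReal (measure_ne_top ν univ)]
    apply ENNReal.ofReal_le_ofReal
    have h1 : 1 ≤ y ^ γ := Real.one_le_rpow h hγ
    have h2 : 0 ≤ 2 * B * 2 ^ β * y ^ γ := by positivity
    have h3 : (ν univ).toReal * 1 ≤ (ν univ).toReal * y ^ γ := by gcongr
    rw [ENNReal.toReal_ofReal ENNReal.toReal_nonneg]
    linarith

/-- The truncated kernel of the angle. -/
noncomputable def phi (ρ γ s : ℝ) : ℝ≥0∞ := if s < ρ then 1 else ENNReal.ofReal ((ρ / s) ^ γ)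

theorem phi_meas {ρ γ : ℝ} {e : V → E n} (hem : Measurable e) (e0 : E n) :
    Measurable (fun w => phi ρ γ (sn e0 (e w))) := by
  unfold phi
  have m1 := sn_meas hem e0
  exact Measurable.ite (measurableSet_lt m1 measurable_const) measurable_const
    (ENNReal.measurable_ofReal.comp ((measurable_const.div m1).pow_const _))

theorem phi_pt {ρ γ s : ℝ} (hρ : 0 < ρ) (hγ : 0 ≤ γ) (hs1 : s ≤ 1) (N : ℕ)
    (hN : (1 / 2 : ℝ) ^ N ≤ ρ) :
    phi ρ γ s ≤ (if s ≤ (1 / 2 : ℝ) ^ N then 1 else 0) +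
      ∑ k ∈ Finset.range N, ENNReal.ofReal ((ρ * 2 ^ (k + 1)) ^ γ) *
        (if s ≤ (1 / 2 : ℝ) ^ k then 1 else 0) := by
  have hphi1 : phi ρ γ s ≤ 1 := by
    unfold phi
    split_ifs with h
    · exact le_rfl
    · push Not at h
      rw [← ENNReal.ofReal_one]
      apply ENNReal.ofReal_le_ofReal
      have hs0 : 0 < s := by linarith
      apply Real.rpow_le_one (by positivity) _ hγ
      rw [div_le_one (by linarith)]
      exact h
  by_cases h : s ≤ (1 / 2 : ℝ) ^ N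
  · rw [if_pos h]
    exact hphi1.trans le_self_add
  · rw [if_neg h, zero_add]
    push Not at h
    have hs0 : 0 < s := lt_of_le_of_lt (by positivity) h
    obtain ⟨k, hk1, hk2⟩ := exists_nat_pow_near (by
      rw [le_div_iff₀ hs0]; linarith : (1 : ℝ) ≤ 1 / s) (by norm_num : (1 : ℝ) < 2)
    have hkN : k < N := by
      have h3 : (2 : ℝ) ^ k < 2 ^ N := by
        calc (2 : ℝ) ^ k ≤ 1 / s := hk1
          _ < 2 ^ N := by
              rw [one_div_pow, div_lt_iff₀ (by positivity)] at h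
              rw [div_lt_iff₀ hs0, mul_comm]
              exact h
      exact (pow_lt_pow_iff_right₀ (by norm_num : (1 : ℝ) < 2)).1 h3
    have hsk : s ≤ (1 / 2 : ℝ) ^ k := by
      rw [one_div_pow, le_div_iff₀ (by positivity), mul_comm]
      rwa [le_div_iff₀ hs0] at hk1
    have hterm := Finset.single_le_sum (s := Finset.range N)
      (f := fun k => ENNReal.ofReal ((ρ * 2 ^ (k + 1)) ^ γ) *
        (if s ≤ (1 / 2 : ℝ) ^ k then (1 : ℝ≥0∞) else 0)) (fun _ _ => zero_le) (Finset.mem_range.2 hkN)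
    refine le_trans ?_ hterm
    simp only [hsk, if_true, mul_one]
    have hsρ : 1 / s < 2 ^ (k + 1) := hk2
    unfold phi
    split_ifs with h2
    · rw [← ENNReal.ofReal_one]
      apply ENNReal.ofReal_le_ofReal
      apply Real.one_le_rpow _ hγ
      have h3 : 1 < ρ / s := by
        rw [lt_div_iff₀ hs0]; linarith
      calc (1 : ℝ) ≤ ρ * (1 / s) := by rw [mul_one_div]; exact h3.le
        _ ≤ ρ * 2 ^ (k + 1) := by gcongr
    · apply ENNReal.ofReal_le_ofReal
      apply Real.rpow_le_rpow (by positivity) _ hγ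
      calc ρ / s = ρ * (1 / s) := by ring
        _ ≤ ρ * 2 ^ (k + 1) := by gcongr

/-- The mean of the truncated kernel. -/
theorem phi_int {ν : Measure V} [IsFiniteMeasure ν] {e : V → E n} (hem : Measurable e)
    (he : ∀ v, ‖e v‖ = 1) {B β γ : ℝ} (hB : 0 ≤ B) (hγ : 0 ≤ γ) (hγβ : γ ≤ β) (hF : Frost ν e B β)
    {e0 : E n} (he0 : ‖e0‖ = 1) {ρ : ℝ} (hρ : 0 < ρ) (N : ℕ) (hN : (1 / 2 : ℝ) ^ N ≤ ρ) :
    ∫⁻ w, phi ρ γ (sn e0 (e w)) ∂ν ≤
      ENNReal.ofReal ((2 * B * 2 ^ β + (ν univ).toReal) * 2 ^ γ * (N + 1) * ρ ^ γ) := by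
  set B2 : ℝ := 2 * B * 2 ^ β + (ν univ).toReal with hB2
  have hB20 : 0 ≤ B2 := by positivity
  have hmk : ∀ y : ℝ, MeasurableSet {w | sn e0 (e w) ≤ y} := fun y =>
    measurableSet_le (sn_meas hem e0) measurable_const
  have hmi : ∀ y : ℝ, Measurable (fun w => (if sn e0 (e w) ≤ y then (1 : ℝ≥0∞) else 0)) := fun y =>
    Measurable.ite (hmk y) measurable_const measurable_const
  have hint : ∀ y : ℝ, ∫⁻ w, (if sn e0 (e w) ≤ y then (1 : ℝ≥0∞) else 0) ∂ν =
      ν {w | sn e0 (e w) ≤ y} := by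
    intro y
    rw [← lintegral_indicator_one (hmk y)]
    rfl
  calc ∫⁻ w, phi ρ γ (sn e0 (e w)) ∂ν
      ≤ ∫⁻ w, ((if sn e0 (e w) ≤ (1 / 2 : ℝ) ^ N then (1 : ℝ≥0∞) else 0) +
        ∑ k ∈ Finset.range N, ENNReal.ofReal ((ρ * 2 ^ (k + 1)) ^ γ) *
          (if sn e0 (e w) ≤ (1 / 2 : ℝ) ^ k then 1 else 0)) ∂ν :=
        lintegral_mono (fun w => phi_pt hρ hγ (sn_le_one _ _) N hN)
    _ = ν {w | sn e0 (e w) ≤ (1 / 2 : ℝ) ^ N} + ∑ k ∈ Finset.range N,
        ENNReal.ofReal ((ρ * 2 ^ (k + 1)) ^ γ) * ν {w | sn e0 (e w) ≤ (1 / 2 : ℝ) ^ k} := by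
        rw [lintegral_add_left (hmi _), hint, lintegral_finsetSum _ (fun k _ => (hmi _).const_mul _)]
        congr 1
        apply Finset.sum_congr rfl
        intro k _
        rw [lintegral_const_mul _ (hmi _), hint]
    _ ≤ ENNReal.ofReal (B2 * ((1 / 2 : ℝ) ^ N) ^ γ) + ∑ k ∈ Finset.range N,
        ENNReal.ofReal ((ρ * 2 ^ (k + 1)) ^ γ) * ENNReal.ofReal (B2 * ((1 / 2 : ℝ) ^ k) ^ γ) := by
        gcongr with k _
        · exact frost_sn he hB hγ hγβ hF he0 (by positivity)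
        · exact frost_sn he hB hγ hγβ hF he0 (by positivity)
    _ ≤ ENNReal.ofReal (B2 * 2 ^ γ * ρ ^ γ) + ∑ _k ∈ Finset.range N,
        ENNReal.ofReal (B2 * 2 ^ γ * ρ ^ γ) := by
        refine add_le_add (ENNReal.ofReal_le_ofReal ?_) (Finset.sum_le_sum (fun k _ => ?_))
        · have h1 : ((1 / 2 : ℝ) ^ N) ^ γ ≤ ρ ^ γ := Real.rpow_le_rpow (by positivity) hN hγ
          have h2 : (1 : ℝ) ≤ 2 ^ γ := Real.one_le_rpow (by norm_num) hγ
          calc B2 * ((1 / 2 : ℝ) ^ N) ^ γ ≤ B2 * ρ ^ γ := by gcongr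
            _ = B2 * 1 * ρ ^ γ := by ring
            _ ≤ _ := by gcongr
        · rw [← ENNReal.ofReal_mul (by positivity)]
          apply ENNReal.ofReal_le_ofReal
          have h1 : (ρ * 2 ^ (k + 1)) ^ γ * (B2 * ((1 / 2 : ℝ) ^ k) ^ γ) =
              B2 * ((ρ * 2 ^ (k + 1)) * (1 / 2 : ℝ) ^ k) ^ γ := by
            rw [Real.mul_rpow (by positivity : (0:ℝ) ≤ ρ * 2 ^ (k + 1)) (by positivity)]
            ring
          have h2 : (ρ * 2 ^ (k + 1)) * (1 / 2 : ℝ) ^ k = 2 * ρ := by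
            rw [one_div_pow, pow_succ]
            field_simp
          rw [h1, h2, Real.mul_rpow (by norm_num) hρ.le, ← mul_assoc]
    _ = _ := by
        rw [Finset.sum_const, Finset.card_range, nsmul_eq_mul, ← ENNReal.ofReal_natCast,
          ← ENNReal.ofReal_mul (by positivity), ← ENNReal.ofReal_add (by positivity) (by positivity)]
        congr 1
        ring

end ang

end Pool.Agent.TH705.RR
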