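import Pool.Agent.TH705.RR.Wt
set_option autoImplicit false

/-!
# The mean of the weight: conclusion
-/

open MeasureTheory Set Metric
open scoped ENNReal NNReal

namespace Pool.Agent.TH705.RR

section

variable {n : ℕ} {V : Type*} [MeasurableSpace V] {Ω : Type*} [MeasurableSpace Ω]

/-- The incidences. -/
def inc (δ r : ℝ) (g : Ω → E n ≃ₗᵢ[ℝ] E n) (a e : V → E n) : Set ((Ω × V) × E n) :=
  {z | z.2 ∈ cyl δ (g z.1.1 (a z.1.2)) (e z.1.2) ∧ r < ‖z.2 - g z.1.1 (a z.1.2)‖ ∧
    ‖z.2 - g z.1.1 (a z.1.2)‖ ≤ 2 * r}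

/-- The incidences for one rotation. -/
def incs (δ r : ℝ) (h : E n ≃ₗᵢ[ℝ] E n) (a e : V → E n) : Set (V × E n) :=
  {q | q.2 ∈ cyl δ (h (a q.1)) (e q.1) ∧ r < ‖q.2 - h (a q.1)‖ ∧ ‖q.2 - h (a q.1)‖ ≤ 2 * r}

theorem inc_meas {g : Ω → E n ≃ₗᵢ[ℝ] E n} (hg : ∀ v, Measurable (fun ω => g ω v)) {a e : V → E n}
    (ha : Measurable a) (he : Measurable e) (δ r : ℝ) : MeasurableSet (inc δ r g a e) := by
  have m0 : Measurable (fun z : (Ω × V) × E n => g z.1.1 (a z.1.2)) := by
    have h1 : Measurable (fun z : (Ω × V) × E n => (a z.1.2, z.1.1)) :=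
      (ha.comp measurable_fst.snd).prodMk measurable_fst.fst
    exact (joint_meas hg).comp h1
  have m1 : Measurable (fun z : (Ω × V) × E n => z.2 - g z.1.1 (a z.1.2)) := measurable_snd.sub m0
  have me : Measurable (fun z : (Ω × V) × E n => e z.1.2) := he.comp measurable_fst.snd
  have m2 : Measurable (fun z : (Ω × V) × E n =>
      (inner ℝ (z.2 - g z.1.1 (a z.1.2)) (e z.1.2) : ℝ)) := m1.inner me
  have m3 : Measurable (fun z : (Ω × V) × E n => ‖(z.2 - g z.1.1 (a z.1.2)) -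
      (inner ℝ (z.2 - g z.1.1 (a z.1.2)) (e z.1.2) : ℝ) • e z.1.2‖) := (m1.sub (m2.smul me)).norm
  exact (measurableSet_le m3 measurable_const).inter
    ((measurableSet_lt measurable_const m1.norm).inter (measurableSet_le m1.norm measurable_const))

theorem incs_meas {h : E n ≃ₗᵢ[ℝ] E n} {a e : V → E n}
    (ha : Measurable a) (he : Measurable e) (δ r : ℝ) : MeasurableSet (incs δ r h a e) := by
  have h1 := inc_meas (Ω := Unit) (g := fun _ => h) (fun v => measurable_const) ha he δ r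
  have h2 : Measurable (fun q : V × E n => ((((), q.1), q.2) : (Unit × V) × E n)) :=
    (measurable_const.prodMk measurable_fst).prodMk measurable_snd
  exact h2 h1

theorem W_meas (ν : Measure V) [IsFiniteMeasure ν] {g : Ω → E n ≃ₗᵢ[ℝ] E n}
    (hg : ∀ v, Measurable (fun ω => g ω v)) {a e : V → E n} (ha : Measurable a) (he : Measurable e)
    (δ r : ℝ) (c : ℝ≥0∞) :
    Measurable (fun z : Ω × V => wgt ν volume (incs δ r (g z.1) a e) c z.2) := by
  have hI := inc_meas hg ha he δ r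
  set N : Ω × E n → ℝ≥0∞ := fun q => ν {w | ((q.1, w), q.2) ∈ inc δ r g a e} with hN
  have hNm : Measurable N := by
    have h1 : Measurable (fun z : (Ω × E n) × V => (((z.1.1, z.2), z.1.2) : (Ω × V) × E n)) :=
      (measurable_fst.fst.prodMk measurable_snd).prodMk measurable_fst.snd
    exact measurable_measure_prodMk_left (h1 hI)
  have h2 : (fun z : Ω × V => wgt ν volume (incs δ r (g z.1) a e) c z.2) =
      fun z : Ω × V => ∫⁻ x, (inc δ r g a e).indicator (fun y => N (y.1.1, y.2) + c) (z, x) := by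
    funext z
    have hs : MeasurableSet {x | (z.2, x) ∈ incs δ r (g z.1) a e} :=
      slice_meas (incs_meas ha he δ r) z.2
    unfold wgt
    rw [← lintegral_indicator hs]
    rfl
  rw [h2]
  have h3 : Measurable (fun y : (Ω × V) × E n => N (y.1.1, y.2) + c) :=
    (hNm.comp (measurable_fst.fst.prodMk measurable_snd)).add_const c
  exact (h3.indicator hI).lintegral_prod_right'

theorem W_mean {ν : Measure V} [IsFiniteMeasure ν] {P : Measure Ω} [IsProbabilityMeasure P]
    (hn : 1 ≤ n) {g : Ω → E n ≃ₗᵢ[ℝ] E n} (hg : ∀ v, Measurable (fun ω => g ω v)) {a e : V → E n}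
    (ha : Measurable a) (hem : Measurable e) (he : ∀ v, ‖e v‖ = 1) {A α γ δ r : ℝ} (hA : 0 ≤ A)
    (hγ : 0 ≤ γ) (hγα : γ ≤ α) (hsp : Spread P g A α) (hδ : 0 < δ) (hr : 0 < r) (c : ℝ≥0∞) (v : V) :
    ∫⁻ ω, wgt ν volume (incs δ r (g ω) a e) c v ∂P ≤
      (∫⁻ w, ENNReal.ofReal (2 ^ n * vb n * (7 + 1296 * A) * (δ ^ (n - 1) * r)) *
        phi (16 * δ / r) γ (sn (e v) (e w)) ∂ν) +
      c * ENNReal.ofReal (2 ^ n * vb n * 7 * (δ ^ (n - 1) * r)) := by
  have hvb := vb_pos n
  have hI := inc_meas hg ha hem δ r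
  have hα : 0 ≤ α := hγ.trans hγα
  -- the volume of one piece
  have hvol : ∀ ω v, volume {x | (v, x) ∈ incs δ r (g ω) a e} ≤
      ENNReal.ofReal (2 ^ n * vb n * 7 * (δ ^ (n - 1) * r)) := by
    intro ω v
    refine (measure_mono ?_).trans (vol_pieceC hn (g ω (a v)) (he v) hδ hr)
    rintro x ⟨h1, _, h3⟩
    exact ⟨h1, h3⟩
  -- formula
  have hform : ∀ ω, wgt ν volume (incs δ r (g ω) a e) c v ≤
      (∫⁻ w, volume ({x | (v, x) ∈ incs δ r (g ω) a e} ∩ {x | (w, x) ∈ incs δ r (g ω) a e}) ∂ν) +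
      c * ENNReal.ofReal (2 ^ n * vb n * 7 * (δ ^ (n - 1) * r)) := by
    intro ω
    have hS := incs_meas (h := g ω) ha hem δ r
    have hSv := slice_meas hS v
    have hJ := mul'_meas ν hS
    unfold wgt
    rw [lintegral_add_left hJ, setLIntegral_const]
    refine add_le_add (le_of_eq ?_) (mul_le_mul' le_rfl (hvol ω v))
    have e1 : ∀ x, mul' ν (incs δ r (g ω) a e) x =
        ∫⁻ w, (incs δ r (g ω) a e).indicator (1 : V × E n → ℝ≥0∞) (w, x) ∂ν := by
      intro x
      have hSx : MeasurableSet {w | (w, x) ∈ incs δ r (g ω) a e} :=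
        (measurable_prodMk_right (y := x) : Measurable (fun v : V => (v, x))) hS
      unfold mul'
      rw [← lintegral_indicator_one hSx]
      rfl
    simp_rw [e1]
    rw [lintegral_lintegral_swap]
    · apply lintegral_congr
      intro w
      have hSw := slice_meas hS w
      have e2 : ∀ x, (incs δ r (g ω) a e).indicator (1 : V × E n → ℝ≥0∞) (w, x) =
          {x | (w, x) ∈ incs δ r (g ω) a e}.indicator 1 x := fun x => rfl
      simp_rw [e2]
      rw [lintegral_indicator_one hSw, Measure.restrict_apply hSw, inter_comm]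
    · have h1 : Measurable (fun q : E n × V => (incs δ r (g ω) a e).indicator
          (1 : V × E n → ℝ≥0∞) (q.2, q.1)) :=
        (measurable_one.indicator hS).comp measurable_swap
      exact h1.aemeasurable
  -- the mean of the volume of the intersection
  have hpair : ∀ w, ∫⁻ ω, volume ({x | (v, x) ∈ incs δ r (g ω) a e} ∩
      {x | (w, x) ∈ incs δ r (g ω) a e}) ∂P ≤
      ENNReal.ofReal (2 ^ n * vb n * (7 + 1296 * A) * (δ ^ (n - 1) * r)) *
        phi (16 * δ / r) γ (sn (e v) (e w)) := by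
    intro w
    unfold phi
    split_ifs with h
    · rw [mul_one]
      calc _ ≤ ∫⁻ _ω, ENNReal.ofReal (2 ^ n * vb n * 7 * (δ ^ (n - 1) * r)) ∂P :=
            lintegral_mono (fun ω => (measure_mono inter_subset_left).trans (hvol ω v))
        _ = ENNReal.ofReal (2 ^ n * vb n * 7 * (δ ^ (n - 1) * r)) := by
            rw [lintegral_const, measure_univ, mul_one]
        _ ≤ _ := by
            apply ENNReal.ofReal_le_ofReal
            have : 0 ≤ 2 ^ n * vb n * (1296 * A) * (δ ^ (n - 1) * r) := by positivity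
            nlinarith
    · push Not at h
      have h16 : 16 * δ ≤ r * sn (e v) (e w) := by
        rw [div_le_iff₀ hr] at h
        linarith
      have hS0 : 0 < sn (e v) (e w) := by
        by_contra hcon
        push Not at hcon
        nlinarith
      refine le_trans (lintegral_mono (fun ω => measure_mono ?_))
        ((pairC hn hg hA hα hsp (he v) (he w) (a v) (a w) hδ hr h16).trans ?_)
      · rintro x ⟨⟨h1, h2, h3⟩, ⟨h4, _, _⟩⟩
        exact ⟨h1, h4, h2, h3⟩
      · rw [← ENNReal.ofReal_mul (by positivity)]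
        apply ENNReal.ofReal_le_ofReal
        set s := sn (e v) (e w) with hs
        have h1 : 16 ^ α * (δ / (r * s)) ^ α = (16 * δ / r / s) ^ α := by
          rw [← Real.mul_rpow (by norm_num) (by positivity)]
          congr 1
          field_simp
        have h2 : (16 * δ / r / s) ^ α ≤ (16 * δ / r / s) ^ γ := by
          apply Real.rpow_le_rpow_of_exponent_ge (by positivity) _ hγα
          rw [div_le_one hS0]
          exact h
        calc 1296 * 2 ^ n * vb n * A * 16 ^ α * (δ ^ (n - 1) * r) * (δ / (r * s)) ^ α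
            = 1296 * 2 ^ n * vb n * A * (δ ^ (n - 1) * r) * (16 ^ α * (δ / (r * s)) ^ α) := by ring
          _ ≤ 1296 * 2 ^ n * vb n * A * (δ ^ (n - 1) * r) * (16 * δ / r / s) ^ γ := by
              rw [h1]; gcongr
          _ ≤ 2 ^ n * vb n * (7 + 1296 * A) * (δ ^ (n - 1) * r) * (16 * δ / r / s) ^ γ := by
              have h6 : 1296 * 2 ^ n * vb n * A ≤ 2 ^ n * vb n * (7 + 1296 * A) := by
                have h7 : 0 ≤ 2 ^ n * vb n * 7 := by positivity
                have h8 : 2 ^ n * vb n * (7 + 1296 * A) =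
                    2 ^ n * vb n * 7 + 1296 * 2 ^ n * vb n * A := by ring
                rw [h8]
                linarith
              exact mul_le_mul_of_nonneg_right (mul_le_mul_of_nonneg_right h6 (by positivity))
                (by positivity)
  -- measurability
  have hvm : Measurable (fun z : Ω × V => volume ({x | (v, x) ∈ incs δ r (g z.1) a e} ∩
      {x | (z.2, x) ∈ incs δ r (g z.1) a e})) := by
    have h1 : Measurable (fun q : (Ω × V) × E n => (((q.1.1, v), q.2) : (Ω × V) × E n)) :=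
      (measurable_fst.fst.prodMk measurable_const).prodMk measurable_snd
    have h2 : MeasurableSet ({q : (Ω × V) × E n | ((q.1.1, v), q.2) ∈ inc δ r g a e} ∩
        inc δ r g a e) := (h1 hI).inter hI
    exact measurable_measure_prodMk_left h2
  calc ∫⁻ ω, wgt ν volume (incs δ r (g ω) a e) c v ∂P
      ≤ ∫⁻ ω, ((∫⁻ w, volume ({x | (v, x) ∈ incs δ r (g ω) a e} ∩
          {x | (w, x) ∈ incs δ r (g ω) a e}) ∂ν) +
        c * ENNReal.ofReal (2 ^ n * vb n * 7 * (δ ^ (n - 1) * r))) ∂P := lintegral_mono hform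
    _ = (∫⁻ ω, ∫⁻ w, volume ({x | (v, x) ∈ incs δ r (g ω) a e} ∩
          {x | (w, x) ∈ incs δ r (g ω) a e}) ∂ν ∂P) +
        c * ENNReal.ofReal (2 ^ n * vb n * 7 * (δ ^ (n - 1) * r)) := by
        rw [lintegral_add_right _ measurable_const, lintegral_const, measure_univ, mul_one]
    _ = (∫⁻ w, ∫⁻ ω, volume ({x | (v, x) ∈ incs δ r (g ω) a e} ∩
          {x | (w, x) ∈ incs δ r (g ω) a e}) ∂P ∂ν) +
        c * ENNReal.ofReal (2 ^ n * vb n * 7 * (δ ^ (n - 1) * r)) := by
        congr 1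
        exact lintegral_lintegral_swap (f := fun ω w => volume ({x | (v, x) ∈ incs δ r (g ω) a e} ∩
          {x | (w, x) ∈ incs δ r (g ω) a e})) hvm.aemeasurable
    _ ≤ _ := by
        gcongr with w
        exact hpair w

/-- The mean of the weight of the piece number `k`. -/
theorem W_mean_k {ν : Measure V} [IsFiniteMeasure ν] {P : Measure Ω} [IsProbabilityMeasure P]
    (hn : 1 ≤ n) {g : Ω → E n ≃ₗᵢ[ℝ] E n} (hg : ∀ v, Measurable (fun ω => g ω v)) {a e : V → E n}
    (ha : Measurable a) (hem : Measurable e) (he : ∀ v, ‖e v‖ = 1) {A α B β γ δ : ℝ} (hA : 0 ≤ A)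
    (hB : 0 ≤ B) (hγ : 0 ≤ γ) (hγα : γ ≤ α) (hγβ : γ ≤ β) (hsp : Spread P g A α)
    (hF : Frost ν e B β) (hδ : 0 < δ) (k : ℕ) (v : V) :
    ∫⁻ ω, wgt ν volume (incs δ (2 ^ k * δ) (g ω) a e) (ENNReal.ofReal (((2 : ℝ) ^ k) ^ (-γ))) v ∂P ≤
      ENNReal.ofReal ((2 ^ n * vb n * (7 + 1296 * A) * ((2 * B * 2 ^ β + (ν univ).toReal) * 2 ^ γ *
        16 ^ γ) + 2 ^ n * vb n * 7) * ((k + 1) * (((2 : ℝ) ^ k) ^ (-γ)) * (δ ^ (n - 1) * (2 ^ k * δ)))) := by
  have hvb := vb_pos n
  set r : ℝ := 2 ^ k * δ with hr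
  have hr0 : 0 < r := by positivity
  set C1 : ℝ := 2 ^ n * vb n * (7 + 1296 * A) with hC1
  set B2 : ℝ := 2 * B * 2 ^ β + (ν univ).toReal with hB2
  have hB20 : 0 ≤ B2 := by positivity
  have hC10 : 0 < C1 := by positivity
  set κ : ℝ := ((2 : ℝ) ^ k) ^ (-γ) with hκ
  have hκ0 : 0 < κ := by positivity
  have h1 := W_mean (ν := ν) hn hg ha hem he hA hγ hγα hsp hδ hr0 (ENNReal.ofReal κ) v
  have hρ : 16 * δ / r = 16 / 2 ^ k := by
    rw [hr]; field_simp
  have hρ1 : (1 / 2 : ℝ) ^ k ≤ 16 * δ / r := by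
    rw [hρ, one_div_pow]
    gcongr
    norm_num
  have h2 := phi_int (ν := ν) hem he hB hγ hγβ hF (he v) (ρ := 16 * δ / r) (by positivity) k hρ1
  have h3 : (16 * δ / r) ^ γ = 16 ^ γ * κ := by
    rw [hρ, Real.div_rpow (by norm_num) (by positivity), hκ, Real.rpow_neg (by positivity)]
    rfl
  rw [h3] at h2
  refine h1.trans ?_
  rw [lintegral_const_mul _ (phi_meas hem (e v))]
  calc ENNReal.ofReal (C1 * (δ ^ (n - 1) * r)) * ∫⁻ w, phi (16 * δ / r) γ (sn (e v) (e w)) ∂ν +
        ENNReal.ofReal κ * ENNReal.ofReal (2 ^ n * vb n * 7 * (δ ^ (n - 1) * r))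
      ≤ ENNReal.ofReal (C1 * (δ ^ (n - 1) * r)) *
          ENNReal.ofReal (B2 * 2 ^ γ * (k + 1) * (16 ^ γ * κ)) +
        ENNReal.ofReal κ * ENNReal.ofReal (2 ^ n * vb n * 7 * (δ ^ (n - 1) * r)) := by gcongr
    _ = ENNReal.ofReal (C1 * (δ ^ (n - 1) * r) * (B2 * 2 ^ γ * (k + 1) * (16 ^ γ * κ)) +
          κ * (2 ^ n * vb n * 7 * (δ ^ (n - 1) * r))) := by
        rw [← ENNReal.ofReal_mul (by positivity), ← ENNReal.ofReal_mul (by positivity),
          ← ENNReal.ofReal_add (by positivity) (by positivity)]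
    _ ≤ _ := by
        apply ENNReal.ofReal_le_ofReal
        have hk : (1 : ℝ) ≤ (k : ℝ) + 1 := by
          have : (0 : ℝ) ≤ k := Nat.cast_nonneg k
          linarith
        have h5 : κ * (2 ^ n * vb n * 7 * (δ ^ (n - 1) * r)) ≤
            2 ^ n * vb n * 7 * ((k + 1) * κ * (δ ^ (n - 1) * r)) := by
          calc κ * (2 ^ n * vb n * 7 * (δ ^ (n - 1) * r)) =
              2 ^ n * vb n * 7 * (1 * κ * (δ ^ (n - 1) * r)) := by ring
            _ ≤ _ := by gcongr
        calc C1 * (δ ^ (n - 1) * r) * (B2 * 2 ^ γ * (k + 1) * (16 ^ γ * κ)) +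
              κ * (2 ^ n * vb n * 7 * (δ ^ (n - 1) * r))
            ≤ C1 * (δ ^ (n - 1) * r) * (B2 * 2 ^ γ * (k + 1) * (16 ^ γ * κ)) +
              2 ^ n * vb n * 7 * ((k + 1) * κ * (δ ^ (n - 1) * r)) := by gcongr
          _ = _ := by ring

end

end Pool.Agent.TH705.RR
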